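import Pool.Agent.H919.FP.Fin

/-! Assembly lemmas. -/

open CategoryTheory Limits AlgebraicGeometry

namespace Pool.Agent.H919.FP

theorem mem_OO (z : PrimeSpectrum B) : (z ∈ (OO : Set TT)) ↔
    pB 0 ∉ z.asIdeal ∨ pB 1 ∉ z.asIdeal := by
  rfl

theorem specmap_mem_OO {A : Type} [CommRing A] (φ : B →+* A) (z : PrimeSpectrum A) :
    (Spec.map (CommRingCat.ofHom φ)) z ∈ OO ↔ φ (pB 0) ∉ z.asIdeal ∨ φ (pB 1) ∉ z.asIdeal := by
  rfl

/-- a prime not in `OO` contains all coordinates -/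
theorem pt_mem {A : Type} [CommRing A] (hB : S_B1) (φ : B →+* A) (z : PrimeSpectrum A)
    (h : ¬ ((Spec.map (CommRingCat.ofHom φ)) z ∈ OO)) : ∀ i, pt φ i ∈ z.asIdeal := by
  rw [specmap_mem_OO, not_or, not_not, not_not] at h
  intro i
  fin_cases i
  · exact h.1
  · exact h.2
  · have h4 : pt φ 2 ^ 4 ∈ z.asIdeal := by
      have e : hh (pt φ) = 0 := by
        have := congrArg φ hB.1
        rwa [map_hh, map_zero] at this
      have e' : pt φ 2 ^ 4 = - (pt φ 0 * (pt φ 0 ^ 2 * pt φ 2 + pt φ 1 ^ 3)) := by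
        simp only [hh] at e
        linear_combination e
      rw [e']
      exact z.asIdeal.neg_mem (Ideal.mul_mem_right _ _ h.1)
    exact z.isPrime.mem_of_pow_mem _ h4

theorem mI_le {A : Type} [CommRing A] (hB : S_B1) (φ : B →+* A) (z : PrimeSpectrum A)
    (h : ¬ ((Spec.map (CommRingCat.ofHom φ)) z ∈ OO)) : mI (pt φ) ≤ z.asIdeal := by
  rw [mI, Ideal.span_le]
  rintro _ ⟨i, rfl⟩
  exact pt_mem hB φ z h i

theorem not_mem_of_mI_le {A : Type} [CommRing A] (φ : B →+* A) (z : PrimeSpectrum A)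
    (h : mI (pt φ) ≤ z.asIdeal) : ¬ ((Spec.map (CommRingCat.ofHom φ)) z ∈ OO) := by
  rw [specmap_mem_OO, not_or, not_not, not_not]
  exact ⟨h (Ideal.subset_span ⟨0, rfl⟩), h (Ideal.subset_span ⟨1, rfl⟩)⟩

theorem Q1_mem {C : Type*} [CommRing C] (p q : Fin 3 → C) : Q1 p q ∈ mI q := by
  have hpm : ∀ i, q i ∈ mI q := fun i => Ideal.subset_span ⟨i, rfl⟩
  have z0 : Ideal.Quotient.mk (mI q) (q 0) = 0 := Ideal.Quotient.eq_zero_iff_mem.mpr (hpm 0)
  have z1 : Ideal.Quotient.mk (mI q) (q 1) = 0 := Ideal.Quotient.eq_zero_iff_mem.mpr (hpm 1)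
  have z2 : Ideal.Quotient.mk (mI q) (q 2) = 0 := Ideal.Quotient.eq_zero_iff_mem.mpr (hpm 2)
  apply Ideal.Quotient.eq_zero_iff_mem.mp
  rw [Q1, map_mul]
  have : (Ideal.Quotient.mk (mI q)) (P11 p q) = 0 := by simp [P11, gg, z0, z1, z2]
  rw [this, zero_mul]

theorem Q3_mem {C : Type*} [CommRing C] (p q : Fin 3 → C) : Q3 p q ∈ mI q := by
  have hpm : ∀ i, q i ∈ mI q := fun i => Ideal.subset_span ⟨i, rfl⟩
  have z0 : Ideal.Quotient.mk (mI q) (q 0) = 0 := Ideal.Quotient.eq_zero_iff_mem.mpr (hpm 0)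
  have z1 : Ideal.Quotient.mk (mI q) (q 1) = 0 := Ideal.Quotient.eq_zero_iff_mem.mpr (hpm 1)
  have z2 : Ideal.Quotient.mk (mI q) (q 2) = 0 := Ideal.Quotient.eq_zero_iff_mem.mpr (hpm 2)
  apply Ideal.Quotient.eq_zero_iff_mem.mp
  rw [Q3, map_mul]
  have : (Ideal.Quotient.mk (mI q)) (P33 p q) = 0 := by simp [P33, n1, n2, n3, z0, z1, z2]
  rw [this, zero_mul]

/-- on the chart, source in `O` iff target in `O` -/
theorem chart_iff (hB : S_B1) {A : Type} [CommRing A] (D : ChartData A) (b : B →+* A)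
    (hb : ∀ i, b (pB i) = D.q i) (z : PrimeSpectrum A) :
    (Spec.map (CommRingCat.ofHom D.a)) z ∈ OO ↔ (Spec.map (CommRingCat.ofHom b)) z ∈ OO := by
  have hpt : pt b = D.q := by funext i; exact hb i
  constructor
  · intro h
    by_contra hn
    have h1 := mI_le hB b z hn
    rw [hpt] at h1
    obtain ⟨N, hN⟩ := D.cover
    have h2 : mI (pt D.a) ^ N ≤ z.asIdeal := by
      refine hN.trans ?_
      rw [Ideal.span_le]
      rintro x (rfl | rfl)
      · exact h1 (Q1_mem _ _)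
      · exact h1 (Q3_mem _ _)
    have h3 : mI (pt D.a) ≤ z.asIdeal := by
      intro x hx
      exact z.isPrime.mem_of_pow_mem N (h2 (Ideal.pow_mem_pow hx N))
    exact not_mem_of_mI_le _ _ h3 h
  · intro h
    by_contra hn
    have h1 := mI_le hB D.a z hn
    refine not_mem_of_mI_le b z ?_ h
    rw [hpt, mI, Ideal.span_le]
    rintro _ ⟨i, rfl⟩
    exact h1 (D.hqm i)

/-- the composition of a ring map with `wmap` -/
theorem spec_wmap {A C : Type} [CommRing A] [CommRing C] (a b : B →+* A) (ψ : A →+* C) :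
    Spec.map (CommRingCat.ofHom ψ) ≫ wmap a b = wmap (ψ.comp a) (ψ.comp b) := by
  apply pullback.hom_ext
  · rw [Category.assoc, wmap, wmap, pullback.lift_fst, pullback.lift_fst, ← Spec.map_comp,
      ← CommRingCat.ofHom_comp]
  · rw [Category.assoc, wmap, wmap, pullback.lift_snd, pullback.lift_snd, ← Spec.map_comp,
      ← CommRingCat.ofHom_comp]

theorem wmap_mem_UU {A : Type} [CommRing A] (a b : B →+* A) (z : Spec (CommRingCat.of A)) :
    wmap a b z ∈ UU ↔ (Spec.map (CommRingCat.ofHom a)) z ∈ OO ∧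
      (Spec.map (CommRingCat.ofHom b)) z ∈ OO := by
  have h1 : (pullback.fst str str) (wmap a b z) = (Spec.map (CommRingCat.ofHom a)) z := by
    rw [← Scheme.Hom.comp_apply, wmap, pullback.lift_fst]
  have h2 : (pullback.snd str str) (wmap a b z) = (Spec.map (CommRingCat.ofHom b)) z := by
    rw [← Scheme.Hom.comp_apply, wmap, pullback.lift_snd]
  rw [← h1, ← h2]
  rfl

/-- Existence of lifts, general form. -/
theorem exists_lift (hL2 : S_L2) (hEX : S_EX) (hB : S_B1)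
    {A : Type} [CommRing A] (D : ChartData A) (b : B →+* A) (hb : ∀ i, b (pB i) = D.q i)
    {R V : Scheme.{0}} (ρ : R ⟶ pullback str str) [IsIso (ρ ∣_ UU)]
    (jW : Spec (CommRingCat.of A) ⟶ R) (hjW : jW ≫ ρ = wmap D.a b)
    {C : Type} [CommRing C] (φ χ χ' : B →+* C) (hφ : φ.Flat) (υ υ' : C) (hυ : IsUnit υ)
    (hυ' : IsUnit υ') (h1 : ∀ i, χ (pB i) + υ * φ (pB i) ∈ mI (pt φ) ^ 2)
    (h2 : ∀ i, χ' (pB i) + υ' * φ (pB i) ∈ mI (pt φ) ^ 2)
    (hloc : ∀ z : PrimeSpectrum C, (Spec.map (CommRingCat.ofHom φ)) z ∈ OO →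
      (Spec.map (CommRingCat.ofHom χ)) z ∈ OO ∧ (Spec.map (CommRingCat.ofHom χ')) z ∈ OO)
    (φV : V ⟶ pullback str str) (k : Spec (CommRingCat.of C) ⟶ V) [IsOpenImmersion k]
    (hk : k ≫ φV = wmap χ χ') (hcov : ∀ v : V, φV v ∈ UU ∨ ∃ x : Spec (CommRingCat.of C), k x = v) :
    ∃ F : V ⟶ R, F ≫ ρ = φV := by
  obtain ⟨f, hf, hfu⟩ := hEX A D b hb C φ χ χ' hφ υ υ' hυ hυ' h1 h2
  obtain ⟨ψ, hψ1, hψ2⟩ := hfu (Localization.Away f) (algebraMap C (Localization.Away f))
    (IsLocalization.Away.algebraMap_isUnit f)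
  let j0 : Spec (CommRingCat.of (Localization.Away f)) ⟶ Spec (CommRingCat.of C) :=
    Spec.map (CommRingCat.ofHom (algebraMap C (Localization.Away f)))
  have hj0 : IsOpenImmersion j0 := inferInstance
  refine hL2 ρ UU φV (j0 ≫ k) ?_ (Spec.map (CommRingCat.ofHom ψ) ≫ jW) ?_
  · intro v
    rcases hcov v with h | ⟨x, rfl⟩
    · exact Or.inl h
    · by_cases hx : f ∈ x.asIdeal
      · left
        have hn : (Spec.map (CommRingCat.ofHom φ)) x ∈ OO := by
          by_contra hn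
          have h3 := mI_le hB φ x hn
          have h4 : (1 : C) ∈ x.asIdeal := by
            have : (1 : C) = f - (f - 1) := by ring
            rw [this]
            exact x.asIdeal.sub_mem hx (h3 hf)
          exact x.isPrime.ne_top ((Ideal.eq_top_iff_one _).mpr h4)
        obtain ⟨h5, h6⟩ := hloc x hn
        rw [← Scheme.Hom.comp_apply, hk]
        exact (wmap_mem_UU χ χ' x).mpr ⟨h5, h6⟩
      · right
        have : x ∈ Set.range j0 := by
          have hr := PrimeSpectrum.localization_away_comap_range (Localization.Away f) f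
          have : x ∈ (PrimeSpectrum.basicOpen f : Set (PrimeSpectrum C)) := hx
          rw [← hr] at this
          exact this
        obtain ⟨y, hy⟩ := this
        exact ⟨y, by rw [Scheme.Hom.comp_apply, hy]⟩
  · rw [Category.assoc, hjW, spec_wmap, Category.assoc, hk, spec_wmap, hψ1, hψ2]

end Pool.Agent.H919.FP
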