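import Pool.Agent.H919.FP.Chart

/-! The chart ring `A` near the special fibre, with everything needed later. -/

namespace Pool.Agent.H919.FP

/-- the coordinates of a `B`-point -/
noncomputable abbrev pt {C : Type*} [CommRing C] (φ : B →+* C) : Fin 3 → C := fun i => φ (pB i)

structure ChartData (A : Type) [CommRing A] where
  a : B →+* A
  q : Fin 3 → A
  t : A
  u : A
  w : A
  two : (2 : A) = 0
  hq : hh q = 0
  rel : Rel (pt a) q t u w
  hqm : ∀ i, q i ∈ mI (pt a)
  hcong : ∀ i, q i + u * pt a i ∈ mI (pt a) ^ 2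
  smooth : a.Smooth
  cover : ∃ D : ℕ, mI (pt a) ^ D ≤ Ideal.span {Q1 (pt a) q, Q3 (pt a) q}
  univ : ∀ (C : Type) [CommRing C] (φ : B →+* C) (q' : Fin 3 → C) (t' u' w' : C),
    Rel (pt φ) q' t' u' w' → ∃ f : C, f - 1 ∈ mI (pt φ) ∧
      ∀ (C' : Type) [CommRing C'] (g : C →+* C'),
        (IsUnit (g f) ↔ ∃ ψ : A →+* C', ψ.comp a = g.comp φ ∧ (∀ i, ψ (q i) = g (q' i)) ∧
          ψ t = g t' ∧ ψ u = g u' ∧ ψ w = g w')
  ext : ∀ (C' : Type) [CommRing C'] (f g : A →+* C'), f.comp a = g.comp a →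
    (∀ i, f (q i) = g (q i)) → f t = g t → f u = g u → f w = g w → f = g

theorem mI_map {C D : Type*} [CommRing C] [CommRing D] (f : C →+* D) (p : Fin 3 → C) :
    (mI p).map f = mI (fun i => f (p i)) := by
  rw [mI, mI, Ideal.map_span, ← Set.range_comp]
  rfl

theorem chartData_of (hB1 : S_B1) (hB2 : S_B2) {δr δN j δ : AE} (hδ : δ = δr * δN * j)
    (hδ1 : δ - 1 ∈ mI pA)
    (hr11 : δr * r11 pA qA (vA 1) (vA 0 ^ 2 * vA 2) = 0)
    (hr12 : δr * r12 pA qA (vA 1) (vA 0 ^ 2 * vA 2) = 0)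
    (hr13 : δr * r13 pA qA (vA 1) (vA 0 ^ 2 * vA 2) = 0)
    (hr22 : δr * r22 pA qA (vA 1) (vA 0 ^ 2 * vA 2) = 0)
    (hr23 : δr * r23 pA qA (vA 1) (vA 0 ^ 2 * vA 2) = 0)
    (hr33 : δr * r33 pA qA (vA 1) (vA 0 ^ 2 * vA 2) = 0)
    (D : ℕ) (hN2 : ∀ c ∈ mI pA ^ D, δN * c ∈ Ideal.span {Q1 pA qA, Q3 pA qA})
    (hj2 : ∀ (δ : AE) (A : Type) [CommRing A] [Algebra AE A] [IsLocalization.Away δ A]
      [Algebra B A] [IsScalarTower B AE A], j ∣ δ → Algebra.Smooth B A)
    (hqm : ∀ i, qA i ∈ mI pA) (hcong : ∀ i, qA i + vA 1 * pA i ∈ mI pA ^ 2)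
    (A : Type) [CommRing A] [Algebra AE A] [IsLocalization.Away δ A] :
    Nonempty (ChartData A) := by
  let ι : AE →+* A := algebraMap AE A
  have hιδ : IsUnit (ι δ) := IsLocalization.Away.algebraMap_isUnit δ
  have hιδ' : IsUnit (ι δr * ι δN * ι j) := by
    have e : ι δr * ι δN * ι j = ι δ := by rw [hδ, map_mul, map_mul]
    rw [e]; exact hιδ
  have hιr : IsUnit (ι δr) := (IsUnit.mul_iff.mp (IsUnit.mul_iff.mp hιδ').1).1
  have hιN : IsUnit (ι δN) := (IsUnit.mul_iff.mp (IsUnit.mul_iff.mp hιδ').1).2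
  have kill : ∀ {r : AE}, δr * r = 0 → ι r = 0 := by
    intro r hr
    have := congrArg ι hr
    rw [map_mul, map_zero] at this
    exact hιr.mul_right_eq_zero.mp this
  let a : B →+* A := ι.comp (algebraMap B AE)
  have hpt : ∀ i, ι (pA i) = pt a i := fun i => rfl
  have hptm : (fun i => ι (pA i)) = pt a := rfl
  have two : (2 : A) = 0 := by
    have := congrArg ι (AE_two hB1)
    rwa [map_ofNat, map_zero] at this
  have e1 : E1 (pt a) (fun i => ι (qA i)) (ι (vA 0)) (ι (vA 1)) (ι (vA 0) ^ 2 * ι (vA 2)) = 0 := by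
    have := congrArg ι AE_e1
    rwa [map_E1, map_zero, map_mul, map_pow] at this
  have e2 : E2 (pt a) (fun i => ι (qA i)) (ι (vA 0)) (ι (vA 1)) (ι (vA 0) ^ 2 * ι (vA 2)) = 0 := by
    have := congrArg ι AE_e2
    rwa [map_E2, map_zero, map_mul, map_pow] at this
  have e3 : E3 (pt a) (fun i => ι (qA i)) (ι (vA 0)) (ι (vA 1)) (ι (vA 0) ^ 2 * ι (vA 2)) = 0 := by
    have := congrArg ι AE_e3
    rwa [map_E3, map_zero, map_mul, map_pow] at this
  have rel : Rel (pt a) (fun i => ι (qA i)) (ι (vA 0)) (ι (vA 1)) (ι (vA 2)) := by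
    refine ⟨?_, e1, e2, e3, ?_, ?_, ?_, ?_, ?_, ?_⟩
    · rw [← map_mul, AE_uw, map_one]
    · have := kill hr11; rwa [map_r11, map_mul, map_pow] at this
    · have := kill hr12; rwa [map_r12, map_mul, map_pow] at this
    · have := kill hr13; rwa [map_r13, map_mul, map_pow] at this
    · have := kill hr22; rwa [map_r22, map_mul, map_pow] at this
    · have := kill hr23; rwa [map_r23, map_mul, map_pow] at this
    · have := kill hr33; rwa [map_r33, map_mul, map_pow] at this
  have smooth : a.Smooth := by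
    let _ : Algebra B A := a.toAlgebra
    have : IsScalarTower B AE A := by
      constructor
      intro b x y
      have h1 : (b • x : AE) = algebraMap B AE b * x := Algebra.smul_def b x
      rw [h1, Algebra.smul_def, Algebra.smul_def, Algebra.smul_def, map_mul, mul_assoc]
      rfl
    exact hj2 δ A (by rw [hδ]; exact Dvd.intro_left _ rfl)
  have hp : hh (pt a) = 0 := by
    have := congrArg ι (AE_hp hB1)
    rwa [map_hh, map_zero] at this
  have hq : hh (fun i => ι (qA i)) = 0 := by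
    have key : pt a 0 ^ 4 * hh (fun i => ι (qA i)) = 0 := by
      rw [← id_hq _ _ two hp, nv3 _ _ _ _ _ two e1 e2, nv2 _ _ _ _ _ two e1 e3]
      have h1 := rel.r23
      have h2 := rel.r33
      simp only [r23, r33] at h1 h2
      linear_combination (ι (vA 0) * v3 (pt a) (fun i => ι (qA i)) (ι (vA 0) ^ 2 * ι (vA 2))) * h1
        + (ι (vA 0) * v2 (pt a) (fun i => ι (qA i)) (ι (vA 0) ^ 2 * ι (vA 2))) * h2
        - (ι (vA 1) * ι (vA 0) * v2 (pt a) (fun i => ι (qA i)) (ι (vA 0) ^ 2 * ι (vA 2))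
          * v3 (pt a) (fun i => ι (qA i)) (ι (vA 0) ^ 2 * ι (vA 2)) ^ 2) * two
    let _ : Algebra B A := a.toAlgebra
    have : Algebra.Smooth B A := smooth
    have : Module.Flat B A := inferInstance
    have hx := (hB2 A).1
    have hx' : ∀ c : A, pt a 0 * c = 0 → c = 0 := hx
    have : pt a 0 * (pt a 0 * (pt a 0 * (pt a 0 * hh (fun i => ι (qA i))))) = 0 := by
      rw [← key]; ring
    exact hx' _ (hx' _ (hx' _ (hx' _ this)))
  refine ⟨{ a := a, q := fun i => ι (qA i), t := ι (vA 0), u := ι (vA 1), w := ι (vA 2), two := two,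
            hq := hq, rel := rel, hqm := ?_, hcong := ?_, smooth := smooth, cover := ?_,
            univ := ?_, ext := ?_ }⟩
  · intro i
    rw [← hptm, ← mI_map]
    exact Ideal.mem_map_of_mem _ (hqm i)
  · intro i
    have := Ideal.mem_map_of_mem ι (hcong i)
    rw [map_add, map_mul, Ideal.map_pow, mI_map] at this
    exact this
  · refine ⟨D, ?_⟩
    have h1 : mI (pt a) ^ D = (mI pA ^ D).map ι := by rw [Ideal.map_pow, mI_map]; rfl
    rw [h1, Ideal.map_le_iff_le_comap]
    intro c hc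
    have h2 := Ideal.mem_map_of_mem ι (hN2 c hc)
    rw [Ideal.map_span, Set.image_pair, map_Q1, map_Q3, map_mul] at h2
    rw [Ideal.mem_comap]
    exact (Ideal.unit_mul_mem_iff_mem _ hιN).mp h2
  · intro C _ φ q' t' u' w' hrel
    obtain ⟨ψE, hψ0, hψq, hψt, hψu, hψw⟩ := AE_lift φ q' t' u' w' hrel.uw hrel.e1 hrel.e2 hrel.e3
    refine ⟨ψE δ, ?_, ?_⟩
    · have h1 : ψE δ - 1 = ψE (δ - 1) := by rw [map_sub, map_one]
      rw [h1]
      have h2 := Ideal.mem_map_of_mem ψE hδ1
      rw [mI_map] at h2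
      have h3 : (fun i => ψE (pA i)) = pt φ := by funext i; exact hψ0 _
      rwa [h3] at h2
    · intro C' _ g
      constructor
      · intro hgu
        have hgu' : IsUnit ((g.comp ψE) δ) := hgu
        refine ⟨IsLocalization.Away.lift δ hgu', ?_, ?_, ?_, ?_, ?_⟩
        · refine RingHom.ext fun b => ?_
          change IsLocalization.Away.lift δ hgu' (ι (algebraMap B AE b)) = _
          rw [IsLocalization.Away.lift_eq]
          simp [hψ0]
        · intro i
          change IsLocalization.Away.lift δ hgu' (ι _) = _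
          rw [IsLocalization.Away.lift_eq]
          simp [hψq]
        · change IsLocalization.Away.lift δ hgu' (ι _) = _
          rw [IsLocalization.Away.lift_eq]
          simp [hψt]
        · change IsLocalization.Away.lift δ hgu' (ι _) = _
          rw [IsLocalization.Away.lift_eq]
          simp [hψu]
        · change IsLocalization.Away.lift δ hgu' (ι _) = _
          rw [IsLocalization.Away.lift_eq]
          simp [hψw]
      · rintro ⟨ψ, h0, h1, h2, h3, h4⟩
        have : ψ.comp ι = g.comp ψE := by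
          apply AE_ext
          · intro b
            have := congrArg (fun f => f b) h0
            simpa [hψ0, a] using this
          · intro i; simpa [hψq] using h1 i
          · simpa [hψt] using h2
          · simpa [hψu] using h3
          · simpa [hψw] using h4
        have h5 : g (ψE δ) = ψ (ι δ) := by
          have := congrArg (fun f => f δ) this
          simpa using this.symm
        rw [h5]
        exact hιδ.map ψ
  · intro C' _ f g h0 h1 h2 h3 h4
    apply IsLocalization.ringHom_ext (Submonoid.powers δ)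
    apply AE_ext
    · intro b
      have := congrArg (fun f => f b) h0
      simpa [a] using this
    · exact h1
    · exact h2
    · exact h3
    · exact h4

theorem exists_chartData (hB1 : S_B1) (hB2 : S_B2) (hN : S_N) (hSm : S_Sm) :
    ∃ (A : Type) (_ : CommRing A), Nonempty (ChartData A) := by
  obtain ⟨δr, hr1, hr11, hr12, hr13, hr22, hr23, hr33⟩ := exists_r hB1
  obtain ⟨hqm, hcong⟩ := q_mem_gen pA qA (vA 0) (vA 1) _ (AE_two hB1) AE_e1 AE_e2 AE_e3
  have hu : IsUnit (vA 1) := IsUnit.of_mul_eq_one _ AE_uw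
  obtain ⟨D, δN, hN1, hN2⟩ := hN AE pA pA qA 1 (vA 1) (AE_two hB1) (AE_hp hB1) isUnit_one hu
    (fun i => by
      have : pA i + 1 * pA i = 2 * pA i := by ring
      rw [this, AE_two hB1, zero_mul]; exact zero_mem _) hcong
  obtain ⟨j, hj1, hj2⟩ := hSm
  have hδ1 : δr * δN * j - 1 ∈ mI pA := by
    rw [← Ideal.Quotient.eq_zero_iff_mem] at hr1 hN1 hj1 ⊢
    rw [map_sub, map_one, sub_eq_zero] at hr1 hN1 hj1 ⊢
    rw [map_mul, map_mul, hr1, hN1, hj1]; ring
  exact ⟨Localization.Away (δr * δN * j), inferInstance,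
    chartData_of hB1 hB2 rfl hδ1 hr11 hr12 hr13 hr22 hr23 hr33 D hN2 hj2 hqm hcong _⟩

end Pool.Agent.H919.FP
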