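import Pool.Agent.H919.FP.Defs

namespace Pool.Agent.H919.FP

variable {C : Type*} [CommRing C]

set_option maxRecDepth 20000 in
theorem cert12 (p q : Fin 3 → C) (t u κ : C) (h2 : (2 : C) = 0) (hp : hh p = 0)
    (hκ : κ * u = t ^ 2) (e1 : E1 p q t u κ = 0) (e2 : E2 p q t u κ = 0) (e3 : E3 p q t u κ = 0) :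
    r12 p q u κ =
      (p 0 ^ 2 * p 2 * q 0 ^ 2 * κ ^ 2 * t + p 1 ^ 2 * q 2 * κ * t) * r11 p q u κ + (p 0 ^ 2 * p 1 * q 0 * q 2 * κ ^ 2 * t + p 0 * p 1 * p 2 * q 0 ^ 2 * κ ^ 2 * t + p 2 ^ 2 * q 0 * κ * t) * r12 p q u κ + (p 0 * q 0 * κ + p 1 * t) * r13 p q u κ := by
  simp only [hh, n1, n2, n3, gg, P11, P12, P13, P22, P23, P33, a1, a2, a3, β1, β2, β3, b1, b2, b3,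
    A3, A2, A0, v1, v2, v3, lam, up, E1, E2, E3, r11, r12, r13, r22, r23, r33] at hp e1 e2 e3 ⊢
  linear_combination (p 0 ^ 5 * p 1 * p 2 * q 0 ^ 2 * q 1 * q 2 * κ ^ 2 * t ^ 2 + p 0 ^ 5 * p 1 * q 0 ^ 3 * κ * t ^ 2 + p 0 ^ 5 * p 2 * q 0 ^ 2 * q 2 ^ 2 * κ ^ 2 * t + p 0 ^ 4 * p 1 * p 2 ^ 2 * q 0 ^ 3 * q 1 * κ ^ 2 * t ^ 2 + p 0 ^ 4 * p 1 * q 0 ^ 2 * q 1 * κ * t + p 0 ^ 4 * p 2 ^ 2 * q 0 ^ 3 * q 2 * κ ^ 2 * t + p 0 ^ 3 * p 1 ^ 4 * q 0 ^ 2 * q 1 * q 2 * κ ^ 2 * t ^ 2 + p 0 ^ 3 * p 1 ^ 2 * p 2 ^ 2 * q 0 * q 2 ^ 3 * κ ^ 2 * t ^ 2 + p 0 ^ 3 * p 1 ^ 2 * q 0 * q 1 * t ^ 2 + p 0 ^ 3 * p 1 * p 2 ^ 2 * q 0 ^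 2 * q 2 * κ * t ^ 2 + p 0 ^ 3 * p 1 * p 2 * q 1 * q 2 ^ 2 * κ * t + p 0 ^ 3 * p 1 * q 0 * q 2 * t + p 0 ^ 3 * p 2 ^ 3 * q 0 ^ 4 * κ ^ 2 * t + p 0 ^ 3 * p 2 * q 0 * q 1 * t + p 0 ^ 2 * p 1 ^ 4 * p 2 * q 0 ^ 3 * q 1 * κ ^ 2 * t ^ 2 + p 0 ^ 2 * p 1 ^ 4 * q 0 * q 2 ^ 2 * κ * t ^ 2 + p 0 ^ 2 * p 1 ^ 3 * p 2 * q 0 ^ 3 * q 2 * κ ^ 2 * t + p 0 ^ 2 * p 1 ^ 3 * p 2 * q 0 * q 1 * q 2 * κ * t ^ 2 + p 0 ^ 2 * p 1 ^ 3 * q 0 ^ 2 * t ^ 2 + p 0 ^ 2 * p 1 ^ 2 * p 2 ^ 2 * q 0 * q 1 ^ 2 * κ * t ^ 2 + p 0 ^ 2 * p 1 ^ 2 * p 2 * q 0 * q 2 ^ 2 * κ * t + p 0 ^ 2 * p 1 ^ 2 * q 1 ^ 2 * t + p 0 ^ 2 * p 1 * q 1 * q 2 + p 0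 ^ 2 * p 2 ^ 2 * q 0 * q 2 ^ 2 * κ + p 0 * p 1 ^ 4 * p 2 ^ 2 * q 0 * q 1 * q 2 ^ 2 * κ ^ 2 * t ^ 2 + p 0 * p 1 ^ 4 * p 2 * q 0 ^ 2 * q 2 * κ * t ^ 2 + p 0 * p 1 ^ 3 * p 2 ^ 2 * q 0 * q 2 ^ 3 * κ ^ 2 * t + p 0 * p 1 ^ 3 * p 2 * q 1 ^ 2 * q 2 * κ * t + p 0 * p 1 ^ 3 * q 0 * q 1 * t + p 0 * p 1 ^ 3 * q 2 ^ 3 * κ + p 0 * p 1 ^ 2 * p 2 ^ 3 * q 0 * q 1 * q 2 ^ 2 * κ ^ 2 * t + p 0 * p 1 ^ 2 * p 2 * q 0 * u + p 0 * p 1 ^ 2 * p 2 * q 1 * q 2 ^ 2 * κ + p 0 * p 1 ^ 2 * q 0 * q 2 + p 0 * p 1 * p 2 ^ 3 * q 0 ^ 2 * q 1 * κ * t + p 0 * p 1 * p 2 ^ 2 * q 2 ^ 2 * t + p 0 * p 1 * p 2 * q 0 * q 1 + p 1 ^ 5 * p 2 *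 q 1 * q 2 ^ 3 * κ ^ 2 * t + p 1 ^ 5 * q 0 * q 2 ^ 2 * κ * t + p 1 ^ 2 * p 2 ^ 3 * q 0 * q 1 * t ^ 2) * e1 +
    (p 0 ^ 6 * q 0 ^ 3 * κ * t ^ 2 + p 0 ^ 5 * p 1 * p 2 * q 0 ^ 3 * q 2 * κ ^ 2 * t ^ 2 + p 0 ^ 5 * p 2 ^ 2 * q 0 ^ 3 * q 1 * κ ^ 2 * t ^ 2 + p 0 ^ 4 * p 1 ^ 3 * q 0 ^ 2 * q 1 * q 2 * κ ^ 2 * t ^ 2 + p 0 ^ 4 * p 1 ^ 2 * q 0 ^ 2 * q 2 ^ 2 * κ ^ 2 * t + p 0 ^ 4 * p 1 * p 2 * q 0 ^ 2 * q 1 * q 2 * κ ^ 2 * t + p 0 ^ 4 * p 1 * q 0 * q 1 * t ^ 2 + p 0 ^ 4 * q 0 * q 2 * t + p 0 ^ 3 * p 1 ^ 2 * p 2 * q 0 ^ 3 * q 2 * κ ^ 2 * t + p 0 ^ 3 * p 1 * p 2 ^ 2 * q 0 ^ 3 * q 1 * κ ^ 2 * t + p 0 ^ 3 * p 1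 * q 0 ^ 2 * q 1 * κ + p 0 ^ 3 * p 2 ^ 3 * q 0 ^ 3 * κ * t ^ 2 + p 0 ^ 3 * p 2 * q 0 ^ 2 * t + p 0 ^ 2 * p 1 ^ 3 * p 2 * q 1 ^ 3 * κ * t ^ 2 + p 0 ^ 2 * p 1 ^ 2 * p 2 ^ 2 * q 0 ^ 2 * q 1 * κ * t ^ 2 + p 0 ^ 2 * p 1 ^ 2 * p 2 ^ 2 * q 0 * q 2 ^ 3 * κ ^ 2 * t + p 0 ^ 2 * p 1 ^ 2 * p 2 * q 2 ^ 2 * t ^ 2 + p 0 ^ 2 * p 1 ^ 2 * q 0 ^ 3 * κ + p 0 ^ 2 * p 1 * p 2 ^ 3 * q 0 * q 1 * q 2 ^ 2 * κ ^ 2 * t + p 0 ^ 2 * p 2 ^ 3 * q 0 ^ 2 * q 1 * κ * t + p 0 * p 1 ^ 5 * p 2 * q 1 ^ 2 * q 2 ^ 2 * κ ^ 2 * t ^ 2 + p 0 * p 1 ^ 4 * p 2 * q 1 * q 2 ^ 3 * κ ^ 2 * t + p 0 * p 1 ^ 4 * q 0 * q 2 ^ 2 * κ * t + p 0 * p 1 ^ 3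 * p 2 ^ 2 * q 1 ^ 2 * q 2 ^ 2 * κ ^ 2 * t + p 0 * p 1 ^ 3 * p 2 ^ 2 * q 2 ^ 3 * κ * t ^ 2 + p 0 * p 1 ^ 3 * q 0 ^ 2 * t + p 0 * p 1 ^ 3 * q 1 * u + p 0 * p 1 ^ 2 * p 2 ^ 2 * q 0 * q 2 * t ^ 2 + p 0 * p 1 * p 2 ^ 3 * q 0 ^ 3 * κ * t + p 0 * p 1 * p 2 ^ 3 * q 0 * q 1 * t ^ 2 + p 0 * p 2 ^ 3 * q 0 * q 1 ^ 2 * κ + p 0 * p 2 ^ 3 * q 0 * q 2 * t + p 1 ^ 4 * q 1 * q 2 ^ 2 * κ + p 1 ^ 3 * p 2 ^ 2 * q 1 ^ 2 * t ^ 2 + p 1 ^ 3 * p 2 * q 2 ^ 2 * t + p 1 ^ 2 * p 2 ^ 2 * q 1 * q 2 * t + p 1 * p 2 ^ 3 * q 1 ^ 2 * t + p 1 * p 2 ^ 2 * q 2 ^ 2 + p 2 ^ 3 * q 1 * q 2) * e2 +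
    (p 0 ^ 6 * p 1 * q 0 ^ 2 * q 1 * q 2 * κ ^ 2 * t ^ 2 + p 0 ^ 5 * p 1 ^ 2 * q 0 ^ 3 * q 2 * κ ^ 2 * t ^ 2 + p 0 ^ 5 * p 1 * q 0 * q 2 ^ 2 * κ * t ^ 2 + p 0 ^ 5 * p 2 * q 0 ^ 3 * q 2 * κ ^ 2 * t + p 0 ^ 5 * q 0 ^ 2 * t ^ 2 + p 0 ^ 4 * p 1 ^ 2 * p 2 * q 0 * q 2 ^ 3 * κ ^ 2 * t ^ 2 + p 0 ^ 4 * p 1 ^ 2 * q 0 ^ 2 * q 1 * q 2 * κ ^ 2 * t + p 0 ^ 4 * p 1 * p 2 * q 0 ^ 2 * q 2 * κ * t ^ 2 + p 0 ^ 4 * p 2 ^ 2 * q 0 ^ 4 * κ ^ 2 * t + p 0 ^ 4 * q 0 * q 1 * t + p 0 ^ 3 * p 1 ^ 4 * q 0 ^ 3 * q 1 * κ ^ 2 * t ^ 2 + p 0 ^ 3 * p 1 ^ 3 * q 0 * q 1 * q 2 * κ * t ^ 2 + p 0 ^ 3 * p 1 ^ 2 * p 2 * q 0 ^ 3 * q 1 *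 κ ^ 2 * t + p 0 ^ 3 * p 1 ^ 2 * p 2 * q 0 * q 1 ^ 2 * κ * t ^ 2 + p 0 ^ 3 * p 1 * p 2 ^ 2 * q 0 ^ 3 * κ * t ^ 2 + p 0 ^ 3 * p 1 * q 0 ^ 2 * t + p 0 ^ 3 * p 1 * q 1 * u + p 0 ^ 3 * p 2 ^ 3 * q 0 ^ 2 * q 2 ^ 2 * κ ^ 2 * t + p 0 ^ 3 * p 2 * q 0 * q 2 ^ 2 * κ + p 0 ^ 2 * p 1 ^ 4 * p 2 * q 0 * q 1 * q 2 ^ 2 * κ ^ 2 * t ^ 2 + p 0 ^ 2 * p 1 ^ 4 * q 0 ^ 2 * q 2 * κ * t ^ 2 + p 0 ^ 2 * p 1 ^ 4 * q 1 ^ 3 * κ * t ^ 2 + p 0 ^ 2 * p 1 ^ 3 * p 2 * q 0 ^ 2 * q 1 * κ * t ^ 2 + p 0 ^ 2 * p 1 ^ 3 * q 1 ^ 2 * q 2 * κ * t + p 0 ^ 2 * p 1 ^ 3 * q 2 ^ 2 * t ^ 2 + p 0 ^ 2 * p 1 ^ 2 * q 0 * u + p 0 ^ 2 * p 1 * p 2 ^ 3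 * q 0 * q 2 ^ 2 * κ * t ^ 2 + p 0 ^ 2 * p 1 * p 2 * q 2 ^ 2 * t + p 0 ^ 2 * p 2 ^ 3 * q 0 ^ 2 * t ^ 2 + p 0 * p 1 ^ 6 * q 1 ^ 2 * q 2 ^ 2 * κ ^ 2 * t ^ 2 + p 0 * p 1 ^ 4 * p 2 * q 1 ^ 2 * q 2 ^ 2 * κ ^ 2 * t + p 0 * p 1 ^ 4 * p 2 * q 2 ^ 3 * κ * t ^ 2 + p 0 * p 1 ^ 4 * q 0 * q 1 * q 2 * κ * t + p 0 * p 1 ^ 3 * p 2 * q 0 * q 2 * t ^ 2 + p 0 * p 1 ^ 2 * p 2 ^ 2 * q 0 ^ 3 * κ * t + p 0 * p 1 ^ 2 * q 0 ^ 2 + p 0 * p 1 * p 2 ^ 3 * q 1 * q 2 ^ 2 * κ * t + p 0 * p 1 * p 2 ^ 2 * q 0 * q 1 ^ 2 * κ + p 0 * p 1 * p 2 ^ 2 * q 0 * q 2 * t + p 0 * p 2 ^ 3 * q 0 ^ 3 * κ + p 1 ^ 4 * p 2 * q 1 ^ 2 * t ^ 2 + p 1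 ^ 4 * q 1 ^ 2 * q 2 * κ + p 1 ^ 4 * q 2 ^ 2 * t + p 1 ^ 3 * p 2 * q 1 * q 2 * t + p 1 ^ 2 * p 2 * q 2 ^ 2 + p 1 * p 2 ^ 3 * q 0 ^ 2 * t + p 1 * p 2 ^ 3 * q 1 * u) * e3 +
    (p 0 ^ 6 * q 0 ^ 4 * q 2 ^ 3 * κ ^ 4 * t ^ 3 + p 0 ^ 5 * p 1 * q 0 ^ 3 * q 2 ^ 3 * κ ^ 3 * t ^ 4 + p 0 ^ 5 * p 2 * q 0 ^ 5 * q 2 ^ 2 * κ ^ 4 * t ^ 3 + (2) * (p 0 ^ 5 * q 0 ^ 4 * q 1 ^ 2 * κ ^ 3 * t ^ 3) + p 0 ^ 5 * q 0 ^ 4 * q 2 * κ ^ 2 * t ^ 4 + p 0 ^ 4 * p 1 * p 2 * q 0 ^ 4 * q 2 ^ 2 * κ ^ 3 * t ^ 4 + p 0 ^ 4 * p 1 * q 0 ^ 5 * q 1 * κ ^ 3 * t ^ 3 + p 0 ^ 4 * p 1 * q 0 ^ 2 * q 1 * q 2 ^ 3 * κ ^ 3 * t ^ 3 + p 0 ^ 4 * p 2 ^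 2 * q 0 ^ 3 * q 2 ^ 4 * κ ^ 4 * t ^ 3 + p 0 ^ 4 * p 2 * q 0 ^ 5 * κ ^ 2 * t ^ 4 + p 0 ^ 4 * p 2 * q 0 ^ 2 * q 1 ^ 2 * q 2 ^ 2 * κ ^ 3 * t ^ 3 + p 0 ^ 4 * q 0 ^ 5 * q 2 * κ ^ 3 * t ^ 2 + p 0 ^ 3 * p 1 ^ 2 * p 2 * q 0 ^ 2 * q 1 * q 2 ^ 4 * κ ^ 4 * t ^ 3 + p 0 ^ 3 * p 1 ^ 2 * q 0 ^ 3 * q 2 ^ 3 * κ ^ 3 * t ^ 3 + p 0 ^ 3 * p 1 * p 2 ^ 2 * q 0 ^ 2 * q 2 ^ 4 * κ ^ 3 * t ^ 4 + p 0 ^ 3 * p 1 * p 2 * q 0 ^ 3 * q 1 * q 2 ^ 2 * κ ^ 3 * t ^ 3 + p 0 ^ 3 * p 1 * p 2 * q 0 * q 1 ^ 2 * q 2 ^ 2 * κ ^ 2 * t ^ 4 + p 0 ^ 3 * p 1 * q 0 ^ 4 * q 2 * κ ^ 2 * t ^ 3 + p 0 ^ 3 * p 1 * q 0 ^ 2 * q 1 ^ 3 * κ ^ 2 * t ^ 3 + p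 0 ^ 3 * p 1 * q 0 ^ 2 * q 1 * q 2 * κ * t ^ 4 + p 0 ^ 3 * p 2 ^ 2 * q 0 ^ 3 * q 2 ^ 2 * κ ^ 2 * t ^ 4 + p 0 ^ 3 * p 2 * q 0 ^ 6 * κ ^ 3 * t ^ 2 + p 0 ^ 3 * p 2 * q 0 ^ 3 * q 2 ^ 3 * κ ^ 3 * t ^ 2 + p 0 ^ 3 * p 2 * q 0 ^ 2 * q 1 ^ 2 * κ * t ^ 4 + p 0 ^ 3 * q 0 ^ 2 * q 2 ^ 2 * κ * t ^ 3 + p 0 ^ 2 * p 1 ^ 3 * p 2 * q 0 * q 1 * q 2 ^ 4 * κ ^ 3 * t ^ 4 + p 0 ^ 2 * p 1 ^ 3 * q 0 ^ 2 * q 2 ^ 3 * κ ^ 2 * t ^ 4 + p 0 ^ 2 * p 1 ^ 2 * p 2 * q 0 ^ 2 * q 1 ^ 3 * q 2 * κ ^ 3 * t ^ 3 + p 0 ^ 2 * p 1 ^ 2 * p 2 * q 0 ^ 2 * q 1 * q 2 ^ 2 * κ ^ 2 * t ^ 4 + p 0 ^ 2 * p 1 ^ 2 * q 0 ^ 3 * q 1 ^ 2 * κ ^ 2 * t ^ 3 + p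 0 ^ 2 * p 1 ^ 2 * q 0 ^ 3 * q 2 * κ * t ^ 4 + p 0 ^ 2 * p 1 ^ 2 * q 0 ^ 2 * q 1 * q 2 ^ 3 * κ ^ 3 * t ^ 2 + p 0 ^ 2 * p 1 * p 2 ^ 2 * q 0 * q 1 * q 2 ^ 4 * κ ^ 3 * t ^ 3 + p 0 ^ 2 * p 1 * p 2 * q 0 ^ 5 * κ ^ 2 * t ^ 3 + p 0 ^ 2 * p 1 * p 2 * q 0 ^ 3 * q 1 * κ * t ^ 4 + p 0 ^ 2 * p 1 * p 2 * q 0 ^ 2 * q 1 ^ 2 * q 2 ^ 2 * κ ^ 3 * t ^ 2 + p 0 ^ 2 * p 1 * p 2 * q 0 ^ 2 * q 2 ^ 3 * κ ^ 2 * t ^ 3 + p 0 ^ 2 * p 1 * p 2 * q 1 ^ 3 * q 2 ^ 2 * κ ^ 2 * t ^ 3 + p 0 ^ 2 * p 1 * q 0 ^ 3 * q 1 * q 2 * κ ^ 2 * t ^ 2 + p 0 ^ 2 * p 1 * q 0 * q 2 ^ 2 * t ^ 4 + p 0 ^ 2 * p 2 ^ 3 * q 0 ^ 4 * q 1 ^ 2 * κ ^ 3 * t ^ 3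 + p 0 ^ 2 * p 2 ^ 2 * q 0 ^ 4 * q 2 ^ 2 * κ ^ 3 * t ^ 2 + p 0 ^ 2 * p 2 * q 0 ^ 3 * q 1 ^ 2 * κ ^ 2 * t ^ 2 + p 0 ^ 2 * p 2 * q 0 ^ 3 * q 2 * κ * t ^ 3 + p 0 ^ 2 * q 0 ^ 3 * q 2 ^ 2 * κ ^ 2 * t + p 0 ^ 2 * q 0 ^ 2 * t ^ 2 * u + p 0 * p 1 ^ 3 * p 2 * q 0 ^ 3 * q 1 ^ 2 * q 2 * κ ^ 3 * t ^ 3 + p 0 * p 1 ^ 3 * p 2 * q 1 ^ 2 * q 2 ^ 4 * κ ^ 3 * t ^ 3 + p 0 * p 1 ^ 3 * q 0 * q 1 * q 2 ^ 3 * κ ^ 2 * t ^ 3 + p 0 * p 1 ^ 2 * p 2 ^ 2 * q 0 ^ 3 * q 1 ^ 3 * κ ^ 3 * t ^ 3 + p 0 * p 1 ^ 2 * p 2 * q 0 ^ 3 * q 1 * q 2 ^ 2 * κ ^ 3 * t ^ 2 + p 0 * p 1 ^ 2 * q 0 ^ 4 * q 2 * κ ^ 2 * t ^ 2 + p 0 * p 1 ^ 2 * q 1 ^ 4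 * κ * t ^ 3 + p 0 * p 1 * p 2 ^ 2 * q 0 ^ 3 * q 2 ^ 2 * κ ^ 2 * t ^ 3 + p 0 * p 1 * p 2 ^ 2 * q 0 * q 1 * q 2 ^ 2 * κ * t ^ 4 + p 0 * p 1 * p 2 * q 0 ^ 4 * q 1 * κ ^ 2 * t ^ 2 + p 0 * p 1 * p 2 * q 0 ^ 2 * q 1 ^ 2 * κ * t ^ 3 + p 0 * p 1 * p 2 * q 1 ^ 3 * t ^ 4 + p 0 * p 1 * q 0 ^ 2 * q 1 ^ 2 * q 2 * κ ^ 2 * t + p 0 * p 1 * q 1 ^ 3 * q 2 * κ * t ^ 2 + p 0 * p 1 * q 1 * q 2 ^ 2 * t ^ 3 + p 0 * p 2 * q 0 ^ 4 * q 2 * κ ^ 2 * t + p 0 * p 2 * q 0 ^ 2 * q 1 ^ 3 * κ ^ 2 * t + p 0 * p 2 * q 0 ^ 2 * q 1 * q 2 * κ * t ^ 2 + p 0 * q 0 ^ 3 * t ^ 2 + p 1 ^ 4 * q 1 ^ 3 * q 2 ^ 2 * κ ^ 2 * t ^ 3 + p 1 ^ 3 * p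 2 * q 0 ^ 2 * q 1 * q 2 ^ 2 * κ ^ 2 * t ^ 3 + p 1 ^ 3 * p 2 * q 1 ^ 2 * q 2 ^ 2 * κ * t ^ 4 + p 1 ^ 3 * q 0 ^ 3 * q 2 * κ * t ^ 3 + p 1 ^ 3 * q 0 * q 1 * q 2 * t ^ 4 + p 1 ^ 3 * q 1 ^ 2 * q 2 ^ 3 * κ ^ 2 * t ^ 2 + p 1 ^ 2 * q 0 * q 1 ^ 2 * q 2 * κ * t ^ 2 + p 1 * p 2 ^ 3 * q 0 ^ 2 * q 1 ^ 3 * κ ^ 2 * t ^ 3 + p 1 * p 2 * q 0 ^ 3 * q 2 * κ * t ^ 2 + p 1 * p 2 * q 0 * q 1 * q 2 * t ^ 3 + p 1 * q 0 ^ 2 * t * u + p 1 * q 0 * q 1 * q 2 ^ 2 * κ * t + p 1 * q 1 * u ^ 2) * hp +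
    (p 0 ^ 7 * p 1 ^ 2 * q 0 ^ 5 * q 2 * κ ^ 3 * t + p 0 ^ 6 * p 1 ^ 2 * p 2 * q 0 ^ 3 * q 2 ^ 3 * κ ^ 3 * t + p 0 ^ 6 * p 1 * p 2 * q 0 ^ 4 * q 2 * κ ^ 2 * t + p 0 ^ 6 * p 1 * p 2 * q 0 ^ 2 * q 1 * q 2 * κ * t ^ 2 + p 0 ^ 6 * p 2 * q 0 ^ 2 * q 2 ^ 2 * κ * t + p 0 ^ 5 * p 1 ^ 2 * p 2 ^ 2 * q 0 ^ 4 * q 2 ^ 2 * κ ^ 3 * t + p 0 ^ 5 * p 1 ^ 2 * q 0 ^ 3 * q 2 ^ 2 * κ ^ 2 + p 0 ^ 5 * p 1 * p 2 ^ 3 * q 0 ^ 4 * q 1 * q 2 * κ ^ 3 * t + p 0 ^ 5 * p 1 * p 2 ^ 2 * q 0 ^ 3 * q 1 * κ * t ^ 2 + p 0 ^ 5 * p 1 * p 2 * q 0 * q 2 ^ 2 * t ^ 2 + p 0 ^ 4 * p 1 ^ 4 * p 2 * q 0 ^ 3 * q 1 * q 2 ^ 2 * κ ^ 3 * t + p 0 ^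 4 * p 1 ^ 4 * q 0 ^ 4 * q 2 * κ ^ 2 * t + p 0 ^ 4 * p 1 ^ 4 * q 0 ^ 2 * q 1 * q 2 * κ * t ^ 2 + p 0 ^ 4 * p 1 ^ 3 * p 2 ^ 2 * q 0 ^ 3 * q 1 ^ 2 * q 2 * κ ^ 3 * t + p 0 ^ 4 * p 1 ^ 3 * p 2 * q 0 * q 1 * q 2 ^ 3 * κ ^ 2 * t + p 0 ^ 4 * p 1 ^ 2 * p 2 ^ 3 * q 0 ^ 2 * q 2 ^ 4 * κ ^ 3 * t + p 0 ^ 4 * p 1 ^ 2 * p 2 * q 0 ^ 2 * q 1 * q 2 * κ * t + p 0 ^ 4 * p 1 ^ 2 * p 2 * q 0 * q 2 ^ 4 * κ ^ 2 + p 0 ^ 4 * p 1 * p 2 ^ 4 * q 0 ^ 5 * q 1 * κ ^ 3 * t + p 0 ^ 4 * p 1 * p 2 ^ 3 * q 0 ^ 3 * q 2 ^ 2 * κ ^ 2 * t + p 0 ^ 4 * p 1 * p 2 ^ 3 * q 0 * q 1 * q 2 ^ 2 * κ * t ^ 2 + p 0 ^ 4 * p 1 * p 2 ^ 2 * q 0 ^ 4 * q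 1 * κ ^ 2 + p 0 ^ 4 * p 1 * p 2 ^ 2 * q 1 ^ 3 * t ^ 2 + p 0 ^ 4 * p 1 * p 2 * q 0 ^ 2 * q 2 ^ 2 * κ + p 0 ^ 4 * p 1 * p 2 * q 1 * q 2 ^ 2 * t + p 0 ^ 3 * p 1 ^ 4 * p 2 ^ 2 * q 0 ^ 4 * q 1 * q 2 * κ ^ 3 * t + p 0 ^ 3 * p 1 ^ 4 * p 2 ^ 2 * q 0 * q 1 * q 2 ^ 4 * κ ^ 3 * t + p 0 ^ 3 * p 1 ^ 4 * p 2 * q 0 ^ 3 * q 1 * κ * t ^ 2 + p 0 ^ 3 * p 1 ^ 4 * q 0 ^ 3 * q 1 * q 2 * κ ^ 2 + p 0 ^ 3 * p 1 ^ 4 * q 0 * q 1 ^ 2 * q 2 * κ * t + p 0 ^ 3 * p 1 ^ 4 * q 0 * q 2 ^ 2 * t ^ 2 + p 0 ^ 3 * p 1 ^ 3 * p 2 ^ 3 * q 0 ^ 4 * q 1 ^ 2 * κ ^ 3 * t + p 0 ^ 3 * p 1 ^ 3 * p 2 ^ 3 * q 0 * q 1 ^ 2 * q 2 ^ 3 * κ ^ 3 * t + p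 0 ^ 3 * p 1 ^ 3 * p 2 ^ 2 * q 1 ^ 2 * q 2 ^ 2 * κ * t ^ 2 + p 0 ^ 3 * p 1 ^ 3 * p 2 * q 0 ^ 3 * q 1 ^ 2 * κ ^ 2 + p 0 ^ 3 * p 1 ^ 3 * p 2 * q 0 * q 1 * q 2 * t ^ 2 + p 0 ^ 3 * p 1 ^ 3 * p 2 * q 2 ^ 4 * κ * t + p 0 ^ 3 * p 1 ^ 3 * q 0 * q 1 * q 2 ^ 2 * κ + p 0 ^ 3 * p 1 ^ 2 * p 2 * q 0 * q 2 ^ 2 * t + p 0 ^ 3 * p 1 * p 2 ^ 4 * q 0 ^ 2 * q 1 * q 2 * κ * t ^ 2 + p 0 ^ 3 * p 1 * p 2 ^ 2 * q 0 * q 1 * q 2 * t + p 0 ^ 3 * p 2 ^ 5 * q 0 ^ 4 * q 1 * κ ^ 2 * t + p 0 ^ 3 * p 2 ^ 4 * q 0 ^ 2 * q 2 ^ 2 * κ * t + p 0 ^ 3 * p 2 ^ 3 * q 0 ^ 3 * q 1 * κ + p 0 ^ 2 * p 1 ^ 5 * p 2 * q 0 * q 1 ^ 2 * q 2 ^ 2 * κ ^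 2 * t + p 0 ^ 2 * p 1 ^ 5 * q 0 ^ 2 * q 1 * q 2 * κ * t + p 0 ^ 2 * p 1 ^ 4 * p 2 ^ 3 * q 0 ^ 2 * q 1 * q 2 ^ 3 * κ ^ 3 * t + p 0 ^ 2 * p 1 ^ 4 * p 2 ^ 2 * q 0 * q 1 ^ 3 * q 2 * κ ^ 2 * t + p 0 ^ 2 * p 1 ^ 4 * p 2 ^ 2 * q 0 * q 1 * q 2 ^ 2 * κ * t ^ 2 + p 0 ^ 2 * p 1 ^ 4 * p 2 ^ 2 * q 2 ^ 5 * κ ^ 2 * t + p 0 ^ 2 * p 1 ^ 4 * p 2 * q 0 ^ 2 * q 1 ^ 2 * κ * t + p 0 ^ 2 * p 1 ^ 4 * p 2 * q 0 * q 1 * q 2 ^ 3 * κ ^ 2 + p 0 ^ 2 * p 1 ^ 4 * p 2 * q 1 ^ 3 * t ^ 2 + p 0 ^ 2 * p 1 ^ 3 * p 2 ^ 2 * q 0 * q 1 ^ 2 * q 2 ^ 2 * κ ^ 2 + p 0 ^ 2 * p 1 ^ 3 * q 0 ^ 3 + p 0 ^ 2 * p 1 ^ 3 * q 2 ^ 3 + p 0 ^ 2 * p 1 ^ 2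 * p 2 ^ 5 * q 0 ^ 2 * q 1 ^ 3 * q 2 * κ ^ 3 * t + p 0 ^ 2 * p 1 ^ 2 * p 2 ^ 4 * q 0 ^ 3 * q 1 ^ 2 * κ ^ 2 * t + p 0 ^ 2 * p 1 ^ 2 * p 2 ^ 3 * q 0 * q 1 * q 2 ^ 2 * κ * t + p 0 ^ 2 * p 1 ^ 2 * p 2 ^ 2 * q 0 ^ 2 * q 1 ^ 2 * κ + p 0 ^ 2 * p 1 ^ 2 * p 2 ^ 2 * q 0 ^ 2 * q 2 * t + p 0 ^ 2 * p 1 * p 2 ^ 5 * q 0 ^ 3 * q 1 * κ * t ^ 2 + p 0 ^ 2 * p 1 * p 2 ^ 4 * q 0 * q 2 ^ 2 * t ^ 2 + p 0 ^ 2 * p 2 ^ 7 * q 0 ^ 4 * q 1 ^ 2 * κ ^ 3 * t + p 0 ^ 2 * p 2 ^ 5 * q 0 ^ 3 * q 1 ^ 2 * κ ^ 2 + p 0 * p 1 ^ 6 * p 2 * q 1 ^ 2 * q 2 ^ 2 * κ * t ^ 2 + p 0 * p 1 ^ 6 * q 0 * q 1 * q 2 * t ^ 2 + p 0 * p 1 ^ 5 * p 2 ^ 2 *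 q 0 ^ 2 * q 1 ^ 2 * q 2 * κ ^ 2 * t + p 0 * p 1 ^ 5 * p 2 * q 1 * q 2 ^ 3 * κ * t + p 0 * p 1 ^ 5 * q 0 * q 1 ^ 2 * q 2 * κ + p 0 * p 1 ^ 4 * p 2 ^ 3 * q 0 ^ 2 * q 1 ^ 3 * κ ^ 2 * t + p 0 * p 1 ^ 4 * p 2 ^ 2 * q 1 ^ 2 * q 2 ^ 2 * κ * t + p 0 * p 1 ^ 4 * p 2 * q 0 * q 1 ^ 3 * κ + p 0 * p 1 ^ 3 * p 2 ^ 5 * q 0 ^ 3 * q 1 ^ 2 * q 2 * κ ^ 3 * t + p 0 * p 1 ^ 3 * p 2 ^ 4 * q 0 * q 1 * q 2 ^ 3 * κ ^ 2 * t + p 0 * p 1 ^ 3 * p 2 ^ 3 * q 0 ^ 2 * q 1 ^ 2 * q 2 * κ ^ 2 + p 0 * p 1 ^ 3 * p 2 ^ 2 * q 0 * q 1 ^ 2 * t + p 0 * p 1 ^ 3 * p 2 ^ 2 * q 1 * q 2 ^ 3 * κ + p 0 * p 1 ^ 2 * p 2 ^ 6 * q 0 ^ 3 * q 1 ^ 3 *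 κ ^ 3 * t + p 0 * p 1 ^ 2 * p 2 ^ 5 * q 0 * q 1 ^ 2 * q 2 ^ 2 * κ ^ 2 * t + p 0 * p 1 ^ 2 * p 2 ^ 4 * q 0 ^ 2 * q 1 ^ 3 * κ ^ 2 + p 0 * p 1 ^ 2 * p 2 ^ 4 * q 0 ^ 2 * q 1 * q 2 * κ * t + p 0 * p 1 ^ 2 * p 2 ^ 3 * q 1 ^ 2 * q 2 ^ 2 * κ + p 0 * p 1 ^ 2 * p 2 ^ 2 * q 0 * q 1 * q 2 + p 0 * p 1 * p 2 ^ 6 * q 0 * q 1 * q 2 ^ 2 * κ * t ^ 2 + p 0 * p 1 * p 2 ^ 5 * q 0 ^ 2 * q 1 ^ 2 * κ * t + p 0 * p 1 * p 2 ^ 5 * q 1 ^ 3 * t ^ 2 + p 0 * p 1 * p 2 ^ 4 * q 1 * q 2 ^ 2 * t + p 0 * p 2 ^ 4 * q 0 ^ 3 + p 1 ^ 5 * p 2 * q 1 ^ 3 * t + p 1 ^ 5 * q 1 * q 2 ^ 2 + p 1 ^ 3 * p 2 ^ 5 * q 1 ^ 2 * q 2 ^ 2 * κ * t ^ 2 +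 p 1 ^ 3 * p 2 ^ 4 * q 0 * q 1 * q 2 * t ^ 2 + p 1 ^ 3 * p 2 ^ 2 * q 1 ^ 3 + p 1 ^ 2 * p 2 ^ 4 * q 0 * q 1 ^ 2 * q 2 * κ + p 1 * p 2 ^ 7 * q 0 ^ 2 * q 1 ^ 3 * κ ^ 2 * t + p 1 * p 2 ^ 5 * q 0 * q 1 ^ 3 * κ + p 1 * p 2 ^ 5 * q 0 * q 1 * q 2 * t) * hκ +
    (-(p 0 ^ 9 * p 1 * p 2 * q 0 ^ 4 * q 1 * q 2 ^ 2 * κ ^ 4 * t ^ 4) + -(p 0 ^ 9 * p 1 * q 0 ^ 5 * q 2 * κ ^ 3 * t ^ 4) + -(p 0 ^ 9 * p 2 * q 0 ^ 4 * q 2 ^ 3 * κ ^ 4 * t ^ 3) + -(p 0 ^ 8 * p 1 ^ 2 * p 2 * q 0 ^ 5 * q 2 ^ 2 * κ ^ 4 * t ^ 4) + (-2) * (p 0 ^ 8 * p 1 * p 2 ^ 2 * q 0 ^ 5 * q 1 * q 2 * κ ^ 4 * t ^ 4) + -(p 0 ^ 8 * p 1 * p 2 * q 0 ^ 6 * κ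 ^ 3 * t ^ 4) + -(p 0 ^ 8 * p 1 * p 2 * q 0 ^ 3 * q 2 ^ 3 * κ ^ 3 * t ^ 4) + -(p 0 ^ 8 * p 1 * q 0 ^ 4 * q 1 * q 2 * κ ^ 3 * t ^ 3) + (-2) * (p 0 ^ 8 * p 2 ^ 2 * q 0 ^ 5 * q 2 ^ 2 * κ ^ 4 * t ^ 3) + -(p 0 ^ 8 * p 2 * q 0 ^ 4 * q 1 ^ 2 * κ ^ 3 * t ^ 3) + -(p 0 ^ 8 * p 2 * q 0 ^ 4 * q 2 * κ ^ 2 * t ^ 4) + -(p 0 ^ 7 * p 1 ^ 4 * q 0 ^ 4 * q 1 * q 2 ^ 2 * κ ^ 4 * t ^ 4) + -(p 0 ^ 7 * p 1 ^ 3 * q 0 ^ 4 * q 2 ^ 3 * κ ^ 4 * t ^ 3) + -(p 0 ^ 7 * p 1 ^ 2 * p 2 ^ 2 * q 0 ^ 6 * q 2 * κ ^ 4 * t ^ 4) + -(p 0 ^ 7 * p 1 ^ 2 * p 2 ^ 2 * q 0 ^ 3 * q 2 ^ 4 * κ ^ 4 * t ^ 4) + -(p 0 ^ 7 * p 1 ^ 2 * p 2 * q 0 ^ 4 * q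 1 * q 2 ^ 2 * κ ^ 4 * t ^ 3) + -(p 0 ^ 7 * p 1 ^ 2 * q 0 ^ 5 * q 2 * κ ^ 4 * t * u) + -(p 0 ^ 7 * p 1 ^ 2 * q 0 ^ 3 * q 1 * q 2 * κ ^ 2 * t ^ 4) + -(p 0 ^ 7 * p 1 * p 2 ^ 3 * q 0 ^ 6 * q 1 * κ ^ 4 * t ^ 4) + -(p 0 ^ 7 * p 1 * p 2 ^ 3 * q 0 ^ 3 * q 1 * q 2 ^ 3 * κ ^ 4 * t ^ 4) + (-3) * (p 0 ^ 7 * p 1 * p 2 ^ 2 * q 0 ^ 4 * q 2 ^ 2 * κ ^ 3 * t ^ 4) + -(p 0 ^ 7 * p 1 * p 2 ^ 2 * q 0 ^ 2 * q 1 ^ 3 * q 2 * κ ^ 3 * t ^ 4) + -(p 0 ^ 7 * p 1 * p 2 * q 0 ^ 5 * q 1 * κ ^ 3 * t ^ 3) + -(p 0 ^ 7 * p 1 * p 2 * q 0 ^ 3 * q 1 ^ 2 * κ ^ 2 * t ^ 4) + -(p 0 ^ 7 * p 1 * p 2 * q 0 ^ 2 * q 1 * q 2 ^ 3 * κ ^ 3 * t ^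 3) + (-2) * (p 0 ^ 7 * p 1 * q 0 ^ 3 * q 2 ^ 2 * κ ^ 2 * t ^ 3) + (-2) * (p 0 ^ 7 * p 2 ^ 3 * q 0 ^ 6 * q 2 * κ ^ 4 * t ^ 3) + -(p 0 ^ 7 * p 2 ^ 3 * q 0 ^ 3 * q 2 ^ 4 * κ ^ 4 * t ^ 3) + -(p 0 ^ 7 * p 2 ^ 2 * q 0 ^ 5 * κ ^ 2 * t ^ 4) + -(p 0 ^ 7 * p 2 ^ 2 * q 0 ^ 2 * q 1 ^ 2 * q 2 ^ 2 * κ ^ 3 * t ^ 3) + -(p 0 ^ 7 * p 2 * q 0 ^ 5 * q 2 * κ ^ 3 * t ^ 2) + -(p 0 ^ 7 * p 2 * q 0 ^ 3 * q 1 * q 2 * κ ^ 2 * t ^ 3) + -(p 0 ^ 7 * q 0 ^ 4 * κ * t ^ 3) + (-2) * (p 0 ^ 6 * p 1 ^ 4 * p 2 * q 0 ^ 5 * q 1 * q 2 * κ ^ 4 * t ^ 4) + -(p 0 ^ 6 * p 1 ^ 4 * q 0 ^ 3 * q 2 ^ 3 * κ ^ 3 * t ^ 4) + -(p 0 ^ 6 * p 1 ^ 3 *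 p 2 ^ 2 * q 0 ^ 2 * q 1 ^ 2 * q 2 ^ 3 * κ ^ 4 * t ^ 4) + (-2) * (p 0 ^ 6 * p 1 ^ 3 * p 2 * q 0 ^ 5 * q 2 ^ 2 * κ ^ 4 * t ^ 3) + (-3) * (p 0 ^ 6 * p 1 ^ 3 * p 2 * q 0 ^ 3 * q 1 * q 2 ^ 2 * κ ^ 3 * t ^ 4) + -(p 0 ^ 6 * p 1 ^ 3 * q 0 ^ 4 * q 1 ^ 2 * κ ^ 3 * t ^ 3) + (-2) * (p 0 ^ 6 * p 1 ^ 3 * q 0 ^ 4 * q 2 * κ ^ 2 * t ^ 4) + (-2) * (p 0 ^ 6 * p 1 ^ 2 * p 2 ^ 3 * q 0 ^ 4 * q 2 ^ 3 * κ ^ 4 * t ^ 4) + (-2) * (p 0 ^ 6 * p 1 ^ 2 * p 2 ^ 2 * q 0 ^ 5 * q 1 * q 2 * κ ^ 4 * t ^ 3) + (-2) * (p 0 ^ 6 * p 1 ^ 2 * p 2 ^ 2 * q 0 ^ 3 * q 1 ^ 2 * q 2 * κ ^ 3 * t ^ 4) + -(p 0 ^ 6 * p 1 ^ 2 * p 2 ^ 2 * q 0 ^ 2 * q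 1 * q 2 ^ 4 * κ ^ 4 * t ^ 3) + -(p 0 ^ 6 * p 1 ^ 2 * p 2 * q 0 ^ 6 * κ ^ 4 * t * u) + -(p 0 ^ 6 * p 1 ^ 2 * p 2 * q 0 ^ 4 * q 1 * κ ^ 2 * t ^ 4) + -(p 0 ^ 6 * p 1 ^ 2 * p 2 * q 0 ^ 3 * q 2 ^ 3 * κ ^ 4 * t * u) + (-2) * (p 0 ^ 6 * p 1 ^ 2 * p 2 * q 0 ^ 3 * q 2 ^ 3 * κ ^ 3 * t ^ 3) + -(p 0 ^ 6 * p 1 ^ 2 * q 0 ^ 4 * q 1 * q 2 * κ ^ 3 * t ^ 2) + -(p 0 ^ 6 * p 1 ^ 2 * q 0 ^ 2 * q 1 ^ 2 * q 2 * κ ^ 2 * t ^ 3) + -(p 0 ^ 6 * p 1 * p 2 ^ 4 * q 0 ^ 4 * q 1 * q 2 ^ 2 * κ ^ 4 * t ^ 4) + (-2) * (p 0 ^ 6 * p 1 * p 2 ^ 3 * q 0 ^ 5 * q 2 * κ ^ 3 * t ^ 4) + -(p 0 ^ 6 * p 1 * p 2 ^ 3 * q 0 ^ 3 * q 1 ^ 3 * κ ^ 3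 * t ^ 4) + -(p 0 ^ 6 * p 1 * p 2 ^ 3 * q 0 ^ 2 * q 2 ^ 4 * κ ^ 3 * t ^ 4) + (-3) * (p 0 ^ 6 * p 1 * p 2 ^ 2 * q 0 ^ 3 * q 1 * q 2 ^ 2 * κ ^ 3 * t ^ 3) + -(p 0 ^ 6 * p 1 * p 2 ^ 2 * q 0 * q 1 ^ 2 * q 2 ^ 2 * κ ^ 2 * t ^ 4) + -(p 0 ^ 6 * p 1 * p 2 * q 0 ^ 4 * q 2 * κ ^ 3 * t * u) + (-4) * (p 0 ^ 6 * p 1 * p 2 * q 0 ^ 4 * q 2 * κ ^ 2 * t ^ 3) + -(p 0 ^ 6 * p 1 * p 2 * q 0 ^ 2 * q 1 ^ 3 * κ ^ 2 * t ^ 3) + (-2) * (p 0 ^ 6 * p 1 * p 2 * q 0 ^ 2 * q 1 * q 2 * κ ^ 2 * t ^ 2 * u) + -(p 0 ^ 6 * p 1 * q 0 ^ 3 * κ * t ^ 2 * u) + -(p 0 ^ 6 * p 1 * q 0 ^ 2 * q 1 * q 2 ^ 2 * κ ^ 2 * t ^ 2) + -(p 0 ^ 6 * p 2 ^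 4 * q 0 ^ 7 * κ ^ 4 * t ^ 3) + (-2) * (p 0 ^ 6 * p 2 ^ 4 * q 0 ^ 4 * q 2 ^ 3 * κ ^ 4 * t ^ 3) + -(p 0 ^ 6 * p 2 ^ 3 * q 0 ^ 3 * q 1 ^ 2 * q 2 * κ ^ 3 * t ^ 3) + -(p 0 ^ 6 * p 2 ^ 3 * q 0 ^ 3 * q 2 ^ 2 * κ ^ 2 * t ^ 4) + -(p 0 ^ 6 * p 2 ^ 2 * q 0 ^ 6 * κ ^ 3 * t ^ 2) + (-2) * (p 0 ^ 6 * p 2 ^ 2 * q 0 ^ 4 * q 1 * κ ^ 2 * t ^ 3) + (-2) * (p 0 ^ 6 * p 2 ^ 2 * q 0 ^ 3 * q 2 ^ 3 * κ ^ 3 * t ^ 2) + -(p 0 ^ 6 * p 2 ^ 2 * q 0 ^ 2 * q 1 ^ 2 * κ * t ^ 4) + -(p 0 ^ 6 * p 2 * q 0 ^ 2 * q 2 ^ 2 * κ ^ 2 * t * u) + -(p 0 ^ 6 * q 0 ^ 3 * q 1 * κ * t ^ 2) + -(p 0 ^ 5 * p 1 ^ 4 * p 2 ^ 2 * q 0 ^ 6 * q 1 * κ ^ 4 *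 t ^ 4) + (-3) * (p 0 ^ 5 * p 1 ^ 4 * p 2 ^ 2 * q 0 ^ 3 * q 1 * q 2 ^ 3 * κ ^ 4 * t ^ 4) + (-3) * (p 0 ^ 5 * p 1 ^ 4 * p 2 * q 0 ^ 4 * q 2 ^ 2 * κ ^ 3 * t ^ 4) + (-2) * (p 0 ^ 5 * p 1 ^ 4 * p 2 * q 0 ^ 2 * q 1 ^ 3 * q 2 * κ ^ 3 * t ^ 4) + -(p 0 ^ 5 * p 1 ^ 4 * q 0 ^ 5 * q 1 * κ ^ 3 * t ^ 3) + -(p 0 ^ 5 * p 1 ^ 4 * q 0 ^ 2 * q 1 * q 2 ^ 3 * κ ^ 3 * t ^ 3) + -(p 0 ^ 5 * p 1 ^ 3 * p 2 ^ 3 * q 0 ^ 3 * q 1 ^ 2 * q 2 ^ 2 * κ ^ 4 * t ^ 4) + -(p 0 ^ 5 * p 1 ^ 3 * p 2 ^ 2 * q 0 ^ 6 * q 2 * κ ^ 4 * t ^ 3) + (-3) * (p 0 ^ 5 * p 1 ^ 3 * p 2 ^ 2 * q 0 ^ 4 * q 1 * q 2 * κ ^ 3 * t ^ 4) + (-2) * (p 0 ^ 5 * p 1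 ^ 3 * p 2 ^ 2 * q 0 ^ 3 * q 2 ^ 4 * κ ^ 4 * t ^ 3) + -(p 0 ^ 5 * p 1 ^ 3 * p 2 ^ 2 * q 0 * q 1 * q 2 ^ 4 * κ ^ 3 * t ^ 4) + -(p 0 ^ 5 * p 1 ^ 3 * p 2 * q 0 ^ 5 * κ ^ 2 * t ^ 4) + (-3) * (p 0 ^ 5 * p 1 ^ 3 * p 2 * q 0 ^ 2 * q 1 ^ 2 * q 2 ^ 2 * κ ^ 3 * t ^ 3) + (-2) * (p 0 ^ 5 * p 1 ^ 3 * p 2 * q 0 ^ 2 * q 2 ^ 3 * κ ^ 2 * t ^ 4) + -(p 0 ^ 5 * p 1 ^ 3 * q 0 ^ 5 * q 2 * κ ^ 3 * t ^ 2) + -(p 0 ^ 5 * p 1 ^ 3 * q 0 ^ 3 * q 1 * q 2 * κ ^ 3 * t * u) + (-3) * (p 0 ^ 5 * p 1 ^ 3 * q 0 ^ 3 * q 1 * q 2 * κ ^ 2 * t ^ 3) + -(p 0 ^ 5 * p 1 ^ 3 * q 0 ^ 2 * q 2 ^ 4 * κ ^ 3 * t ^ 2) + -(p 0 ^ 5 * p 1 ^ 2 * p 2 ^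 4 * q 0 ^ 2 * q 2 ^ 5 * κ ^ 4 * t ^ 4) + -(p 0 ^ 5 * p 1 ^ 2 * p 2 ^ 3 * q 0 ^ 6 * q 1 * κ ^ 4 * t ^ 3) + -(p 0 ^ 5 * p 1 ^ 2 * p 2 ^ 3 * q 0 ^ 4 * q 1 ^ 2 * κ ^ 3 * t ^ 4) + (-3) * (p 0 ^ 5 * p 1 ^ 2 * p 2 ^ 3 * q 0 ^ 3 * q 1 * q 2 ^ 3 * κ ^ 4 * t ^ 3) + -(p 0 ^ 5 * p 1 ^ 2 * p 2 ^ 3 * q 0 * q 1 ^ 2 * q 2 ^ 3 * κ ^ 3 * t ^ 4) + (-2) * (p 0 ^ 5 * p 1 ^ 2 * p 2 ^ 2 * q 0 ^ 4 * q 2 ^ 2 * κ ^ 4 * t * u) + (-2) * (p 0 ^ 5 * p 1 ^ 2 * p 2 ^ 2 * q 0 ^ 4 * q 2 ^ 2 * κ ^ 3 * t ^ 3) + (-2) * (p 0 ^ 5 * p 1 ^ 2 * p 2 ^ 2 * q 0 ^ 2 * q 1 ^ 3 * q 2 * κ ^ 3 * t ^ 3) + (-2) * (p 0 ^ 5 * p 1 ^ 2 * p 2 ^ 2 * q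 0 ^ 2 * q 1 * q 2 ^ 2 * κ ^ 2 * t ^ 4) + -(p 0 ^ 5 * p 1 ^ 2 * p 2 * q 0 ^ 5 * q 1 * κ ^ 3 * t ^ 2) + (-2) * (p 0 ^ 5 * p 1 ^ 2 * p 2 * q 0 ^ 3 * q 1 ^ 2 * κ ^ 2 * t ^ 3) + (-2) * (p 0 ^ 5 * p 1 ^ 2 * p 2 * q 0 ^ 3 * q 2 * κ ^ 2 * t ^ 2 * u) + -(p 0 ^ 5 * p 1 ^ 2 * p 2 * q 0 ^ 3 * q 2 * κ * t ^ 4) + (-2) * (p 0 ^ 5 * p 1 ^ 2 * p 2 * q 0 ^ 2 * q 1 * q 2 ^ 3 * κ ^ 3 * t ^ 2) + -(p 0 ^ 5 * p 1 ^ 2 * p 2 * q 0 * q 1 ^ 3 * κ * t ^ 4) + -(p 0 ^ 5 * p 1 ^ 2 * q 0 ^ 3 * q 2 ^ 2 * κ ^ 3 * u) + -(p 0 ^ 5 * p 1 ^ 2 * q 0 ^ 3 * q 2 ^ 2 * κ ^ 2 * t ^ 2) + -(p 0 ^ 5 * p 1 ^ 2 * q 0 * q 1 * q 2 ^ 2 * κ * t ^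 3) + -(p 0 ^ 5 * p 1 * p 2 ^ 4 * q 0 ^ 6 * κ ^ 3 * t ^ 4) + (-2) * (p 0 ^ 5 * p 1 * p 2 ^ 4 * q 0 ^ 3 * q 2 ^ 3 * κ ^ 3 * t ^ 4) + -(p 0 ^ 5 * p 1 * p 2 ^ 3 * q 0 ^ 4 * q 1 * q 2 * κ ^ 4 * t * u) + (-2) * (p 0 ^ 5 * p 1 * p 2 ^ 3 * q 0 ^ 4 * q 1 * q 2 * κ ^ 3 * t ^ 3) + -(p 0 ^ 5 * p 1 * p 2 ^ 3 * q 0 ^ 2 * q 1 ^ 2 * q 2 * κ ^ 2 * t ^ 4) + -(p 0 ^ 5 * p 1 * p 2 ^ 3 * q 0 * q 1 * q 2 ^ 4 * κ ^ 3 * t ^ 3) + (-2) * (p 0 ^ 5 * p 1 * p 2 ^ 2 * q 0 ^ 5 * κ ^ 3 * t * u) + (-2) * (p 0 ^ 5 * p 1 * p 2 ^ 2 * q 0 ^ 5 * κ ^ 2 * t ^ 3) + (-2) * (p 0 ^ 5 * p 1 * p 2 ^ 2 * q 0 ^ 3 * q 1 * κ ^ 2 * t ^ 2 * u) +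 -(p 0 ^ 5 * p 1 * p 2 ^ 2 * q 0 ^ 2 * q 1 ^ 2 * q 2 ^ 2 * κ ^ 3 * t ^ 2) + (-3) * (p 0 ^ 5 * p 1 * p 2 ^ 2 * q 0 ^ 2 * q 2 ^ 3 * κ ^ 2 * t ^ 3) + -(p 0 ^ 5 * p 1 * p 2 ^ 2 * q 1 ^ 3 * q 2 ^ 2 * κ ^ 2 * t ^ 3) + (-4) * (p 0 ^ 5 * p 1 * p 2 * q 0 ^ 3 * q 1 * q 2 * κ ^ 2 * t ^ 2) + -(p 0 ^ 5 * p 1 * p 2 * q 0 * q 1 ^ 2 * q 2 * κ * t ^ 3) + -(p 0 ^ 5 * p 1 * p 2 * q 0 * q 2 ^ 2 * κ * t ^ 2 * u) + -(p 0 ^ 5 * p 1 * q 0 ^ 4 * κ * t ^ 2) + -(p 0 ^ 5 * p 1 * q 0 ^ 2 * q 1 * κ * t * u) + -(p 0 ^ 5 * p 1 * q 0 ^ 2 * q 1 * t ^ 3) + -(p 0 ^ 5 * p 1 * q 0 * q 2 ^ 3 * κ * t ^ 2) + (-2) * (p 0 ^ 5 * p 2 ^ 5 *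 q 0 ^ 5 * q 2 ^ 2 * κ ^ 4 * t ^ 3) + (-3) * (p 0 ^ 5 * p 2 ^ 4 * q 0 ^ 4 * q 1 ^ 2 * κ ^ 3 * t ^ 3) + -(p 0 ^ 5 * p 2 ^ 4 * q 0 ^ 4 * q 2 * κ ^ 2 * t ^ 4) + (-3) * (p 0 ^ 5 * p 2 ^ 3 * q 0 ^ 4 * q 2 ^ 2 * κ ^ 3 * t ^ 2) + -(p 0 ^ 5 * p 2 ^ 3 * q 0 ^ 2 * q 1 * q 2 ^ 2 * κ ^ 2 * t ^ 3) + -(p 0 ^ 5 * p 2 ^ 2 * q 0 ^ 3 * q 1 ^ 2 * κ ^ 2 * t ^ 2) + -(p 0 ^ 5 * p 2 ^ 2 * q 0 ^ 3 * q 2 * κ ^ 2 * t * u) + -(p 0 ^ 5 * p 2 ^ 2 * q 0 ^ 3 * q 2 * κ * t ^ 3) + -(p 0 ^ 5 * p 2 ^ 2 * q 0 * q 1 ^ 3 * κ * t ^ 3) + (-2) * (p 0 ^ 5 * p 2 * q 0 ^ 3 * q 2 ^ 2 * κ ^ 2 * t) + -(p 0 ^ 5 * p 2 * q 0 ^ 2 * t ^ 2 * u) +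 -(p 0 ^ 5 * q 0 ^ 2 * q 2 * t ^ 2) + (-2) * (p 0 ^ 4 * p 1 ^ 6 * p 2 * q 0 ^ 2 * q 1 ^ 2 * q 2 ^ 3 * κ ^ 4 * t ^ 4) + -(p 0 ^ 4 * p 1 ^ 6 * q 0 ^ 3 * q 1 * q 2 ^ 2 * κ ^ 3 * t ^ 4) + (-2) * (p 0 ^ 4 * p 1 ^ 5 * p 2 * q 0 ^ 2 * q 1 * q 2 ^ 4 * κ ^ 4 * t ^ 3) + (-2) * (p 0 ^ 4 * p 1 ^ 5 * q 0 ^ 3 * q 2 ^ 3 * κ ^ 3 * t ^ 3) + (-2) * (p 0 ^ 4 * p 1 ^ 4 * p 2 ^ 3 * q 0 ^ 4 * q 1 * q 2 ^ 2 * κ ^ 4 * t ^ 4) + -(p 0 ^ 4 * p 1 ^ 4 * p 2 ^ 3 * q 0 * q 1 * q 2 ^ 5 * κ ^ 4 * t ^ 4) + -(p 0 ^ 4 * p 1 ^ 4 * p 2 ^ 2 * q 0 ^ 5 * q 2 * κ ^ 3 * t ^ 4) + (-2) * (p 0 ^ 4 * p 1 ^ 4 * p 2 ^ 2 * q 0 ^ 3 * q 1 ^ 3 * κ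 ^ 3 * t ^ 4) + (-2) * (p 0 ^ 4 * p 1 ^ 4 * p 2 ^ 2 * q 0 ^ 2 * q 1 ^ 2 * q 2 ^ 3 * κ ^ 4 * t ^ 3) + (-3) * (p 0 ^ 4 * p 1 ^ 4 * p 2 ^ 2 * q 0 ^ 2 * q 2 ^ 4 * κ ^ 3 * t ^ 4) + -(p 0 ^ 4 * p 1 ^ 4 * p 2 * q 0 ^ 3 * q 1 * q 2 ^ 2 * κ ^ 4 * t * u) + (-3) * (p 0 ^ 4 * p 1 ^ 4 * p 2 * q 0 ^ 3 * q 1 * q 2 ^ 2 * κ ^ 3 * t ^ 3) + (-2) * (p 0 ^ 4 * p 1 ^ 4 * p 2 * q 0 * q 1 ^ 2 * q 2 ^ 2 * κ ^ 2 * t ^ 4) + -(p 0 ^ 4 * p 1 ^ 4 * q 0 ^ 4 * q 2 * κ ^ 3 * t * u) + -(p 0 ^ 4 * p 1 ^ 4 * q 0 ^ 4 * q 2 * κ ^ 2 * t ^ 3) + -(p 0 ^ 4 * p 1 ^ 4 * q 0 ^ 2 * q 1 ^ 3 * κ ^ 2 * t ^ 3) + (-2) * (p 0 ^ 4 * p 1 ^ 4 * q 0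 ^ 2 * q 1 * q 2 * κ ^ 2 * t ^ 2 * u) + -(p 0 ^ 4 * p 1 ^ 4 * q 0 ^ 2 * q 1 * q 2 * κ * t ^ 4) + -(p 0 ^ 4 * p 1 ^ 3 * p 2 ^ 3 * q 0 ^ 5 * q 1 * κ ^ 3 * t ^ 4) + (-2) * (p 0 ^ 4 * p 1 ^ 3 * p 2 ^ 3 * q 0 ^ 4 * q 2 ^ 3 * κ ^ 4 * t ^ 3) + (-2) * (p 0 ^ 4 * p 1 ^ 3 * p 2 ^ 3 * q 0 ^ 2 * q 1 * q 2 ^ 3 * κ ^ 3 * t ^ 4) + -(p 0 ^ 4 * p 1 ^ 3 * p 2 ^ 2 * q 0 ^ 3 * q 1 ^ 2 * q 2 * κ ^ 4 * t * u) + (-3) * (p 0 ^ 4 * p 1 ^ 3 * p 2 ^ 2 * q 0 ^ 3 * q 1 ^ 2 * q 2 * κ ^ 3 * t ^ 3) + (-4) * (p 0 ^ 4 * p 1 ^ 3 * p 2 ^ 2 * q 0 ^ 3 * q 2 ^ 2 * κ ^ 2 * t ^ 4) + -(p 0 ^ 4 * p 1 ^ 3 * p 2 ^ 2 * q 0 * q 1 ^ 3 * q 2 *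 κ ^ 2 * t ^ 4) + -(p 0 ^ 4 * p 1 ^ 3 * p 2 ^ 2 * q 1 ^ 2 * q 2 ^ 4 * κ ^ 3 * t ^ 3) + -(p 0 ^ 4 * p 1 ^ 3 * p 2 * q 0 ^ 6 * κ ^ 3 * t ^ 2) + (-2) * (p 0 ^ 4 * p 1 ^ 3 * p 2 * q 0 ^ 4 * q 1 * κ ^ 3 * t * u) + -(p 0 ^ 4 * p 1 ^ 3 * p 2 * q 0 ^ 4 * q 1 * κ ^ 2 * t ^ 3) + (-2) * (p 0 ^ 4 * p 1 ^ 3 * p 2 * q 0 ^ 3 * q 2 ^ 3 * κ ^ 3 * t ^ 2) + -(p 0 ^ 4 * p 1 ^ 3 * p 2 * q 0 ^ 2 * q 1 ^ 2 * κ * t ^ 4) + -(p 0 ^ 4 * p 1 ^ 3 * p 2 * q 0 * q 1 * q 2 ^ 3 * κ ^ 3 * t * u) + (-2) * (p 0 ^ 4 * p 1 ^ 3 * p 2 * q 0 * q 1 * q 2 ^ 3 * κ ^ 2 * t ^ 3) + (-2) * (p 0 ^ 4 * p 1 ^ 3 * q 0 ^ 2 * q 1 ^ 2 * q 2 * κ ^ 2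 * t ^ 2) + -(p 0 ^ 4 * p 1 ^ 3 * q 0 ^ 2 * q 2 ^ 2 * κ ^ 2 * t * u) + (-2) * (p 0 ^ 4 * p 1 ^ 3 * q 0 ^ 2 * q 2 ^ 2 * κ * t ^ 3) + (-3) * (p 0 ^ 4 * p 1 ^ 2 * p 2 ^ 4 * q 0 ^ 4 * q 1 * q 2 ^ 2 * κ ^ 4 * t ^ 3) + -(p 0 ^ 4 * p 1 ^ 2 * p 2 ^ 4 * q 0 ^ 2 * q 1 ^ 2 * q 2 ^ 2 * κ ^ 3 * t ^ 4) + (-2) * (p 0 ^ 4 * p 1 ^ 2 * p 2 ^ 3 * q 0 ^ 5 * q 2 * κ ^ 3 * t ^ 3) + (-2) * (p 0 ^ 4 * p 1 ^ 2 * p 2 ^ 3 * q 0 ^ 3 * q 1 ^ 3 * κ ^ 3 * t ^ 3) + -(p 0 ^ 4 * p 1 ^ 2 * p 2 ^ 3 * q 0 ^ 3 * q 1 * q 2 * κ ^ 2 * t ^ 4) + -(p 0 ^ 4 * p 1 ^ 2 * p 2 ^ 3 * q 0 ^ 2 * q 2 ^ 4 * κ ^ 4 * t * u) + -(p 0 ^ 4 * p 1 ^ 2 * p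 2 ^ 3 * q 0 ^ 2 * q 2 ^ 4 * κ ^ 3 * t ^ 3) + -(p 0 ^ 4 * p 1 ^ 2 * p 2 ^ 3 * q 0 * q 1 ^ 4 * κ ^ 2 * t ^ 4) + -(p 0 ^ 4 * p 1 ^ 2 * p 2 ^ 2 * q 0 ^ 4 * κ ^ 2 * t ^ 2 * u) + (-4) * (p 0 ^ 4 * p 1 ^ 2 * p 2 ^ 2 * q 0 ^ 3 * q 1 * q 2 ^ 2 * κ ^ 3 * t ^ 2) + (-2) * (p 0 ^ 4 * p 1 ^ 2 * p 2 ^ 2 * q 0 * q 1 ^ 2 * q 2 ^ 2 * κ ^ 2 * t ^ 3) + -(p 0 ^ 4 * p 1 ^ 2 * p 2 ^ 2 * q 0 * q 2 ^ 3 * κ ^ 2 * t ^ 2 * u) + (-2) * (p 0 ^ 4 * p 1 ^ 2 * p 2 * q 0 ^ 4 * q 2 * κ ^ 2 * t ^ 2) + -(p 0 ^ 4 * p 1 ^ 2 * p 2 * q 0 ^ 2 * q 1 ^ 3 * κ ^ 2 * t ^ 2) + (-2) * (p 0 ^ 4 * p 1 ^ 2 * p 2 * q 0 ^ 2 * q 1 * q 2 * κ ^ 2 * t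 * u) + (-2) * (p 0 ^ 4 * p 1 ^ 2 * p 2 * q 0 ^ 2 * q 1 * q 2 * κ * t ^ 3) + -(p 0 ^ 4 * p 1 ^ 2 * p 2 * q 0 * q 2 ^ 4 * κ ^ 3 * u) + -(p 0 ^ 4 * p 1 ^ 2 * p 2 * q 1 ^ 4 * κ * t ^ 3) + -(p 0 ^ 4 * p 1 ^ 2 * q 0 ^ 3 * κ * t * u) + (-2) * (p 0 ^ 4 * p 1 ^ 2 * q 0 ^ 2 * q 1 * q 2 ^ 2 * κ ^ 2 * t) + -(p 0 ^ 4 * p 1 ^ 2 * q 0 * q 1 * t ^ 2 * u) + (-2) * (p 0 ^ 4 * p 1 * p 2 ^ 5 * q 0 ^ 4 * q 2 ^ 2 * κ ^ 3 * t ^ 4) + (-2) * (p 0 ^ 4 * p 1 * p 2 ^ 4 * q 0 ^ 5 * q 1 * κ ^ 4 * t * u) + -(p 0 ^ 4 * p 1 * p 2 ^ 4 * q 0 ^ 5 * q 1 * κ ^ 3 * t ^ 3) + -(p 0 ^ 4 * p 1 * p 2 ^ 4 * q 0 ^ 3 * q 1 ^ 2 * κ ^ 2 * t ^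 4) + -(p 0 ^ 4 * p 1 * p 2 ^ 4 * q 0 ^ 2 * q 1 * q 2 ^ 3 * κ ^ 3 * t ^ 3) + (-2) * (p 0 ^ 4 * p 1 * p 2 ^ 3 * q 0 ^ 3 * q 1 ^ 2 * q 2 * κ ^ 3 * t ^ 2) + (-2) * (p 0 ^ 4 * p 1 * p 2 ^ 3 * q 0 ^ 3 * q 2 ^ 2 * κ ^ 3 * t * u) + (-5) * (p 0 ^ 4 * p 1 * p 2 ^ 3 * q 0 ^ 3 * q 2 ^ 2 * κ ^ 2 * t ^ 3) + -(p 0 ^ 4 * p 1 * p 2 ^ 3 * q 0 * q 1 * q 2 ^ 2 * κ ^ 2 * t ^ 2 * u) + -(p 0 ^ 4 * p 1 * p 2 ^ 2 * q 0 ^ 4 * q 1 * κ ^ 3 * u) + (-2) * (p 0 ^ 4 * p 1 * p 2 ^ 2 * q 0 ^ 4 * q 1 * κ ^ 2 * t ^ 2) + (-2) * (p 0 ^ 4 * p 1 * p 2 ^ 2 * q 0 ^ 2 * q 1 ^ 2 * κ * t ^ 3) + -(p 0 ^ 4 * p 1 * p 2 ^ 2 * q 0 ^ 2 * q 2 *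 κ * t ^ 2 * u) + -(p 0 ^ 4 * p 1 * p 2 ^ 2 * q 0 * q 1 * q 2 ^ 3 * κ ^ 2 * t ^ 2) + -(p 0 ^ 4 * p 1 * p 2 ^ 2 * q 1 ^ 3 * κ * t ^ 2 * u) + -(p 0 ^ 4 * p 1 * p 2 * q 0 ^ 2 * q 1 ^ 2 * q 2 * κ ^ 2 * t) + -(p 0 ^ 4 * p 1 * p 2 * q 0 ^ 2 * q 2 ^ 2 * κ ^ 2 * u) + (-2) * (p 0 ^ 4 * p 1 * p 2 * q 0 ^ 2 * q 2 ^ 2 * κ * t ^ 2) + -(p 0 ^ 4 * p 1 * p 2 * q 1 ^ 3 * q 2 * κ * t ^ 2) + -(p 0 ^ 4 * p 1 * p 2 * q 1 * q 2 ^ 2 * κ * t * u) + -(p 0 ^ 4 * p 1 * q 0 ^ 3 * q 1 * κ * t) + -(p 0 ^ 4 * p 1 * q 0 * q 1 ^ 2 * t ^ 2) + -(p 0 ^ 4 * p 1 * q 0 * q 2 * t * u) + -(p 0 ^ 4 * p 2 ^ 6 * q 0 ^ 3 * q 2 ^ 4 * κ ^ 4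 * t ^ 3) + -(p 0 ^ 4 * p 2 ^ 5 * q 0 ^ 5 * κ ^ 2 * t ^ 4) + -(p 0 ^ 4 * p 2 ^ 5 * q 0 ^ 2 * q 1 ^ 2 * q 2 ^ 2 * κ ^ 3 * t ^ 3) + (-2) * (p 0 ^ 4 * p 2 ^ 4 * q 0 ^ 5 * q 2 * κ ^ 3 * t ^ 2) + -(p 0 ^ 4 * p 2 ^ 4 * q 0 ^ 2 * q 2 ^ 4 * κ ^ 3 * t ^ 2) + (-2) * (p 0 ^ 4 * p 2 ^ 3 * q 0 ^ 4 * κ ^ 2 * t * u) + -(p 0 ^ 4 * p 2 ^ 3 * q 0 ^ 4 * κ * t ^ 3) + -(p 0 ^ 4 * p 2 ^ 3 * q 0 * q 1 ^ 2 * q 2 ^ 2 * κ ^ 2 * t ^ 2) + (-2) * (p 0 ^ 4 * p 2 ^ 2 * q 0 ^ 4 * q 2 * κ ^ 2 * t) + -(p 0 ^ 4 * p 2 ^ 2 * q 0 ^ 2 * q 1 ^ 3 * κ ^ 2 * t) + (-2) * (p 0 ^ 4 * p 2 ^ 2 * q 0 ^ 2 * q 1 * q 2 * κ * t ^ 2) + -(p 0 ^ 4 *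 p 2 * q 0 ^ 3 * t ^ 2) + -(p 0 ^ 4 * p 2 * q 0 * q 1 * t * u) + -(p 0 ^ 4 * q 0 * q 1 * q 2 * t) + (-2) * (p 0 ^ 3 * p 1 ^ 6 * p 2 ^ 2 * q 0 ^ 3 * q 1 ^ 2 * q 2 ^ 2 * κ ^ 4 * t ^ 4) + -(p 0 ^ 3 * p 1 ^ 6 * p 2 * q 0 ^ 4 * q 1 * q 2 * κ ^ 3 * t ^ 4) + -(p 0 ^ 3 * p 1 ^ 6 * p 2 * q 0 * q 1 * q 2 ^ 4 * κ ^ 3 * t ^ 4) + -(p 0 ^ 3 * p 1 ^ 6 * q 0 ^ 2 * q 1 ^ 2 * q 2 ^ 2 * κ ^ 3 * t ^ 3) + -(p 0 ^ 3 * p 1 ^ 6 * q 0 ^ 2 * q 2 ^ 3 * κ ^ 2 * t ^ 4) + (-2) * (p 0 ^ 3 * p 1 ^ 5 * p 2 ^ 2 * q 0 ^ 3 * q 1 * q 2 ^ 3 * κ ^ 4 * t ^ 3) + -(p 0 ^ 3 * p 1 ^ 5 * p 2 ^ 2 * q 0 * q 1 ^ 2 * q 2 ^ 3 * κ ^ 3 * t ^ 4) +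 (-2) * (p 0 ^ 3 * p 1 ^ 5 * p 2 * q 0 ^ 4 * q 2 ^ 2 * κ ^ 3 * t ^ 3) + -(p 0 ^ 3 * p 1 ^ 5 * p 2 * q 0 ^ 2 * q 1 ^ 3 * q 2 * κ ^ 3 * t ^ 3) + (-2) * (p 0 ^ 3 * p 1 ^ 5 * p 2 * q 0 ^ 2 * q 1 * q 2 ^ 2 * κ ^ 2 * t ^ 4) + -(p 0 ^ 3 * p 1 ^ 5 * q 0 ^ 3 * q 1 ^ 2 * κ ^ 2 * t ^ 3) + -(p 0 ^ 3 * p 1 ^ 5 * q 0 ^ 3 * q 2 * κ * t ^ 4) + -(p 0 ^ 3 * p 1 ^ 5 * q 0 ^ 2 * q 1 * q 2 ^ 3 * κ ^ 3 * t ^ 2) + -(p 0 ^ 3 * p 1 ^ 4 * p 2 ^ 4 * q 0 ^ 2 * q 1 * q 2 ^ 4 * κ ^ 4 * t ^ 4) + (-2) * (p 0 ^ 3 * p 1 ^ 4 * p 2 ^ 3 * q 0 ^ 3 * q 1 ^ 2 * q 2 ^ 2 * κ ^ 4 * t ^ 3) + (-2) * (p 0 ^ 3 * p 1 ^ 4 * p 2 ^ 3 * q 0 ^ 3 *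 q 2 ^ 3 * κ ^ 3 * t ^ 4) + (-3) * (p 0 ^ 3 * p 1 ^ 4 * p 2 ^ 3 * q 0 * q 1 ^ 3 * q 2 ^ 2 * κ ^ 3 * t ^ 4) + -(p 0 ^ 3 * p 1 ^ 4 * p 2 ^ 2 * q 0 ^ 4 * q 1 * q 2 * κ ^ 4 * t * u) + (-2) * (p 0 ^ 3 * p 1 ^ 4 * p 2 ^ 2 * q 0 ^ 4 * q 1 * q 2 * κ ^ 3 * t ^ 3) + (-3) * (p 0 ^ 3 * p 1 ^ 4 * p 2 ^ 2 * q 0 ^ 2 * q 1 ^ 2 * q 2 * κ ^ 2 * t ^ 4) + -(p 0 ^ 3 * p 1 ^ 4 * p 2 ^ 2 * q 0 * q 1 * q 2 ^ 4 * κ ^ 4 * t * u) + -(p 0 ^ 3 * p 1 ^ 4 * p 2 ^ 2 * q 0 * q 1 * q 2 ^ 4 * κ ^ 3 * t ^ 3) + -(p 0 ^ 3 * p 1 ^ 4 * p 2 ^ 2 * q 1 ^ 5 * κ ^ 2 * t ^ 4) + -(p 0 ^ 3 * p 1 ^ 4 * p 2 * q 0 ^ 5 * κ ^ 2 * t ^ 3) + (-2) * (p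 0 ^ 3 * p 1 ^ 4 * p 2 * q 0 ^ 3 * q 1 * κ ^ 2 * t ^ 2 * u) + (-2) * (p 0 ^ 3 * p 1 ^ 4 * p 2 * q 0 ^ 2 * q 1 ^ 2 * q 2 ^ 2 * κ ^ 3 * t ^ 2) + -(p 0 ^ 3 * p 1 ^ 4 * p 2 * q 0 ^ 2 * q 2 ^ 3 * κ ^ 3 * t * u) + (-3) * (p 0 ^ 3 * p 1 ^ 4 * p 2 * q 0 ^ 2 * q 2 ^ 3 * κ ^ 2 * t ^ 3) + (-2) * (p 0 ^ 3 * p 1 ^ 4 * p 2 * q 1 ^ 3 * q 2 ^ 2 * κ ^ 2 * t ^ 3) + -(p 0 ^ 3 * p 1 ^ 4 * q 0 ^ 3 * q 1 * q 2 * κ ^ 3 * u) + (-2) * (p 0 ^ 3 * p 1 ^ 4 * q 0 ^ 3 * q 1 * q 2 * κ ^ 2 * t ^ 2) + -(p 0 ^ 3 * p 1 ^ 4 * q 0 * q 1 ^ 2 * q 2 * κ ^ 2 * t * u) + -(p 0 ^ 3 * p 1 ^ 4 * q 0 * q 1 ^ 2 * q 2 * κ * t ^ 3) + -(p 0 ^ 3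 * p 1 ^ 4 * q 0 * q 2 ^ 2 * κ * t ^ 2 * u) + (-2) * (p 0 ^ 3 * p 1 ^ 3 * p 2 ^ 4 * q 0 ^ 3 * q 1 * q 2 ^ 2 * κ ^ 3 * t ^ 4) + -(p 0 ^ 3 * p 1 ^ 3 * p 2 ^ 4 * q 0 ^ 2 * q 2 ^ 5 * κ ^ 4 * t ^ 3) + -(p 0 ^ 3 * p 1 ^ 3 * p 2 ^ 3 * q 0 ^ 4 * q 1 ^ 2 * κ ^ 4 * t * u) + (-2) * (p 0 ^ 3 * p 1 ^ 3 * p 2 ^ 3 * q 0 ^ 4 * q 2 * κ ^ 2 * t ^ 4) + -(p 0 ^ 3 * p 1 ^ 3 * p 2 ^ 3 * q 0 ^ 2 * q 1 ^ 3 * κ ^ 2 * t ^ 4) + -(p 0 ^ 3 * p 1 ^ 3 * p 2 ^ 3 * q 0 * q 1 ^ 2 * q 2 ^ 3 * κ ^ 4 * t * u) + (-2) * (p 0 ^ 3 * p 1 ^ 3 * p 2 ^ 3 * q 0 * q 1 ^ 2 * q 2 ^ 3 * κ ^ 3 * t ^ 3) + -(p 0 ^ 3 * p 1 ^ 3 * p 2 ^ 3 * q 0 * q 2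 ^ 4 * κ ^ 2 * t ^ 4) + (-2) * (p 0 ^ 3 * p 1 ^ 3 * p 2 ^ 2 * q 0 ^ 4 * q 2 ^ 2 * κ ^ 3 * t ^ 2) + (-2) * (p 0 ^ 3 * p 1 ^ 3 * p 2 ^ 2 * q 0 ^ 2 * q 1 * q 2 ^ 2 * κ ^ 3 * t * u) + (-5) * (p 0 ^ 3 * p 1 ^ 3 * p 2 ^ 2 * q 0 ^ 2 * q 1 * q 2 ^ 2 * κ ^ 2 * t ^ 3) + -(p 0 ^ 3 * p 1 ^ 3 * p 2 ^ 2 * q 0 * q 2 ^ 5 * κ ^ 3 * t ^ 2) + -(p 0 ^ 3 * p 1 ^ 3 * p 2 ^ 2 * q 1 ^ 4 * q 2 * κ ^ 2 * t ^ 3) + -(p 0 ^ 3 * p 1 ^ 3 * p 2 ^ 2 * q 1 ^ 2 * q 2 ^ 2 * κ ^ 2 * t ^ 2 * u) + -(p 0 ^ 3 * p 1 ^ 3 * p 2 ^ 2 * q 1 ^ 2 * q 2 ^ 2 * κ * t ^ 4) + -(p 0 ^ 3 * p 1 ^ 3 * p 2 * q 0 ^ 3 * q 1 ^ 2 * κ ^ 3 * u) + -(p 0 ^ 3 *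 p 1 ^ 3 * p 2 * q 0 ^ 3 * q 1 ^ 2 * κ ^ 2 * t ^ 2) + (-2) * (p 0 ^ 3 * p 1 ^ 3 * p 2 * q 0 ^ 3 * q 2 * κ ^ 2 * t * u) + (-3) * (p 0 ^ 3 * p 1 ^ 3 * p 2 * q 0 ^ 3 * q 2 * κ * t ^ 3) + (-2) * (p 0 ^ 3 * p 1 ^ 3 * p 2 * q 0 * q 1 ^ 3 * κ * t ^ 3) + (-2) * (p 0 ^ 3 * p 1 ^ 3 * p 2 * q 0 * q 1 * q 2 * κ * t ^ 2 * u) + (-2) * (p 0 ^ 3 * p 1 ^ 3 * p 2 * q 1 ^ 2 * q 2 ^ 3 * κ ^ 2 * t ^ 2) + -(p 0 ^ 3 * p 1 ^ 3 * p 2 * q 2 ^ 4 * κ ^ 2 * t * u) + -(p 0 ^ 3 * p 1 ^ 3 * q 0 ^ 3 * q 2 ^ 2 * κ ^ 2 * t) + -(p 0 ^ 3 * p 1 ^ 3 * q 0 ^ 2 * t ^ 2 * u) + -(p 0 ^ 3 * p 1 ^ 3 * q 0 * q 1 * q 2 ^ 2 * κ ^ 2 * u) + -(p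 0 ^ 3 * p 1 ^ 3 * q 0 * q 1 * q 2 ^ 2 * κ * t ^ 2) + (-2) * (p 0 ^ 3 * p 1 ^ 2 * p 2 ^ 5 * q 0 ^ 2 * q 1 * q 2 ^ 4 * κ ^ 4 * t ^ 3) + -(p 0 ^ 3 * p 1 ^ 2 * p 2 ^ 4 * q 0 ^ 6 * κ ^ 3 * t ^ 3) + -(p 0 ^ 3 * p 1 ^ 2 * p 2 ^ 4 * q 0 ^ 4 * q 1 * κ ^ 2 * t ^ 4) + -(p 0 ^ 3 * p 1 ^ 2 * p 2 ^ 4 * q 0 ^ 3 * q 2 ^ 3 * κ ^ 3 * t ^ 3) + -(p 0 ^ 3 * p 1 ^ 2 * p 2 ^ 4 * q 0 * q 1 ^ 3 * q 2 ^ 2 * κ ^ 3 * t ^ 3) + (-2) * (p 0 ^ 3 * p 1 ^ 2 * p 2 ^ 3 * q 0 ^ 4 * q 1 * q 2 * κ ^ 3 * t ^ 2) + -(p 0 ^ 3 * p 1 ^ 2 * p 2 ^ 3 * q 0 ^ 2 * q 1 ^ 2 * q 2 * κ ^ 3 * t * u) + (-2) * (p 0 ^ 3 * p 1 ^ 2 * p 2 ^ 3 * q 0 ^ 2 *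 q 1 ^ 2 * q 2 * κ ^ 2 * t ^ 3) + -(p 0 ^ 3 * p 1 ^ 2 * p 2 ^ 3 * q 0 ^ 2 * q 2 ^ 2 * κ ^ 2 * t ^ 2 * u) + (-2) * (p 0 ^ 3 * p 1 ^ 2 * p 2 ^ 3 * q 0 * q 1 * q 2 ^ 4 * κ ^ 3 * t ^ 2) + -(p 0 ^ 3 * p 1 ^ 2 * p 2 ^ 2 * q 0 ^ 5 * κ ^ 2 * t ^ 2) + (-4) * (p 0 ^ 3 * p 1 ^ 2 * p 2 ^ 2 * q 0 ^ 3 * q 1 * κ ^ 2 * t * u) + -(p 0 ^ 3 * p 1 ^ 2 * p 2 ^ 2 * q 0 ^ 3 * q 1 * κ * t ^ 3) + (-4) * (p 0 ^ 3 * p 1 ^ 2 * p 2 ^ 2 * q 0 ^ 2 * q 2 ^ 3 * κ ^ 2 * t ^ 2) + (-2) * (p 0 ^ 3 * p 1 ^ 2 * p 2 ^ 2 * q 0 * q 1 ^ 2 * κ * t ^ 2 * u) + -(p 0 ^ 3 * p 1 ^ 2 * p 2 ^ 2 * q 1 ^ 3 * q 2 ^ 2 * κ ^ 2 * t ^ 2) + (-3) * (p 0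 ^ 3 * p 1 ^ 2 * p 2 * q 0 ^ 3 * q 1 * q 2 * κ ^ 2 * t) + (-3) * (p 0 ^ 3 * p 1 ^ 2 * p 2 * q 0 * q 1 ^ 2 * q 2 * κ * t ^ 2) + (-2) * (p 0 ^ 3 * p 1 ^ 2 * p 2 * q 0 * q 2 ^ 2 * κ * t * u) + -(p 0 ^ 3 * p 1 ^ 2 * q 0 ^ 4 * κ * t) + -(p 0 ^ 3 * p 1 ^ 2 * q 0 ^ 2 * q 1 * t ^ 2) + -(p 0 ^ 3 * p 1 ^ 2 * q 1 ^ 2 * t * u) + -(p 0 ^ 3 * p 1 * p 2 ^ 6 * q 0 ^ 2 * q 2 ^ 4 * κ ^ 3 * t ^ 4) + -(p 0 ^ 3 * p 1 * p 2 ^ 5 * q 0 ^ 3 * q 1 * q 2 ^ 2 * κ ^ 4 * t * u) + (-2) * (p 0 ^ 3 * p 1 * p 2 ^ 5 * q 0 ^ 3 * q 1 * q 2 ^ 2 * κ ^ 3 * t ^ 3) + -(p 0 ^ 3 * p 1 * p 2 ^ 5 * q 0 * q 1 ^ 2 * q 2 ^ 2 * κ ^ 2 * t ^ 4) +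 (-2) * (p 0 ^ 3 * p 1 * p 2 ^ 4 * q 0 ^ 4 * q 1 ^ 2 * κ ^ 3 * t ^ 2) + (-3) * (p 0 ^ 3 * p 1 * p 2 ^ 4 * q 0 ^ 4 * q 2 * κ ^ 2 * t ^ 3) + (-2) * (p 0 ^ 3 * p 1 * p 2 ^ 4 * q 0 ^ 2 * q 1 ^ 3 * κ ^ 2 * t ^ 3) + -(p 0 ^ 3 * p 1 * p 2 ^ 4 * q 0 ^ 2 * q 1 * q 2 * κ ^ 2 * t ^ 2 * u) + -(p 0 ^ 3 * p 1 * p 2 ^ 4 * q 0 * q 2 ^ 4 * κ ^ 2 * t ^ 3) + -(p 0 ^ 3 * p 1 * p 2 ^ 3 * q 0 ^ 3 * κ * t ^ 2 * u) + -(p 0 ^ 3 * p 1 * p 2 ^ 3 * q 0 ^ 2 * q 1 * q 2 ^ 2 * κ ^ 3 * u) + (-3) * (p 0 ^ 3 * p 1 * p 2 ^ 3 * q 0 ^ 2 * q 1 * q 2 ^ 2 * κ ^ 2 * t ^ 2) + -(p 0 ^ 3 * p 1 * p 2 ^ 3 * q 1 ^ 2 * q 2 ^ 2 * κ * t ^ 3) +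 (-2) * (p 0 ^ 3 * p 1 * p 2 ^ 2 * q 0 ^ 3 * q 1 ^ 2 * κ ^ 2 * t) + (-3) * (p 0 ^ 3 * p 1 * p 2 ^ 2 * q 0 ^ 3 * q 2 * κ * t ^ 2) + -(p 0 ^ 3 * p 1 * p 2 ^ 2 * q 0 * q 1 ^ 3 * κ * t ^ 2) + -(p 0 ^ 3 * p 1 * p 2 ^ 2 * q 0 * q 1 * q 2 * κ * t * u) + (-2) * (p 0 ^ 3 * p 1 * p 2 * q 0 ^ 2 * t * u) + (-2) * (p 0 ^ 3 * p 1 * p 2 * q 0 * q 1 * q 2 ^ 2 * κ * t) + -(p 0 ^ 3 * p 1 * p 2 * q 1 * u ^ 2) + -(p 0 ^ 3 * p 1 * q 0 ^ 2 * q 1 ^ 2 * κ) + -(p 0 ^ 3 * p 1 * q 0 ^ 2 * q 2 * t) + -(p 0 ^ 3 * p 1 * q 1 * q 2 * u) + -(p 0 ^ 3 * p 2 ^ 6 * q 0 ^ 3 * q 2 ^ 2 * κ ^ 2 * t ^ 4) + -(p 0 ^ 3 * p 2 ^ 5 * q 0 ^ 6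 * κ ^ 3 * t ^ 2) + (-2) * (p 0 ^ 3 * p 2 ^ 5 * q 0 ^ 4 * q 1 * κ ^ 3 * t * u) + -(p 0 ^ 3 * p 2 ^ 5 * q 0 ^ 3 * q 2 ^ 3 * κ ^ 3 * t ^ 2) + -(p 0 ^ 3 * p 2 ^ 5 * q 0 ^ 2 * q 1 ^ 2 * κ * t ^ 4) + -(p 0 ^ 3 * p 2 ^ 4 * q 0 ^ 2 * q 2 ^ 2 * κ ^ 2 * t * u) + -(p 0 ^ 3 * p 2 ^ 3 * q 0 ^ 5 * κ ^ 2 * t) + -(p 0 ^ 3 * p 2 ^ 3 * q 0 ^ 3 * q 1 * κ ^ 2 * u) + -(p 0 ^ 3 * p 2 ^ 3 * q 0 ^ 3 * q 1 * κ * t ^ 2) + (-2) * (p 0 ^ 3 * p 2 ^ 3 * q 0 ^ 2 * q 2 ^ 3 * κ ^ 2 * t) + -(p 0 ^ 3 * p 2 ^ 2 * q 0 * q 2 ^ 2 * κ * u) + -(p 0 ^ 3 * p 2 * q 0 ^ 2 * q 1 * t) + -(p 0 ^ 3 * p 2 * q 0 * q 2 ^ 3 * κ) + (-2) * (p 0 ^ 2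 * p 1 ^ 6 * p 2 ^ 3 * q 0 * q 1 ^ 2 * q 2 ^ 4 * κ ^ 4 * t ^ 4) + (-2) * (p 0 ^ 2 * p 1 ^ 6 * p 2 ^ 2 * q 0 ^ 2 * q 1 * q 2 ^ 3 * κ ^ 3 * t ^ 4) + (-2) * (p 0 ^ 2 * p 1 ^ 6 * p 2 ^ 2 * q 1 ^ 4 * q 2 ^ 2 * κ ^ 3 * t ^ 4) + -(p 0 ^ 2 * p 1 ^ 6 * p 2 * q 0 ^ 3 * q 1 ^ 2 * q 2 * κ ^ 3 * t ^ 3) + -(p 0 ^ 2 * p 1 ^ 6 * p 2 * q 0 ^ 3 * q 2 ^ 2 * κ ^ 2 * t ^ 4) + -(p 0 ^ 2 * p 1 ^ 6 * p 2 * q 0 * q 1 ^ 3 * q 2 * κ ^ 2 * t ^ 4) + -(p 0 ^ 2 * p 1 ^ 6 * p 2 * q 1 ^ 2 * q 2 ^ 4 * κ ^ 3 * t ^ 3) + -(p 0 ^ 2 * p 1 ^ 6 * q 0 * q 1 * q 2 ^ 3 * κ ^ 2 * t ^ 3) + -(p 0 ^ 2 * p 1 ^ 5 * p 2 ^ 3 * q 0 ^ 2 * q 1 ^ 2 *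 q 2 ^ 2 * κ ^ 3 * t ^ 4) + (-2) * (p 0 ^ 2 * p 1 ^ 5 * p 2 ^ 3 * q 0 * q 1 * q 2 ^ 5 * κ ^ 4 * t ^ 3) + -(p 0 ^ 2 * p 1 ^ 5 * p 2 ^ 2 * q 0 ^ 3 * q 1 ^ 3 * κ ^ 3 * t ^ 3) + -(p 0 ^ 2 * p 1 ^ 5 * p 2 ^ 2 * q 0 ^ 3 * q 1 * q 2 * κ ^ 2 * t ^ 4) + (-2) * (p 0 ^ 2 * p 1 ^ 5 * p 2 ^ 2 * q 0 ^ 2 * q 2 ^ 4 * κ ^ 3 * t ^ 3) + (-2) * (p 0 ^ 2 * p 1 ^ 5 * p 2 ^ 2 * q 1 ^ 3 * q 2 ^ 3 * κ ^ 3 * t ^ 3) + -(p 0 ^ 2 * p 1 ^ 5 * p 2 ^ 2 * q 1 * q 2 ^ 4 * κ ^ 2 * t ^ 4) + (-2) * (p 0 ^ 2 * p 1 ^ 5 * p 2 * q 0 ^ 3 * q 1 * q 2 ^ 2 * κ ^ 3 * t ^ 2) + -(p 0 ^ 2 * p 1 ^ 5 * p 2 * q 0 * q 1 ^ 2 * q 2 ^ 2 * κ ^ 3 * t *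 u) + (-4) * (p 0 ^ 2 * p 1 ^ 5 * p 2 * q 0 * q 1 ^ 2 * q 2 ^ 2 * κ ^ 2 * t ^ 3) + -(p 0 ^ 2 * p 1 ^ 5 * p 2 * q 0 * q 2 ^ 3 * κ * t ^ 4) + -(p 0 ^ 2 * p 1 ^ 5 * p 2 * q 1 * q 2 ^ 5 * κ ^ 3 * t ^ 2) + -(p 0 ^ 2 * p 1 ^ 5 * q 0 ^ 4 * q 2 * κ ^ 2 * t ^ 2) + (-2) * (p 0 ^ 2 * p 1 ^ 5 * q 0 ^ 2 * q 1 * q 2 * κ ^ 2 * t * u) + -(p 0 ^ 2 * p 1 ^ 5 * q 0 ^ 2 * q 1 * q 2 * κ * t ^ 3) + -(p 0 ^ 2 * p 1 ^ 5 * q 0 * q 2 ^ 4 * κ ^ 2 * t ^ 2) + -(p 0 ^ 2 * p 1 ^ 5 * q 1 ^ 4 * κ * t ^ 3) + (-2) * (p 0 ^ 2 * p 1 ^ 4 * p 2 ^ 4 * q 0 * q 1 ^ 2 * q 2 ^ 4 * κ ^ 4 * t ^ 3) + -(p 0 ^ 2 * p 1 ^ 4 * p 2 ^ 4 * q 0 * q 2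 ^ 5 * κ ^ 3 * t ^ 4) + -(p 0 ^ 2 * p 1 ^ 4 * p 2 ^ 3 * q 0 ^ 3 * q 1 ^ 2 * κ ^ 2 * t ^ 4) + -(p 0 ^ 2 * p 1 ^ 4 * p 2 ^ 3 * q 0 ^ 2 * q 1 * q 2 ^ 3 * κ ^ 4 * t * u) + (-2) * (p 0 ^ 2 * p 1 ^ 4 * p 2 ^ 3 * q 0 ^ 2 * q 1 * q 2 ^ 3 * κ ^ 3 * t ^ 3) + -(p 0 ^ 2 * p 1 ^ 4 * p 2 ^ 3 * q 1 ^ 4 * q 2 ^ 2 * κ ^ 3 * t ^ 3) + -(p 0 ^ 2 * p 1 ^ 4 * p 2 ^ 3 * q 1 ^ 2 * q 2 ^ 3 * κ ^ 2 * t ^ 4) + -(p 0 ^ 2 * p 1 ^ 4 * p 2 ^ 2 * q 0 ^ 3 * q 1 ^ 2 * q 2 * κ ^ 3 * t ^ 2) + (-3) * (p 0 ^ 2 * p 1 ^ 4 * p 2 ^ 2 * q 0 ^ 3 * q 2 ^ 2 * κ ^ 2 * t ^ 3) + -(p 0 ^ 2 * p 1 ^ 4 * p 2 ^ 2 * q 0 * q 1 ^ 3 * q 2 * κ ^ 3 * t *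 u) + (-2) * (p 0 ^ 2 * p 1 ^ 4 * p 2 ^ 2 * q 0 * q 1 ^ 3 * q 2 * κ ^ 2 * t ^ 3) + (-3) * (p 0 ^ 2 * p 1 ^ 4 * p 2 ^ 2 * q 0 * q 1 * q 2 ^ 2 * κ ^ 2 * t ^ 2 * u) + -(p 0 ^ 2 * p 1 ^ 4 * p 2 ^ 2 * q 1 ^ 2 * q 2 ^ 4 * κ ^ 3 * t ^ 2) + -(p 0 ^ 2 * p 1 ^ 4 * p 2 ^ 2 * q 2 ^ 5 * κ ^ 3 * t * u) + -(p 0 ^ 2 * p 1 ^ 4 * p 2 * q 0 ^ 4 * q 1 * κ ^ 2 * t ^ 2) + (-2) * (p 0 ^ 2 * p 1 ^ 4 * p 2 * q 0 ^ 2 * q 1 ^ 2 * κ ^ 2 * t * u) + (-2) * (p 0 ^ 2 * p 1 ^ 4 * p 2 * q 0 ^ 2 * q 1 ^ 2 * κ * t ^ 3) + (-2) * (p 0 ^ 2 * p 1 ^ 4 * p 2 * q 0 ^ 2 * q 2 * κ * t ^ 2 * u) + -(p 0 ^ 2 * p 1 ^ 4 * p 2 * q 0 * q 1 * q 2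 ^ 3 * κ ^ 3 * u) + (-2) * (p 0 ^ 2 * p 1 ^ 4 * p 2 * q 0 * q 1 * q 2 ^ 3 * κ ^ 2 * t ^ 2) + (-2) * (p 0 ^ 2 * p 1 ^ 4 * p 2 * q 1 ^ 3 * κ * t ^ 2 * u) + -(p 0 ^ 2 * p 1 ^ 4 * q 0 ^ 2 * q 1 ^ 2 * q 2 * κ ^ 2 * t) + (-3) * (p 0 ^ 2 * p 1 ^ 4 * q 0 ^ 2 * q 2 ^ 2 * κ * t ^ 2) + (-2) * (p 0 ^ 2 * p 1 ^ 4 * q 1 ^ 3 * q 2 * κ * t ^ 2) + -(p 0 ^ 2 * p 1 ^ 4 * q 1 * q 2 ^ 2 * κ * t * u) + -(p 0 ^ 2 * p 1 ^ 4 * q 1 * q 2 ^ 2 * t ^ 3) + -(p 0 ^ 2 * p 1 ^ 3 * p 2 ^ 5 * q 0 * q 1 * q 2 ^ 4 * κ ^ 3 * t ^ 4) + -(p 0 ^ 2 * p 1 ^ 3 * p 2 ^ 4 * q 0 ^ 2 * q 1 ^ 2 * q 2 ^ 2 * κ ^ 4 * t * u) + -(p 0 ^ 2 * p 1 ^ 3 *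 p 2 ^ 4 * q 0 ^ 2 * q 1 ^ 2 * q 2 ^ 2 * κ ^ 3 * t ^ 3) + (-2) * (p 0 ^ 2 * p 1 ^ 3 * p 2 ^ 4 * q 0 ^ 2 * q 2 ^ 3 * κ ^ 2 * t ^ 4) + (-2) * (p 0 ^ 2 * p 1 ^ 3 * p 2 ^ 3 * q 0 ^ 3 * q 1 * q 2 * κ ^ 3 * t * u) + (-3) * (p 0 ^ 2 * p 1 ^ 3 * p 2 ^ 3 * q 0 ^ 3 * q 1 * q 2 * κ ^ 2 * t ^ 3) + -(p 0 ^ 2 * p 1 ^ 3 * p 2 ^ 3 * q 0 ^ 2 * q 2 ^ 4 * κ ^ 3 * t ^ 2) + -(p 0 ^ 2 * p 1 ^ 3 * p 2 ^ 3 * q 0 * q 1 ^ 4 * κ ^ 2 * t ^ 3) + -(p 0 ^ 2 * p 1 ^ 3 * p 2 ^ 3 * q 0 * q 1 ^ 2 * q 2 * κ * t ^ 4) + -(p 0 ^ 2 * p 1 ^ 3 * p 2 ^ 3 * q 1 * q 2 ^ 4 * κ ^ 2 * t ^ 3) + -(p 0 ^ 2 * p 1 ^ 3 * p 2 ^ 2 * q 0 ^ 2 * q 1 * κ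 * t ^ 2 * u) + -(p 0 ^ 2 * p 1 ^ 3 * p 2 ^ 2 * q 0 * q 1 ^ 2 * q 2 ^ 2 * κ ^ 3 * u) + (-2) * (p 0 ^ 2 * p 1 ^ 3 * p 2 ^ 2 * q 0 * q 1 ^ 2 * q 2 ^ 2 * κ ^ 2 * t ^ 2) + (-2) * (p 0 ^ 2 * p 1 ^ 3 * p 2 ^ 2 * q 0 * q 2 ^ 3 * κ ^ 2 * t * u) + (-3) * (p 0 ^ 2 * p 1 ^ 3 * p 2 ^ 2 * q 0 * q 2 ^ 3 * κ * t ^ 3) + (-2) * (p 0 ^ 2 * p 1 ^ 3 * p 2 * q 0 ^ 4 * q 2 * κ ^ 2 * t) + -(p 0 ^ 2 * p 1 ^ 3 * p 2 * q 0 ^ 2 * q 1 ^ 3 * κ ^ 2 * t) + (-3) * (p 0 ^ 2 * p 1 ^ 3 * p 2 * q 0 ^ 2 * q 1 * q 2 * κ * t ^ 2) + -(p 0 ^ 2 * p 1 ^ 3 * p 2 * q 0 * q 2 ^ 4 * κ ^ 2 * t) + -(p 0 ^ 2 * p 1 ^ 3 * p 2 * q 1 ^ 4 * κ * t ^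 2) + -(p 0 ^ 2 * p 1 ^ 3 * p 2 * q 1 ^ 2 * q 2 * κ * t * u) + -(p 0 ^ 2 * p 1 ^ 3 * p 2 * q 2 ^ 2 * t ^ 2 * u) + -(p 0 ^ 2 * p 1 ^ 3 * q 0 ^ 3 * κ * u) + -(p 0 ^ 2 * p 1 ^ 3 * q 0 ^ 3 * t ^ 2) + (-2) * (p 0 ^ 2 * p 1 ^ 3 * q 0 * q 1 * t * u) + -(p 0 ^ 2 * p 1 ^ 3 * q 1 ^ 2 * q 2 ^ 2 * κ * t) + -(p 0 ^ 2 * p 1 ^ 3 * q 2 ^ 3 * κ * u) + -(p 0 ^ 2 * p 1 ^ 2 * p 2 ^ 5 * q 0 ^ 4 * q 2 ^ 2 * κ ^ 3 * t ^ 3) + -(p 0 ^ 2 * p 1 ^ 2 * p 2 ^ 5 * q 0 ^ 2 * q 1 ^ 3 * q 2 * κ ^ 4 * t * u) + (-2) * (p 0 ^ 2 * p 1 ^ 2 * p 2 ^ 5 * q 0 ^ 2 * q 1 * q 2 ^ 2 * κ ^ 2 * t ^ 4) + (-3) * (p 0 ^ 2 * p 1 ^ 2 * p 2 ^ 4 * q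 0 ^ 3 * q 1 ^ 2 * κ ^ 3 * t * u) + (-2) * (p 0 ^ 2 * p 1 ^ 2 * p 2 ^ 4 * q 0 ^ 3 * q 1 ^ 2 * κ ^ 2 * t ^ 3) + -(p 0 ^ 2 * p 1 ^ 2 * p 2 ^ 4 * q 0 ^ 3 * q 2 * κ * t ^ 4) + (-2) * (p 0 ^ 2 * p 1 ^ 2 * p 2 ^ 4 * q 0 ^ 2 * q 1 * q 2 ^ 3 * κ ^ 3 * t ^ 2) + -(p 0 ^ 2 * p 1 ^ 2 * p 2 ^ 4 * q 0 * q 1 ^ 3 * κ * t ^ 4) + (-2) * (p 0 ^ 2 * p 1 ^ 2 * p 2 ^ 3 * q 0 ^ 3 * q 2 ^ 2 * κ ^ 2 * t ^ 2) + (-3) * (p 0 ^ 2 * p 1 ^ 2 * p 2 ^ 3 * q 0 * q 1 * q 2 ^ 2 * κ ^ 2 * t * u) + -(p 0 ^ 2 * p 1 ^ 2 * p 2 ^ 3 * q 0 * q 1 * q 2 ^ 2 * κ * t ^ 3) + -(p 0 ^ 2 * p 1 ^ 2 * p 2 ^ 2 * q 0 ^ 4 * q 1 * κ ^ 2 * t) + -(p 0 ^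 2 * p 1 ^ 2 * p 2 ^ 2 * q 0 ^ 2 * q 1 ^ 2 * κ ^ 2 * u) + -(p 0 ^ 2 * p 1 ^ 2 * p 2 ^ 2 * q 0 ^ 2 * q 1 ^ 2 * κ * t ^ 2) + (-2) * (p 0 ^ 2 * p 1 ^ 2 * p 2 ^ 2 * q 0 ^ 2 * q 2 * κ * t * u) + (-3) * (p 0 ^ 2 * p 1 ^ 2 * p 2 ^ 2 * q 0 * q 1 * q 2 ^ 3 * κ ^ 2 * t) + (-2) * (p 0 ^ 2 * p 1 ^ 2 * p 2 * q 0 ^ 2 * q 2 ^ 2 * κ * t) + -(p 0 ^ 2 * p 1 ^ 2 * p 2 * q 0 * u ^ 2) + -(p 0 ^ 2 * p 1 ^ 2 * p 2 * q 1 ^ 3 * q 2 * κ * t) + -(p 0 ^ 2 * p 1 ^ 2 * p 2 * q 1 * q 2 ^ 2 * t ^ 2) + -(p 0 ^ 2 * p 1 ^ 2 * q 0 ^ 3 * q 1 * κ) + -(p 0 ^ 2 * p 1 ^ 2 * q 0 * q 1 ^ 2 * t) + -(p 0 ^ 2 * p 1 ^ 2 * q 0 * q 2 * u) + -(p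 0 ^ 2 * p 1 * p 2 ^ 6 * q 0 * q 1 * q 2 ^ 4 * κ ^ 3 * t ^ 3) + -(p 0 ^ 2 * p 1 * p 2 ^ 5 * q 0 ^ 5 * κ ^ 2 * t ^ 3) + -(p 0 ^ 2 * p 1 * p 2 ^ 5 * q 0 ^ 3 * q 1 * κ ^ 2 * t ^ 2 * u) + (-2) * (p 0 ^ 2 * p 1 * p 2 ^ 5 * q 0 ^ 2 * q 1 ^ 2 * q 2 ^ 2 * κ ^ 3 * t ^ 2) + (-2) * (p 0 ^ 2 * p 1 * p 2 ^ 5 * q 0 ^ 2 * q 2 ^ 3 * κ ^ 2 * t ^ 3) + -(p 0 ^ 2 * p 1 * p 2 ^ 5 * q 1 ^ 3 * q 2 ^ 2 * κ ^ 2 * t ^ 3) + (-2) * (p 0 ^ 2 * p 1 * p 2 ^ 4 * q 0 ^ 3 * q 1 * q 2 * κ ^ 2 * t ^ 2) + -(p 0 ^ 2 * p 1 * p 2 ^ 4 * q 0 * q 1 ^ 4 * κ ^ 2 * t ^ 2) + -(p 0 ^ 2 * p 1 * p 2 ^ 4 * q 0 * q 1 ^ 2 * q 2 * κ * t ^ 3) + -(p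 0 ^ 2 * p 1 * p 2 ^ 4 * q 0 * q 2 ^ 2 * κ * t ^ 2 * u) + -(p 0 ^ 2 * p 1 * p 2 ^ 3 * q 0 ^ 4 * κ * t ^ 2) + (-3) * (p 0 ^ 2 * p 1 * p 2 ^ 3 * q 0 ^ 2 * q 1 * κ * t * u) + -(p 0 ^ 2 * p 1 * p 2 ^ 3 * q 0 ^ 2 * q 1 * t ^ 3) + (-2) * (p 0 ^ 2 * p 1 * p 2 ^ 3 * q 0 * q 1 ^ 2 * q 2 ^ 2 * κ ^ 2 * t) + (-2) * (p 0 ^ 2 * p 1 * p 2 ^ 3 * q 0 * q 2 ^ 3 * κ * t ^ 2) + -(p 0 ^ 2 * p 1 * p 2 ^ 2 * q 0 ^ 2 * q 1 * q 2 * κ * t) + -(p 0 ^ 2 * p 1 * p 2 ^ 2 * q 2 ^ 2 * t * u) + -(p 0 ^ 2 * p 1 * p 2 * q 2 ^ 3 * t) + -(p 0 ^ 2 * p 2 ^ 7 * q 0 ^ 4 * q 1 ^ 2 * κ ^ 4 * t * u) + -(p 0 ^ 2 * p 2 ^ 6 * q 0 ^ 4 * q 2 ^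 2 * κ ^ 3 * t ^ 2) + -(p 0 ^ 2 * p 2 ^ 5 * q 0 ^ 3 * q 1 ^ 2 * κ ^ 3 * u) + -(p 0 ^ 2 * p 2 ^ 5 * q 0 ^ 3 * q 1 ^ 2 * κ ^ 2 * t ^ 2) + -(p 0 ^ 2 * p 2 ^ 5 * q 0 ^ 3 * q 2 * κ * t ^ 3) + -(p 0 ^ 2 * p 2 ^ 4 * q 0 ^ 3 * q 2 ^ 2 * κ ^ 2 * t) + -(p 0 ^ 2 * p 2 ^ 4 * q 0 ^ 2 * t ^ 2 * u) + -(p 0 ^ 2 * p 2 ^ 3 * q 0 ^ 2 * q 1 ^ 2 * κ * t) + -(p 0 ^ 2 * p 2 ^ 3 * q 0 ^ 2 * q 2 * t ^ 2) + (-2) * (p 0 ^ 2 * p 2 ^ 2 * q 0 ^ 2 * q 2 ^ 2 * κ) + -(p 0 * p 1 ^ 8 * p 2 ^ 2 * q 1 ^ 3 * q 2 ^ 4 * κ ^ 4 * t ^ 4) + -(p 0 * p 1 ^ 8 * p 2 * q 0 * q 1 ^ 2 * q 2 ^ 3 * κ ^ 3 * t ^ 4) + -(p 0 * p 1 ^ 7 * p 2 ^ 2 * q 1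 ^ 2 * q 2 ^ 5 * κ ^ 4 * t ^ 3) + (-2) * (p 0 * p 1 ^ 7 * p 2 * q 0 * q 1 * q 2 ^ 4 * κ ^ 3 * t ^ 3) + -(p 0 * p 1 ^ 7 * q 0 ^ 2 * q 2 ^ 3 * κ ^ 2 * t ^ 3) + -(p 0 * p 1 ^ 7 * q 1 ^ 3 * q 2 ^ 2 * κ ^ 2 * t ^ 3) + -(p 0 * p 1 ^ 6 * p 2 ^ 3 * q 1 ^ 3 * q 2 ^ 4 * κ ^ 4 * t ^ 3) + -(p 0 * p 1 ^ 6 * p 2 ^ 3 * q 1 * q 2 ^ 5 * κ ^ 3 * t ^ 4) + (-3) * (p 0 * p 1 ^ 6 * p 2 ^ 2 * q 0 * q 1 ^ 2 * q 2 ^ 3 * κ ^ 3 * t ^ 3) + -(p 0 * p 1 ^ 6 * p 2 ^ 2 * q 0 * q 2 ^ 4 * κ ^ 2 * t ^ 4) + (-2) * (p 0 * p 1 ^ 6 * p 2 * q 0 ^ 2 * q 1 * q 2 ^ 2 * κ ^ 2 * t ^ 3) + (-2) * (p 0 * p 1 ^ 6 * p 2 * q 1 ^ 2 * q 2 ^ 2 * κ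 ^ 2 * t ^ 2 * u) + -(p 0 * p 1 ^ 6 * q 0 ^ 3 * q 2 * κ * t ^ 3) + -(p 0 * p 1 ^ 6 * q 0 * q 1 * q 2 * κ * t ^ 2 * u) + -(p 0 * p 1 ^ 6 * q 1 ^ 2 * q 2 ^ 3 * κ ^ 2 * t ^ 2) + -(p 0 * p 1 ^ 5 * p 2 ^ 3 * q 0 * q 1 ^ 3 * q 2 ^ 2 * κ ^ 3 * t ^ 3) + -(p 0 * p 1 ^ 5 * p 2 ^ 3 * q 0 * q 1 * q 2 ^ 3 * κ ^ 2 * t ^ 4) + -(p 0 * p 1 ^ 5 * p 2 ^ 2 * q 0 ^ 2 * q 1 ^ 2 * q 2 * κ ^ 3 * t * u) + -(p 0 * p 1 ^ 5 * p 2 ^ 2 * q 0 ^ 2 * q 2 ^ 2 * κ * t ^ 4) + (-2) * (p 0 * p 1 ^ 5 * p 2 ^ 2 * q 0 * q 1 * q 2 ^ 4 * κ ^ 3 * t ^ 2) + -(p 0 * p 1 ^ 5 * p 2 * q 0 ^ 2 * q 2 ^ 3 * κ ^ 2 * t ^ 2) + (-2) * (p 0 * p 1 ^ 5 *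 p 2 * q 1 ^ 3 * q 2 ^ 2 * κ ^ 2 * t ^ 2) + (-3) * (p 0 * p 1 ^ 5 * p 2 * q 1 * q 2 ^ 3 * κ ^ 2 * t * u) + -(p 0 * p 1 ^ 5 * q 0 * q 1 ^ 2 * q 2 * κ ^ 2 * u) + -(p 0 * p 1 ^ 5 * q 0 * q 1 ^ 2 * q 2 * κ * t ^ 2) + -(p 0 * p 1 ^ 5 * q 0 * q 2 ^ 2 * κ * t * u) + -(p 0 * p 1 ^ 5 * q 1 * q 2 ^ 4 * κ ^ 2 * t) + -(p 0 * p 1 ^ 4 * p 2 ^ 4 * q 0 ^ 3 * q 1 * q 2 ^ 2 * κ ^ 3 * t ^ 3) + (-2) * (p 0 * p 1 ^ 4 * p 2 ^ 4 * q 0 * q 1 ^ 2 * q 2 ^ 2 * κ ^ 2 * t ^ 4) + -(p 0 * p 1 ^ 4 * p 2 ^ 3 * q 0 ^ 4 * q 2 * κ ^ 2 * t ^ 3) + -(p 0 * p 1 ^ 4 * p 2 ^ 3 * q 0 ^ 2 * q 1 ^ 3 * κ ^ 3 * t * u) + -(p 0 * p 1 ^ 4 * p 2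 ^ 3 * q 0 ^ 2 * q 1 * q 2 * κ * t ^ 4) + (-3) * (p 0 * p 1 ^ 4 * p 2 ^ 3 * q 0 * q 1 ^ 2 * q 2 ^ 3 * κ ^ 3 * t ^ 2) + (-2) * (p 0 * p 1 ^ 4 * p 2 ^ 3 * q 0 * q 2 ^ 4 * κ ^ 2 * t ^ 3) + -(p 0 * p 1 ^ 4 * p 2 ^ 3 * q 1 ^ 4 * κ * t ^ 4) + (-2) * (p 0 * p 1 ^ 4 * p 2 ^ 2 * q 0 ^ 2 * q 1 * q 2 ^ 2 * κ ^ 2 * t ^ 2) + -(p 0 * p 1 ^ 4 * p 2 ^ 2 * q 1 ^ 4 * q 2 * κ ^ 2 * t ^ 2) + (-2) * (p 0 * p 1 ^ 4 * p 2 ^ 2 * q 1 ^ 2 * q 2 ^ 2 * κ ^ 2 * t * u) + -(p 0 * p 1 ^ 4 * p 2 ^ 2 * q 1 ^ 2 * q 2 ^ 2 * κ * t ^ 3) + -(p 0 * p 1 ^ 4 * p 2 ^ 2 * q 2 ^ 3 * κ * t ^ 2 * u) + (-2) * (p 0 * p 1 ^ 4 * p 2 * q 0 ^ 3 *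 q 2 * κ * t ^ 2) + -(p 0 * p 1 ^ 4 * p 2 * q 0 * q 1 ^ 3 * κ ^ 2 * u) + (-3) * (p 0 * p 1 ^ 4 * p 2 * q 0 * q 1 * q 2 * κ * t * u) + -(p 0 * p 1 ^ 4 * p 2 * q 0 * q 1 * q 2 * t ^ 3) + (-2) * (p 0 * p 1 ^ 4 * p 2 * q 1 ^ 2 * q 2 ^ 3 * κ ^ 2 * t) + -(p 0 * p 1 ^ 4 * p 2 * q 2 ^ 4 * κ * t ^ 2) + -(p 0 * p 1 ^ 4 * q 0 ^ 2 * t * u) + (-3) * (p 0 * p 1 ^ 4 * q 0 * q 1 * q 2 ^ 2 * κ * t) + -(p 0 * p 1 ^ 4 * q 1 * u ^ 2) + -(p 0 * p 1 ^ 3 * p 2 ^ 5 * q 0 ^ 3 * q 1 ^ 2 * q 2 * κ ^ 4 * t * u) + -(p 0 * p 1 ^ 3 * p 2 ^ 5 * q 1 ^ 2 * q 2 ^ 4 * κ ^ 3 * t ^ 3) + (-2) * (p 0 * p 1 ^ 3 * p 2 ^ 4 * q 0 * q 1 ^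 3 * q 2 ^ 2 * κ ^ 3 * t ^ 2) + (-2) * (p 0 * p 1 ^ 3 * p 2 ^ 4 * q 0 * q 1 * q 2 ^ 3 * κ ^ 3 * t * u) + (-3) * (p 0 * p 1 ^ 3 * p 2 ^ 4 * q 0 * q 1 * q 2 ^ 3 * κ ^ 2 * t ^ 3) + -(p 0 * p 1 ^ 3 * p 2 ^ 3 * q 0 ^ 2 * q 1 ^ 2 * q 2 * κ ^ 3 * u) + -(p 0 * p 1 ^ 3 * p 2 ^ 3 * q 0 ^ 2 * q 1 ^ 2 * q 2 * κ ^ 2 * t ^ 2) + (-2) * (p 0 * p 1 ^ 3 * p 2 ^ 3 * q 0 ^ 2 * q 2 ^ 2 * κ * t ^ 3) + -(p 0 * p 1 ^ 3 * p 2 ^ 3 * q 1 ^ 3 * q 2 * κ * t ^ 3) + -(p 0 * p 1 ^ 3 * p 2 ^ 2 * q 0 ^ 3 * q 1 * κ * t ^ 2) + -(p 0 * p 1 ^ 3 * p 2 ^ 2 * q 0 ^ 2 * q 2 ^ 3 * κ ^ 2 * t) + (-3) * (p 0 * p 1 ^ 3 * p 2 ^ 2 * q 0 * q 1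 ^ 2 * κ * t * u) + -(p 0 * p 1 ^ 3 * p 2 ^ 2 * q 0 * q 2 * t ^ 2 * u) + -(p 0 * p 1 ^ 3 * p 2 ^ 2 * q 1 ^ 3 * q 2 ^ 2 * κ ^ 2 * t) + -(p 0 * p 1 ^ 3 * p 2 ^ 2 * q 1 * q 2 ^ 3 * κ * t ^ 2) + (-2) * (p 0 * p 1 ^ 3 * p 2 * q 0 * q 1 ^ 2 * q 2 * κ * t) + -(p 0 * p 1 ^ 3 * p 2 * q 0 * q 2 ^ 2 * t ^ 2) + (-2) * (p 0 * p 1 ^ 3 * q 0 ^ 2 * q 1 * t) + -(p 0 * p 1 ^ 3 * q 0 * q 2 ^ 3 * κ) + -(p 0 * p 1 ^ 2 * p 2 ^ 6 * q 0 ^ 3 * q 1 ^ 3 * κ ^ 4 * t * u) + -(p 0 * p 1 ^ 2 * p 2 ^ 5 * q 0 ^ 3 * q 1 * q 2 ^ 2 * κ ^ 3 * t ^ 2) + -(p 0 * p 1 ^ 2 * p 2 ^ 5 * q 0 * q 1 ^ 2 * q 2 ^ 2 * κ ^ 3 * t * u) + (-2) * (p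 0 * p 1 ^ 2 * p 2 ^ 4 * q 0 ^ 4 * q 2 * κ ^ 2 * t ^ 2) + -(p 0 * p 1 ^ 2 * p 2 ^ 4 * q 0 ^ 2 * q 1 ^ 3 * κ ^ 3 * u) + (-2) * (p 0 * p 1 ^ 2 * p 2 ^ 4 * q 0 ^ 2 * q 1 * q 2 * κ ^ 2 * t * u) + -(p 0 * p 1 ^ 2 * p 2 ^ 4 * q 0 ^ 2 * q 1 * q 2 * κ * t ^ 3) + -(p 0 * p 1 ^ 2 * p 2 ^ 4 * q 0 * q 2 ^ 4 * κ ^ 2 * t ^ 2) + -(p 0 * p 1 ^ 2 * p 2 ^ 4 * q 1 ^ 4 * κ * t ^ 3) + -(p 0 * p 1 ^ 2 * p 2 ^ 3 * q 0 ^ 3 * κ * t * u) + (-2) * (p 0 * p 1 ^ 2 * p 2 ^ 3 * q 0 ^ 2 * q 1 * q 2 ^ 2 * κ ^ 2 * t) + -(p 0 * p 1 ^ 2 * p 2 ^ 3 * q 0 * q 1 * t ^ 2 * u) + (-2) * (p 0 * p 1 ^ 2 * p 2 ^ 3 * q 1 ^ 2 * q 2 ^ 2 * κ *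 t ^ 2) + -(p 0 * p 1 ^ 2 * p 2 ^ 2 * q 0 ^ 3 * q 2 * κ * t) + -(p 0 * p 1 ^ 2 * p 2 ^ 2 * q 0 * q 1 ^ 3 * κ * t) + -(p 0 * p 1 ^ 2 * p 2 ^ 2 * q 0 * q 1 * q 2 * t ^ 2) + -(p 0 * p 1 ^ 2 * p 2 ^ 2 * q 2 ^ 4 * κ * t) + -(p 0 * p 1 ^ 2 * p 2 * q 0 ^ 2 * u) + (-2) * (p 0 * p 1 ^ 2 * p 2 * q 0 * q 1 * q 2 ^ 2 * κ) + -(p 0 * p 1 ^ 2 * q 0 ^ 2 * q 2) + -(p 0 * p 1 * p 2 ^ 6 * q 0 ^ 3 * q 2 ^ 2 * κ ^ 2 * t ^ 3) + -(p 0 * p 1 * p 2 ^ 6 * q 0 * q 1 * q 2 ^ 2 * κ ^ 2 * t ^ 2 * u) + -(p 0 * p 1 * p 2 ^ 5 * q 0 ^ 4 * q 1 * κ ^ 2 * t ^ 2) + (-2) * (p 0 * p 1 * p 2 ^ 5 * q 0 ^ 2 * q 1 ^ 2 * κ ^ 2 * t * u) + -(p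 0 * p 1 * p 2 ^ 5 * q 0 ^ 2 * q 1 ^ 2 * κ * t ^ 3) + -(p 0 * p 1 * p 2 ^ 5 * q 0 * q 1 * q 2 ^ 3 * κ ^ 2 * t ^ 2) + -(p 0 * p 1 * p 2 ^ 5 * q 1 ^ 3 * κ * t ^ 2 * u) + (-2) * (p 0 * p 1 * p 2 ^ 4 * q 0 ^ 2 * q 1 ^ 2 * q 2 * κ ^ 2 * t) + -(p 0 * p 1 * p 2 ^ 4 * q 0 ^ 2 * q 2 ^ 2 * κ * t ^ 2) + -(p 0 * p 1 * p 2 ^ 4 * q 1 ^ 3 * q 2 * κ * t ^ 2) + -(p 0 * p 1 * p 2 ^ 4 * q 1 * q 2 ^ 2 * κ * t * u) + (-2) * (p 0 * p 1 * p 2 ^ 3 * q 0 ^ 3 * q 1 * κ * t) + -(p 0 * p 1 * p 2 ^ 3 * q 0 * q 1 ^ 2 * t ^ 2) + -(p 0 * p 1 * p 2 ^ 3 * q 0 * q 2 * t * u) + -(p 0 * p 1 * p 2 ^ 3 * q 1 * q 2 ^ 3 * κ * t) + (-2)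 * (p 0 * p 1 * p 2 ^ 2 * q 0 * q 1 ^ 2 * q 2 * κ) + (-3) * (p 0 * p 1 * p 2 ^ 2 * q 0 * q 2 ^ 2 * t) + -(p 0 * p 2 ^ 5 * q 0 ^ 4 * q 2 * κ ^ 2 * t) + -(p 0 * p 2 ^ 5 * q 0 ^ 2 * q 1 ^ 3 * κ ^ 2 * t) + -(p 0 * p 2 ^ 5 * q 0 ^ 2 * q 1 * q 2 * κ * t ^ 2) + -(p 0 * p 2 ^ 4 * q 0 ^ 3 * κ * u) + -(p 0 * p 2 ^ 3 * q 0 ^ 3 * q 2 * κ) + -(p 0 * p 2 ^ 3 * q 0 * q 1 ^ 3 * κ) + -(p 0 * p 2 ^ 3 * q 0 * q 1 * q 2 * t) + -(p 1 ^ 7 * p 2 * q 1 ^ 2 * q 2 ^ 4 * κ ^ 3 * t ^ 2) + -(p 1 ^ 7 * q 0 * q 1 * q 2 ^ 3 * κ ^ 2 * t ^ 2) + -(p 1 ^ 6 * p 2 ^ 3 * q 1 ^ 3 * q 2 ^ 2 * κ ^ 2 * t ^ 4) + -(p 1 ^ 6 * p 2 ^ 2 * q 0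 * q 1 ^ 2 * q 2 * κ * t ^ 4) + -(p 1 ^ 6 * p 2 ^ 2 * q 1 ^ 3 * q 2 ^ 3 * κ ^ 3 * t ^ 2) + -(p 1 ^ 6 * p 2 ^ 2 * q 1 * q 2 ^ 4 * κ ^ 2 * t ^ 3) + -(p 1 ^ 6 * p 2 * q 0 * q 1 ^ 2 * q 2 ^ 2 * κ ^ 2 * t ^ 2) + -(p 1 ^ 6 * p 2 * q 0 * q 2 ^ 3 * κ * t ^ 3) + -(p 1 ^ 6 * q 1 ^ 2 * q 2 * κ * t * u) + -(p 1 ^ 5 * p 2 ^ 3 * q 1 ^ 2 * q 2 ^ 3 * κ ^ 2 * t ^ 3) + -(p 1 ^ 5 * p 2 ^ 2 * q 0 * q 1 * q 2 ^ 2 * κ * t ^ 3) + -(p 1 ^ 5 * p 2 * q 0 * q 1 * q 2 ^ 3 * κ ^ 2 * t) + -(p 1 ^ 5 * p 2 * q 1 ^ 3 * κ * t * u) + -(p 1 ^ 5 * q 0 ^ 2 * q 2 ^ 2 * κ * t) + -(p 1 ^ 5 * q 1 ^ 3 * q 2 * κ * t) + -(p 1 ^ 5 * q 1 * q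 2 ^ 2 * κ * u) + -(p 1 ^ 4 * p 2 ^ 4 * q 1 ^ 3 * q 2 ^ 2 * κ ^ 2 * t ^ 3) + (-2) * (p 1 ^ 4 * p 2 ^ 3 * q 0 * q 1 ^ 2 * q 2 * κ ^ 2 * t * u) + (-2) * (p 1 ^ 4 * p 2 ^ 3 * q 0 * q 1 ^ 2 * q 2 * κ * t ^ 3) + -(p 1 ^ 4 * p 2 ^ 3 * q 1 * q 2 ^ 4 * κ ^ 2 * t ^ 2) + -(p 1 ^ 4 * p 2 ^ 2 * q 0 * q 1 ^ 2 * q 2 ^ 2 * κ ^ 2 * t) + (-2) * (p 1 ^ 4 * p 2 ^ 2 * q 0 * q 2 ^ 3 * κ * t ^ 2) + -(p 1 ^ 4 * p 2 ^ 2 * q 1 ^ 2 * t ^ 2 * u) + -(p 1 ^ 4 * p 2 * q 1 ^ 2 * q 2 * t ^ 2) + -(p 1 ^ 4 * p 2 * q 2 ^ 2 * t * u) + -(p 1 ^ 4 * q 1 ^ 2 * q 2 ^ 2 * κ) + -(p 1 ^ 4 * q 2 ^ 3 * t) + -(p 1 ^ 3 * p 2 ^ 5 * q 0 ^ 2 * q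 1 * q 2 ^ 2 * κ ^ 2 * t ^ 3) + -(p 1 ^ 3 * p 2 ^ 5 * q 1 ^ 2 * q 2 ^ 2 * κ ^ 2 * t ^ 2 * u) + -(p 1 ^ 3 * p 2 ^ 4 * q 0 ^ 3 * q 2 * κ * t ^ 3) + -(p 1 ^ 3 * p 2 ^ 4 * q 0 * q 1 ^ 3 * κ ^ 2 * t * u) + -(p 1 ^ 3 * p 2 ^ 4 * q 0 * q 1 ^ 3 * κ * t ^ 3) + -(p 1 ^ 3 * p 2 ^ 4 * q 0 * q 1 * q 2 * κ * t ^ 2 * u) + -(p 1 ^ 3 * p 2 ^ 4 * q 1 ^ 2 * q 2 ^ 3 * κ ^ 2 * t ^ 2) + (-2) * (p 1 ^ 3 * p 2 ^ 3 * q 0 * q 1 * q 2 ^ 2 * κ * t ^ 2) + -(p 1 ^ 3 * p 2 ^ 2 * q 1 * q 2 * t * u) + (-3) * (p 1 ^ 3 * p 2 * q 1 * q 2 ^ 2 * t) + -(p 1 ^ 2 * p 2 ^ 6 * q 0 ^ 2 * q 1 ^ 2 * q 2 * κ ^ 3 * t * u) + -(p 1 ^ 2 * p 2 ^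 4 * q 0 * q 1 ^ 2 * q 2 * κ * t ^ 2) + -(p 1 ^ 2 * p 2 ^ 3 * q 0 ^ 2 * q 1 * t ^ 2) + (-2) * (p 1 ^ 2 * p 2 ^ 3 * q 0 * q 2 ^ 3 * κ * t) + -(p 1 ^ 2 * p 2 ^ 3 * q 1 ^ 2 * t * u) + (-2) * (p 1 ^ 2 * p 2 ^ 2 * q 1 ^ 2 * q 2 * t) + -(p 1 ^ 2 * p 2 ^ 2 * q 2 ^ 2 * u) + -(p 1 * p 2 ^ 7 * q 0 ^ 2 * q 1 ^ 3 * κ ^ 3 * t * u) + -(p 1 * p 2 ^ 5 * q 0 ^ 3 * q 2 * κ * t ^ 2) + -(p 1 * p 2 ^ 5 * q 0 * q 1 * q 2 * κ * t * u) + -(p 1 * p 2 ^ 4 * q 0 ^ 2 * t * u) + (-3) * (p 1 * p 2 ^ 4 * q 0 * q 1 * q 2 ^ 2 * κ * t) + -(p 1 * p 2 ^ 4 * q 1 * u ^ 2) + -(p 1 * p 2 ^ 3 * q 0 ^ 2 * q 2 * t) + -(p 1 * p 2 ^ 3 * q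 1 ^ 3 * t) + -(p 1 * p 2 ^ 3 * q 1 * q 2 * u) + p 1 * p 2 ^ 2 * q 1 * q 2 ^ 2 + -(p 2 ^ 5 * q 0 * q 1 ^ 2 * q 2 * κ * t)) * h2

end Pool.Agent.H919.FP
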