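import Pool.Agent.H919.FP.Maps
import Pool.Agent.H919.FP.Cert11
import Pool.Agent.H919.FP.Cert12
import Pool.Agent.H919.FP.Cert13
import Pool.Agent.H919.FP.Cert22
import Pool.Agent.H919.FP.Cert23
import Pool.Agent.H919.FP.Cert33

/-! The ring `AE`, and the localization in which all relations hold. -/

namespace Pool.Agent.H919.FP

theorem mk_relA (i : Fin 4) : (Ideal.Quotient.mk (Ideal.span (Set.range relA))) (relA i) = 0 :=
  Ideal.Quotient.eq_zero_iff_mem.mpr (Ideal.subset_span ⟨i, rfl⟩)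

open MvPolynomial in
theorem relA_0 : relA 0 = X 1 * X 2 - 1 := rfl
open MvPolynomial in
theorem relA_1 : relA 1 = E1 (fun i => C (pB i)) ![X 3, X 4, X 5] (X 0) (X 1) (X 0 ^ 2 * X 2) := rfl
open MvPolynomial in
theorem relA_2 : relA 2 = E2 (fun i => C (pB i)) ![X 3, X 4, X 5] (X 0) (X 1) (X 0 ^ 2 * X 2) := rfl
open MvPolynomial in
theorem relA_3 : relA 3 = E3 (fun i => C (pB i)) ![X 3, X 4, X 5] (X 0) (X 1) (X 0 ^ 2 * X 2) := rfl

theorem AE_uw : vA 1 * vA 2 = 1 := by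
  have h := mk_relA 0
  rw [relA_0, map_sub, map_mul, map_one] at h
  exact sub_eq_zero.mp h

theorem mk_q : (fun i => (Ideal.Quotient.mk (Ideal.span (Set.range relA)))
    ((![MvPolynomial.X 3, MvPolynomial.X 4, MvPolynomial.X 5] : Fin 3 → MvPolynomial (Fin 6) B) i))
    = qA := by
  funext i; fin_cases i <;> rfl

theorem AE_e1 : E1 pA qA (vA 0) (vA 1) (vA 0 ^ 2 * vA 2) = 0 := by
  have h := mk_relA 1
  rw [relA_1, map_E1, mk_q, map_mul, map_pow] at h
  exact h

theorem AE_e2 : E2 pA qA (vA 0) (vA 1) (vA 0 ^ 2 * vA 2) = 0 := by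
  have h := mk_relA 2
  rw [relA_2, map_E2, mk_q, map_mul, map_pow] at h
  exact h

theorem AE_e3 : E3 pA qA (vA 0) (vA 1) (vA 0 ^ 2 * vA 2) = 0 := by
  have h := mk_relA 3
  rw [relA_3, map_E3, mk_q, map_mul, map_pow] at h
  exact h

theorem AE_two (hB : S_B1) : (2 : AE) = 0 := by
  have : (2 : AE) = algebraMap B AE 2 := (map_ofNat (algebraMap B AE) 2).symm
  rw [this, hB.2.1, map_zero]

theorem AE_hp (hB : S_B1) : hh pA = 0 := by
  have : hh pA = algebraMap B AE (hh pB) := by rw [map_hh]; rfl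
  rw [this, hB.1, map_zero]

theorem pA_mem (i : Fin 3) : pA i ∈ mI pA := Ideal.subset_span ⟨i, rfl⟩

/-- the universal property of `AE` -/
theorem AE_lift {C : Type} [CommRing C] (φ : B →+* C) (q : Fin 3 → C) (t u w : C)
    (huw : u * w = 1) (he1 : E1 (fun i => φ (pB i)) q t u (t ^ 2 * w) = 0)
    (he2 : E2 (fun i => φ (pB i)) q t u (t ^ 2 * w) = 0)
    (he3 : E3 (fun i => φ (pB i)) q t u (t ^ 2 * w) = 0) :
    ∃ ψ : AE →+* C, (∀ b, ψ (algebraMap B AE b) = φ b) ∧ (∀ i, ψ (qA i) = q i) ∧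
      ψ (vA 0) = t ∧ ψ (vA 1) = u ∧ ψ (vA 2) = w := by
  have hq : (fun i => (MvPolynomial.eval₂Hom φ ![t, u, w, q 0, q 1, q 2])
      ((![MvPolynomial.X 3, MvPolynomial.X 4, MvPolynomial.X 5] :
        Fin 3 → MvPolynomial (Fin 6) B) i)) = q := by
    funext i; fin_cases i <;> simp
  have hp : (fun i => (MvPolynomial.eval₂Hom φ ![t, u, w, q 0, q 1, q 2])
      (MvPolynomial.C (pB i))) = fun i => φ (pB i) := by
    funext i; simp
  refine ⟨Ideal.Quotient.lift _ (MvPolynomial.eval₂Hom φ ![t, u, w, q 0, q 1, q 2]) ?_,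
    ?_, ?_, ?_, ?_, ?_⟩
  · intro a ha
    rw [← RingHom.mem_ker]
    revert a
    change Ideal.span (Set.range relA) ≤ RingHom.ker _
    rw [Ideal.span_le]
    rintro _ ⟨i, rfl⟩
    change _ = _
    fin_cases i
    · change (MvPolynomial.eval₂Hom φ ![t, u, w, q 0, q 1, q 2]) (relA 0) = 0
      rw [relA_0]
      simp [huw]
    · change (MvPolynomial.eval₂Hom φ ![t, u, w, q 0, q 1, q 2]) (relA 1) = 0
      rw [relA_1, map_E1, hq, hp]
      simpa using he1
    · change (MvPolynomial.eval₂Hom φ ![t, u, w, q 0, q 1, q 2]) (relA 2) = 0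
      rw [relA_2, map_E2, hq, hp]
      simpa using he2
    · change (MvPolynomial.eval₂Hom φ ![t, u, w, q 0, q 1, q 2]) (relA 3) = 0
      rw [relA_3, map_E3, hq, hp]
      simpa using he3
  · intro b
    change (MvPolynomial.eval₂Hom φ ![t, u, w, q 0, q 1, q 2]) (MvPolynomial.C b) = _
    simp
  · intro i
    fin_cases i
    · change (MvPolynomial.eval₂Hom φ ![t, u, w, q 0, q 1, q 2]) (MvPolynomial.X 3) = _
      simp
    · change (MvPolynomial.eval₂Hom φ ![t, u, w, q 0, q 1, q 2]) (MvPolynomial.X 4) = _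
      simp
    · change (MvPolynomial.eval₂Hom φ ![t, u, w, q 0, q 1, q 2]) (MvPolynomial.X 5) = _
      simp
  · change (MvPolynomial.eval₂Hom φ ![t, u, w, q 0, q 1, q 2]) (MvPolynomial.X 0) = _
    simp
  · change (MvPolynomial.eval₂Hom φ ![t, u, w, q 0, q 1, q 2]) (MvPolynomial.X 1) = _
    simp
  · change (MvPolynomial.eval₂Hom φ ![t, u, w, q 0, q 1, q 2]) (MvPolynomial.X 2) = _
    simp

/-- two ring homomorphisms out of `AE` agreeing on the generators are equal -/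
theorem AE_ext {C : Type*} [CommRing C] (f g : AE →+* C)
    (h0 : ∀ b, f (algebraMap B AE b) = g (algebraMap B AE b)) (hq : ∀ i, f (qA i) = g (qA i))
    (ht : f (vA 0) = g (vA 0)) (hu : f (vA 1) = g (vA 1)) (hw : f (vA 2) = g (vA 2)) : f = g := by
  apply Ideal.Quotient.ringHom_ext
  apply MvPolynomial.ringHom_ext
  · intro b; exact h0 b
  · intro i
    fin_cases i
    · exact ht
    · exact hu
    · exact hw
    · exact hq 0
    · exact hq 1
    · exact hq 2

/-- Nakayama: the relations `r_ij` hold after inverting an element congruent to one. -/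
theorem exists_r_gen {C : Type*} [CommRing C] (p q : Fin 3 → C) (t u κ : C) (h2 : (2 : C) = 0)
    (hp : hh p = 0) (hκ : κ * u = t ^ 2) (e1 : E1 p q t u κ = 0) (e2 : E2 p q t u κ = 0)
    (e3 : E3 p q t u κ = 0) : ∃ δ : C, δ - 1 ∈ mI p ∧
    δ * r11 p q u κ = 0 ∧ δ * r12 p q u κ = 0 ∧ δ * r13 p q u κ = 0 ∧ δ * r22 p q u κ = 0 ∧
    δ * r23 p q u κ = 0 ∧ δ * r33 p q u κ = 0 := by
  have hR : ∃ R : Set C, R = {r11 p q u κ, r12 p q u κ, r13 p q u κ, r22 p q u κ, r23 p q u κ,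
    r33 p q u κ} := ⟨_, rfl⟩
  obtain ⟨R, hR⟩ := hR
  have m11 : r11 p q u κ ∈ Ideal.span R := Ideal.subset_span (by simp [hR])
  have m12 : r12 p q u κ ∈ Ideal.span R := Ideal.subset_span (by simp [hR])
  have m13 : r13 p q u κ ∈ Ideal.span R := Ideal.subset_span (by simp [hR])
  have m22 : r22 p q u κ ∈ Ideal.span R := Ideal.subset_span (by simp [hR])
  have m23 : r23 p q u κ ∈ Ideal.span R := Ideal.subset_span (by simp [hR])
  have m33 : r33 p q u κ ∈ Ideal.span R := Ideal.subset_span (by simp [hR])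
  have hpm : ∀ i, p i ∈ mI p := fun i => Ideal.subset_span ⟨i, rfl⟩
  have z0 : Ideal.Quotient.mk (mI p) (p 0) = 0 := Ideal.Quotient.eq_zero_iff_mem.mpr (hpm 0)
  have z1 : Ideal.Quotient.mk (mI p) (p 1) = 0 := Ideal.Quotient.eq_zero_iff_mem.mpr (hpm 1)
  have z2 : Ideal.Quotient.mk (mI p) (p 2) = 0 := Ideal.Quotient.eq_zero_iff_mem.mpr (hpm 2)
  have hle : Ideal.span R ≤ mI p • Ideal.span R := by
    rw [Ideal.span_le]
    intro r hr
    simp only [hR, Set.mem_insert_iff, Set.mem_singleton_iff] at hr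
    simp only [smul_eq_mul, SetLike.mem_coe]
    rcases hr with rfl | rfl | rfl | rfl | rfl | rfl
    · rw [cert11 p q t u κ h2 hp hκ e1 e2 e3]
      repeat' apply Ideal.add_mem
      all_goals
        refine Ideal.mul_mem_mul (Ideal.Quotient.eq_zero_iff_mem.mp (by simp [z0, z1, z2])) ?_
        assumption
    · rw [cert12 p q t u κ h2 hp hκ e1 e2 e3]
      repeat' apply Ideal.add_mem
      all_goals
        refine Ideal.mul_mem_mul (Ideal.Quotient.eq_zero_iff_mem.mp (by simp [z0, z1, z2])) ?_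
        assumption
    · rw [cert13 p q t u κ h2 hp hκ e1 e2 e3]
      repeat' apply Ideal.add_mem
      all_goals
        refine Ideal.mul_mem_mul (Ideal.Quotient.eq_zero_iff_mem.mp (by simp [z0, z1, z2])) ?_
        assumption
    · rw [cert22 p q t u κ h2 hp hκ e1 e2 e3]
      repeat' apply Ideal.add_mem
      all_goals
        refine Ideal.mul_mem_mul (Ideal.Quotient.eq_zero_iff_mem.mp (by simp [z0, z1, z2])) ?_
        assumption
    · rw [cert23 p q t u κ h2 hp hκ e1 e2 e3]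
      repeat' apply Ideal.add_mem
      all_goals
        refine Ideal.mul_mem_mul (Ideal.Quotient.eq_zero_iff_mem.mp (by simp [z0, z1, z2])) ?_
        assumption
    · rw [cert33 p q t u κ h2 hp hκ e1 e2 e3]
      repeat' apply Ideal.add_mem
      all_goals
        refine Ideal.mul_mem_mul (Ideal.Quotient.eq_zero_iff_mem.mp (by simp [z0, z1, z2])) ?_
        assumption
  have hfg : (Ideal.span R).FG := by
    rw [hR]
    classical
    exact ⟨{r11 p q u κ, r12 p q u κ, r13 p q u κ, r22 p q u κ,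
    r23 p q u κ, r33 p q u κ}, by simp⟩
  obtain ⟨δ, hδ, hz⟩ := Submodule.exists_sub_one_mem_and_smul_eq_zero_of_fg_of_le_smul (mI p)
    (Ideal.span R) hfg hle
  exact ⟨δ, hδ, hz _ m11, hz _ m12, hz _ m13, hz _ m22, hz _ m23, hz _ m33⟩

theorem exists_r (hB : S_B1) : ∃ δ : AE, δ - 1 ∈ mI pA ∧
    δ * r11 pA qA (vA 1) (vA 0 ^ 2 * vA 2) = 0 ∧ δ * r12 pA qA (vA 1) (vA 0 ^ 2 * vA 2) = 0 ∧
    δ * r13 pA qA (vA 1) (vA 0 ^ 2 * vA 2) = 0 ∧ δ * r22 pA qA (vA 1) (vA 0 ^ 2 * vA 2) = 0 ∧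
    δ * r23 pA qA (vA 1) (vA 0 ^ 2 * vA 2) = 0 ∧ δ * r33 pA qA (vA 1) (vA 0 ^ 2 * vA 2) = 0 :=
  exists_r_gen pA qA (vA 0) (vA 1) _ (AE_two hB) (AE_hp hB)
    (by linear_combination (vA 0 ^ 2) * AE_uw) AE_e1 AE_e2 AE_e3

/-- the target point lies in `m`, and is congruent to `u` times the source point modulo `m²`. -/
theorem q_mem_gen {C : Type*} [CommRing C] (p q : Fin 3 → C) (t u κ : C) (h2 : (2 : C) = 0)
    (e1 : E1 p q t u κ = 0) (e2 : E2 p q t u κ = 0)
    (e3 : E3 p q t u κ = 0) : (∀ i, q i ∈ mI p) ∧ ∀ i, q i + u * p i ∈ mI p ^ 2 := by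
  have hpm : ∀ i, p i ∈ mI p := fun i => Ideal.subset_span ⟨i, rfl⟩
  have z0 : Ideal.Quotient.mk (mI p) (p 0) = 0 := Ideal.Quotient.eq_zero_iff_mem.mpr (hpm 0)
  have z1 : Ideal.Quotient.mk (mI p) (p 1) = 0 := Ideal.Quotient.eq_zero_iff_mem.mpr (hpm 1)
  have z2 : Ideal.Quotient.mk (mI p) (p 2) = 0 := Ideal.Quotient.eq_zero_iff_mem.mpr (hpm 2)
  have hq0 : q 0 ∈ mI p := by
    apply Ideal.Quotient.eq_zero_iff_mem.mp
    have := congrArg (Ideal.Quotient.mk (mI p)) e1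
    simpa [E1, β1, z0, z1, z2] using this
  have hq1 : q 1 ∈ mI p := by
    apply Ideal.Quotient.eq_zero_iff_mem.mp
    have := congrArg (Ideal.Quotient.mk (mI p)) e2
    simpa [E2, β2, z0, z1, z2] using this
  have hq2 : q 2 ∈ mI p := by
    apply Ideal.Quotient.eq_zero_iff_mem.mp
    have := congrArg (Ideal.Quotient.mk (mI p)) e3
    simpa [E3, β3, z0, z1, z2] using this
  refine ⟨fun i => by fin_cases i <;> assumption, ?_⟩
  have mm : ∀ {a b : C}, a ∈ mI p → b ∈ mI p → ∀ c, c * (a * b) ∈ mI p ^ 2 := by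
    intro a b ha hb c
    rw [pow_two]
    exact Ideal.mul_mem_left _ _ (Ideal.mul_mem_mul ha hb)
  have p0 := hpm 0
  have p1 := hpm 1
  have p2 := hpm 2
  have hl : ∀ {a : C}, a ∈ mI p → lam p q t κ * a ∈ mI p ^ 2 := by
    intro a ha
    have e : lam p q t κ * a = (κ * q 2 * a) * (p 2 * q 0) + (κ * t * q 1 ^ 2 * a) * (p 0 * p 2)
        + (κ * t * q 2 * a) * (p 1 * q 0 * p 1) + (κ * κ * t * a * p 0 * q 0 * q 2) * (p 0 * p 0 * q 0)
        + (κ * κ * t * a * q 0 ^ 2 * p 2) * (p 0 * p 0 * q 0)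
        + (κ * κ * t * a * q 2 ^ 2 * p 2) * (p 0 * p 2 * q 0)
        + (κ * κ * t * a * q 2 ^ 2 * q 1) * (p 1 * p 1 * p 2) := by
      simp only [lam, A3, A2, A0]; ring
    rw [e]
    refine Ideal.add_mem _ (Ideal.add_mem _ (Ideal.add_mem _ (Ideal.add_mem _ (Ideal.add_mem _
      (Ideal.add_mem _ ?_ ?_) ?_) ?_) ?_) ?_) ?_
    · exact mm p2 hq0 _
    · exact mm p0 p2 _
    · exact mm (Ideal.mul_mem_left _ _ hq0) p1 _
    · exact mm (Ideal.mul_mem_left _ _ p0) hq0 _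
    · exact mm (Ideal.mul_mem_left _ _ p0) hq0 _
    · exact mm (Ideal.mul_mem_left _ _ p2) hq0 _
    · exact mm (Ideal.mul_mem_left _ _ p1) p2 _
  intro i
  fin_cases i
  · have e : q 0 + u * p 0 = -(t * (lam p q t κ * p 0)) + (-(t * κ * n1 p q)) * (p 1 * q 1) := by
      simp only [E1, up, β1] at e1
      linear_combination e1
    change q 0 + u * p 0 ∈ _
    rw [e]
    exact Ideal.add_mem _ (neg_mem (Ideal.mul_mem_left _ _ (hl p0))) (mm p1 hq1 _)
  · have e : q 1 + u * p 1 = -(t * (lam p q t κ * p 1)) + (-t) * (p 0 * q 0)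
        + (-(t * κ * q 2 ^ 2)) * (p 0 * p 1) + (-(t * κ * p 2 ^ 2)) * (q 0 * q 1) := by
      simp only [E2, up, β2] at e2
      linear_combination e2
    change q 1 + u * p 1 ∈ _
    rw [e]
    exact Ideal.add_mem _ (Ideal.add_mem _ (Ideal.add_mem _
      (neg_mem (Ideal.mul_mem_left _ _ (hl p1))) (mm p0 hq0 _)) (mm p0 p1 _)) (mm hq0 hq1 _)
  · have e : q 2 + u * p 2 = -(t * (lam p q t κ * p 2)) + (-t) * (p 1 * q 1)
        + (-(t * κ * p 0 * q 0)) * (p 0 * q 0) := by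
      simp only [E3, up, β3] at e3
      linear_combination e3
    change q 2 + u * p 2 ∈ _
    rw [e]
    exact Ideal.add_mem _ (Ideal.add_mem _
      (neg_mem (Ideal.mul_mem_left _ _ (hl p2))) (mm p1 hq1 _)) (mm p0 hq0 _)

end Pool.Agent.H919.FP
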