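import Mathlib

/-!
# A point of an algebraic stack which is not affine: polynomial data

`h = z^4 + x^3 z + x y^3` over `𝔽₂`; `n = p × q`; `P i j`, `a`, `b`, `α`, `β` as in the paper proof.
All functions take a point `p = (x,y,z)` and a point `q = (X,Y,Z)` with coordinates in a commutative
ring of characteristic two.
-/

namespace Pool.Agent.H919.FP

variable {C : Type*} [CommRing C]

/-- the quartic -/
def hh (p : Fin 3 → C) : C := p 2 ^ 4 + p 0 ^ 3 * p 2 + p 0 * p 1 ^ 3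

def n1 (p q : Fin 3 → C) : C := p 1 * q 2 + p 2 * q 1
def n2 (p q : Fin 3 → C) : C := p 2 * q 0 + p 0 * q 2
def n3 (p q : Fin 3 → C) : C := p 0 * q 1 + p 1 * q 0

/-- the partial derivative of `h` with respect to the first variable (characteristic two) -/
def gg (p : Fin 3 → C) : C := p 1 ^ 3 + p 0 ^ 2 * p 2

def P11 (p q : Fin 3 → C) : C :=
  gg p * gg q + p 0 * q 0 * p 1 * q 1 * n1 p q + p 2 ^ 2 * q 2 ^ 2 * n2 p q
def P12 (p q : Fin 3 → C) : C :=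
  p 0 * q 0 * p 1 * q 1 * n2 p q + p 2 * q 2 * (n1 p q ^ 2 + p 1 * q 1 * p 2 * q 2)
def P13 (p q : Fin 3 → C) : C :=
  p 0 * q 0 * p 1 * q 1 * n3 p q + n1 p q ^ 3 + p 2 * q 2 * n2 p q ^ 2 +
    p 0 * q 0 * p 2 ^ 2 * q 2 ^ 2
def P22 (p q : Fin 3 → C) : C :=
  p 0 * q 0 * p 1 ^ 2 * q 1 ^ 2 + p 0 * q 0 * (p 0 ^ 2 * q 1 * q 2 + q 0 ^ 2 * p 1 * p 2) +
    p 2 ^ 2 * q 2 ^ 2 * n3 p q
def P23 (p q : Fin 3 → C) : C :=
  p 0 * q 0 * (n3 p q ^ 2 + p 0 * q 0 * p 1 * q 1) + n1 p q ^ 2 * n2 p q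
def P33 (p q : Fin 3 → C) : C :=
  p 0 ^ 3 * q 0 ^ 3 + n2 p q ^ 3 + n1 p q ^ 2 * n3 p q

def a1 (p q : Fin 3 → C) : C := p 0 * p 2 * q 0 + p 1 ^ 2 * q 1
def a2 (p q : Fin 3 → C) : C := p 0 * p 1 * q 1
def a3 (p q : Fin 3 → C) : C := p 0 ^ 2 * q 0

def β1 (p q : Fin 3 → C) : C := p 1 * q 1 * n1 p q
def β2 (p q : Fin 3 → C) : C := p 0 * p 1 * q 2 ^ 2 + p 2 ^ 2 * q 0 * q 1
def β3 (p q : Fin 3 → C) : C := p 0 ^ 2 * q 0 ^ 2

/-- `b = p × β` -/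
def b1 (p q : Fin 3 → C) : C := p 1 * β3 p q + p 2 * β2 p q
def b2 (p q : Fin 3 → C) : C := p 2 * β1 p q + p 0 * β3 p q
def b3 (p q : Fin 3 → C) : C := p 0 * β2 p q + p 1 * β1 p q

def A3 (p q : Fin 3 → C) : C := p 2 * q 0 * q 2
def A2 (p q : Fin 3 → C) : C := p 0 * p 2 * q 1 ^ 2 + p 1 ^ 2 * q 0 * q 2
def A0 (p q : Fin 3 → C) : C :=
  p 0 ^ 3 * q 0 ^ 2 * q 2 + p 0 ^ 2 * p 2 * q 0 ^ 3 + p 0 * p 2 ^ 2 * q 0 * q 2 ^ 2 +
    p 1 ^ 2 * p 2 * q 1 * q 2 ^ 2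

def v1 (p q : Fin 3 → C) (κ : C) : C := a1 p q + κ * b1 p q
def v2 (p q : Fin 3 → C) (κ : C) : C := a2 p q + κ * b2 p q
def v3 (p q : Fin 3 → C) (κ : C) : C := a3 p q + κ * b3 p q

def lam (p q : Fin 3 → C) (t κ : C) : C :=
  κ * (A3 p q + t * A2 p q + κ * t * A0 p q)

/-- `u' = u + t λ` -/
def up (p q : Fin 3 → C) (t u κ : C) : C := u + t * lam p q t κ

def E1 (p q : Fin 3 → C) (t u κ : C) : C :=
  q 0 + up p q t u κ * p 0 + t * (κ * β1 p q)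
def E2 (p q : Fin 3 → C) (t u κ : C) : C :=
  q 1 + up p q t u κ * p 1 + t * (p 0 * q 0 + κ * β2 p q)
def E3 (p q : Fin 3 → C) (t u κ : C) : C :=
  q 2 + up p q t u κ * p 2 + t * (p 1 * q 1 + κ * β3 p q)

def r11 (p q : Fin 3 → C) (u κ : C) : C := P11 p q + u * v1 p q κ ^ 2
def r12 (p q : Fin 3 → C) (u κ : C) : C := P12 p q + u * v1 p q κ * v2 p q κ
def r13 (p q : Fin 3 → C) (u κ : C) : C := P13 p q + u * v1 p q κ * v3 p q κ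
def r22 (p q : Fin 3 → C) (u κ : C) : C := P22 p q + u * v2 p q κ ^ 2
def r23 (p q : Fin 3 → C) (u κ : C) : C := P23 p q + u * v2 p q κ * v3 p q κ
def r33 (p q : Fin 3 → C) (u κ : C) : C := P33 p q + u * v3 p q κ ^ 2

/-- the two explicit functions whose non-vanishing defines the open set `U''` -/
def V1 (p q : Fin 3 → C) : C := a1 p q * P11 p q + n1 p q ^ 2 * b1 p q
def V3 (p q : Fin 3 → C) : C := a3 p q * P33 p q + n3 p q ^ 2 * b3 p q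
def Q1 (p q : Fin 3 → C) : C := P11 p q * V1 p q
def Q3 (p q : Fin 3 → C) : C := P33 p q * V3 p q

/-- `(t,u,w)` is an arrow from `p` to `q` (here `w = u⁻¹` and `κ = t² w`). -/
structure Rel (p q : Fin 3 → C) (t u w : C) : Prop where
  uw : u * w = 1
  e1 : E1 p q t u (t ^ 2 * w) = 0
  e2 : E2 p q t u (t ^ 2 * w) = 0
  e3 : E3 p q t u (t ^ 2 * w) = 0
  r11 : r11 p q u (t ^ 2 * w) = 0
  r12 : r12 p q u (t ^ 2 * w) = 0
  r13 : r13 p q u (t ^ 2 * w) = 0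
  r22 : r22 p q u (t ^ 2 * w) = 0
  r23 : r23 p q u (t ^ 2 * w) = 0
  r33 : r33 p q u (t ^ 2 * w) = 0

end Pool.Agent.H919.FP
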