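import Mathlib

/-!
# Scheme-theoretic interfaces for the counterexample (MP_911691_ag)
-/

open CategoryTheory Limits AlgebraicGeometry

namespace Pool.Agent.H919.FP

/-- A groupoid structure (in the category of schemes) with objects `T`, arrows `R`, source `s`,
target `t`: identity `e`, inverse `inv`, composition `mul` of `(f,g)` with `t f = s g`. -/
structure GroupoidStr {T R : Scheme.{0}} (s t : R ⟶ T) where
  e : T ⟶ R
  inv : R ⟶ R
  mul : pullback t s ⟶ R
  e_s : e ≫ s = 𝟙 T
  e_t : e ≫ t = 𝟙 T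
  inv_s : inv ≫ s = t
  inv_t : inv ≫ t = s
  mul_s : mul ≫ s = pullback.fst t s ≫ s
  mul_t : mul ≫ t = pullback.snd t s ≫ t
  id_mul : pullback.lift (s ≫ e) (𝟙 R) (by simp [e_t]) ≫ mul = 𝟙 R
  mul_id : pullback.lift (𝟙 R) (t ≫ e) (by simp [e_s]) ≫ mul = 𝟙 R
  inv_mul : pullback.lift inv (𝟙 R) (by simp [inv_t]) ≫ mul = t ≫ e
  mul_inv : pullback.lift (𝟙 R) inv (by simp [inv_s]) ≫ mul = s ≫ e
  assoc : ∀ {V : Scheme.{0}} (f g h : V ⟶ R) (hfg : f ≫ t = g ≫ s) (hgh : g ≫ t = h ≫ s),
    pullback.lift (pullback.lift f g hfg ≫ mul) h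
        (by rw [Category.assoc, mul_t, pullback.lift_snd_assoc, hgh]) ≫ mul =
      pullback.lift f (pullback.lift g h hgh ≫ mul)
        (by rw [Category.assoc, mul_s, pullback.lift_fst_assoc, hfg]) ≫ mul

/-! ## Gluing of `W` and the open subscheme `U ⊆ S` along `w⁻¹ U` -/

section Glue

variable {S W : Scheme.{0}} (w : W ⟶ S) (U : S.Opens)

/-- `W ∪ U`, glued along `w⁻¹ U` -/
noncomputable def glue [IsOpenImmersion (w ∣_ U)] : Scheme.{0} :=
  pushout (w ⁻¹ᵁ U).ι (w ∣_ U)

noncomputable def inW [IsOpenImmersion (w ∣_ U)] : W ⟶ glue w U := pushout.inl _ _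

noncomputable def inU [IsOpenImmersion (w ∣_ U)] : (U : Scheme.{0}) ⟶ glue w U := pushout.inr _ _

/-- the structure map of the glued scheme -/
noncomputable def rho [IsOpenImmersion (w ∣_ U)] : glue w U ⟶ S :=
  pushout.desc w U.ι (by simp)

end Glue

/-- [G1] both maps are open immersions and they cover; the part over `U` is `U`.

Proof. `Mathlib/AlgebraicGeometry/Limits.lean` and `.../Gluing.lean` (section IsLocallyDirected) give
`HasPushout` for open immersions, `IsOpenImmersion (colimit.ι F i)`, `ι_jointly_surjective` and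
`ι_eq_ι_iff` for `F = span _ _` (`pushout.inl/inr` are `colimit.ι (span _ _) WalkingSpan.left/right`).
A point of the glued scheme is `inW x` or `inU x` (the image of the vertex `WalkingSpan.zero` is in
both). `rho (inW x) = w x`, `rho (inU x) = x`. If `rho (inW x) = w x ∈ U` then `x ∈ w⁻¹ U` and
`inW x = inU ((w ∣_ U) x)` by `pushout.condition`. Last claim: `rho ⁻¹ᵁ U = (inU).opensRange`, hence
`rho ∣_ U`, precomposed with the isomorphism `U ≅ rho ⁻¹ᵁ U` induced by `inU`, is the identity of `U`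
(compose with the mono `U.ι`: `inU ≫ rho = U.ι`). -/
def S_G1 : Prop :=
  ∀ {S W : Scheme.{0}} (w : W ⟶ S) (U : S.Opens) [IsOpenImmersion (w ∣_ U)],
    IsOpenImmersion (inW w U) ∧ IsOpenImmersion (inU w U) ∧
    (∀ z : glue w U, (∃ x : W, inW w U x = z) ∨ (∃ x : (U : Scheme.{0}), inU w U x = z)) ∧
    (∀ z : glue w U, rho w U z ∈ U ↔ ∃ x : (U : Scheme.{0}), inU w U x = z) ∧
    IsIso (rho w U ∣_ U)

/-- [G2] The glued scheme is separated and quasi-compact over `S` if `W`, `S` are affine and `U` is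
quasi-compact. (You may use `S_G1` as a hypothesis: prove `S_G1 → S_G2`.)

Proof. Write `X = glue w U`. Quasi-compact: `X` is the union of the images of the quasi-compact
schemes `W` and `U`, so `CompactSpace X`, and `S` is affine. Separated: the diagonal
`X ⟶ X ×_S X` is a closed immersion, which can be checked on the open cover of `X ×_S X` by
`W ×_S W`, `W ×_S U`, `U ×_S W`, `U ×_S U`; over these the diagonal is `W ⟶ W ×_S W` (closed, `w` is
separated being a morphism of affine schemes), and isomorphisms in the other cases because everything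
there lies over `U` and `rho` is an isomorphism over `U`. Alternative: valuative criterion
(`IsSeparated.of_valuativeCriterion`, needs quasi-separated): two lifts `Spec 𝒪 ⟶ X` of a map to `S`
equal at the generic point; if the closed point of `Spec 𝒪` maps into `U` both factor through
`rho ⁻¹ᵁ U ≅ U`; otherwise both map the closed point, hence everything, into the open `inW`-image,
i.e. are given by ring maps `Γ(W) → 𝒪 ⊆ Frac 𝒪`, so equal. Alternative: cover `S`-locally. -/
def S_G2 : Prop :=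
  ∀ {S W : Scheme.{0}} (w : W ⟶ S) (U : S.Opens) [IsOpenImmersion (w ∣_ U)]
    [IsAffine S] [IsAffine W] (_ : IsCompact (U : Set S)),
    IsSeparated (rho w U) ∧ QuasiCompact (rho w U)

/-! ## Lifting along `ρ : R ⟶ S`, an isomorphism over the open set `U` -/

/-- [L1] uniqueness of lifts.

Proof. Let `φ = f ≫ ρ`, `V₀ = φ⁻¹ U`. On `V₀` both `f` and `g` land in `ρ⁻¹ U` and `ρ ∣_ U` is an
isomorphism (mono), so `V₀.ι ≫ f = V₀.ι ≫ g`. As `ρ` is separated, the equalizer
`e : E ⟶ V` of `f, g` (over `S`) is a closed immersion (the base change of the diagonal of `ρ`; see how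
`ext_of_isDominant_of_isSeparated` is proved in Mathlib), and `V₀.ι` factors through `e`, so
`ker e ≤ ker V₀.ι = ⊥`; a closed immersion with trivial kernel is an isomorphism. -/
def S_L1 : Prop :=
  ∀ {S R V : Scheme.{0}} (ρ : R ⟶ S) (U : S.Opens) [IsIso (ρ ∣_ U)] [IsSeparated ρ]
    (f g : V ⟶ R) (_ : f ≫ ρ = g ≫ ρ) [IsSchemeTheoreticallyDominant ((f ≫ ρ) ⁻¹ᵁ U).ι],
    f = g

/-- [L2] existence of lifts can be checked on an open subscheme which together with `φ⁻¹ U` covers.

Proof. Glue (`Scheme.Cover.glueMorphisms`, cover indexed by `Bool`/`Option`) the morphisms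
`φ⁻¹ U ⟶ U ≅ ρ⁻¹ U ⟶ R` and `g : V' ⟶ R`. They agree on the overlap `V' ×_V φ⁻¹U` because there both
compose with `ρ` to the same map, which lands in `U`, and `ρ` is an isomorphism over `U`
(two maps into `ρ⁻¹ U` with the same composite with `ρ ∣_ U` are equal). On the diagonal entries of the
cover the compatibility is trivial since the cover maps are mono. `f ≫ ρ = φ`: check on the cover
(`Scheme.Cover.hom_ext`). -/
def S_L2 : Prop :=
  ∀ {S R V V' : Scheme.{0}} (ρ : R ⟶ S) (U : S.Opens) [IsIso (ρ ∣_ U)]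
    (φ : V ⟶ S) (j : V' ⟶ V) [IsOpenImmersion j]
    (_ : ∀ v : V, φ v ∈ U ∨ ∃ x : V', j x = v) (g : V' ⟶ R) (_ : g ≫ ρ = j ≫ φ),
    ∃ f : V ⟶ R, f ≫ ρ = φ

/-- [Gpd] assembly of the groupoid. (You may use `S_L1` as a hypothesis: prove `S_L1 → S_Gpd`.)

Proof. Put `U = fst⁻¹ O ⊓ snd⁻¹ O`. By the hypothesis on `s, t` we have `ρ⁻¹ U = s⁻¹ O = t⁻¹ O`.
UNIQUENESS: if `f g : V ⟶ R` satisfy `f ≫ ρ = g ≫ ρ` and `f ≫ s` (or `f ≫ t`) is flat, then `f = g` by
`S_L1`, because `(f ≫ ρ)⁻¹ U = (f ≫ s)⁻¹ O` and the inclusion of this open is the base change of `O.ι`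
along the flat morphism `f ≫ s` (`IsSchemeTheoreticallyDominant.of_isPullback`,
`isPullback_morphismRestrict`), so it is scheme-theoretically dominant. `Smooth s` gives `Flat s`.
`e, inv, mul` are the given lifts. `e_s, e_t, inv_s, inv_t, mul_s, mul_t`: compose with `fst, snd`.
Each remaining law is an equality of two maps `V ⟶ R` with the same composite with `ρ` (check after
composing with `fst` and `snd` of `pullback str str`), and `f ≫ s` flat:
`id_mul, mul_id` (`V = R`, `f ≫ s = s`), `mul_inv` (`f ≫ s = s`), `inv ≫ inv = 𝟙` (`V = R`, `f ≫ s = s`);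
the latter shows that `inv` is an isomorphism, so `t = inv ≫ s` is smooth, hence flat, and then
`inv_mul` (`f ≫ s = t`). `assoc`: it is enough to prove it for the universal triple
`V = pullback (pullback.snd t s ≫ t) s` (three projections `f,g,h`), where `f ≫ s` is a composite of
base changes of `s` and `s`, hence flat; for a general triple compose with the induced map
`V' ⟶ V`. -/
def S_Gpd : Prop :=
  ∀ {S₀ T R : Scheme.{0}} (str : T ⟶ S₀) (O : T.Opens) (ρ : R ⟶ pullback str str)
    [IsIso (ρ ∣_ ((pullback.fst str str) ⁻¹ᵁ O ⊓ (pullback.snd str str) ⁻¹ᵁ O))]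
    [IsSeparated ρ]
    [IsSchemeTheoreticallyDominant O.ι] [QuasiCompact O.ι]
    (s t : R ⟶ T) (hs : ρ ≫ pullback.fst str str = s) (ht : ρ ≫ pullback.snd str str = t)
    [Smooth s]
    (_ : ∀ z : R, s z ∈ O ↔ t z ∈ O)
    (_ : ∃ e : T ⟶ R, e ≫ ρ = pullback.lift (𝟙 T) (𝟙 T) rfl)
    (_ : ∃ i : R ⟶ R, i ≫ ρ = pullback.lift t s (by
      rw [← hs, ← ht, Category.assoc, Category.assoc, pullback.condition]))
    (_ : ∃ m : pullback t s ⟶ R, m ≫ ρ = pullback.lift (pullback.fst t s ≫ s)
      (pullback.snd t s ≫ t) (by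
        have e : s ≫ str = t ≫ str := by
          rw [← hs, ← ht, Category.assoc, Category.assoc, pullback.condition]
        rw [Category.assoc, Category.assoc, e, pullback.condition_assoc, e])),
    Nonempty (GroupoidStr s t) ∧ Smooth t

/-- [Fib] the fibre of `s` over a section `x₀` with values in `O` is isomorphic to `O` (via `t`).

Proof. Let `U = fst⁻¹ O ⊓ snd⁻¹ O`, `F = pullback x₀ s`, `g = pullback.snd ≫ t : F ⟶ T`. For `z : F`,
`s (snd z) = x₀ (fst z) ∈ O`, so `t (snd z) ∈ O`; so `g` lands in `O`, giving `g' : F ⟶ O`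
(`IsOpenImmersion.lift`). Conversely `(O.ι ≫ str ≫ x₀, O.ι) : O ⟶ pullback str str` lands in `U`, so it
lifts through the isomorphism `ρ ∣_ U` to `θ : O ⟶ R` with `θ ≫ ρ = pullback.lift (O.ι ≫ str ≫ x₀) O.ι _`,
and we get `O ⟶ F`, `pullback.lift (O.ι ≫ str) θ _`. The two maps are inverse to each other: on `F`,
both `g' ≫ θ` and `pullback.snd` are maps to `R` landing over `U` with the same composite with `ρ`
(compare the components with `fst` and `snd`, using `fst F ≫ x₀ = snd F ≫ s` and `x₀ ≫ str = 𝟙`), and `ρ` is an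
isomorphism over `U`. So `O ≅ F` is affine. -/
def S_Fib : Prop :=
  ∀ {S₀ T R : Scheme.{0}} (str : T ⟶ S₀) (O : T.Opens) (ρ : R ⟶ pullback str str)
    [IsIso (ρ ∣_ ((pullback.fst str str) ⁻¹ᵁ O ⊓ (pullback.snd str str) ⁻¹ᵁ O))]
    (s t : R ⟶ T) (_ : ρ ≫ pullback.fst str str = s) (_ : ρ ≫ pullback.snd str str = t)
    (_ : ∀ z : R, s z ∈ O ↔ t z ∈ O)
    (x₀ : S₀ ⟶ T) (_ : x₀ ≫ str = 𝟙 S₀) (_ : ∀ z : S₀, x₀ z ∈ O)
    (_ : IsAffine (pullback x₀ s)), IsAffineOpen O

/-- [Stab] fibres of `ρ` over field-valued points are affine.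

Proof. `Spec K` has one point `pt`. If `y pt ∈ U` then `y` factors through `U.ι`, the base change of `ρ`
along `U.ι` is `ρ ∣_ U` (`isPullback_morphismRestrict`), an isomorphism, so `pullback.fst y ρ` is an
isomorphism and `pullback y ρ ≅ Spec K`. If `y pt ∉ U`, then for `z : pullback y ρ` we have
`ρ (snd z) = y (fst z) ∉ U`, so `snd z ∈ range j`; hence the open immersion
`pullback y (j ≫ ρ) ⟶ pullback y ρ` (base change of `j`) is surjective, so it is an isomorphism, and
`pullback y (j ≫ ρ)` is affine since `Spec K`, `W`, `S` are affine. -/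
def S_Stab : Prop :=
  ∀ {S R W : Scheme.{0}} (ρ : R ⟶ S) (U : S.Opens) [IsIso (ρ ∣_ U)] [IsAffine S] [IsAffine W]
    (j : W ⟶ R) [IsOpenImmersion j] (_ : ∀ z : R, ρ z ∈ U ∨ ∃ x : W, j x = z)
    (K : Type) [Field K] (y : Spec (CommRingCat.of K) ⟶ S),
    IsAffine (pullback y ρ)

/-- The final statement: a smooth groupoid presenting the counterexample. -/
def Final : Prop :=
  ∃ (T R : Scheme.{0}) (str : T ⟶ Spec (CommRingCat.of (ZMod 2))) (s t : R ⟶ T)
    (h : s ≫ str = t ≫ str),
    Nonempty (GroupoidStr s t) ∧ Smooth s ∧ Smooth t ∧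
    IsAffine T ∧ LocallyOfFiniteType str ∧
    QuasiCompact (pullback.lift s t h : R ⟶ pullback str str) ∧
    IsSeparated (pullback.lift s t h : R ⟶ pullback str str) ∧
    (∀ (K : Type) [Field K] (x : Spec (CommRingCat.of K) ⟶ T),
      IsAffine (pullback (pullback.lift x x rfl : _ ⟶ pullback str str)
        (pullback.lift s t h : R ⟶ pullback str str))) ∧
    ∃ x₀ : Spec (CommRingCat.of (ZMod 2)) ⟶ T, x₀ ≫ str = 𝟙 _ ∧ ¬ IsAffine (pullback x₀ s)

end Pool.Agent.H919.FP
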