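import Pool.Agent.H919.FP.Ring
import Pool.Agent.H919.FP.Sch

open CategoryTheory Limits AlgebraicGeometry

namespace Pool.Agent.H919.FP

/-- `Spec 𝔽₂` -/
noncomputable abbrev k2 : Scheme.{0} := Spec (CommRingCat.of (ZMod 2))

/-- the cone `T = Spec B` -/
noncomputable abbrev TT : Scheme.{0} := Spec (CommRingCat.of B)

noncomputable def str : TT ⟶ k2 := Spec.map (CommRingCat.ofHom (algebraMap (ZMod 2) B))

/-- the complement of the vertex -/
noncomputable def OO : TT.Opens :=
  (PrimeSpectrum.basicOpen (pB 0) ⊔ PrimeSpectrum.basicOpen (pB 1) :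
    TopologicalSpace.Opens (PrimeSpectrum B))

/-- [O] Facts on the punctured cone. (You may use `S_B1`, `S_B2` as hypotheses.)

Proof. `IsSchemeTheoreticallyDominant`: the kernel of `O.ι` is contained in the kernel of `D(x) ⟶ T`, which is zero
since `x` is a non-zero-divisor of `B`. Quasi-compact: `O` is a finite union of affines.
Smooth: `h_z = x³` and `h_x = g := y³ + x² z` (characteristic two); `O = D(x) ∪ D(g)`
(`g ∈ (x,y)`, `y³ ∈ (x,g)`), and `B[1/x]`, `B[1/g]` are standard smooth over `𝔽₂`: the presentation
`B = 𝔽₂[x,y,z]/(h)` (`PreSubmersivePresentation.naive` with one relation and `map` to the variable `z` resp. `x`,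
transported to `B` by the isomorphism given by the universal property) has jacobian `x³` resp. `g`;
localize as in `PreSubmersivePresentation.localizationAway` + `comp`.
Not affine: if `O` were affine, then since `O = D(x) ∪ D(y)` the elements `x, y` generate the unit ideal of
`Γ(O)` (`IsAffineOpen.basicOpen_union_eq_self_iff` or similar): `1 = α x + β y`, `α, β ∈ Γ(O)`. The restrictions
of `α` to `D(x)`, `D(y)` are `a₁/x^N`, `a₂/y^N` with `y^N a₁ = x^N a₂` in `B`
(`B ⟶ B[1/xy]` is injective: `x`, `y` are non-zero-divisors), so by `S_B2` (for `C = B`) `a₁ = x^N a` and the restriction of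
`α` to `D(x)` is the restriction of an element `a ∈ B`; same for `β`. So `1 = a x + b y` in `B[1/x]`, hence in `B`,
contradicting `ε : B → 𝔽₂`, `x, y ↦ 0`. -/
def S_O : Prop :=
  IsSchemeTheoreticallyDominant OO.ι ∧ QuasiCompact OO.ι ∧ Smooth (OO.ι ≫ str) ∧
    ¬ IsAffineOpen OO ∧ LocallyOfFiniteType str

end Pool.Agent.H919.FP
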