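import Pool.Agent.H919.FP.CD
import Pool.Agent.H919.FP.Geo

/-! Interfaces for the chart `W = Spec A ⟶ T ×_{𝔽₂} T`. -/

open CategoryTheory Limits AlgebraicGeometry

namespace Pool.Agent.H919.FP

theorem spec_str {A : Type} [CommRing A] (a b : B →+* A) :
    Spec.map (CommRingCat.ofHom a) ≫ str = Spec.map (CommRingCat.ofHom b) ≫ str := by
  rw [str, ← Spec.map_comp, ← Spec.map_comp, ← CommRingCat.ofHom_comp, ← CommRingCat.ofHom_comp]
  congr 2
  exact Subsingleton.elim _ _

/-- the morphism `Spec A ⟶ T ×_{𝔽₂} T` given by two ring homomorphisms `B → A` -/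
noncomputable def wmap {A : Type} [CommRing A] (a b : B →+* A) :
    Spec (CommRingCat.of A) ⟶ pullback str str :=
  pullback.lift (Spec.map (CommRingCat.ofHom a)) (Spec.map (CommRingCat.ofHom b)) (spec_str a b)

/-- the open subscheme `O × O` of `T × T` -/
noncomputable def UU : (pullback str str).Opens :=
  (pullback.fst str str) ⁻¹ᵁ OO ⊓ (pullback.snd str str) ⁻¹ᵁ OO

/-- [W2] over `O × O` the chart is an open immersion. (You may use `S_B1` as a hypothesis; the lemmas of
`RelFacts.lean`, `Maps.lean`, `CD.lean` are available.)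

Proof. Let `p = pt D.a`, `q = D.q` in `A`, and let `p, q` also denote the two tautological points in
`BB = B ⊗[𝔽₂] B` (`T × T ≅ Spec BB` by `pullbackSpecIso`; `S_B1` gives `hh p = hh q = 0`). Let
`Qi = Q1 p q, Q3 p q ∈ BB`, mapping to `Q1 (pt D.a) D.q, Q3 (pt D.a) D.q` in `A`.
(1) `D(Q1) ∪ D(Q3) ⊆ O × O` in `Spec BB`, since every monomial of `Qi` contains a coordinate of `p` and one of `q`
and `z⁴ ∈ (x)` in `B` (so a prime containing `x, y` contains `z`).
(2) The preimage of `O × O` in `Spec A` is contained in `D(Q1) ∪ D(Q3)`: a prime of `A` containing `Q1, Q3` contains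
`mI p ^ D` (`D.cover`), so `x, y`. Hence the preimages of `O × O` and of `D(Q1) ∪ D(Q3)` are the same.
(3) For `Q = Q1` or `Q3`: `L = BB[1/Q]`, `A' = A[1/Q]`, `χ : L → A'`. By `exists_rel1/3` there is `(t,u,w)` in `L` with
`Rel p q t u w`; `D.univ` (with `C = L`, `φ` the first point) gives `f ∈ L`. Since `Rel.unique1/3` holds in `A'`,
the images of `(t,u,w)` in `A'` are the images of `D.t, D.u, D.w`, so the direction `←` of `D.univ` (with `C' = A'`,
`g = χ`, `ψ = algebraMap A A'`) shows that `χ f` is a unit. The direction `→` with `C' = L[1/f]` gives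
`ψ : A → L[1/f]`, under which `Q` is invertible, so `A' → L[1/f]`; the two composites
`L[1/f] → A' → L[1/f]` and `A' → L[1/f] → A'` are the identity (use the uniqueness in `S_B1` and `D.ext`). So
`A' ≅ L[1/f]` and `Spec A' ⟶ Spec L` is an open immersion.
(4) `IsOpenImmersion` is local on the target, so `Spec A ⟶ Spec BB` restricted over `D(Q1) ∪ D(Q3)` is an open
immersion (`SpecMapRestrictBasicOpenIso` or similar identifies the restriction over `D(Q)` with
`Spec (Localization.awayMap ..)`), hence by (2) also over `O × O`. -/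
def S_W2 : Prop :=
  ∀ (A : Type) [CommRing A] (D : ChartData A) (b : B →+* A) (_ : ∀ i, b (pB i) = D.q i),
    IsOpenImmersion (wmap D.a b ∣_ UU)

/-- [EX] algebraic existence of lifts. (You may use `S_B1, S_B2, S_H, S_N` as hypotheses; the lemmas of
`RelFacts.lean`, `Maps.lean`, `CD.lean` are available.)

Proof. Apply `S_N` to `p = pt φ`, `q = pt χ`, `q' = pt χ'`: get `D, δ` (`δ ≡ 1 mod m`) with
`δ m^D ≤ (Q1 q q', Q3 q q')`. Let `C₁ = C[1/δ]`, flat over `B` via `φ`. In `C₁[1/Q1]` and `C₁[1/Q3]` there are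
solutions of `Rel (pt χ) (pt χ')` (`exists_rel1`, `exists_rel3`; `hh` of a `B`-point is zero), which agree in
`C₁[1/(Q1 Q3)]` by `Rel.unique1`. By `S_B2` (for `C₁` with the algebra structure from `φ`) the hypotheses of `S_H`
hold for `x = φ (pB 0)`, `y = φ (pB 1)`, `f = Q1, g = Q3`; so there are `t', u', w' ∈ C₁` inducing the two
solutions, and `Rel (pt χ) (pt χ') t' u' w'` holds in `C₁` (each equation holds in both localizations; use
`map_E1 ..` and the injectivity part of `S_H`). `D.univ` gives `f₁ ∈ C₁`, `f₁ - 1 ∈ mI (pt χ) C₁ ≤ m C₁`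
(`χ (pB i) ∈ m` by the congruence). Write
`f₁ = c / δ^n`; then `c - 1 ∈ m C₁`, so `δ^k (c - 1) ∈ m` for some `k`, so `c - 1 ∈ m` as `δ ≡ 1`. Take `f = δ c`.
If `g f` is a unit then `g` extends to `C₁` and `f₁` becomes a unit, so `D.univ` gives `ψ`. -/
def S_EX : Prop :=
  ∀ (A : Type) [CommRing A] (D : ChartData A) (b : B →+* A) (_ : ∀ i, b (pB i) = D.q i)
    (C : Type) [CommRing C] (φ χ χ' : B →+* C) (_ : φ.Flat) (υ υ' : C) (_ : IsUnit υ)
    (_ : IsUnit υ') (_ : ∀ i, χ (pB i) + υ * φ (pB i) ∈ mI (pt φ) ^ 2)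
    (_ : ∀ i, χ' (pB i) + υ' * φ (pB i) ∈ mI (pt φ) ^ 2),
    ∃ f : C, f - 1 ∈ mI (pt φ) ∧
      ∀ (C' : Type) [CommRing C'] (g : C →+* C'), IsUnit (g f) →
        ∃ ψ : A →+* C', ψ.comp D.a = g.comp χ ∧ ψ.comp b = g.comp χ'

end Pool.Agent.H919.FP
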