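import Pool.Agent.H919.FP.Defs

/-! polynomial identities modulo `h(p)`, `h(q)` and `2` (found by linear algebra) -/

namespace Pool.Agent.H919.FP

variable {C : Type*} [CommRing C]

theorem id_hq (p q : Fin 3 → C) (h2 : (2 : C) = 0) (hp : hh p = 0) :
    P23 p q * n3 p q + P33 p q * n2 p q = p 0 ^ 4 * hh q := by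
  simp only [hh, n1, n2, n3, gg, P11, P12, P13, P22, P23, P33, a1, a2, a3, β1, β2, β3, b1, b2, b3, A3, A2, A0] at hp ⊢
  linear_combination (q 0 ^ 4) * hp +
    ((2) * (p 0 ^ 3 * p 1 * q 0 ^ 2 * q 1 ^ 2) + (2) * (p 0 ^ 3 * p 2 * q 0 * q 2 ^ 3) + (2) * (p 0 ^ 2 * p 1 ^ 2 * q 0 ^ 3 * q 1) + p 0 ^ 2 * p 1 ^ 2 * q 1 * q 2 ^ 3 + (2) * (p 0 ^ 2 * p 1 * p 2 * q 1 ^ 2 * q 2 ^ 2) + (3) * (p 0 ^ 2 * p 2 ^ 2 * q 0 ^ 2 * q 2 ^ 2) + p 0 ^ 2 * p 2 ^ 2 * q 1 ^ 3 * q 2 + p 0 * p 1 ^ 3 * q 0 * q 2 ^ 3 + (3) * (p 0 * p 1 ^ 2 * p 2 * q 0 * q 1 * q 2 ^ 2) + (3) * (p 0 * p 1 * p 2 ^ 2 * q 0 * q 1 ^ 2 * q 2) + (2) * (p 0 * p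 2 ^ 3 * q 0 ^ 3 * q 2) + p 0 * p 2 ^ 3 * q 0 * q 1 ^ 3 + p 1 ^ 3 * p 2 * q 0 ^ 2 * q 2 ^ 2 + (2) * (p 1 ^ 2 * p 2 ^ 2 * q 0 ^ 2 * q 1 * q 2) + p 1 * p 2 ^ 3 * q 0 ^ 2 * q 1 ^ 2) * h2

theorem id_pa_11 (p q : Fin 3 → C) (h2 : (2 : C) = 0) (hp : hh p = 0) (hq : hh q = 0) :
    P11 p q * (q 0 * a1 p q ^ 2 + p 0 * P11 p q + n1 p q * a1 p q * 0) = n1 p q ^ 2 * (p 0 ^ 3 * p 1 ^ 2 * q 0 ^ 2 * q 1 ^ 2 + p 0 ^ 3 * p 1 * p 2 * q 0 ^ 4 + p 0 ^ 3 * p 2 ^ 2 * q 0 * q 1 * q 2 ^ 2 + p 0 ^ 2 * p 1 ^ 2 * p 2 * q 1 ^ 2 * q 2 ^ 2 + p 0 ^ 2 * p 2 ^ 3 * q 1 ^ 4 + p 0 * p 1 ^ 4 * q 0 * q 2 ^ 3 + p 1 ^ 5 * q 1 ^ 2 * q 2 ^ 2 +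 p 1 ^ 3 * p 2 ^ 2 * q 1 ^ 4 + p 1 ^ 2 * p 2 ^ 3 * q 0 ^ 2 * q 1 ^ 2) := by
  simp only [hh, n1, n2, n3, gg, P11, P12, P13, P22, P23, P33, a1, a2, a3, β1, β2, β3, b1, b2, b3, A3, A2, A0] at hp hq ⊢
  linear_combination (p 0 ^ 3 * q 0 ^ 3 * q 2 ^ 3 + p 0 ^ 3 * q 0 * q 1 ^ 3 * q 2 ^ 2 + p 0 ^ 3 * q 2 ^ 6 + p 0 ^ 2 * p 2 * q 0 ^ 4 * q 2 ^ 2 + p 0 ^ 2 * p 2 * q 1 ^ 6 + p 0 * p 2 ^ 2 * q 0 ^ 2 * q 2 ^ 4 + p 1 ^ 3 * q 1 ^ 6 + p 1 ^ 2 * p 2 * q 0 ^ 2 * q 1 ^ 4) * hp +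
    (p 0 ^ 6 * p 2 * q 2 ^ 2 + p 0 ^ 4 * p 1 ^ 3 * q 2 ^ 2 + p 0 ^ 4 * p 2 ^ 3 * q 0 ^ 2 + p 0 ^ 3 * p 1 ^ 2 * p 2 ^ 2 * q 0 * q 1 + p 0 ^ 2 * p 1 ^ 4 * p 2 * q 1 ^ 2 + p 0 ^ 2 * p 1 ^ 3 * p 2 ^ 2 * q 0 ^ 2 + p 0 * p 1 ^ 6 * q 0 * q 2 + p 1 ^ 7 * q 1 ^ 2) * hq +
    (-(p 0 ^ 6 * p 2 * q 0 ^ 3 * q 2 ^ 3) + -(p 0 ^ 6 * p 2 * q 0 * q 1 ^ 3 * q 2 ^ 2) + -(p 0 ^ 6 * p 2 * q 2 ^ 6) + p 0 ^ 5 * p 2 ^ 2 * q 0 ^ 2 * q 1 ^ 3 * q 2 + -(p 0 ^ 4 * p 1 ^ 3 * q 0 ^ 3 * q 2 ^ 3) + -(p 0 ^ 4 * p 1 ^ 3 * q 0 * q 1 ^ 3 * q 2 ^ 2) + -(p 0 ^ 4 * p 1 ^ 3 * q 2 ^ 6) + p 0 ^ 4 * p 1 ^ 2 * p 2 * q 0 ^ 3 * q 1 * q 2 ^ 2 + p 0 ^ 4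 * p 1 ^ 2 * p 2 * q 0 * q 1 ^ 4 * q 2 + p 0 ^ 4 * p 1 * p 2 ^ 2 * q 0 ^ 3 * q 1 ^ 2 * q 2 + p 0 ^ 4 * p 1 * p 2 ^ 2 * q 0 * q 1 ^ 5 + p 0 ^ 4 * p 2 ^ 3 * q 1 ^ 3 * q 2 ^ 3 + (2) * (p 0 ^ 3 * p 1 ^ 3 * p 2 * q 0 ^ 2 * q 1 ^ 3 * q 2) + p 0 ^ 3 * p 2 ^ 4 * q 0 ^ 3 * q 2 ^ 3 + p 0 ^ 2 * p 1 ^ 5 * q 0 ^ 3 * q 1 * q 2 ^ 2 + p 0 ^ 2 * p 1 ^ 5 * q 0 * q 1 ^ 4 * q 2 + (2) * (p 0 ^ 2 * p 1 ^ 4 * p 2 * q 0 ^ 3 * q 1 ^ 2 * q 2) + p 0 ^ 2 * p 1 ^ 4 * p 2 * q 0 * q 1 ^ 5 + -(p 0 ^ 2 * p 1 ^ 4 * p 2 * q 1 ^ 2 * q 2 ^ 4) + p 0 ^ 2 * p 1 ^ 3 * p 2 ^ 2 * q 0 ^ 3 * q 1 ^ 3 + (2) * (p 0 ^ 2 * p 1 ^ 2 * p 2 ^ 3 * q 0 ^ 2 * q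 1 * q 2 ^ 3) + -(p 0 ^ 2 * p 1 ^ 2 * p 2 ^ 3 * q 1 ^ 4 * q 2 ^ 2) + p 0 ^ 2 * p 1 * p 2 ^ 4 * q 0 ^ 2 * q 1 ^ 2 * q 2 ^ 2 + -(p 0 ^ 2 * p 1 * p 2 ^ 4 * q 1 ^ 5 * q 2) + p 0 ^ 2 * p 2 ^ 5 * q 0 * q 2 ^ 5 + -(p 0 ^ 2 * p 2 ^ 5 * q 1 ^ 6) + p 0 * p 1 ^ 6 * q 0 ^ 2 * q 1 ^ 3 * q 2 + -(p 0 * p 1 ^ 6 * q 0 * q 2 ^ 5) + p 0 * p 1 ^ 5 * p 2 * q 0 ^ 4 * q 1 * q 2 + p 0 * p 1 ^ 5 * p 2 * q 0 ^ 2 * q 1 ^ 4 + -(p 0 * p 1 ^ 5 * p 2 * q 0 * q 1 * q 2 ^ 4) + p 0 * p 1 ^ 3 * p 2 ^ 3 * q 0 ^ 3 * q 2 ^ 3 + p 0 * p 1 ^ 3 * p 2 ^ 3 * q 0 * q 1 ^ 3 * q 2 ^ 2 + p 0 * p 1 ^ 2 * p 2 ^ 4 * q 0 ^ 3 * q 1 * q 2 ^ 2 + -(p 1 ^ 7 * q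 1 ^ 2 * q 2 ^ 4) + -(p 1 ^ 6 * p 2 * q 1 ^ 3 * q 2 ^ 3) + -(p 1 ^ 5 * p 2 ^ 2 * q 1 ^ 4 * q 2 ^ 2) + -(p 1 ^ 4 * p 2 ^ 3 * q 1 ^ 5 * q 2) + -(p 1 ^ 3 * p 2 ^ 4 * q 0 ^ 2 * q 1 ^ 3 * q 2) + -(p 1 ^ 3 * p 2 ^ 4 * q 1 ^ 6) + -(p 1 ^ 2 * p 2 ^ 5 * q 0 ^ 2 * q 1 ^ 4)) * h2

theorem id_pb_11 (p q : Fin 3 → C) (h2 : (2 : C) = 0) (hp : hh p = 0) (hq : hh q = 0) :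
    P11 p q * ((p 0 ^ 3 * p 1 ^ 2 * q 0 ^ 2 * q 1 ^ 2 + p 0 ^ 3 * p 1 * p 2 * q 0 ^ 4 + p 0 ^ 3 * p 2 ^ 2 * q 0 * q 1 * q 2 ^ 2 + p 0 ^ 2 * p 1 ^ 2 * p 2 * q 1 ^ 2 * q 2 ^ 2 + p 0 ^ 2 * p 2 ^ 3 * q 1 ^ 4 + p 0 * p 1 ^ 4 * q 0 * q 2 ^ 3 + p 1 ^ 5 * q 1 ^ 2 * q 2 ^ 2 + p 1 ^ 3 * p 2 ^ 2 * q 1 ^ 4 + p 1 ^ 2 * p 2 ^ 3 * q 0 ^ 2 * q 1 ^ 2) + (n1 p q * b1 p q * 0 + n1 p q * a1 p q * (β1 p q + p 0 * A3 p q) + p 0 * n1 p q ^ 2 * A2 p q)) + n1 p q ^ 2 * (q 0 * b1 p q ^ 2 + n1 p q * b1 p q * (β1 p q + p 0 * A3 p q) + p 0 * n1 p q ^ 2 * A0 p q) = 0 := by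
  simp only [hh, n1, n2, n3, gg, P11, P12, P13, P22, P23, P33, a1, a2, a3, β1, β2, β3, b1, b2, b3, A3, A2, A0] at hp hq ⊢
  linear_combination (p 0 ^ 4 * q 0 ^ 4 * q 1 * q 2 ^ 2 + p 0 ^ 4 * q 0 ^ 2 * q 1 ^ 4 * q 2 + p 0 ^ 4 * q 0 * q 1 * q 2 ^ 5 + p 0 ^ 3 * p 1 * q 0 ^ 5 * q 2 ^ 2 + p 0 ^ 3 * p 1 * q 0 ^ 3 * q 1 ^ 3 * q 2 + p 0 ^ 3 * p 1 * q 0 ^ 2 * q 2 ^ 5 + (2) * (p 0 ^ 3 * p 1 * q 0 * q 1 ^ 6) + (2) * (p 0 ^ 3 * p 2 * q 0 ^ 3 * q 1 ^ 4) + p 0 ^ 2 * p 1 ^ 2 * q 0 ^ 4 * q 1 ^ 2 * q 2 + p 0 ^ 2 * p 1 ^ 2 * q 0 ^ 2 * q 1 ^ 5 + p 0 ^ 2 * p 1 * p 2 * q 0 ^ 3 * q 2 ^ 4 + p 0 ^ 2 * p 2 ^ 2 * q 0 ^ 3 * q 1 * q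 2 ^ 3 + p 0 ^ 2 * p 2 ^ 2 * q 0 * q 1 ^ 4 * q 2 ^ 2 + (2) * (p 0 * p 1 ^ 3 * q 0 ^ 3 * q 1 ^ 4) + p 0 * p 1 ^ 3 * q 0 ^ 2 * q 1 * q 2 ^ 4 + p 0 * p 2 ^ 3 * q 0 ^ 2 * q 1 ^ 4 * q 2 + p 1 * p 2 ^ 3 * q 0 * q 1 ^ 6 + p 2 ^ 4 * q 0 ^ 3 * q 1 ^ 4) * hp +
    (p 0 ^ 7 * p 2 * q 0 * q 1 * q 2 + p 0 ^ 6 * p 1 * p 2 * q 0 ^ 2 * q 2 + p 0 ^ 5 * p 1 ^ 3 * q 0 * q 1 * q 2 + p 0 ^ 5 * p 1 * p 2 ^ 2 * q 0 ^ 3 + (2) * (p 0 ^ 4 * p 1 ^ 4 * q 0 ^ 2 * q 2) + p 0 ^ 4 * p 1 ^ 3 * p 2 * q 0 ^ 2 * q 1 + p 0 ^ 3 * p 1 ^ 4 * p 2 * q 0 ^ 3 + (2) * (p 0 ^ 2 * p 1 ^ 6 * q 0 ^ 2 * q 1) + p 0 ^ 2 * p 1 ^ 4 * p 2 ^ 2 * q 0 * q 2 ^ 2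 + p 0 ^ 2 * p 1 ^ 3 * p 2 ^ 3 * q 0 * q 1 * q 2 + p 1 ^ 5 * p 2 ^ 3 * q 0 * q 1 ^ 2) * hq +
    (-(p 0 ^ 7 * p 2 * q 0 ^ 4 * q 1 * q 2 ^ 2) + -(p 0 ^ 7 * p 2 * q 0 ^ 2 * q 1 ^ 4 * q 2) + -(p 0 ^ 7 * p 2 * q 0 * q 1 * q 2 ^ 5) + -(p 0 ^ 6 * p 1 * p 2 * q 0 ^ 5 * q 2 ^ 2) + -(p 0 ^ 6 * p 1 * p 2 * q 0 ^ 3 * q 1 ^ 3 * q 2) + -(p 0 ^ 6 * p 1 * p 2 * q 0 ^ 2 * q 2 ^ 5) + -(p 0 ^ 6 * p 1 * p 2 * q 0 * q 1 ^ 6) + -(p 0 ^ 6 * p 2 ^ 2 * q 0 ^ 3 * q 1 ^ 4) + -(p 0 ^ 5 * p 1 ^ 3 * q 0 ^ 4 * q 1 * q 2 ^ 2) + -(p 0 ^ 5 * p 1 ^ 3 * q 0 ^ 2 * q 1 ^ 4 * q 2) + -(p 0 ^ 5 * p 1 ^ 3 * q 0 * q 1 * q 2 ^ 5) + -(p 0 ^ 5 * p 1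 * p 2 ^ 2 * q 0 ^ 3 * q 2 ^ 4) + -(p 0 ^ 4 * p 1 ^ 4 * q 0 ^ 5 * q 2 ^ 2) + -(p 0 ^ 4 * p 1 ^ 4 * q 0 ^ 3 * q 1 ^ 3 * q 2) + -(p 0 ^ 4 * p 1 ^ 4 * q 0 ^ 2 * q 2 ^ 5) + -(p 0 ^ 4 * p 1 ^ 4 * q 0 * q 1 ^ 6) + p 0 ^ 4 * p 1 ^ 3 * p 2 * q 0 ^ 5 * q 1 * q 2 + (-2) * (p 0 ^ 4 * p 1 ^ 3 * p 2 * q 0 ^ 3 * q 1 ^ 4) + p 0 ^ 4 * p 1 ^ 3 * p 2 * q 0 ^ 2 * q 1 * q 2 ^ 4 + p 0 ^ 4 * p 1 ^ 2 * p 2 ^ 2 * q 0 ^ 5 * q 1 ^ 2 + (5) * (p 0 ^ 4 * p 1 ^ 2 * p 2 ^ 2 * q 0 ^ 2 * q 1 ^ 2 * q 2 ^ 3) + p 0 ^ 4 * p 1 ^ 2 * p 2 ^ 2 * q 1 ^ 5 * q 2 ^ 2 + p 0 ^ 4 * p 1 * p 2 ^ 3 * q 0 ^ 4 * q 2 ^ 3 + (4) * (p 0 ^ 4 * p 1 * p 2 ^ 3 * q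 0 ^ 2 * q 1 ^ 3 * q 2 ^ 2) + p 0 ^ 4 * p 1 * p 2 ^ 3 * q 1 ^ 6 * q 2 + p 0 ^ 4 * p 2 ^ 4 * q 0 ^ 2 * q 1 ^ 4 * q 2 + p 0 ^ 4 * p 2 ^ 4 * q 1 ^ 7 + (2) * (p 0 ^ 3 * p 1 ^ 4 * p 2 * q 0 ^ 3 * q 2 ^ 4) + (2) * (p 0 ^ 3 * p 1 ^ 4 * p 2 * q 0 * q 1 ^ 3 * q 2 ^ 3) + (8) * (p 0 ^ 3 * p 1 ^ 3 * p 2 ^ 2 * q 0 ^ 3 * q 1 * q 2 ^ 3) + (4) * (p 0 ^ 3 * p 1 ^ 3 * p 2 ^ 2 * q 0 * q 1 ^ 4 * q 2 ^ 2) + (9) * (p 0 ^ 3 * p 1 ^ 2 * p 2 ^ 3 * q 0 ^ 3 * q 1 ^ 2 * q 2 ^ 2) + (4) * (p 0 ^ 3 * p 1 ^ 2 * p 2 ^ 3 * q 0 * q 1 ^ 5 * q 2) + p 0 ^ 3 * p 1 ^ 2 * p 2 ^ 3 * q 1 ^ 2 * q 2 ^ 5 + (3) * (p 0 ^ 3 * p 1 * p 2 ^ 4 * q 0 ^ 3 * q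 1 ^ 3 * q 2) + p 0 ^ 3 * p 1 * p 2 ^ 4 * q 1 ^ 3 * q 2 ^ 4 + -(p 0 ^ 3 * p 2 ^ 5 * q 0 ^ 3 * q 1 ^ 4) + p 0 ^ 3 * p 2 ^ 5 * q 0 ^ 2 * q 1 * q 2 ^ 4 + p 0 ^ 3 * p 2 ^ 5 * q 1 ^ 4 * q 2 ^ 3 + -(p 0 ^ 2 * p 1 ^ 6 * q 0 ^ 5 * q 1 * q 2) + (-2) * (p 0 ^ 2 * p 1 ^ 6 * q 0 ^ 3 * q 1 ^ 4) + (7) * (p 0 ^ 2 * p 1 ^ 5 * p 2 * q 0 ^ 2 * q 1 ^ 2 * q 2 ^ 3) + (2) * (p 0 ^ 2 * p 1 ^ 5 * p 2 * q 1 ^ 5 * q 2 ^ 2) + (9) * (p 0 ^ 2 * p 1 ^ 4 * p 2 ^ 2 * q 0 ^ 2 * q 1 ^ 3 * q 2 ^ 2) + (2) * (p 0 ^ 2 * p 1 ^ 4 * p 2 ^ 2 * q 0 * q 2 ^ 6) + (2) * (p 0 ^ 2 * p 1 ^ 4 * p 2 ^ 2 * q 1 ^ 6 * q 2) + p 0 ^ 2 * p 1 ^ 3 * p 2 ^ 3 * q 0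 ^ 4 * q 1 * q 2 ^ 2 + (6) * (p 0 ^ 2 * p 1 ^ 3 * p 2 ^ 3 * q 0 ^ 2 * q 1 ^ 4 * q 2) + (6) * (p 0 ^ 2 * p 1 ^ 3 * p 2 ^ 3 * q 0 * q 1 * q 2 ^ 5) + (2) * (p 0 ^ 2 * p 1 ^ 3 * p 2 ^ 3 * q 1 ^ 7) + (2) * (p 0 ^ 2 * p 1 ^ 2 * p 2 ^ 4 * q 0 ^ 4 * q 1 ^ 2 * q 2) + p 0 ^ 2 * p 1 ^ 2 * p 2 ^ 4 * q 0 ^ 2 * q 1 ^ 5 + (8) * (p 0 ^ 2 * p 1 ^ 2 * p 2 ^ 4 * q 0 * q 1 ^ 2 * q 2 ^ 4) + p 0 ^ 2 * p 1 * p 2 ^ 5 * q 0 ^ 4 * q 1 ^ 3 + (4) * (p 0 ^ 2 * p 1 * p 2 ^ 5 * q 0 * q 1 ^ 3 * q 2 ^ 3) + p 0 ^ 2 * p 2 ^ 6 * q 0 * q 1 ^ 4 * q 2 ^ 2 + p 0 * p 1 ^ 7 * q 0 ^ 3 * q 2 ^ 4 + (2) * (p 0 * p 1 ^ 7 * q 0 * q 1 ^ 3 * q 2 ^ 3) + (2)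 * (p 0 * p 1 ^ 6 * p 2 * q 0 ^ 3 * q 1 * q 2 ^ 3) + (4) * (p 0 * p 1 ^ 6 * p 2 * q 0 * q 1 ^ 4 * q 2 ^ 2) + p 0 * p 1 ^ 6 * p 2 * q 1 * q 2 ^ 6 + (2) * (p 0 * p 1 ^ 5 * p 2 ^ 2 * q 0 ^ 3 * q 1 ^ 2 * q 2 ^ 2) + (4) * (p 0 * p 1 ^ 5 * p 2 ^ 2 * q 0 * q 1 ^ 5 * q 2) + (5) * (p 0 * p 1 ^ 5 * p 2 ^ 2 * q 1 ^ 2 * q 2 ^ 5) + p 0 * p 1 ^ 4 * p 2 ^ 3 * q 0 ^ 3 * q 1 ^ 3 * q 2 + p 0 * p 1 ^ 4 * p 2 ^ 3 * q 0 ^ 2 * q 2 ^ 5 + p 0 * p 1 ^ 4 * p 2 ^ 3 * q 0 * q 1 ^ 6 + (7) * (p 0 * p 1 ^ 4 * p 2 ^ 3 * q 1 ^ 3 * q 2 ^ 4) + -(p 0 * p 1 ^ 3 * p 2 ^ 4 * q 0 ^ 3 * q 1 ^ 4) + (3) * (p 0 * p 1 ^ 3 * p 2 ^ 4 * q 0 ^ 2 * q 1 *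 q 2 ^ 4) + (5) * (p 0 * p 1 ^ 3 * p 2 ^ 4 * q 1 ^ 4 * q 2 ^ 3) + (6) * (p 0 * p 1 ^ 2 * p 2 ^ 5 * q 0 ^ 2 * q 1 ^ 2 * q 2 ^ 3) + p 0 * p 1 ^ 2 * p 2 ^ 5 * q 1 ^ 5 * q 2 ^ 2 + (3) * (p 0 * p 1 * p 2 ^ 6 * q 0 ^ 2 * q 1 ^ 3 * q 2 ^ 2) + p 1 ^ 8 * q 0 ^ 2 * q 1 ^ 2 * q 2 ^ 3 + p 1 ^ 8 * q 1 ^ 5 * q 2 ^ 2 + p 1 ^ 7 * p 2 * q 0 ^ 2 * q 1 ^ 3 * q 2 ^ 2 + p 1 ^ 7 * p 2 * q 1 ^ 6 * q 2 + p 1 ^ 6 * p 2 ^ 2 * q 0 ^ 2 * q 1 ^ 4 * q 2 + p 1 ^ 6 * p 2 ^ 2 * q 1 ^ 7 + p 1 ^ 5 * p 2 ^ 3 * q 0 * q 1 ^ 2 * q 2 ^ 4 + (3) * (p 1 ^ 4 * p 2 ^ 4 * q 0 * q 1 ^ 3 * q 2 ^ 3) + (4) * (p 1 ^ 3 * p 2 ^ 5 * q 0 * q 1 ^ 4 * q 2 ^ 2)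 + p 1 ^ 2 * p 2 ^ 6 * q 0 ^ 3 * q 1 ^ 2 * q 2 ^ 2 + (2) * (p 1 ^ 2 * p 2 ^ 6 * q 0 * q 1 ^ 5 * q 2) + p 1 * p 2 ^ 7 * q 0 ^ 3 * q 1 ^ 3 * q 2) * h2

theorem id_phi_11 (p q : Fin 3 → C) (h2 : (2 : C) = 0) (hp : hh p = 0) (hq : hh q = 0) :
    q 0 * (a1 p q * P11 p q + n1 p q ^ 2 * b1 p q) ^ 2 + p 0 * P11 p q ^ 3 + n1 p q * P11 p q * (a1 p q * P11 p q + n1 p q ^ 2 * b1 p q) * 0 + n1 p q ^ 3 * (a1 p q * P11 p q + n1 p q ^ 2 * b1 p q) * (β1 p q + p 0 * A3 p q)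
      + p 0 * n1 p q ^ 4 * (P11 p q * A2 p q + n1 p q ^ 2 * A0 p q) = 0 := by
  have e1 := id_pa_11 p q h2 hp hq
  have e2 := id_pb_11 p q h2 hp hq
  linear_combination P11 p q * e1 + n1 p q ^ 2 * e2 + (q 0 * a1 p q * P11 p q * n1 p q ^ 2 * b1 p q) * h2

theorem id_pa_12 (p q : Fin 3 → C) (h2 : (2 : C) = 0) (hp : hh p = 0) (hq : hh q = 0) :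
    P11 p q * (q 1 * a1 p q ^ 2 + p 1 * P11 p q + n1 p q * a1 p q * (p 0 * q 0)) = n1 p q ^ 2 * (p 0 ^ 2 * p 1 ^ 2 * p 2 * q 0 * q 2 ^ 3 + p 0 ^ 2 * p 1 * p 2 ^ 2 * q 0 * q 1 * q 2 ^ 2 + p 0 * p 1 ^ 4 * q 1 * q 2 ^ 3 + p 0 * p 1 ^ 3 * p 2 * q 1 ^ 2 * q 2 ^ 2 + p 0 * p 1 ^ 2 * p 2 ^ 2 * q 0 ^ 2 * q 2 ^ 2 + p 0 * p 1 * p 2 ^ 3 * q 0 ^ 2 * q 1 * q 2 + p 0 * p 1 * p 2 ^ 3 * q 1 ^ 4 + p 1 ^ 5 * q 0 * q 2 ^ 3 + p 1 ^ 3 * p 2 ^ 2 * q 0 * q 1 ^ 2 * q 2 + p 1 ^ 2 * p 2 ^ 3 * q 0 * q 1 ^ 3) := by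
  simp only [hh, n1, n2, n3, gg, P11, P12, P13, P22, P23, P33, a1, a2, a3, β1, β2, β3, b1, b2, b3, A3, A2, A0] at hp hq ⊢
  linear_combination (p 0 ^ 2 * p 1 * q 0 ^ 3 * q 2 ^ 3 + p 0 ^ 2 * p 1 * q 0 * q 1 ^ 3 * q 2 ^ 2 + p 0 ^ 2 * p 1 * q 2 ^ 6 + p 0 * p 1 * p 2 * q 0 ^ 2 * q 1 ^ 3 * q 2 + p 0 * p 1 * p 2 * q 1 ^ 6 + p 1 ^ 3 * q 0 * q 1 ^ 4 * q 2 + p 1 ^ 2 * p 2 * q 0 * q 1 ^ 5 + p 1 * p 2 ^ 2 * q 0 ^ 2 * q 2 ^ 4) * hp +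
    (p 0 ^ 5 * p 1 * p 2 * q 2 ^ 2 + p 0 ^ 3 * p 1 ^ 4 * q 2 ^ 2 + (2) * (p 0 ^ 3 * p 1 * p 2 ^ 3 * q 0 ^ 2) + p 0 ^ 2 * p 1 ^ 4 * p 2 * q 0 * q 2 + p 0 * p 1 ^ 6 * q 1 * q 2 + p 0 * p 1 ^ 5 * p 2 * q 1 ^ 2 + (2) * (p 0 * p 1 ^ 4 * p 2 ^ 2 * q 0 ^ 2) + p 1 ^ 7 * q 0 * q 2) * hq +
    (-(p 0 ^ 5 * p 1 * p 2 * q 0 ^ 3 * q 2 ^ 3) + -(p 0 ^ 5 * p 1 * p 2 * q 0 * q 1 ^ 3 * q 2 ^ 2) + -(p 0 ^ 5 * p 1 * p 2 * q 2 ^ 6) + p 0 ^ 4 * p 1 * p 2 ^ 2 * q 0 ^ 4 * q 2 ^ 2 + p 0 ^ 4 * p 1 * p 2 ^ 2 * q 0 ^ 2 * q 1 ^ 3 * q 2 + p 0 ^ 4 * p 2 ^ 3 * q 0 ^ 4 * q 1 * q 2 + p 0 ^ 4 * p 2 ^ 3 * q 0 ^ 2 * q 1 ^ 4 + -(p 0 ^ 3 * p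 1 ^ 4 * q 0 ^ 3 * q 2 ^ 3) + -(p 0 ^ 3 * p 1 ^ 4 * q 0 * q 1 ^ 3 * q 2 ^ 2) + -(p 0 ^ 3 * p 1 ^ 4 * q 2 ^ 6) + (2) * (p 0 ^ 3 * p 1 ^ 3 * p 2 * q 0 ^ 3 * q 1 * q 2 ^ 2) + p 0 ^ 3 * p 1 ^ 3 * p 2 * q 0 * q 1 ^ 4 * q 2 + (4) * (p 0 ^ 3 * p 1 ^ 2 * p 2 ^ 2 * q 0 ^ 3 * q 1 ^ 2 * q 2) + (2) * (p 0 ^ 3 * p 1 ^ 2 * p 2 ^ 2 * q 0 * q 1 ^ 5) + -(p 0 ^ 3 * p 1 * p 2 ^ 3 * q 0 ^ 5 * q 2) + p 0 ^ 3 * p 1 * p 2 ^ 3 * q 1 ^ 3 * q 2 ^ 3 + p 0 ^ 3 * p 2 ^ 4 * q 0 ^ 2 * q 1 * q 2 ^ 3 + p 0 ^ 2 * p 1 ^ 5 * q 0 ^ 2 * q 1 ^ 2 * q 2 ^ 2 + p 0 ^ 2 * p 1 ^ 4 * p 2 * q 0 ^ 4 * q 2 ^ 2 + (5) * (p 0 ^ 2 * p 1 ^ 4 * p 2 * q 0 ^ 2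 * q 1 ^ 3 * q 2) + -(p 0 ^ 2 * p 1 ^ 4 * p 2 * q 0 * q 2 ^ 5) + p 0 ^ 2 * p 1 ^ 4 * p 2 * q 1 ^ 6 + p 0 ^ 2 * p 1 ^ 3 * p 2 ^ 2 * q 0 ^ 4 * q 1 * q 2 + (3) * (p 0 ^ 2 * p 1 ^ 3 * p 2 ^ 2 * q 0 ^ 2 * q 1 ^ 4) + p 0 ^ 2 * p 1 ^ 2 * p 2 ^ 3 * q 0 * q 1 ^ 2 * q 2 ^ 3 + p 0 ^ 2 * p 1 * p 2 ^ 4 * q 0 ^ 3 * q 2 ^ 3 + p 0 ^ 2 * p 2 ^ 5 * q 0 ^ 3 * q 1 * q 2 ^ 2 + p 0 * p 1 ^ 6 * q 0 ^ 3 * q 1 * q 2 ^ 2 + p 0 * p 1 ^ 6 * q 0 * q 1 ^ 4 * q 2 + -(p 0 * p 1 ^ 6 * q 1 * q 2 ^ 5) + (2) * (p 0 * p 1 ^ 5 * p 2 * q 0 ^ 3 * q 1 ^ 2 * q 2) + (2) * (p 0 * p 1 ^ 5 * p 2 * q 0 * q 1 ^ 5) + (-2) * (p 0 * p 1 ^ 5 * p 2 * q 1 ^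 2 * q 2 ^ 4) + -(p 0 * p 1 ^ 4 * p 2 ^ 2 * q 0 ^ 5 * q 2) + -(p 0 * p 1 ^ 4 * p 2 ^ 2 * q 0 ^ 3 * q 1 ^ 3) + -(p 0 * p 1 ^ 4 * p 2 ^ 2 * q 0 ^ 2 * q 2 ^ 4) + -(p 0 * p 1 ^ 3 * p 2 ^ 3 * q 1 ^ 4 * q 2 ^ 2) + p 0 * p 1 ^ 2 * p 2 ^ 4 * q 0 ^ 2 * q 1 ^ 2 * q 2 ^ 2 + -(p 0 * p 1 ^ 2 * p 2 ^ 4 * q 1 ^ 5 * q 2) + -(p 0 * p 1 * p 2 ^ 5 * q 0 ^ 2 * q 1 ^ 3 * q 2) + p 0 * p 1 * p 2 ^ 5 * q 0 * q 2 ^ 5 + -(p 0 * p 1 * p 2 ^ 5 * q 1 ^ 6) + p 1 ^ 7 * q 0 ^ 2 * q 1 ^ 3 * q 2 + -(p 1 ^ 7 * q 0 * q 2 ^ 5) + p 1 ^ 7 * q 1 ^ 6 + -(p 1 ^ 6 * p 2 * q 0 * q 1 * q 2 ^ 4) + -(p 1 ^ 5 * p 2 ^ 2 * q 0 * q 1 ^ 2 * q 2 ^ 3) + p 1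 ^ 4 * p 2 ^ 3 * q 0 ^ 3 * q 2 ^ 3 + (-2) * (p 1 ^ 3 * p 2 ^ 4 * q 0 * q 1 ^ 4 * q 2) + -(p 1 ^ 2 * p 2 ^ 5 * q 0 * q 1 ^ 5)) * h2

theorem id_pb_12 (p q : Fin 3 → C) (h2 : (2 : C) = 0) (hp : hh p = 0) (hq : hh q = 0) :
    P11 p q * ((p 0 ^ 2 * p 1 ^ 2 * p 2 * q 0 * q 2 ^ 3 + p 0 ^ 2 * p 1 * p 2 ^ 2 * q 0 * q 1 * q 2 ^ 2 + p 0 * p 1 ^ 4 * q 1 * q 2 ^ 3 + p 0 * p 1 ^ 3 * p 2 * q 1 ^ 2 * q 2 ^ 2 + p 0 * p 1 ^ 2 * p 2 ^ 2 * q 0 ^ 2 * q 2 ^ 2 + p 0 * p 1 * p 2 ^ 3 * q 0 ^ 2 * q 1 * q 2 + p 0 * p 1 * p 2 ^ 3 * q 1 ^ 4 + p 1 ^ 5 * q 0 * q 2 ^ 3 + p 1 ^ 3 * p 2 ^ 2 * q 0 * q 1 ^ 2 * q 2 + p 1 ^ 2 * p 2 ^ 3 * q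 0 * q 1 ^ 3) + (n1 p q * b1 p q * (p 0 * q 0) + n1 p q * a1 p q * (β2 p q + p 1 * A3 p q) + p 1 * n1 p q ^ 2 * A2 p q)) + n1 p q ^ 2 * (q 1 * b1 p q ^ 2 + n1 p q * b1 p q * (β2 p q + p 1 * A3 p q) + p 1 * n1 p q ^ 2 * A0 p q) = 0 := by
  simp only [hh, n1, n2, n3, gg, P11, P12, P13, P22, P23, P33, a1, a2, a3, β1, β2, β3, b1, b2, b3, A3, A2, A0] at hp hq ⊢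
  linear_combination (p 0 ^ 3 * p 1 * q 0 ^ 4 * q 1 * q 2 ^ 2 + p 0 ^ 3 * p 1 * q 0 ^ 2 * q 1 ^ 4 * q 2 + p 0 ^ 3 * p 1 * q 0 * q 1 * q 2 ^ 5 + p 0 ^ 2 * p 1 ^ 2 * q 0 ^ 2 * q 2 ^ 5 + p 0 ^ 2 * p 1 * p 2 * q 0 ^ 2 * q 1 * q 2 ^ 4 + p 0 * p 1 ^ 2 * p 2 * q 0 * q 1 ^ 3 * q 2 ^ 3 + p 0 * p 1 * p 2 ^ 2 * q 0 * q 1 ^ 4 * q 2 ^ 2 + p 1 ^ 3 * p 2 * q 1 ^ 5 * q 2 ^ 2 + p 1 ^ 2 * p 2 ^ 2 * q 0 ^ 2 * q 1 ^ 3 * q 2 ^ 2) * hp +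
    (p 0 ^ 6 * p 1 * p 2 * q 0 * q 1 * q 2 + p 0 ^ 5 * p 1 ^ 2 * p 2 * q 0 ^ 2 * q 2 + p 0 ^ 5 * p 1 * p 2 ^ 2 * q 0 ^ 2 * q 1 + p 0 ^ 4 * p 1 ^ 4 * q 0 * q 1 * q 2 + p 0 ^ 3 * p 1 ^ 5 * q 0 ^ 2 * q 2 + p 0 ^ 3 * p 1 ^ 4 * p 2 * q 0 ^ 2 * q 1 + p 0 ^ 3 * p 1 ^ 2 * p 2 ^ 3 * q 0 * q 2 ^ 2 + (2) * (p 0 ^ 2 * p 1 ^ 5 * p 2 * q 0 ^ 3) + p 0 ^ 2 * p 1 ^ 5 * p 2 * q 2 ^ 3 + p 1 ^ 7 * p 2 * q 1 * q 2 ^ 2) * hq +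
    (-(p 0 ^ 6 * p 1 * p 2 * q 0 ^ 4 * q 1 * q 2 ^ 2) + -(p 0 ^ 6 * p 1 * p 2 * q 0 ^ 2 * q 1 ^ 4 * q 2) + -(p 0 ^ 6 * p 1 * p 2 * q 0 * q 1 * q 2 ^ 5) + -(p 0 ^ 5 * p 1 ^ 2 * p 2 * q 0 ^ 2 * q 2 ^ 5) + -(p 0 ^ 5 * p 1 * p 2 ^ 2 * q 0 ^ 2 * q 1 * q 2 ^ 4) + -(p 0 ^ 4 * p 1 ^ 4 * q 0 ^ 2 * q 1 ^ 4 * q 2) + -(p 0 ^ 4 * p 1 ^ 4 * q 0 * q 1 * q 2 ^ 5) + (2) * (p 0 ^ 4 * p 1 ^ 3 * p 2 * q 0 ^ 4 * q 1 ^ 2 * q 2) + p 0 ^ 4 * p 1 ^ 2 * p 2 ^ 2 * q 0 ^ 4 * q 1 ^ 3 + (2) * (p 0 ^ 4 * p 1 ^ 2 * p 2 ^ 2 * q 0 ^ 3 * q 2 ^ 4) + p 0 ^ 4 * p 1 ^ 2 * p 2 ^ 2 * q 0 * q 1 ^ 3 * q 2 ^ 3 + (2) * (p 0 ^ 4 * p 1 * p 2 ^ 3 * q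 0 ^ 3 * q 1 * q 2 ^ 3) + p 0 ^ 4 * p 1 * p 2 ^ 3 * q 0 * q 1 ^ 4 * q 2 ^ 2 + (6) * (p 0 ^ 3 * p 1 ^ 4 * p 2 * q 0 ^ 2 * q 1 * q 2 ^ 4) + p 0 ^ 3 * p 1 ^ 4 * p 2 * q 1 ^ 4 * q 2 ^ 3 + (11) * (p 0 ^ 3 * p 1 ^ 3 * p 2 ^ 2 * q 0 ^ 2 * q 1 ^ 2 * q 2 ^ 3) + p 0 ^ 3 * p 1 ^ 3 * p 2 ^ 2 * q 1 ^ 5 * q 2 ^ 2 + p 0 ^ 3 * p 1 ^ 2 * p 2 ^ 3 * q 0 ^ 4 * q 2 ^ 3 + (6) * (p 0 ^ 3 * p 1 ^ 2 * p 2 ^ 3 * q 0 ^ 2 * q 1 ^ 3 * q 2 ^ 2) + p 0 ^ 3 * p 1 ^ 2 * p 2 ^ 3 * q 0 * q 2 ^ 6 + p 0 ^ 3 * p 1 ^ 2 * p 2 ^ 3 * q 1 ^ 6 * q 2 + (2) * (p 0 ^ 3 * p 1 * p 2 ^ 4 * q 0 ^ 4 * q 1 * q 2 ^ 2) + (3) * (p 0 ^ 3 * p 1 * p 2 ^ 4 * q 0 ^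 2 * q 1 ^ 4 * q 2) + p 0 ^ 3 * p 1 * p 2 ^ 4 * q 0 * q 1 * q 2 ^ 5 + p 0 ^ 3 * p 1 * p 2 ^ 4 * q 1 ^ 7 + p 0 ^ 3 * p 2 ^ 5 * q 0 ^ 4 * q 1 ^ 2 * q 2 + p 0 ^ 3 * p 2 ^ 5 * q 0 ^ 2 * q 1 ^ 5 + p 0 ^ 2 * p 1 ^ 6 * q 0 * q 1 ^ 2 * q 2 ^ 4 + -(p 0 ^ 2 * p 1 ^ 5 * p 2 * q 0 ^ 6 * q 2) + -(p 0 ^ 2 * p 1 ^ 5 * p 2 * q 0 ^ 4 * q 1 ^ 3) + (2) * (p 0 ^ 2 * p 1 ^ 5 * p 2 * q 0 ^ 3 * q 2 ^ 4) + (4) * (p 0 ^ 2 * p 1 ^ 5 * p 2 * q 0 * q 1 ^ 3 * q 2 ^ 3) + (8) * (p 0 ^ 2 * p 1 ^ 4 * p 2 ^ 2 * q 0 ^ 3 * q 1 * q 2 ^ 3) + (5) * (p 0 ^ 2 * p 1 ^ 4 * p 2 ^ 2 * q 0 * q 1 ^ 4 * q 2 ^ 2) + (3) * (p 0 ^ 2 * p 1 ^ 4 * p 2 ^ 2 * q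 1 * q 2 ^ 6) + (12) * (p 0 ^ 2 * p 1 ^ 3 * p 2 ^ 3 * q 0 ^ 3 * q 1 ^ 2 * q 2 ^ 2) + (4) * (p 0 ^ 2 * p 1 ^ 3 * p 2 ^ 3 * q 0 * q 1 ^ 5 * q 2) + (4) * (p 0 ^ 2 * p 1 ^ 3 * p 2 ^ 3 * q 1 ^ 2 * q 2 ^ 5) + (10) * (p 0 ^ 2 * p 1 ^ 2 * p 2 ^ 4 * q 0 ^ 3 * q 1 ^ 3 * q 2) + (2) * (p 0 ^ 2 * p 1 ^ 2 * p 2 ^ 4 * q 0 ^ 2 * q 2 ^ 5) + (2) * (p 0 ^ 2 * p 1 ^ 2 * p 2 ^ 4 * q 0 * q 1 ^ 6) + (2) * (p 0 ^ 2 * p 1 ^ 2 * p 2 ^ 4 * q 1 ^ 3 * q 2 ^ 4) + (3) * (p 0 ^ 2 * p 1 * p 2 ^ 5 * q 0 ^ 3 * q 1 ^ 4) + (3) * (p 0 ^ 2 * p 1 * p 2 ^ 5 * q 0 ^ 2 * q 1 * q 2 ^ 4) + p 0 ^ 2 * p 1 * p 2 ^ 5 * q 1 ^ 4 * q 2 ^ 3 + p 0 ^ 2 * p 2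 ^ 6 * q 0 ^ 2 * q 1 ^ 2 * q 2 ^ 3 + (2) * (p 0 * p 1 ^ 7 * q 0 ^ 2 * q 1 * q 2 ^ 4) + p 0 * p 1 ^ 7 * q 1 ^ 4 * q 2 ^ 3 + (4) * (p 0 * p 1 ^ 6 * p 2 * q 0 ^ 2 * q 1 ^ 2 * q 2 ^ 3) + p 0 * p 1 ^ 6 * p 2 * q 1 ^ 5 * q 2 ^ 2 + p 0 * p 1 ^ 5 * p 2 ^ 2 * q 0 ^ 4 * q 2 ^ 3 + (5) * (p 0 * p 1 ^ 5 * p 2 ^ 2 * q 0 ^ 2 * q 1 ^ 3 * q 2 ^ 2) + (2) * (p 0 * p 1 ^ 5 * p 2 ^ 2 * q 0 * q 2 ^ 6) + p 0 * p 1 ^ 5 * p 2 ^ 2 * q 1 ^ 6 * q 2 + (2) * (p 0 * p 1 ^ 4 * p 2 ^ 3 * q 0 ^ 4 * q 1 * q 2 ^ 2) + (6) * (p 0 * p 1 ^ 4 * p 2 ^ 3 * q 0 ^ 2 * q 1 ^ 4 * q 2) + (7) * (p 0 * p 1 ^ 4 * p 2 ^ 3 * q 0 * q 1 * q 2 ^ 5) + p 0 * p 1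 ^ 4 * p 2 ^ 3 * q 1 ^ 7 + p 0 * p 1 ^ 3 * p 2 ^ 4 * q 0 ^ 4 * q 1 ^ 2 * q 2 + (2) * (p 0 * p 1 ^ 3 * p 2 ^ 4 * q 0 ^ 2 * q 1 ^ 5) + (12) * (p 0 * p 1 ^ 3 * p 2 ^ 4 * q 0 * q 1 ^ 2 * q 2 ^ 4) + p 0 * p 1 ^ 2 * p 2 ^ 5 * q 0 ^ 3 * q 2 ^ 4 + (9) * (p 0 * p 1 ^ 2 * p 2 ^ 5 * q 0 * q 1 ^ 3 * q 2 ^ 3) + (2) * (p 0 * p 1 * p 2 ^ 6 * q 0 ^ 3 * q 1 * q 2 ^ 3) + (3) * (p 0 * p 1 * p 2 ^ 6 * q 0 * q 1 ^ 4 * q 2 ^ 2) + p 0 * p 2 ^ 7 * q 0 ^ 3 * q 1 ^ 2 * q 2 ^ 2 + p 1 ^ 8 * q 0 ^ 3 * q 2 ^ 4 + p 1 ^ 8 * q 0 * q 1 ^ 3 * q 2 ^ 3 + p 1 ^ 7 * p 2 * q 0 ^ 3 * q 1 * q 2 ^ 3 + p 1 ^ 7 * p 2 * q 0 * q 1 ^ 4 * q 2 ^ 2 + (2)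 * (p 1 ^ 6 * p 2 ^ 2 * q 0 ^ 3 * q 1 ^ 2 * q 2 ^ 2) + (2) * (p 1 ^ 6 * p 2 ^ 2 * q 0 * q 1 ^ 5 * q 2) + (2) * (p 1 ^ 6 * p 2 ^ 2 * q 1 ^ 2 * q 2 ^ 5) + p 1 ^ 5 * p 2 ^ 3 * q 0 ^ 3 * q 1 ^ 3 * q 2 + p 1 ^ 5 * p 2 ^ 3 * q 0 ^ 2 * q 2 ^ 5 + p 1 ^ 5 * p 2 ^ 3 * q 0 * q 1 ^ 6 + (3) * (p 1 ^ 5 * p 2 ^ 3 * q 1 ^ 3 * q 2 ^ 4) + (2) * (p 1 ^ 4 * p 2 ^ 4 * q 0 ^ 2 * q 1 * q 2 ^ 4) + (2) * (p 1 ^ 4 * p 2 ^ 4 * q 1 ^ 4 * q 2 ^ 3) + (4) * (p 1 ^ 3 * p 2 ^ 5 * q 0 ^ 2 * q 1 ^ 2 * q 2 ^ 3) + (4) * (p 1 ^ 2 * p 2 ^ 6 * q 0 ^ 2 * q 1 ^ 3 * q 2 ^ 2) + (3) * (p 1 * p 2 ^ 7 * q 0 ^ 2 * q 1 ^ 4 * q 2) + p 2 ^ 8 * q 0 ^ 2 * q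 1 ^ 5) * h2

theorem id_phi_12 (p q : Fin 3 → C) (h2 : (2 : C) = 0) (hp : hh p = 0) (hq : hh q = 0) :
    q 1 * (a1 p q * P11 p q + n1 p q ^ 2 * b1 p q) ^ 2 + p 1 * P11 p q ^ 3 + n1 p q * P11 p q * (a1 p q * P11 p q + n1 p q ^ 2 * b1 p q) * (p 0 * q 0) + n1 p q ^ 3 * (a1 p q * P11 p q + n1 p q ^ 2 * b1 p q) * (β2 p q + p 1 * A3 p q)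
      + p 1 * n1 p q ^ 4 * (P11 p q * A2 p q + n1 p q ^ 2 * A0 p q) = 0 := by
  have e1 := id_pa_12 p q h2 hp hq
  have e2 := id_pb_12 p q h2 hp hq
  linear_combination P11 p q * e1 + n1 p q ^ 2 * e2 + (q 1 * a1 p q * P11 p q * n1 p q ^ 2 * b1 p q) * h2

theorem id_pa_13 (p q : Fin 3 → C) (h2 : (2 : C) = 0) (hp : hh p = 0) (hq : hh q = 0) :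
    P11 p q * (q 2 * a1 p q ^ 2 + p 2 * P11 p q + n1 p q * a1 p q * (p 1 * q 1)) = n1 p q ^ 2 * (p 0 ^ 4 * p 2 * q 0 ^ 2 * q 1 * q 2 + p 0 ^ 4 * p 2 * q 1 ^ 4 + p 0 ^ 3 * p 1 * p 2 * q 0 * q 1 ^ 3 + p 0 ^ 2 * p 1 ^ 3 * q 0 ^ 2 * q 1 * q 2 + p 0 ^ 2 * p 1 ^ 3 * q 1 ^ 4 + p 0 ^ 2 * p 1 * p 2 ^ 2 * q 0 * q 2 ^ 3 + p 0 ^ 2 * p 2 ^ 3 * q 0 * q 1 * q 2 ^ 2 + p 0 * p 1 ^ 4 * q 0 * q 1 ^ 3 + p 0 * p 1 ^ 3 * p 2 * q 1 * q 2 ^ 3 + p 0 * p 1 ^ 2 * p 2 ^ 2 * q 1 ^ 2 * q 2 ^ 2 + p 0 * p 1 * p 2 ^ 3 * q 0 ^ 2 * q 2 ^ 2 + p 1 ^ 4 * p 2 * q 0 * q 2 ^ 3 + p 1 ^ 2 * p 2 ^ 3 * q 0 * q 1 ^ 2 * q 2) := by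
  simp only [hh, n1, n2, n3, gg, P11, P12, P13, P22, P23, P33, a1, a2, a3, β1, β2, β3, b1, b2, b3, A3, A2, A0] at hp hq ⊢
  linear_combination ((2) * (p 0 ^ 3 * q 0 ^ 2 * q 2 ^ 4) + p 0 ^ 2 * p 2 * q 0 ^ 3 * q 2 ^ 3 + p 0 ^ 2 * p 2 * q 0 * q 1 ^ 3 * q 2 ^ 2 + p 0 ^ 2 * p 2 * q 2 ^ 6 + p 0 * p 1 ^ 2 * q 0 ^ 2 * q 1 * q 2 ^ 3 + p 0 * p 1 ^ 2 * q 1 ^ 4 * q 2 ^ 2 + p 1 ^ 3 * q 0 * q 1 ^ 3 * q 2 ^ 2 + p 1 ^ 2 * p 2 * q 0 * q 1 ^ 4 * q 2 + p 2 ^ 3 * q 0 ^ 2 * q 2 ^ 4) * hp +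
    ((2) * (p 0 ^ 6 * p 2 * q 0 ^ 2) + p 0 ^ 5 * p 2 ^ 2 * q 2 ^ 2 + (2) * (p 0 ^ 4 * p 1 ^ 3 * q 0 ^ 2) + p 0 ^ 3 * p 1 ^ 3 * p 2 * q 2 ^ 2 + p 0 ^ 2 * p 1 ^ 3 * p 2 ^ 2 * q 0 * q 2 + p 0 * p 1 ^ 5 * p 2 * q 1 * q 2 + p 0 * p 1 ^ 4 * p 2 ^ 2 * q 1 ^ 2 + (2) * (p 0 * p 1 ^ 3 * p 2 ^ 3 * q 0 ^ 2) + p 1 ^ 6 * p 2 * q 0 * q 2) * hq +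
    (-(p 0 ^ 6 * p 2 * q 0 ^ 5 * q 2) + -(p 0 ^ 6 * p 2 * q 0 ^ 3 * q 1 ^ 3) + (-2) * (p 0 ^ 6 * p 2 * q 0 ^ 2 * q 2 ^ 4) + -(p 0 ^ 5 * p 2 ^ 2 * q 0 ^ 3 * q 2 ^ 3) + -(p 0 ^ 5 * p 2 ^ 2 * q 0 * q 1 ^ 3 * q 2 ^ 2) + -(p 0 ^ 5 * p 2 ^ 2 * q 2 ^ 6) + -(p 0 ^ 4 * p 1 ^ 3 * q 0 ^ 5 * q 2) + -(p 0 ^ 4 * p 1 ^ 3 * q 0 ^ 3 * q 1 ^ 3) + (-2) * (p 0 ^ 4 * p 1 ^ 3 * q 0 ^ 2 * q 2 ^ 4) + -(p 0 ^ 4 * p 1 ^ 2 * p 2 * q 0 ^ 2 * q 1 * q 2 ^ 3) + -(p 0 ^ 4 * p 1 ^ 2 * p 2 * q 1 ^ 4 * q 2 ^ 2) + -(p 0 ^ 4 * p 1 * p 2 ^ 2 * q 0 ^ 2 * q 1 ^ 2 * q 2 ^ 2) + -(p 0 ^ 4 * p 1 * p 2 ^ 2 * q 1 ^ 5 * q 2) + p 0 ^ 4 * p 2 ^ 3 * q 0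 ^ 4 * q 2 ^ 2 + p 0 ^ 4 * p 2 ^ 3 * q 0 ^ 2 * q 1 ^ 3 * q 2 + -(p 0 ^ 3 * p 1 ^ 3 * p 2 * q 0 ^ 3 * q 2 ^ 3) + (-2) * (p 0 ^ 3 * p 1 ^ 3 * p 2 * q 0 * q 1 ^ 3 * q 2 ^ 2) + -(p 0 ^ 3 * p 1 ^ 3 * p 2 * q 2 ^ 6) + (3) * (p 0 ^ 3 * p 1 ^ 2 * p 2 ^ 2 * q 0 ^ 3 * q 1 * q 2 ^ 2) + p 0 ^ 3 * p 1 ^ 2 * p 2 ^ 2 * q 0 * q 1 ^ 4 * q 2 + (2) * (p 0 ^ 3 * p 1 * p 2 ^ 3 * q 0 ^ 3 * q 1 ^ 2 * q 2) + p 0 ^ 3 * p 1 * p 2 ^ 3 * q 0 * q 1 ^ 5 + p 0 ^ 3 * p 2 ^ 4 * q 1 ^ 3 * q 2 ^ 3 + -(p 0 ^ 2 * p 1 ^ 5 * q 0 ^ 2 * q 1 * q 2 ^ 3) + -(p 0 ^ 2 * p 1 ^ 5 * q 1 ^ 4 * q 2 ^ 2) + (2) * (p 0 ^ 2 * p 1 ^ 4 * p 2 * q 0 ^ 2 * q 1 ^ 2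 * q 2 ^ 2) + p 0 ^ 2 * p 1 ^ 3 * p 2 ^ 2 * q 0 ^ 4 * q 2 ^ 2 + (5) * (p 0 ^ 2 * p 1 ^ 3 * p 2 ^ 2 * q 0 ^ 2 * q 1 ^ 3 * q 2) + -(p 0 ^ 2 * p 1 ^ 3 * p 2 ^ 2 * q 0 * q 2 ^ 5) + p 0 ^ 2 * p 1 ^ 3 * p 2 ^ 2 * q 1 ^ 6 + p 0 ^ 2 * p 1 ^ 2 * p 2 ^ 3 * q 0 ^ 2 * q 1 ^ 4 + p 0 ^ 2 * p 1 ^ 2 * p 2 ^ 3 * q 0 * q 1 * q 2 ^ 4 + p 0 ^ 2 * p 2 ^ 5 * q 0 ^ 3 * q 2 ^ 3 + (2) * (p 0 * p 1 ^ 5 * p 2 * q 0 ^ 3 * q 1 * q 2 ^ 2) + (2) * (p 0 * p 1 ^ 5 * p 2 * q 0 * q 1 ^ 4 * q 2) + -(p 0 * p 1 ^ 5 * p 2 * q 1 * q 2 ^ 5) + p 0 * p 1 ^ 4 * p 2 ^ 2 * q 0 ^ 3 * q 1 ^ 2 * q 2 + p 0 * p 1 ^ 4 * p 2 ^ 2 * q 0 * q 1 ^ 5 + -(p 0 * p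 1 ^ 4 * p 2 ^ 2 * q 1 ^ 2 * q 2 ^ 4) + -(p 0 * p 1 ^ 3 * p 2 ^ 3 * q 0 ^ 5 * q 2) + -(p 0 * p 1 ^ 3 * p 2 ^ 3 * q 0 ^ 3 * q 1 ^ 3) + -(p 0 * p 1 ^ 3 * p 2 ^ 3 * q 0 ^ 2 * q 2 ^ 4) + p 0 * p 1 ^ 2 * p 2 ^ 4 * q 0 ^ 2 * q 1 * q 2 ^ 3 + -(p 0 * p 1 ^ 2 * p 2 ^ 4 * q 1 ^ 4 * q 2 ^ 2) + p 0 * p 1 * p 2 ^ 5 * q 0 ^ 2 * q 1 ^ 2 * q 2 ^ 2 + p 0 * p 2 ^ 6 * q 0 * q 2 ^ 5 + p 1 ^ 7 * q 0 ^ 2 * q 1 ^ 2 * q 2 ^ 2 + p 1 ^ 7 * q 1 ^ 5 * q 2 + p 1 ^ 6 * p 2 * q 0 ^ 2 * q 1 ^ 3 * q 2 + -(p 1 ^ 6 * p 2 * q 0 * q 2 ^ 5) + p 1 ^ 6 * p 2 * q 1 ^ 6 + -(p 1 ^ 5 * p 2 ^ 2 * q 0 * q 1 * q 2 ^ 4) + p 1 ^ 3 * p 2 ^ 4 * q 0 ^ 3 *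 q 2 ^ 3 + -(p 1 ^ 2 * p 2 ^ 5 * q 0 * q 1 ^ 4 * q 2)) * h2

theorem id_pb_13 (p q : Fin 3 → C) (h2 : (2 : C) = 0) (hp : hh p = 0) (hq : hh q = 0) :
    P11 p q * ((p 0 ^ 4 * p 2 * q 0 ^ 2 * q 1 * q 2 + p 0 ^ 4 * p 2 * q 1 ^ 4 + p 0 ^ 3 * p 1 * p 2 * q 0 * q 1 ^ 3 + p 0 ^ 2 * p 1 ^ 3 * q 0 ^ 2 * q 1 * q 2 + p 0 ^ 2 * p 1 ^ 3 * q 1 ^ 4 + p 0 ^ 2 * p 1 * p 2 ^ 2 * q 0 * q 2 ^ 3 + p 0 ^ 2 * p 2 ^ 3 * q 0 * q 1 * q 2 ^ 2 + p 0 * p 1 ^ 4 * q 0 * q 1 ^ 3 + p 0 * p 1 ^ 3 * p 2 * q 1 * q 2 ^ 3 + p 0 * p 1 ^ 2 * p 2 ^ 2 * q 1 ^ 2 * q 2 ^ 2 + p 0 * p 1 * p 2 ^ 3 * q 0 ^ 2 * q 2 ^ 2 + p 1 ^ 4 * p 2 * q 0 * q 2 ^ 3 +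 p 1 ^ 2 * p 2 ^ 3 * q 0 * q 1 ^ 2 * q 2) + (n1 p q * b1 p q * (p 1 * q 1) + n1 p q * a1 p q * (β3 p q + p 2 * A3 p q) + p 2 * n1 p q ^ 2 * A2 p q)) + n1 p q ^ 2 * (q 2 * b1 p q ^ 2 + n1 p q * b1 p q * (β3 p q + p 2 * A3 p q) + p 2 * n1 p q ^ 2 * A0 p q) = 0 := by
  simp only [hh, n1, n2, n3, gg, P11, P12, P13, P22, P23, P33, a1, a2, a3, β1, β2, β3, b1, b2, b3, A3, A2, A0] at hp hq ⊢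
  linear_combination ((2) * (p 0 ^ 4 * q 0 ^ 3 * q 1 * q 2 ^ 3) + p 0 ^ 3 * p 1 * q 0 ^ 4 * q 2 ^ 3 + p 0 ^ 3 * p 1 * q 0 ^ 2 * q 1 ^ 3 * q 2 ^ 2 + p 0 ^ 3 * p 1 * q 0 * q 2 ^ 6 + p 0 ^ 3 * p 2 * q 0 ^ 2 * q 1 ^ 4 * q 2 + p 0 ^ 3 * p 2 * q 0 * q 1 * q 2 ^ 5 + p 0 ^ 3 * p 2 * q 1 ^ 7 + p 0 ^ 2 * p 1 ^ 2 * q 0 ^ 3 * q 1 ^ 2 * q 2 ^ 2 + p 0 ^ 2 * p 1 ^ 2 * q 0 * q 1 ^ 5 * q 2 + p 0 ^ 2 * p 1 * p 2 * q 0 ^ 2 * q 2 ^ 5 + p 0 ^ 2 * p 2 ^ 2 * q 1 ^ 4 * q 2 ^ 3 + p 0 * p 1 ^ 3 * q 0 ^ 4 * q 1 * q 2 ^ 2 + p 0 * p 1 ^ 3 * q 0 ^ 2 * q 1 ^ 4 * q 2 + p 0 * p 1 ^ 3 * q 1 ^ 7 + p 0 * p 1 ^ 2 * p 2 * q 0 ^ 2 * q 1 ^ 5 +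 p 0 * p 2 ^ 3 * q 0 ^ 3 * q 1 * q 2 ^ 3 + p 1 ^ 4 * q 0 ^ 3 * q 1 ^ 3 * q 2 + p 1 ^ 4 * q 0 * q 1 ^ 6 + p 1 ^ 2 * p 2 ^ 2 * q 1 ^ 5 * q 2 ^ 2) * hp +
    (p 0 ^ 6 * p 1 * p 2 * q 0 * q 2 ^ 2 + p 0 ^ 6 * p 2 ^ 2 * q 0 * q 1 * q 2 + p 0 ^ 5 * p 1 * p 2 ^ 2 * q 0 ^ 2 * q 2 + p 0 ^ 5 * p 2 ^ 3 * q 0 ^ 2 * q 1 + p 0 ^ 4 * p 1 ^ 4 * q 0 * q 2 ^ 2 + p 0 ^ 4 * p 1 ^ 3 * p 2 * q 0 * q 1 * q 2 + p 0 ^ 3 * p 1 ^ 4 * p 2 * q 0 ^ 2 * q 2 + p 0 ^ 3 * p 1 ^ 3 * p 2 ^ 2 * q 0 ^ 2 * q 1 + (2) * (p 0 ^ 2 * p 1 ^ 4 * p 2 ^ 2 * q 0 ^ 3) + p 0 ^ 2 * p 1 ^ 4 * p 2 ^ 2 * q 2 ^ 3 + p 1 ^ 6 * p 2 ^ 2 * q 1 * q 2 ^ 2) * hq +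
    (-(p 0 ^ 7 * p 2 * q 0 ^ 3 * q 1 * q 2 ^ 3) + -(p 0 ^ 6 * p 1 * p 2 * q 0 ^ 4 * q 2 ^ 3) + -(p 0 ^ 6 * p 1 * p 2 * q 0 ^ 2 * q 1 ^ 3 * q 2 ^ 2) + -(p 0 ^ 6 * p 1 * p 2 * q 0 * q 2 ^ 6) + -(p 0 ^ 6 * p 2 ^ 2 * q 0 * q 1 * q 2 ^ 5) + -(p 0 ^ 5 * p 1 ^ 3 * q 0 ^ 3 * q 1 * q 2 ^ 3) + p 0 ^ 5 * p 1 * p 2 ^ 2 * q 0 ^ 3 * q 1 ^ 3 * q 2 + -(p 0 ^ 5 * p 1 * p 2 ^ 2 * q 0 ^ 2 * q 2 ^ 5) + p 0 ^ 5 * p 1 * p 2 ^ 2 * q 0 * q 1 ^ 6 + -(p 0 ^ 4 * p 1 ^ 4 * q 0 ^ 2 * q 1 ^ 3 * q 2 ^ 2) + -(p 0 ^ 4 * p 1 ^ 4 * q 0 * q 2 ^ 6) + (4) * (p 0 ^ 4 * p 1 ^ 3 * p 2 * q 0 ^ 4 * q 1 * q 2 ^ 2) + (2) * (p 0 ^ 4 * p 1 ^ 3 * p 2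 * q 0 ^ 2 * q 1 ^ 4 * q 2) + -(p 0 ^ 4 * p 1 ^ 3 * p 2 * q 0 * q 1 * q 2 ^ 5) + (4) * (p 0 ^ 4 * p 1 ^ 2 * p 2 ^ 2 * q 0 ^ 4 * q 1 ^ 2 * q 2) + p 0 ^ 4 * p 1 ^ 2 * p 2 ^ 2 * q 0 ^ 2 * q 1 ^ 5 + p 0 ^ 4 * p 1 * p 2 ^ 3 * q 0 ^ 4 * q 1 ^ 3 + p 0 ^ 4 * p 1 * p 2 ^ 3 * q 0 ^ 3 * q 2 ^ 4 + p 0 ^ 4 * p 1 * p 2 ^ 3 * q 0 * q 1 ^ 3 * q 2 ^ 3 + p 0 ^ 4 * p 2 ^ 4 * q 0 * q 1 ^ 4 * q 2 ^ 2 + p 0 ^ 3 * p 1 ^ 5 * q 0 ^ 3 * q 1 ^ 2 * q 2 ^ 2 + (3) * (p 0 ^ 3 * p 1 ^ 4 * p 2 * q 0 ^ 3 * q 1 ^ 3 * q 2) + p 0 ^ 3 * p 1 ^ 4 * p 2 * q 0 ^ 2 * q 2 ^ 5 + p 0 ^ 3 * p 1 ^ 4 * p 2 * q 0 * q 1 ^ 6 + p 0 ^ 3 * p 1 ^ 3 * p 2 ^ 2 *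 q 0 ^ 3 * q 1 ^ 4 + (8) * (p 0 ^ 3 * p 1 ^ 3 * p 2 ^ 2 * q 0 ^ 2 * q 1 * q 2 ^ 4) + p 0 ^ 3 * p 1 ^ 3 * p 2 ^ 2 * q 1 ^ 4 * q 2 ^ 3 + (9) * (p 0 ^ 3 * p 1 ^ 2 * p 2 ^ 3 * q 0 ^ 2 * q 1 ^ 2 * q 2 ^ 3) + p 0 ^ 3 * p 1 ^ 2 * p 2 ^ 3 * q 1 ^ 5 * q 2 ^ 2 + p 0 ^ 3 * p 1 * p 2 ^ 4 * q 0 ^ 4 * q 2 ^ 3 + (5) * (p 0 ^ 3 * p 1 * p 2 ^ 4 * q 0 ^ 2 * q 1 ^ 3 * q 2 ^ 2) + p 0 ^ 3 * p 1 * p 2 ^ 4 * q 1 ^ 6 * q 2 + p 0 ^ 3 * p 2 ^ 5 * q 0 ^ 4 * q 1 * q 2 ^ 2 + p 0 ^ 3 * p 2 ^ 5 * q 0 ^ 2 * q 1 ^ 4 * q 2 + p 0 ^ 2 * p 1 ^ 6 * q 0 ^ 4 * q 1 * q 2 ^ 2 + (2) * (p 0 ^ 2 * p 1 ^ 6 * q 0 ^ 2 * q 1 ^ 4 * q 2) + p 0 ^ 2 * p 1 ^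 5 * p 2 * q 0 ^ 4 * q 1 ^ 2 * q 2 + p 0 ^ 2 * p 1 ^ 5 * p 2 * q 0 ^ 2 * q 1 ^ 5 + p 0 ^ 2 * p 1 ^ 5 * p 2 * q 0 * q 1 ^ 2 * q 2 ^ 4 + -(p 0 ^ 2 * p 1 ^ 4 * p 2 ^ 2 * q 0 ^ 6 * q 2) + -(p 0 ^ 2 * p 1 ^ 4 * p 2 ^ 2 * q 0 ^ 4 * q 1 ^ 3) + p 0 ^ 2 * p 1 ^ 4 * p 2 ^ 2 * q 0 ^ 3 * q 2 ^ 4 + (4) * (p 0 ^ 2 * p 1 ^ 4 * p 2 ^ 2 * q 0 * q 1 ^ 3 * q 2 ^ 3) + (9) * (p 0 ^ 2 * p 1 ^ 3 * p 2 ^ 3 * q 0 ^ 3 * q 1 * q 2 ^ 3) + (5) * (p 0 ^ 2 * p 1 ^ 3 * p 2 ^ 3 * q 0 * q 1 ^ 4 * q 2 ^ 2) + (2) * (p 0 ^ 2 * p 1 ^ 3 * p 2 ^ 3 * q 1 * q 2 ^ 6) + (12) * (p 0 ^ 2 * p 1 ^ 2 * p 2 ^ 4 * q 0 ^ 3 * q 1 ^ 2 * q 2 ^ 2) + (3) * (p 0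 ^ 2 * p 1 ^ 2 * p 2 ^ 4 * q 0 * q 1 ^ 5 * q 2) + (2) * (p 0 ^ 2 * p 1 ^ 2 * p 2 ^ 4 * q 1 ^ 2 * q 2 ^ 5) + (6) * (p 0 ^ 2 * p 1 * p 2 ^ 5 * q 0 ^ 3 * q 1 ^ 3 * q 2) + p 0 ^ 2 * p 1 * p 2 ^ 5 * q 0 ^ 2 * q 2 ^ 5 + p 0 ^ 2 * p 1 * p 2 ^ 5 * q 0 * q 1 ^ 6 + p 0 ^ 2 * p 1 * p 2 ^ 5 * q 1 ^ 3 * q 2 ^ 4 + p 0 ^ 2 * p 2 ^ 6 * q 0 ^ 3 * q 1 ^ 4 + p 0 ^ 2 * p 2 ^ 6 * q 0 ^ 2 * q 1 * q 2 ^ 4 + (2) * (p 0 * p 1 ^ 6 * p 2 * q 0 ^ 2 * q 1 * q 2 ^ 4) + p 0 * p 1 ^ 6 * p 2 * q 1 ^ 4 * q 2 ^ 3 + (4) * (p 0 * p 1 ^ 5 * p 2 ^ 2 * q 0 ^ 2 * q 1 ^ 2 * q 2 ^ 3) + p 0 * p 1 ^ 5 * p 2 ^ 2 * q 1 ^ 5 * q 2 ^ 2 + p 0 * p 1 ^ 4 *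 p 2 ^ 3 * q 0 ^ 4 * q 2 ^ 3 + (6) * (p 0 * p 1 ^ 4 * p 2 ^ 3 * q 0 ^ 2 * q 1 ^ 3 * q 2 ^ 2) + (2) * (p 0 * p 1 ^ 4 * p 2 ^ 3 * q 0 * q 2 ^ 6) + p 0 * p 1 ^ 4 * p 2 ^ 3 * q 1 ^ 6 * q 2 + (3) * (p 0 * p 1 ^ 3 * p 2 ^ 4 * q 0 ^ 2 * q 1 ^ 4 * q 2) + (7) * (p 0 * p 1 ^ 3 * p 2 ^ 4 * q 0 * q 1 * q 2 ^ 5) + (10) * (p 0 * p 1 ^ 2 * p 2 ^ 5 * q 0 * q 1 ^ 2 * q 2 ^ 4) + p 0 * p 1 * p 2 ^ 6 * q 0 ^ 3 * q 2 ^ 4 + (5) * (p 0 * p 1 * p 2 ^ 6 * q 0 * q 1 ^ 3 * q 2 ^ 3) + p 0 * p 2 ^ 7 * q 0 * q 1 ^ 4 * q 2 ^ 2 + p 1 ^ 7 * p 2 * q 0 ^ 3 * q 2 ^ 4 + p 1 ^ 7 * p 2 * q 0 * q 1 ^ 3 * q 2 ^ 3 + p 1 ^ 6 * p 2 ^ 2 * q 0 ^ 3 *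 q 1 * q 2 ^ 3 + p 1 ^ 6 * p 2 ^ 2 * q 0 * q 1 ^ 4 * q 2 ^ 2 + (2) * (p 1 ^ 5 * p 2 ^ 3 * q 0 ^ 3 * q 1 ^ 2 * q 2 ^ 2) + (2) * (p 1 ^ 5 * p 2 ^ 3 * q 0 * q 1 ^ 5 * q 2) + (2) * (p 1 ^ 5 * p 2 ^ 3 * q 1 ^ 2 * q 2 ^ 5) + p 1 ^ 4 * p 2 ^ 4 * q 0 ^ 2 * q 2 ^ 5 + (3) * (p 1 ^ 4 * p 2 ^ 4 * q 1 ^ 3 * q 2 ^ 4) + (2) * (p 1 ^ 3 * p 2 ^ 5 * q 0 ^ 2 * q 1 * q 2 ^ 4) + (2) * (p 1 ^ 3 * p 2 ^ 5 * q 1 ^ 4 * q 2 ^ 3) + (4) * (p 1 ^ 2 * p 2 ^ 6 * q 0 ^ 2 * q 1 ^ 2 * q 2 ^ 3) + (3) * (p 1 * p 2 ^ 7 * q 0 ^ 2 * q 1 ^ 3 * q 2 ^ 2) + p 2 ^ 8 * q 0 ^ 2 * q 1 ^ 4 * q 2) * h2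

theorem id_phi_13 (p q : Fin 3 → C) (h2 : (2 : C) = 0) (hp : hh p = 0) (hq : hh q = 0) :
    q 2 * (a1 p q * P11 p q + n1 p q ^ 2 * b1 p q) ^ 2 + p 2 * P11 p q ^ 3 + n1 p q * P11 p q * (a1 p q * P11 p q + n1 p q ^ 2 * b1 p q) * (p 1 * q 1) + n1 p q ^ 3 * (a1 p q * P11 p q + n1 p q ^ 2 * b1 p q) * (β3 p q + p 2 * A3 p q)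
      + p 2 * n1 p q ^ 4 * (P11 p q * A2 p q + n1 p q ^ 2 * A0 p q) = 0 := by
  have e1 := id_pa_13 p q h2 hp hq
  have e2 := id_pb_13 p q h2 hp hq
  linear_combination P11 p q * e1 + n1 p q ^ 2 * e2 + (q 2 * a1 p q * P11 p q * n1 p q ^ 2 * b1 p q) * h2

theorem id_I_121 (p q : Fin 3 → C) (h2 : (2 : C) = 0) (hp : hh p = 0) (hq : hh q = 0) :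
    P12 p q * (a1 p q * P11 p q + n1 p q ^ 2 * b1 p q) + P11 p q * (a2 p q * P11 p q + n1 p q ^ 2 * b2 p q) = 0 := by
  simp only [hh, n1, n2, n3, gg, P11, P12, P13, P22, P23, P33, a1, a2, a3, β1, β2, β3, b1, b2, b3, A3, A2, A0] at hp hq ⊢
  linear_combination ((2) * (p 0 ^ 4 * q 0 ^ 2 * q 1 ^ 2 * q 2 ^ 3) + p 0 ^ 3 * p 1 * q 0 ^ 3 * q 1 * q 2 ^ 3 + p 0 ^ 3 * p 1 * q 0 * q 1 ^ 4 * q 2 ^ 2 + p 0 ^ 3 * p 1 * q 1 * q 2 ^ 6 + (2) * (p 0 ^ 3 * p 2 * q 0 * q 1 ^ 5 * q 2) + p 0 ^ 2 * p 1 ^ 2 * q 0 * q 2 ^ 6 + p 0 ^ 2 * p 1 * p 2 * q 0 ^ 4 * q 1 * q 2 ^ 2 + p 0 ^ 2 * p 1 * p 2 * q 0 * q 1 * q 2 ^ 5 + p 0 ^ 2 * p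 1 * p 2 * q 1 ^ 7 + p 0 ^ 2 * p 2 ^ 2 * q 0 * q 1 ^ 2 * q 2 ^ 4 + p 0 * p 1 ^ 3 * q 0 ^ 3 * q 1 ^ 2 * q 2 ^ 2 + p 0 * p 1 ^ 3 * q 0 * q 1 ^ 5 * q 2 + p 0 * p 1 ^ 2 * p 2 * q 0 ^ 2 * q 2 ^ 5 + p 0 * p 1 ^ 2 * p 2 * q 0 * q 1 ^ 6 + p 0 * p 1 ^ 2 * p 2 * q 1 ^ 3 * q 2 ^ 4 + p 0 * p 1 * p 2 ^ 2 * q 0 ^ 3 * q 1 ^ 4 + p 0 * p 2 ^ 3 * q 0 ^ 2 * q 1 ^ 2 * q 2 ^ 3 + p 1 ^ 4 * q 0 ^ 2 * q 1 ^ 4 * q 2 + p 1 ^ 4 * q 0 * q 1 * q 2 ^ 5 + p 1 ^ 4 * q 1 ^ 7 + p 1 ^ 3 * p 2 * q 0 * q 1 ^ 2 * q 2 ^ 4 + p 2 ^ 4 * q 0 * q 1 ^ 5 * q 2) * hp +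
    (p 0 ^ 6 * p 1 * p 2 * q 1 * q 2 ^ 2 + p 0 ^ 5 * p 1 ^ 2 * p 2 * q 0 * q 2 ^ 2 + p 0 ^ 5 * p 1 * p 2 ^ 2 * q 0 * q 1 * q 2 + p 0 ^ 5 * p 2 ^ 3 * q 0 * q 1 ^ 2 + p 0 ^ 4 * p 1 ^ 4 * q 1 * q 2 ^ 2 + (2) * (p 0 ^ 4 * p 1 ^ 2 * p 2 ^ 2 * q 0 ^ 2 * q 2) + p 0 ^ 4 * p 1 ^ 2 * p 2 ^ 2 * q 1 ^ 3 + p 0 ^ 4 * p 1 * p 2 ^ 3 * q 0 ^ 2 * q 1 + p 0 ^ 3 * p 1 ^ 5 * q 0 * q 2 ^ 2 + (3) * (p 0 ^ 3 * p 1 ^ 4 * p 2 * q 0 * q 1 * q 2) + (3) * (p 0 ^ 3 * p 1 ^ 3 * p 2 ^ 2 * q 0 * q 1 ^ 2) + (2) * (p 0 ^ 2 * p 1 ^ 5 * p 2 * q 0 ^ 2 * q 2) + p 0 ^ 2 * p 1 ^ 5 * p 2 * q 1 ^ 3 + p 0 ^ 2 * p 1 ^ 4 * p 2 ^ 2 * q 0 ^ 2 * q 1 +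 p 0 * p 1 ^ 7 * q 0 * q 1 * q 2 + p 0 * p 1 ^ 6 * p 2 * q 0 * q 1 ^ 2 + (2) * (p 0 * p 1 ^ 5 * p 2 ^ 2 * q 0 ^ 3) + p 0 * p 1 ^ 5 * p 2 ^ 2 * q 2 ^ 3 + p 0 * p 1 ^ 4 * p 2 ^ 3 * q 1 * q 2 ^ 2) * hq +
    (-(p 0 ^ 7 * p 2 * q 0 ^ 2 * q 1 ^ 2 * q 2 ^ 3) + -(p 0 ^ 6 * p 1 * p 2 * q 0 ^ 3 * q 1 * q 2 ^ 3) + -(p 0 ^ 6 * p 1 * p 2 * q 0 * q 1 ^ 4 * q 2 ^ 2) + -(p 0 ^ 6 * p 1 * p 2 * q 1 * q 2 ^ 6) + -(p 0 ^ 6 * p 2 ^ 2 * q 0 * q 1 ^ 5 * q 2) + -(p 0 ^ 5 * p 1 ^ 3 * q 0 ^ 2 * q 1 ^ 2 * q 2 ^ 3) + -(p 0 ^ 5 * p 1 ^ 2 * p 2 * q 0 * q 2 ^ 6) + p 0 ^ 5 * p 1 * p 2 ^ 2 * q 0 ^ 4 * q 1 * q 2 ^ 2 + (2) * (p 0 ^ 5 * p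 1 * p 2 ^ 2 * q 0 ^ 2 * q 1 ^ 4 * q 2) + -(p 0 ^ 5 * p 1 * p 2 ^ 2 * q 0 * q 1 * q 2 ^ 5) + -(p 0 ^ 5 * p 2 ^ 3 * q 0 * q 1 ^ 2 * q 2 ^ 4) + -(p 0 ^ 4 * p 1 ^ 4 * q 0 * q 1 ^ 4 * q 2 ^ 2) + -(p 0 ^ 4 * p 1 ^ 4 * q 1 * q 2 ^ 6) + (4) * (p 0 ^ 4 * p 1 ^ 3 * p 2 * q 0 ^ 3 * q 1 ^ 2 * q 2 ^ 2) + -(p 0 ^ 4 * p 1 ^ 2 * p 2 ^ 2 * q 0 ^ 5 * q 2 ^ 2) + (2) * (p 0 ^ 4 * p 1 ^ 2 * p 2 ^ 2 * q 0 ^ 3 * q 1 ^ 3 * q 2) + -(p 0 ^ 4 * p 1 ^ 2 * p 2 ^ 2 * q 0 ^ 2 * q 2 ^ 5) + -(p 0 ^ 4 * p 1 ^ 2 * p 2 ^ 2 * q 1 ^ 3 * q 2 ^ 4) + (2) * (p 0 ^ 4 * p 1 * p 2 ^ 3 * q 0 ^ 2 * q 1 * q 2 ^ 4) + p 0 ^ 4 * p 1 * p 2 ^ 3 * q 1 ^ 4 *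 q 2 ^ 3 + -(p 0 ^ 4 * p 2 ^ 4 * q 0 ^ 2 * q 1 ^ 2 * q 2 ^ 3) + p 0 ^ 3 * p 1 ^ 5 * q 0 ^ 2 * q 1 ^ 3 * q 2 ^ 2 + -(p 0 ^ 3 * p 1 ^ 5 * q 0 * q 2 ^ 6) + p 0 ^ 3 * p 1 ^ 4 * p 2 * q 0 ^ 4 * q 1 * q 2 ^ 2 + (3) * (p 0 ^ 3 * p 1 ^ 4 * p 2 * q 0 ^ 2 * q 1 ^ 4 * q 2) + (-2) * (p 0 ^ 3 * p 1 ^ 4 * p 2 * q 0 * q 1 * q 2 ^ 5) + p 0 ^ 3 * p 1 ^ 3 * p 2 ^ 2 * q 0 ^ 4 * q 1 ^ 2 * q 2 + p 0 ^ 3 * p 1 ^ 2 * p 2 ^ 3 * q 0 ^ 4 * q 1 ^ 3 + p 0 ^ 3 * p 1 ^ 2 * p 2 ^ 3 * q 0 ^ 3 * q 2 ^ 4 + (2) * (p 0 ^ 3 * p 1 ^ 2 * p 2 ^ 3 * q 0 * q 1 ^ 3 * q 2 ^ 3) + (4) * (p 0 ^ 3 * p 1 * p 2 ^ 4 * q 0 ^ 3 * q 1 * q 2 ^ 3) + (2) * (p 0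 ^ 3 * p 1 * p 2 ^ 4 * q 0 * q 1 ^ 4 * q 2 ^ 2) + p 0 ^ 3 * p 2 ^ 5 * q 0 ^ 3 * q 1 ^ 2 * q 2 ^ 2 + -(p 0 ^ 3 * p 2 ^ 5 * q 0 * q 1 ^ 5 * q 2) + p 0 ^ 2 * p 1 ^ 6 * q 0 ^ 3 * q 1 ^ 2 * q 2 ^ 2 + p 0 ^ 2 * p 1 ^ 6 * q 0 * q 1 ^ 5 * q 2 + -(p 0 ^ 2 * p 1 ^ 5 * p 2 * q 0 ^ 5 * q 2 ^ 2) + -(p 0 ^ 2 * p 1 ^ 5 * p 2 * q 0 ^ 2 * q 2 ^ 5) + -(p 0 ^ 2 * p 1 ^ 5 * p 2 * q 1 ^ 3 * q 2 ^ 4) + (5) * (p 0 ^ 2 * p 1 ^ 4 * p 2 ^ 2 * q 0 ^ 2 * q 1 * q 2 ^ 4) + (2) * (p 0 ^ 2 * p 1 ^ 4 * p 2 ^ 2 * q 1 ^ 4 * q 2 ^ 3) + (12) * (p 0 ^ 2 * p 1 ^ 3 * p 2 ^ 3 * q 0 ^ 2 * q 1 ^ 2 * q 2 ^ 3) + (3) * (p 0 ^ 2 * p 1 ^ 3 * p 2 ^ 3 *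 q 1 ^ 5 * q 2 ^ 2) + (9) * (p 0 ^ 2 * p 1 ^ 2 * p 2 ^ 4 * q 0 ^ 2 * q 1 ^ 3 * q 2 ^ 2) + (2) * (p 0 ^ 2 * p 1 ^ 2 * p 2 ^ 4 * q 1 ^ 6 * q 2) + (2) * (p 0 ^ 2 * p 1 * p 2 ^ 5 * q 0 ^ 2 * q 1 ^ 4 * q 2) + (2) * (p 0 ^ 2 * p 1 * p 2 ^ 5 * q 0 * q 1 * q 2 ^ 5) + -(p 0 * p 1 ^ 7 * q 0 * q 1 * q 2 ^ 5) + -(p 0 * p 1 ^ 5 * p 2 ^ 2 * q 0 ^ 6 * q 2) + -(p 0 * p 1 ^ 5 * p 2 ^ 2 * q 0 ^ 4 * q 1 ^ 3) + -(p 0 * p 1 ^ 5 * p 2 ^ 2 * q 0 ^ 3 * q 2 ^ 4) + (4) * (p 0 * p 1 ^ 5 * p 2 ^ 2 * q 0 * q 1 ^ 3 * q 2 ^ 3) + (2) * (p 0 * p 1 ^ 4 * p 2 ^ 3 * q 0 ^ 3 * q 1 * q 2 ^ 3) + (7) * (p 0 * p 1 ^ 4 * p 2 ^ 3 * q 0 * q 1 ^ 4 *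 q 2 ^ 2) + (3) * (p 0 * p 1 ^ 4 * p 2 ^ 3 * q 1 * q 2 ^ 6) + p 0 * p 1 ^ 3 * p 2 ^ 4 * q 0 ^ 3 * q 1 ^ 2 * q 2 ^ 2 + (2) * (p 0 * p 1 ^ 3 * p 2 ^ 4 * q 0 * q 1 ^ 5 * q 2) + (7) * (p 0 * p 1 ^ 3 * p 2 ^ 4 * q 1 ^ 2 * q 2 ^ 5) + p 0 * p 1 ^ 2 * p 2 ^ 5 * q 0 ^ 3 * q 1 ^ 3 * q 2 + (4) * (p 0 * p 1 ^ 2 * p 2 ^ 5 * q 1 ^ 3 * q 2 ^ 4) + (2) * (p 0 * p 1 * p 2 ^ 6 * q 0 ^ 2 * q 1 * q 2 ^ 4) + p 0 * p 1 * p 2 ^ 6 * q 1 ^ 4 * q 2 ^ 3 + p 1 ^ 7 * p 2 * q 0 ^ 2 * q 1 * q 2 ^ 4 + p 1 ^ 7 * p 2 * q 1 ^ 4 * q 2 ^ 3 + (3) * (p 1 ^ 6 * p 2 ^ 2 * q 0 ^ 2 * q 1 ^ 2 * q 2 ^ 3) + (3) * (p 1 ^ 6 * p 2 ^ 2 * q 1 ^ 5 * q 2 ^ 2)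 + (2) * (p 1 ^ 5 * p 2 ^ 3 * q 0 ^ 2 * q 1 ^ 3 * q 2 ^ 2) + (2) * (p 1 ^ 5 * p 2 ^ 3 * q 1 ^ 6 * q 2) + p 1 ^ 4 * p 2 ^ 4 * q 0 * q 1 * q 2 ^ 5 + (5) * (p 1 ^ 3 * p 2 ^ 5 * q 0 * q 1 ^ 2 * q 2 ^ 4) + (6) * (p 1 ^ 2 * p 2 ^ 6 * q 0 * q 1 ^ 3 * q 2 ^ 3) + (3) * (p 1 * p 2 ^ 7 * q 0 * q 1 ^ 4 * q 2 ^ 2)) * h2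

theorem id_I_131 (p q : Fin 3 → C) (h2 : (2 : C) = 0) (hp : hh p = 0) (hq : hh q = 0) :
    P13 p q * (a1 p q * P11 p q + n1 p q ^ 2 * b1 p q) + P11 p q * (a3 p q * P11 p q + n1 p q ^ 2 * b3 p q) = 0 := by
  simp only [hh, n1, n2, n3, gg, P11, P12, P13, P22, P23, P33, a1, a2, a3, β1, β2, β3, b1, b2, b3, A3, A2, A0] at hp hq ⊢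
  linear_combination ((2) * (p 0 ^ 4 * q 0 ^ 4 * q 2 ^ 3) + (2) * (p 0 ^ 4 * q 0 ^ 2 * q 1 ^ 3 * q 2 ^ 2) + (2) * (p 0 ^ 3 * p 1 * q 0 * q 1 ^ 5 * q 2) + p 0 ^ 3 * p 2 * q 0 ^ 5 * q 2 ^ 2 + (2) * (p 0 ^ 3 * p 2 * q 0 ^ 3 * q 1 ^ 3 * q 2) + p 0 ^ 3 * p 2 * q 0 * q 1 ^ 6 + p 0 ^ 2 * p 1 ^ 2 * q 0 ^ 4 * q 1 * q 2 ^ 2 + p 0 ^ 2 * p 1 ^ 2 * q 0 ^ 2 * q 1 ^ 4 * q 2 + p 0 ^ 2 * p 1 ^ 2 * q 0 * q 1 * q 2 ^ 5 + p 0 ^ 2 * p 1 * p 2 * q 0 * q 1 ^ 2 * q 2 ^ 4 + p 0 ^ 2 * p 2 ^ 2 * q 0 ^ 3 * q 2 ^ 4 + p 0 ^ 2 * p 2 ^ 2 * q 0 * q 1 ^ 3 * q 2 ^ 3 + p 0 * p 1 ^ 3 * q 0 ^ 5 * q 2 ^ 2 + p 0 * p 1 ^ 3 * q 0 ^ 3 * q 1 ^ 3 *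 q 2 + p 0 * p 1 ^ 3 * q 0 * q 1 ^ 6 + p 0 * p 1 ^ 2 * p 2 * q 0 ^ 3 * q 1 ^ 4 + p 0 * p 1 ^ 2 * p 2 * q 0 ^ 2 * q 1 * q 2 ^ 4 + p 0 * p 1 ^ 2 * p 2 * q 1 ^ 4 * q 2 ^ 3 + p 0 * p 1 * p 2 ^ 2 * q 1 ^ 5 * q 2 ^ 2 + p 0 * p 2 ^ 3 * q 0 ^ 4 * q 2 ^ 3 + p 0 * p 2 ^ 3 * q 0 ^ 2 * q 1 ^ 3 * q 2 ^ 2 + p 1 ^ 4 * q 0 * q 1 ^ 2 * q 2 ^ 4 + p 1 * p 2 ^ 3 * q 0 * q 1 ^ 5 * q 2 + p 2 ^ 4 * q 0 ^ 3 * q 1 ^ 3 * q 2 + p 2 ^ 4 * q 0 * q 1 ^ 6) * hp +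
    (p 0 ^ 5 * p 1 ^ 2 * p 2 * q 0 * q 1 * q 2 + p 0 ^ 5 * p 1 * p 2 ^ 2 * q 0 * q 1 ^ 2 + (2) * (p 0 ^ 5 * p 2 ^ 3 * q 0 ^ 3) + p 0 ^ 4 * p 1 ^ 3 * p 2 * q 1 ^ 3 + p 0 ^ 4 * p 1 ^ 2 * p 2 ^ 2 * q 0 ^ 2 * q 1 + (2) * (p 0 ^ 3 * p 1 ^ 5 * q 0 * q 1 * q 2) + (3) * (p 0 ^ 3 * p 1 ^ 4 * p 2 * q 0 * q 1 ^ 2) + (2) * (p 0 ^ 3 * p 1 ^ 3 * p 2 ^ 2 * q 0 ^ 3) + p 0 ^ 3 * p 1 ^ 2 * p 2 ^ 3 * q 1 * q 2 ^ 2 + p 0 ^ 2 * p 1 ^ 6 * q 1 ^ 3 + p 0 ^ 2 * p 1 ^ 5 * p 2 * q 0 ^ 2 * q 1 + p 0 ^ 2 * p 1 ^ 3 * p 2 ^ 3 * q 0 * q 2 ^ 2 + p 0 * p 1 ^ 7 * q 0 * q 1 ^ 2 + (2) * (p 0 * p 1 ^ 6 * p 2 * q 0 ^ 3) + p 0 * p 1 ^ 6 * p 2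 * q 2 ^ 3 + p 0 * p 1 ^ 5 * p 2 ^ 2 * q 1 * q 2 ^ 2 + p 1 ^ 5 * p 2 ^ 3 * q 0 * q 1 * q 2) * hq +
    (-(p 0 ^ 7 * p 2 * q 0 ^ 4 * q 2 ^ 3) + -(p 0 ^ 7 * p 2 * q 0 ^ 2 * q 1 ^ 3 * q 2 ^ 2) + -(p 0 ^ 6 * p 1 * p 2 * q 0 * q 1 ^ 5 * q 2) + -(p 0 ^ 5 * p 1 ^ 3 * q 0 ^ 4 * q 2 ^ 3) + -(p 0 ^ 5 * p 1 ^ 3 * q 0 ^ 2 * q 1 ^ 3 * q 2 ^ 2) + -(p 0 ^ 5 * p 1 ^ 2 * p 2 * q 0 * q 1 * q 2 ^ 5) + p 0 ^ 5 * p 1 * p 2 ^ 2 * q 0 ^ 4 * q 1 ^ 2 * q 2 + p 0 ^ 5 * p 1 * p 2 ^ 2 * q 0 ^ 2 * q 1 ^ 5 + -(p 0 ^ 5 * p 1 * p 2 ^ 2 * q 0 * q 1 ^ 2 * q 2 ^ 4) + -(p 0 ^ 5 * p 2 ^ 3 * q 0 ^ 6 * q 2) + -(p 0 ^ 5 * p 2 ^ 3 * q 0 ^ 4 * q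 1 ^ 3) + p 0 ^ 5 * p 2 ^ 3 * q 0 * q 1 ^ 3 * q 2 ^ 3 + p 0 ^ 4 * p 1 ^ 4 * q 0 ^ 3 * q 1 ^ 2 * q 2 ^ 2 + -(p 0 ^ 4 * p 1 ^ 4 * q 0 * q 1 ^ 5 * q 2) + (3) * (p 0 ^ 4 * p 1 ^ 3 * p 2 * q 0 ^ 3 * q 1 ^ 3 * q 2) + p 0 ^ 4 * p 1 ^ 3 * p 2 * q 0 ^ 2 * q 2 ^ 5 + p 0 ^ 4 * p 1 ^ 2 * p 2 ^ 2 * q 0 ^ 3 * q 1 ^ 4 + (3) * (p 0 ^ 4 * p 1 ^ 2 * p 2 ^ 2 * q 0 ^ 2 * q 1 * q 2 ^ 4) + p 0 ^ 4 * p 1 ^ 2 * p 2 ^ 2 * q 1 ^ 4 * q 2 ^ 3 + (3) * (p 0 ^ 4 * p 1 * p 2 ^ 3 * q 0 ^ 2 * q 1 ^ 2 * q 2 ^ 3) + p 0 ^ 4 * p 2 ^ 4 * q 0 ^ 4 * q 2 ^ 3 + p 0 ^ 4 * p 2 ^ 4 * q 0 ^ 2 * q 1 ^ 3 * q 2 ^ 2 + p 0 ^ 4 * p 2 ^ 4 * q 0 * q 2 ^ 6 + -(p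 0 ^ 3 * p 1 ^ 5 * q 0 * q 1 * q 2 ^ 5) + (2) * (p 0 ^ 3 * p 1 ^ 4 * p 2 * q 0 ^ 4 * q 1 ^ 2 * q 2) + p 0 ^ 3 * p 1 ^ 4 * p 2 * q 0 ^ 2 * q 1 ^ 5 + -(p 0 ^ 3 * p 1 ^ 3 * p 2 ^ 2 * q 0 ^ 6 * q 2) + (2) * (p 0 ^ 3 * p 1 ^ 3 * p 2 ^ 2 * q 0 ^ 3 * q 2 ^ 4) + (5) * (p 0 ^ 3 * p 1 ^ 3 * p 2 ^ 2 * q 0 * q 1 ^ 3 * q 2 ^ 3) + p 0 ^ 3 * p 1 ^ 3 * p 2 ^ 2 * q 2 ^ 7 + (9) * (p 0 ^ 3 * p 1 ^ 2 * p 2 ^ 3 * q 0 ^ 3 * q 1 * q 2 ^ 3) + (4) * (p 0 ^ 3 * p 1 ^ 2 * p 2 ^ 3 * q 0 * q 1 ^ 4 * q 2 ^ 2) + (2) * (p 0 ^ 3 * p 1 ^ 2 * p 2 ^ 3 * q 1 * q 2 ^ 6) + (7) * (p 0 ^ 3 * p 1 * p 2 ^ 4 * q 0 ^ 3 * q 1 ^ 2 * q 2 ^ 2) + p 0 ^ 3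 * p 1 * p 2 ^ 4 * q 0 * q 1 ^ 5 * q 2 + p 0 ^ 3 * p 1 * p 2 ^ 4 * q 1 ^ 2 * q 2 ^ 5 + (3) * (p 0 ^ 3 * p 2 ^ 5 * q 0 ^ 2 * q 2 ^ 5) + p 0 ^ 2 * p 1 ^ 6 * q 0 ^ 3 * q 1 ^ 3 * q 2 + p 0 ^ 2 * p 1 ^ 6 * q 0 ^ 2 * q 2 ^ 5 + (5) * (p 0 ^ 2 * p 1 ^ 5 * p 2 * q 0 ^ 2 * q 1 * q 2 ^ 4) + (2) * (p 0 ^ 2 * p 1 ^ 5 * p 2 * q 1 ^ 4 * q 2 ^ 3) + (14) * (p 0 ^ 2 * p 1 ^ 4 * p 2 ^ 2 * q 0 ^ 2 * q 1 ^ 2 * q 2 ^ 3) + (3) * (p 0 ^ 2 * p 1 ^ 4 * p 2 ^ 2 * q 1 ^ 5 * q 2 ^ 2) + (2) * (p 0 ^ 2 * p 1 ^ 3 * p 2 ^ 3 * q 0 ^ 4 * q 2 ^ 3) + (17) * (p 0 ^ 2 * p 1 ^ 3 * p 2 ^ 3 * q 0 ^ 2 * q 1 ^ 3 * q 2 ^ 2) + (2) * (p 0 ^ 2 * p 1 ^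 3 * p 2 ^ 3 * q 0 * q 2 ^ 6) + (3) * (p 0 ^ 2 * p 1 ^ 3 * p 2 ^ 3 * q 1 ^ 6 * q 2) + (2) * (p 0 ^ 2 * p 1 ^ 2 * p 2 ^ 4 * q 0 ^ 4 * q 1 * q 2 ^ 2) + (8) * (p 0 ^ 2 * p 1 ^ 2 * p 2 ^ 4 * q 0 ^ 2 * q 1 ^ 4 * q 2) + (8) * (p 0 ^ 2 * p 1 ^ 2 * p 2 ^ 4 * q 0 * q 1 * q 2 ^ 5) + p 0 ^ 2 * p 1 ^ 2 * p 2 ^ 4 * q 1 ^ 7 + p 0 ^ 2 * p 1 * p 2 ^ 5 * q 0 ^ 4 * q 1 ^ 2 * q 2 + (2) * (p 0 ^ 2 * p 1 * p 2 ^ 5 * q 0 ^ 2 * q 1 ^ 5) + (5) * (p 0 ^ 2 * p 1 * p 2 ^ 5 * q 0 * q 1 ^ 2 * q 2 ^ 4) + (2) * (p 0 ^ 2 * p 2 ^ 6 * q 0 ^ 3 * q 2 ^ 4) + p 0 ^ 2 * p 2 ^ 6 * q 0 * q 1 ^ 3 * q 2 ^ 3 + -(p 0 * p 1 ^ 6 * p 2 * q 0 ^ 6 * q 2)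 + -(p 0 * p 1 ^ 6 * p 2 * q 0 ^ 4 * q 1 ^ 3) + -(p 0 * p 1 ^ 6 * p 2 * q 0 ^ 3 * q 2 ^ 4) + (4) * (p 0 * p 1 ^ 6 * p 2 * q 0 * q 1 ^ 3 * q 2 ^ 3) + (3) * (p 0 * p 1 ^ 5 * p 2 ^ 2 * q 0 ^ 3 * q 1 * q 2 ^ 3) + (9) * (p 0 * p 1 ^ 5 * p 2 ^ 2 * q 0 * q 1 ^ 4 * q 2 ^ 2) + (3) * (p 0 * p 1 ^ 5 * p 2 ^ 2 * q 1 * q 2 ^ 6) + (4) * (p 0 * p 1 ^ 4 * p 2 ^ 3 * q 0 ^ 3 * q 1 ^ 2 * q 2 ^ 2) + (6) * (p 0 * p 1 ^ 4 * p 2 ^ 3 * q 0 * q 1 ^ 5 * q 2) + (8) * (p 0 * p 1 ^ 4 * p 2 ^ 3 * q 1 ^ 2 * q 2 ^ 5) + (2) * (p 0 * p 1 ^ 3 * p 2 ^ 4 * q 0 ^ 3 * q 1 ^ 3 * q 2) + p 0 * p 1 ^ 3 * p 2 ^ 4 * q 0 ^ 2 * q 2 ^ 5 + p 0 * p 1 ^ 3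 * p 2 ^ 4 * q 0 * q 1 ^ 6 + (8) * (p 0 * p 1 ^ 3 * p 2 ^ 4 * q 1 ^ 3 * q 2 ^ 4) + (6) * (p 0 * p 1 ^ 2 * p 2 ^ 5 * q 0 ^ 2 * q 1 * q 2 ^ 4) + (3) * (p 0 * p 1 ^ 2 * p 2 ^ 5 * q 1 ^ 4 * q 2 ^ 3) + (6) * (p 0 * p 1 * p 2 ^ 6 * q 0 ^ 2 * q 1 ^ 2 * q 2 ^ 3) + (2) * (p 0 * p 2 ^ 7 * q 0 ^ 2 * q 1 ^ 3 * q 2 ^ 2) + p 1 ^ 8 * q 0 ^ 2 * q 1 * q 2 ^ 4 + p 1 ^ 8 * q 1 ^ 4 * q 2 ^ 3 + (3) * (p 1 ^ 7 * p 2 * q 0 ^ 2 * q 1 ^ 2 * q 2 ^ 3) + (3) * (p 1 ^ 7 * p 2 * q 1 ^ 5 * q 2 ^ 2) + (3) * (p 1 ^ 6 * p 2 ^ 2 * q 0 ^ 2 * q 1 ^ 3 * q 2 ^ 2) + (3) * (p 1 ^ 6 * p 2 ^ 2 * q 1 ^ 6 * q 2) + p 1 ^ 5 * p 2 ^ 3 * q 0 ^ 2 * q 1 ^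 4 * q 2 + p 1 ^ 5 * p 2 ^ 3 * q 0 * q 1 * q 2 ^ 5 + p 1 ^ 5 * p 2 ^ 3 * q 1 ^ 7 + (5) * (p 1 ^ 4 * p 2 ^ 4 * q 0 * q 1 ^ 2 * q 2 ^ 4) + (8) * (p 1 ^ 3 * p 2 ^ 5 * q 0 * q 1 ^ 3 * q 2 ^ 3) + p 1 ^ 2 * p 2 ^ 6 * q 0 ^ 3 * q 1 * q 2 ^ 3 + (6) * (p 1 ^ 2 * p 2 ^ 6 * q 0 * q 1 ^ 4 * q 2 ^ 2) + p 1 * p 2 ^ 7 * q 0 ^ 3 * q 1 ^ 2 * q 2 ^ 2 + (2) * (p 1 * p 2 ^ 7 * q 0 * q 1 ^ 5 * q 2)) * h2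

theorem id_I_122 (p q : Fin 3 → C) (h2 : (2 : C) = 0) (hp : hh p = 0) (hq : hh q = 0) :
    P22 p q * (a1 p q * P11 p q + n1 p q ^ 2 * b1 p q) + P12 p q * (a2 p q * P11 p q + n1 p q ^ 2 * b2 p q) = 0 := by
  simp only [hh, n1, n2, n3, gg, P11, P12, P13, P22, P23, P33, a1, a2, a3, β1, β2, β3, b1, b2, b3, A3, A2, A0] at hp hq ⊢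
  linear_combination ((2) * (p 0 ^ 4 * q 0 * q 1 ^ 4 * q 2 ^ 2) + (2) * (p 0 ^ 3 * p 1 * q 0 ^ 2 * q 1 ^ 3 * q 2 ^ 2) + (2) * (p 0 ^ 3 * p 1 * q 1 ^ 6 * q 2) + p 0 ^ 3 * p 2 * q 0 * q 1 * q 2 ^ 5 + p 0 ^ 2 * p 1 ^ 2 * q 0 ^ 3 * q 1 ^ 2 * q 2 ^ 2 + p 0 ^ 2 * p 1 * p 2 * q 0 ^ 5 * q 2 ^ 2 + p 0 ^ 2 * p 1 * p 2 * q 0 ^ 2 * q 2 ^ 5 + p 0 ^ 2 * p 2 ^ 2 * q 0 ^ 2 * q 1 * q 2 ^ 4 + p 0 * p 1 ^ 3 * q 0 ^ 2 * q 1 ^ 4 * q 2 + p 0 * p 1 * p 2 ^ 2 * q 0 ^ 4 * q 1 ^ 3 + p 0 * p 1 * p 2 ^ 2 * q 0 ^ 3 * q 2 ^ 4 + p 0 * p 1 * p 2 ^ 2 * q 0 * q 1 ^ 3 * q 2 ^ 3 + p 0 * p 2 ^ 3 * q 0 * q 1 ^ 4 * q 2 ^ 2 + p 1 ^ 4 * q 1 ^ 3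 * q 2 ^ 4 + p 1 ^ 3 * p 2 * q 1 ^ 4 * q 2 ^ 3 + p 1 * p 2 ^ 3 * q 0 ^ 2 * q 1 ^ 3 * q 2 ^ 2 + p 1 * p 2 ^ 3 * q 1 ^ 6 * q 2) * hp +
    (p 0 ^ 6 * p 2 ^ 2 * q 0 * q 1 * q 2 + p 0 ^ 5 * p 1 * p 2 ^ 2 * q 0 ^ 2 * q 2 + (2) * (p 0 ^ 5 * p 2 ^ 3 * q 0 ^ 2 * q 1) + (2) * (p 0 ^ 4 * p 1 ^ 3 * p 2 * q 0 * q 1 * q 2) + p 0 ^ 4 * p 1 * p 2 ^ 3 * q 0 ^ 3 + (2) * (p 0 ^ 3 * p 1 ^ 4 * p 2 * q 0 ^ 2 * q 2) + p 0 ^ 3 * p 1 ^ 4 * p 2 * q 1 ^ 3 + (2) * (p 0 ^ 3 * p 1 ^ 3 * p 2 ^ 2 * q 0 ^ 2 * q 1) + p 0 ^ 2 * p 1 ^ 5 * p 2 * q 0 * q 1 ^ 2 + p 0 ^ 2 * p 1 ^ 4 * p 2 ^ 2 * q 0 ^ 3 + p 0 * p 1 ^ 7 * q 1 ^ 3 + p 0 * p 1 ^ 6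 * p 2 * q 0 ^ 2 * q 1 + p 0 * p 1 ^ 4 * p 2 ^ 3 * q 0 * q 2 ^ 2 + p 1 ^ 6 * p 2 ^ 2 * q 1 * q 2 ^ 2) * hq +
    (-(p 0 ^ 7 * p 2 * q 0 * q 1 ^ 4 * q 2 ^ 2) + -(p 0 ^ 6 * p 1 * p 2 * q 0 ^ 2 * q 1 ^ 3 * q 2 ^ 2) + -(p 0 ^ 6 * p 1 * p 2 * q 1 ^ 6 * q 2) + -(p 0 ^ 6 * p 2 ^ 2 * q 0 * q 1 * q 2 ^ 5) + p 0 ^ 5 * p 1 ^ 3 * q 0 ^ 3 * q 1 * q 2 ^ 3 + -(p 0 ^ 5 * p 1 ^ 3 * q 0 * q 1 ^ 4 * q 2 ^ 2) + (3) * (p 0 ^ 5 * p 1 ^ 2 * p 2 * q 0 ^ 3 * q 1 ^ 2 * q 2 ^ 2) + p 0 ^ 5 * p 1 ^ 2 * p 2 * q 0 * q 1 ^ 5 * q 2 + -(p 0 ^ 5 * p 1 * p 2 ^ 2 * q 0 ^ 5 * q 2 ^ 2) + p 0 ^ 5 * p 1 * p 2 ^ 2 * q 0 ^ 3 * q 1 ^ 3 * q 2 + -(p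 0 ^ 5 * p 1 * p 2 ^ 2 * q 0 ^ 2 * q 2 ^ 5) + -(p 0 ^ 5 * p 2 ^ 3 * q 0 ^ 5 * q 1 * q 2) + -(p 0 ^ 5 * p 2 ^ 3 * q 0 ^ 3 * q 1 ^ 4) + -(p 0 ^ 5 * p 2 ^ 3 * q 0 ^ 2 * q 1 * q 2 ^ 4) + -(p 0 ^ 4 * p 1 ^ 4 * q 1 ^ 6 * q 2) + -(p 0 ^ 4 * p 1 ^ 3 * p 2 * q 0 * q 1 * q 2 ^ 5) + (2) * (p 0 ^ 4 * p 1 ^ 2 * p 2 ^ 2 * q 0 ^ 4 * q 1 ^ 2 * q 2) + p 0 ^ 4 * p 1 ^ 2 * p 2 ^ 2 * q 0 ^ 2 * q 1 ^ 5 + (2) * (p 0 ^ 4 * p 1 ^ 2 * p 2 ^ 2 * q 0 * q 1 ^ 2 * q 2 ^ 4) + -(p 0 ^ 4 * p 1 * p 2 ^ 3 * q 0 ^ 3 * q 2 ^ 4) + p 0 ^ 4 * p 2 ^ 4 * q 0 ^ 3 * q 1 * q 2 ^ 3 + -(p 0 ^ 4 * p 2 ^ 4 * q 0 * q 1 ^ 4 * q 2 ^ 2) + p 0 ^ 3 * p 1 ^ 5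 * q 0 ^ 3 * q 1 ^ 2 * q 2 ^ 2 + p 0 ^ 3 * p 1 ^ 5 * q 0 * q 1 ^ 5 * q 2 + -(p 0 ^ 3 * p 1 ^ 4 * p 2 * q 0 ^ 5 * q 2 ^ 2) + p 0 ^ 3 * p 1 ^ 4 * p 2 * q 0 ^ 3 * q 1 ^ 3 * q 2 + -(p 0 ^ 3 * p 1 ^ 4 * p 2 * q 0 ^ 2 * q 2 ^ 5) + -(p 0 ^ 3 * p 1 ^ 4 * p 2 * q 1 ^ 3 * q 2 ^ 4) + p 0 ^ 3 * p 1 ^ 3 * p 2 ^ 2 * q 0 ^ 5 * q 1 * q 2 + p 0 ^ 3 * p 1 ^ 3 * p 2 ^ 2 * q 0 ^ 3 * q 1 ^ 4 + (2) * (p 0 ^ 3 * p 1 ^ 3 * p 2 ^ 2 * q 0 ^ 2 * q 1 * q 2 ^ 4) + p 0 ^ 3 * p 1 ^ 2 * p 2 ^ 3 * q 0 ^ 5 * q 1 ^ 2 + (10) * (p 0 ^ 3 * p 1 ^ 2 * p 2 ^ 3 * q 0 ^ 2 * q 1 ^ 2 * q 2 ^ 3) + (2) * (p 0 ^ 3 * p 1 ^ 2 * p 2 ^ 3 * q 1 ^ 5 * q 2 ^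 2) + p 0 ^ 3 * p 1 * p 2 ^ 4 * q 0 ^ 4 * q 2 ^ 3 + (4) * (p 0 ^ 3 * p 1 * p 2 ^ 4 * q 0 ^ 2 * q 1 ^ 3 * q 2 ^ 2) + -(p 0 ^ 3 * p 1 * p 2 ^ 4 * q 1 ^ 6 * q 2) + p 0 ^ 3 * p 2 ^ 5 * q 0 ^ 2 * q 1 ^ 4 * q 2 + p 0 ^ 2 * p 1 ^ 5 * p 2 * q 0 ^ 4 * q 1 ^ 2 * q 2 + p 0 ^ 2 * p 1 ^ 5 * p 2 * q 0 ^ 2 * q 1 ^ 5 + p 0 ^ 2 * p 1 ^ 5 * p 2 * q 0 * q 1 ^ 2 * q 2 ^ 4 + (5) * (p 0 ^ 2 * p 1 ^ 4 * p 2 ^ 2 * q 0 * q 1 ^ 3 * q 2 ^ 3) + (4) * (p 0 ^ 2 * p 1 ^ 3 * p 2 ^ 3 * q 0 ^ 3 * q 1 * q 2 ^ 3) + (5) * (p 0 ^ 2 * p 1 ^ 3 * p 2 ^ 3 * q 0 * q 1 ^ 4 * q 2 ^ 2) + p 0 ^ 2 * p 1 ^ 3 * p 2 ^ 3 * q 1 * q 2 ^ 6 + (2) * (p 0 ^ 2 *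 p 1 ^ 2 * p 2 ^ 4 * q 0 ^ 3 * q 1 ^ 2 * q 2 ^ 2) + p 0 ^ 2 * p 1 ^ 2 * p 2 ^ 4 * q 0 * q 1 ^ 5 * q 2 + (3) * (p 0 ^ 2 * p 1 ^ 2 * p 2 ^ 4 * q 1 ^ 2 * q 2 ^ 5) + p 0 ^ 2 * p 1 * p 2 ^ 5 * q 1 ^ 3 * q 2 ^ 4 + -(p 0 * p 1 ^ 7 * q 1 ^ 3 * q 2 ^ 4) + (3) * (p 0 * p 1 ^ 5 * p 2 ^ 2 * q 0 ^ 2 * q 1 ^ 2 * q 2 ^ 3) + (2) * (p 0 * p 1 ^ 5 * p 2 ^ 2 * q 1 ^ 5 * q 2 ^ 2) + (3) * (p 0 * p 1 ^ 4 * p 2 ^ 3 * q 0 ^ 2 * q 1 ^ 3 * q 2 ^ 2) + p 0 * p 1 ^ 3 * p 2 ^ 4 * q 0 ^ 4 * q 1 * q 2 ^ 2 + (2) * (p 0 * p 1 ^ 3 * p 2 ^ 4 * q 0 ^ 2 * q 1 ^ 4 * q 2) + (2) * (p 0 * p 1 ^ 3 * p 2 ^ 4 * q 0 * q 1 * q 2 ^ 5) + p 0 * p 1 ^ 2 *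 p 2 ^ 5 * q 0 ^ 4 * q 1 ^ 2 * q 2 + p 0 * p 1 ^ 2 * p 2 ^ 5 * q 0 ^ 2 * q 1 ^ 5 + (3) * (p 0 * p 1 ^ 2 * p 2 ^ 5 * q 0 * q 1 ^ 2 * q 2 ^ 4) + p 0 * p 1 * p 2 ^ 6 * q 0 * q 1 ^ 3 * q 2 ^ 3 + (3) * (p 1 ^ 5 * p 2 ^ 3 * q 1 ^ 2 * q 2 ^ 5) + (6) * (p 1 ^ 4 * p 2 ^ 4 * q 1 ^ 3 * q 2 ^ 4) + p 1 ^ 3 * p 2 ^ 5 * q 0 ^ 2 * q 1 * q 2 ^ 4 + (6) * (p 1 ^ 3 * p 2 ^ 5 * q 1 ^ 4 * q 2 ^ 3) + p 1 ^ 2 * p 2 ^ 6 * q 0 ^ 2 * q 1 ^ 2 * q 2 ^ 3 + (3) * (p 1 ^ 2 * p 2 ^ 6 * q 1 ^ 5 * q 2 ^ 2)) * h2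

theorem id_I_123 (p q : Fin 3 → C) (h2 : (2 : C) = 0) (hp : hh p = 0) (hq : hh q = 0) :
    P23 p q * (a1 p q * P11 p q + n1 p q ^ 2 * b1 p q) + P13 p q * (a2 p q * P11 p q + n1 p q ^ 2 * b2 p q) = 0 := by
  simp only [hh, n1, n2, n3, gg, P11, P12, P13, P22, P23, P33, a1, a2, a3, β1, β2, β3, b1, b2, b3, A3, A2, A0] at hp hq ⊢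
  linear_combination ((2) * (p 0 ^ 4 * q 0 ^ 3 * q 1 ^ 2 * q 2 ^ 2) + (2) * (p 0 ^ 4 * q 0 * q 1 ^ 5 * q 2) + (2) * (p 0 ^ 3 * p 1 * q 0 ^ 2 * q 1 ^ 4 * q 2) + (2) * (p 0 ^ 3 * p 1 * q 1 ^ 7) + (2) * (p 0 ^ 3 * p 2 * q 0 ^ 2 * q 1 ^ 5) + p 0 ^ 3 * p 2 * q 0 * q 1 ^ 2 * q 2 ^ 4 + p 0 ^ 2 * p 1 ^ 2 * q 0 ^ 5 * q 2 ^ 2 + p 0 ^ 2 * p 1 ^ 2 * q 0 ^ 3 * q 1 ^ 3 * q 2 + p 0 ^ 2 * p 1 ^ 2 * q 0 * q 1 ^ 6 + p 0 ^ 2 * p 1 ^ 2 * q 1 ^ 3 * q 2 ^ 4 + p 0 ^ 2 * p 1 * p 2 * q 0 ^ 3 * q 1 ^ 4 + p 0 ^ 2 * p 1 * p 2 * q 1 ^ 4 * q 2 ^ 3 + p 0 * p 1 ^ 3 * q 0 ^ 4 * q 1 ^ 2 * q 2 + (2) * (p 0 * p 1 ^ 3 * q 0 ^ 2 * q 1 ^ 5) +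 p 0 * p 1 ^ 2 * p 2 * q 0 ^ 4 * q 1 ^ 3 + p 0 * p 1 ^ 2 * p 2 * q 0 ^ 3 * q 2 ^ 4 + p 0 * p 1 * p 2 ^ 2 * q 0 ^ 3 * q 1 * q 2 ^ 3 + p 0 * p 1 * p 2 ^ 2 * q 0 * q 1 ^ 4 * q 2 ^ 2 + p 0 * p 2 ^ 3 * q 0 ^ 3 * q 1 ^ 2 * q 2 ^ 2 + p 0 * p 2 ^ 3 * q 0 * q 1 ^ 5 * q 2 + p 1 ^ 4 * q 0 ^ 2 * q 1 * q 2 ^ 4 + p 1 ^ 3 * p 2 * q 0 ^ 2 * q 1 ^ 2 * q 2 ^ 3 + p 1 ^ 3 * p 2 * q 1 ^ 5 * q 2 ^ 2 + p 1 * p 2 ^ 3 * q 0 ^ 2 * q 1 ^ 4 * q 2 + p 1 * p 2 ^ 3 * q 1 ^ 7 + p 2 ^ 4 * q 0 ^ 2 * q 1 ^ 5) * hp +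
    (p 0 ^ 6 * p 2 ^ 2 * q 0 * q 1 ^ 2 + p 0 ^ 5 * p 1 ^ 2 * p 2 * q 0 ^ 2 * q 2 + p 0 ^ 5 * p 1 ^ 2 * p 2 * q 1 ^ 3 + p 0 ^ 5 * p 1 * p 2 ^ 2 * q 0 ^ 2 * q 1 + p 0 ^ 4 * p 1 ^ 3 * p 2 * q 0 * q 1 ^ 2 + p 0 ^ 4 * p 1 ^ 2 * p 2 ^ 2 * q 0 ^ 3 + p 0 ^ 4 * p 1 * p 2 ^ 3 * q 1 * q 2 ^ 2 + p 0 ^ 3 * p 1 ^ 5 * q 1 ^ 3 + p 0 ^ 3 * p 1 ^ 4 * p 2 * q 0 ^ 2 * q 1 + p 0 ^ 3 * p 1 ^ 2 * p 2 ^ 3 * q 0 * q 2 ^ 2 + (3) * (p 0 ^ 2 * p 1 ^ 5 * p 2 * q 0 ^ 3) + p 0 ^ 2 * p 1 ^ 5 * p 2 * q 2 ^ 3 + p 0 ^ 2 * p 1 ^ 4 * p 2 ^ 2 * q 1 * q 2 ^ 2 + p 0 * p 1 ^ 7 * q 0 ^ 2 * q 1 + p 0 * p 1 ^ 5 * p 2 ^ 2 * q 0 * q 2 ^ 2 + p 0 * p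 1 ^ 4 * p 2 ^ 3 * q 0 * q 1 * q 2 + p 1 ^ 7 * p 2 * q 1 * q 2 ^ 2 + p 1 ^ 5 * p 2 ^ 3 * q 1 ^ 3) * hq +
    (-(p 0 ^ 7 * p 2 * q 0 ^ 3 * q 1 ^ 2 * q 2 ^ 2) + -(p 0 ^ 7 * p 2 * q 0 * q 1 ^ 5 * q 2) + -(p 0 ^ 6 * p 1 * p 2 * q 0 ^ 2 * q 1 ^ 4 * q 2) + -(p 0 ^ 6 * p 1 * p 2 * q 1 ^ 7) + -(p 0 ^ 6 * p 2 ^ 2 * q 0 ^ 2 * q 1 ^ 5) + -(p 0 ^ 6 * p 2 ^ 2 * q 0 * q 1 ^ 2 * q 2 ^ 4) + -(p 0 ^ 5 * p 1 ^ 3 * q 0 * q 1 ^ 5 * q 2) + -(p 0 ^ 5 * p 1 ^ 2 * p 2 * q 0 ^ 5 * q 2 ^ 2) + (2) * (p 0 ^ 5 * p 1 ^ 2 * p 2 * q 0 ^ 3 * q 1 ^ 3 * q 2) + -(p 0 ^ 5 * p 1 ^ 2 * p 2 * q 1 ^ 3 * q 2 ^ 4) + p 0 ^ 5 * p 1 * p 2 ^ 2 * q 0 ^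 5 * q 1 * q 2 + (2) * (p 0 ^ 5 * p 1 * p 2 ^ 2 * q 0 ^ 3 * q 1 ^ 4) + p 0 ^ 5 * p 1 * p 2 ^ 2 * q 0 ^ 2 * q 1 * q 2 ^ 4 + p 0 ^ 5 * p 2 ^ 3 * q 0 ^ 2 * q 1 ^ 2 * q 2 ^ 3 + (2) * (p 0 ^ 4 * p 1 ^ 4 * q 0 ^ 4 * q 1 * q 2 ^ 2) + -(p 0 ^ 4 * p 1 ^ 4 * q 1 ^ 7) + (7) * (p 0 ^ 4 * p 1 ^ 3 * p 2 * q 0 ^ 4 * q 1 ^ 2 * q 2) + p 0 ^ 4 * p 1 ^ 3 * p 2 * q 0 ^ 2 * q 1 ^ 5 + (3) * (p 0 ^ 4 * p 1 ^ 2 * p 2 ^ 2 * q 0 ^ 4 * q 1 ^ 3) + p 0 ^ 4 * p 1 ^ 2 * p 2 ^ 2 * q 0 ^ 3 * q 2 ^ 4 + (3) * (p 0 ^ 4 * p 1 ^ 2 * p 2 ^ 2 * q 0 * q 1 ^ 3 * q 2 ^ 3) + (6) * (p 0 ^ 4 * p 1 * p 2 ^ 3 * q 0 ^ 3 * q 1 * q 2 ^ 3) + (2) * (p 0 ^ 4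 * p 1 * p 2 ^ 3 * q 0 * q 1 ^ 4 * q 2 ^ 2) + p 0 ^ 4 * p 2 ^ 4 * q 0 ^ 3 * q 1 ^ 2 * q 2 ^ 2 + -(p 0 ^ 4 * p 2 ^ 4 * q 0 * q 1 ^ 5 * q 2) + (2) * (p 0 ^ 3 * p 1 ^ 5 * q 0 ^ 3 * q 1 ^ 3 * q 2) + p 0 ^ 3 * p 1 ^ 5 * q 0 ^ 2 * q 2 ^ 5 + -(p 0 ^ 3 * p 1 ^ 5 * q 1 ^ 3 * q 2 ^ 4) + (3) * (p 0 ^ 3 * p 1 ^ 4 * p 2 * q 0 ^ 5 * q 1 * q 2) + (3) * (p 0 ^ 3 * p 1 ^ 4 * p 2 * q 0 ^ 3 * q 1 ^ 4) + (7) * (p 0 ^ 3 * p 1 ^ 4 * p 2 * q 0 ^ 2 * q 1 * q 2 ^ 4) + p 0 ^ 3 * p 1 ^ 4 * p 2 * q 1 ^ 4 * q 2 ^ 3 + p 0 ^ 3 * p 1 ^ 3 * p 2 ^ 2 * q 0 ^ 5 * q 1 ^ 2 + (18) * (p 0 ^ 3 * p 1 ^ 3 * p 2 ^ 2 * q 0 ^ 2 * q 1 ^ 2 * q 2 ^ 3) +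 (2) * (p 0 ^ 3 * p 1 ^ 3 * p 2 ^ 2 * q 1 ^ 5 * q 2 ^ 2) + p 0 ^ 3 * p 1 ^ 2 * p 2 ^ 3 * q 0 ^ 4 * q 2 ^ 3 + (15) * (p 0 ^ 3 * p 1 ^ 2 * p 2 ^ 3 * q 0 ^ 2 * q 1 ^ 3 * q 2 ^ 2) + (2) * (p 0 ^ 3 * p 1 ^ 2 * p 2 ^ 3 * q 1 ^ 6 * q 2) + (4) * (p 0 ^ 3 * p 1 * p 2 ^ 4 * q 0 ^ 4 * q 1 * q 2 ^ 2) + (5) * (p 0 ^ 3 * p 1 * p 2 ^ 4 * q 0 ^ 2 * q 1 ^ 4 * q 2) + (3) * (p 0 ^ 3 * p 1 * p 2 ^ 4 * q 0 * q 1 * q 2 ^ 5) + -(p 0 ^ 3 * p 1 * p 2 ^ 4 * q 1 ^ 7) + p 0 ^ 3 * p 2 ^ 5 * q 0 ^ 4 * q 1 ^ 2 * q 2 + (2) * (p 0 ^ 2 * p 1 ^ 6 * q 0 ^ 4 * q 1 ^ 2 * q 2) + p 0 ^ 2 * p 1 ^ 6 * q 0 ^ 2 * q 1 ^ 5 + p 0 ^ 2 * p 1 ^ 6 * q 0 *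 q 1 ^ 2 * q 2 ^ 4 + -(p 0 ^ 2 * p 1 ^ 5 * p 2 * q 0 ^ 6 * q 2) + -(p 0 ^ 2 * p 1 ^ 5 * p 2 * q 0 ^ 4 * q 1 ^ 3) + -(p 0 ^ 2 * p 1 ^ 5 * p 2 * q 0 ^ 3 * q 2 ^ 4) + (4) * (p 0 ^ 2 * p 1 ^ 5 * p 2 * q 0 * q 1 ^ 3 * q 2 ^ 3) + (6) * (p 0 ^ 2 * p 1 ^ 4 * p 2 ^ 2 * q 0 ^ 3 * q 1 * q 2 ^ 3) + (8) * (p 0 ^ 2 * p 1 ^ 4 * p 2 ^ 2 * q 0 * q 1 ^ 4 * q 2 ^ 2) + (3) * (p 0 ^ 2 * p 1 ^ 4 * p 2 ^ 2 * q 1 * q 2 ^ 6) + (10) * (p 0 ^ 2 * p 1 ^ 3 * p 2 ^ 3 * q 0 ^ 3 * q 1 ^ 2 * q 2 ^ 2) + (5) * (p 0 ^ 2 * p 1 ^ 3 * p 2 ^ 3 * q 0 * q 1 ^ 5 * q 2) + (7) * (p 0 ^ 2 * p 1 ^ 3 * p 2 ^ 3 * q 1 ^ 2 * q 2 ^ 5) + (7) * (p 0 ^ 2 * p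 1 ^ 2 * p 2 ^ 4 * q 0 ^ 3 * q 1 ^ 3 * q 2) + p 0 ^ 2 * p 1 ^ 2 * p 2 ^ 4 * q 0 ^ 2 * q 2 ^ 5 + p 0 ^ 2 * p 1 ^ 2 * p 2 ^ 4 * q 0 * q 1 ^ 6 + (5) * (p 0 ^ 2 * p 1 ^ 2 * p 2 ^ 4 * q 1 ^ 3 * q 2 ^ 4) + (2) * (p 0 ^ 2 * p 1 * p 2 ^ 5 * q 0 ^ 3 * q 1 ^ 4) + (4) * (p 0 ^ 2 * p 1 * p 2 ^ 5 * q 0 ^ 2 * q 1 * q 2 ^ 4) + p 0 ^ 2 * p 1 * p 2 ^ 5 * q 1 ^ 4 * q 2 ^ 3 + p 0 ^ 2 * p 2 ^ 6 * q 0 ^ 2 * q 1 ^ 2 * q 2 ^ 3 + p 0 * p 1 ^ 7 * q 1 ^ 4 * q 2 ^ 3 + (3) * (p 0 * p 1 ^ 6 * p 2 * q 0 ^ 2 * q 1 ^ 2 * q 2 ^ 3) + (2) * (p 0 * p 1 ^ 6 * p 2 * q 1 ^ 5 * q 2 ^ 2) + (5) * (p 0 * p 1 ^ 5 * p 2 ^ 2 * q 0 ^ 2 * q 1 ^ 3 * q 2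 ^ 2) + (2) * (p 0 * p 1 ^ 5 * p 2 ^ 2 * q 1 ^ 6 * q 2) + (2) * (p 0 * p 1 ^ 4 * p 2 ^ 3 * q 0 ^ 4 * q 1 * q 2 ^ 2) + (4) * (p 0 * p 1 ^ 4 * p 2 ^ 3 * q 0 ^ 2 * q 1 ^ 4 * q 2) + (5) * (p 0 * p 1 ^ 4 * p 2 ^ 3 * q 0 * q 1 * q 2 ^ 5) + p 0 * p 1 ^ 3 * p 2 ^ 4 * q 0 ^ 4 * q 1 ^ 2 * q 2 + (13) * (p 0 * p 1 ^ 3 * p 2 ^ 4 * q 0 * q 1 ^ 2 * q 2 ^ 4) + (12) * (p 0 * p 1 ^ 2 * p 2 ^ 5 * q 0 * q 1 ^ 3 * q 2 ^ 3) + p 0 * p 1 * p 2 ^ 6 * q 0 ^ 3 * q 1 * q 2 ^ 3 + (4) * (p 0 * p 1 * p 2 ^ 6 * q 0 * q 1 ^ 4 * q 2 ^ 2) + p 1 ^ 6 * p 2 ^ 2 * q 0 ^ 3 * q 1 ^ 2 * q 2 ^ 2 + p 1 ^ 6 * p 2 ^ 2 * q 0 * q 1 ^ 5 * q 2 + (3) * (p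 1 ^ 6 * p 2 ^ 2 * q 1 ^ 2 * q 2 ^ 5) + (7) * (p 1 ^ 5 * p 2 ^ 3 * q 1 ^ 3 * q 2 ^ 4) + p 1 ^ 4 * p 2 ^ 4 * q 0 ^ 2 * q 1 * q 2 ^ 4 + (10) * (p 1 ^ 4 * p 2 ^ 4 * q 1 ^ 4 * q 2 ^ 3) + (4) * (p 1 ^ 3 * p 2 ^ 5 * q 0 ^ 2 * q 1 ^ 2 * q 2 ^ 3) + (7) * (p 1 ^ 3 * p 2 ^ 5 * q 1 ^ 5 * q 2 ^ 2) + (5) * (p 1 ^ 2 * p 2 ^ 6 * q 0 ^ 2 * q 1 ^ 3 * q 2 ^ 2) + (3) * (p 1 ^ 2 * p 2 ^ 6 * q 1 ^ 6 * q 2) + (2) * (p 1 * p 2 ^ 7 * q 0 ^ 2 * q 1 ^ 4 * q 2)) * h2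

theorem id_I_133 (p q : Fin 3 → C) (h2 : (2 : C) = 0) (hp : hh p = 0) (hq : hh q = 0) :
    P33 p q * (a1 p q * P11 p q + n1 p q ^ 2 * b1 p q) + P13 p q * (a3 p q * P11 p q + n1 p q ^ 2 * b3 p q) = 0 := by
  simp only [hh, n1, n2, n3, gg, P11, P12, P13, P22, P23, P33, a1, a2, a3, β1, β2, β3, b1, b2, b3, A3, A2, A0] at hp hq ⊢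
  linear_combination ((2) * (p 0 ^ 4 * q 0 ^ 5 * q 2 ^ 2) + (2) * (p 0 ^ 3 * p 1 * q 0 ^ 2 * q 1 ^ 5) + p 0 ^ 3 * p 1 * q 0 * q 1 ^ 2 * q 2 ^ 4 + p 0 ^ 3 * p 2 * q 0 ^ 6 * q 2 + p 0 ^ 3 * p 2 * q 0 ^ 4 * q 1 ^ 3 + p 0 ^ 2 * p 1 ^ 2 * q 1 ^ 4 * q 2 ^ 3 + p 0 ^ 2 * p 2 ^ 2 * q 0 ^ 4 * q 2 ^ 3 + p 0 * p 1 ^ 3 * q 0 ^ 6 * q 2 + p 0 * p 1 ^ 3 * q 0 ^ 4 * q 1 ^ 3 + p 0 * p 1 ^ 2 * p 2 * q 0 * q 1 ^ 4 * q 2 ^ 2 + p 0 * p 1 * p 2 ^ 2 * q 0 * q 1 ^ 5 * q 2 + p 0 * p 2 ^ 3 * q 0 ^ 5 * q 2 ^ 2 + p 1 ^ 4 * q 0 ^ 2 * q 1 ^ 2 * q 2 ^ 3 + p 1 ^ 4 * q 1 ^ 5 * q 2 ^ 2 + p 1 ^ 2 * p 2 ^ 2 * q 0 ^ 2 * q 1 ^ 4 * q 2 + p 1 ^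 2 * p 2 ^ 2 * q 1 ^ 7 + p 1 * p 2 ^ 3 * q 0 ^ 2 * q 1 ^ 5 + p 2 ^ 4 * q 0 ^ 4 * q 1 ^ 3) * hp +
    (p 0 ^ 6 * p 1 * p 2 * q 0 * q 1 ^ 2 + p 0 ^ 5 * p 1 ^ 3 * q 0 ^ 2 * q 2 + p 0 ^ 5 * p 1 ^ 2 * p 2 * q 0 ^ 2 * q 1 + p 0 ^ 4 * p 1 ^ 4 * q 0 * q 1 ^ 2 + p 0 ^ 4 * p 1 ^ 3 * p 2 * q 0 ^ 3 + p 0 ^ 4 * p 1 ^ 2 * p 2 ^ 2 * q 1 * q 2 ^ 2 + p 0 ^ 3 * p 1 ^ 3 * p 2 ^ 2 * q 0 * q 2 ^ 2 + p 0 ^ 2 * p 1 ^ 6 * q 0 ^ 3 + p 0 ^ 2 * p 1 ^ 6 * q 2 ^ 3 + p 0 ^ 2 * p 1 ^ 5 * p 2 * q 1 * q 2 ^ 2 + p 0 ^ 2 * p 1 ^ 3 * p 2 ^ 3 * q 1 ^ 3 + p 0 * p 1 ^ 6 * p 2 * q 0 * q 2 ^ 2 + p 0 * p 1 ^ 5 * p 2 ^ 2 * q 0 * q 1 * q 2 + p 1 ^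 8 * q 1 * q 2 ^ 2 + p 1 ^ 6 * p 2 ^ 2 * q 1 ^ 3 + p 1 ^ 5 * p 2 ^ 3 * q 0 ^ 2 * q 1) * hq +
    (-(p 0 ^ 7 * p 2 * q 0 ^ 5 * q 2 ^ 2) + -(p 0 ^ 6 * p 1 * p 2 * q 0 ^ 2 * q 1 ^ 5) + -(p 0 ^ 6 * p 1 * p 2 * q 0 * q 1 ^ 2 * q 2 ^ 4) + p 0 ^ 6 * p 2 ^ 2 * q 0 ^ 3 * q 2 ^ 4 + p 0 ^ 6 * p 2 ^ 2 * q 0 * q 1 ^ 3 * q 2 ^ 3 + -(p 0 ^ 5 * p 1 ^ 3 * q 0 ^ 5 * q 2 ^ 2) + (2) * (p 0 ^ 5 * p 1 ^ 2 * p 2 * q 0 ^ 5 * q 1 * q 2) + p 0 ^ 5 * p 1 ^ 2 * p 2 * q 0 ^ 3 * q 1 ^ 4 + (2) * (p 0 ^ 5 * p 1 ^ 2 * p 2 * q 0 ^ 2 * q 1 * q 2 ^ 4) + p 0 ^ 5 * p 1 * p 2 ^ 2 * q 0 ^ 5 * q 1 ^ 2 + (2) * (p 0 ^ 5 * p 1 * p 2 ^ 2 * q 0 ^ 2 *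 q 1 ^ 2 * q 2 ^ 3) + (3) * (p 0 ^ 5 * p 2 ^ 3 * q 0 ^ 4 * q 2 ^ 3) + (3) * (p 0 ^ 5 * p 2 ^ 3 * q 0 ^ 2 * q 1 ^ 3 * q 2 ^ 2) + p 0 ^ 5 * p 2 ^ 3 * q 0 * q 2 ^ 6 + p 0 ^ 4 * p 1 ^ 4 * q 0 ^ 4 * q 1 ^ 2 * q 2 + -(p 0 ^ 4 * p 1 ^ 4 * q 0 ^ 2 * q 1 ^ 5) + -(p 0 ^ 4 * p 1 ^ 3 * p 2 * q 0 ^ 6 * q 2) + (3) * (p 0 ^ 4 * p 1 ^ 3 * p 2 * q 0 ^ 3 * q 2 ^ 4) + (3) * (p 0 ^ 4 * p 1 ^ 3 * p 2 * q 0 * q 1 ^ 3 * q 2 ^ 3) + p 0 ^ 4 * p 1 ^ 3 * p 2 * q 2 ^ 7 + (11) * (p 0 ^ 4 * p 1 ^ 2 * p 2 ^ 2 * q 0 ^ 3 * q 1 * q 2 ^ 3) + (3) * (p 0 ^ 4 * p 1 ^ 2 * p 2 ^ 2 * q 0 * q 1 ^ 4 * q 2 ^ 2) + (2) * (p 0 ^ 4 * p 1 ^ 2 * p 2 ^ 2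 * q 1 * q 2 ^ 6) + (8) * (p 0 ^ 4 * p 1 * p 2 ^ 3 * q 0 ^ 3 * q 1 ^ 2 * q 2 ^ 2) + (2) * (p 0 ^ 4 * p 1 * p 2 ^ 3 * q 0 * q 1 ^ 5 * q 2) + p 0 ^ 4 * p 1 * p 2 ^ 3 * q 1 ^ 2 * q 2 ^ 5 + p 0 ^ 4 * p 2 ^ 4 * q 0 ^ 5 * q 2 ^ 2 + (3) * (p 0 ^ 4 * p 2 ^ 4 * q 0 ^ 3 * q 1 ^ 3 * q 2) + (4) * (p 0 ^ 4 * p 2 ^ 4 * q 0 ^ 2 * q 2 ^ 5) + p 0 ^ 4 * p 2 ^ 4 * q 0 * q 1 ^ 6 + p 0 ^ 3 * p 1 ^ 5 * q 0 ^ 5 * q 1 * q 2 + p 0 ^ 3 * p 1 ^ 5 * q 0 ^ 3 * q 1 ^ 4 + (2) * (p 0 ^ 3 * p 1 ^ 5 * q 0 ^ 2 * q 1 * q 2 ^ 4) + (7) * (p 0 ^ 3 * p 1 ^ 4 * p 2 * q 0 ^ 2 * q 1 ^ 2 * q 2 ^ 3) + (4) * (p 0 ^ 3 * p 1 ^ 3 * p 2 ^ 2 * q 0 ^ 4 * q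 2 ^ 3) + (14) * (p 0 ^ 3 * p 1 ^ 3 * p 2 ^ 2 * q 0 ^ 2 * q 1 ^ 3 * q 2 ^ 2) + (3) * (p 0 ^ 3 * p 1 ^ 3 * p 2 ^ 2 * q 0 * q 2 ^ 6) + p 0 ^ 3 * p 1 ^ 3 * p 2 ^ 2 * q 1 ^ 6 * q 2 + (9) * (p 0 ^ 3 * p 1 ^ 2 * p 2 ^ 3 * q 0 ^ 4 * q 1 * q 2 ^ 2) + (9) * (p 0 ^ 3 * p 1 ^ 2 * p 2 ^ 3 * q 0 ^ 2 * q 1 ^ 4 * q 2) + (11) * (p 0 ^ 3 * p 1 ^ 2 * p 2 ^ 3 * q 0 * q 1 * q 2 ^ 5) + (5) * (p 0 ^ 3 * p 1 * p 2 ^ 4 * q 0 ^ 4 * q 1 ^ 2 * q 2) + p 0 ^ 3 * p 1 * p 2 ^ 4 * q 0 ^ 2 * q 1 ^ 5 + (7) * (p 0 ^ 3 * p 1 * p 2 ^ 4 * q 0 * q 1 ^ 2 * q 2 ^ 4) + (5) * (p 0 ^ 3 * p 2 ^ 5 * q 0 ^ 3 * q 2 ^ 4) + (2) * (p 0 ^ 3 * p 2 ^ 5 * q 0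 * q 1 ^ 3 * q 2 ^ 3) + -(p 0 ^ 2 * p 1 ^ 6 * q 0 ^ 6 * q 2) + -(p 0 ^ 2 * p 1 ^ 6 * q 0 ^ 4 * q 1 ^ 3) + p 0 ^ 2 * p 1 ^ 6 * q 0 * q 1 ^ 3 * q 2 ^ 3 + (6) * (p 0 ^ 2 * p 1 ^ 5 * p 2 * q 0 ^ 3 * q 1 * q 2 ^ 3) + (6) * (p 0 ^ 2 * p 1 ^ 5 * p 2 * q 0 * q 1 ^ 4 * q 2 ^ 2) + (3) * (p 0 ^ 2 * p 1 ^ 5 * p 2 * q 1 * q 2 ^ 6) + (10) * (p 0 ^ 2 * p 1 ^ 4 * p 2 ^ 2 * q 0 ^ 3 * q 1 ^ 2 * q 2 ^ 2) + (6) * (p 0 ^ 2 * p 1 ^ 4 * p 2 ^ 2 * q 0 * q 1 ^ 5 * q 2) + (9) * (p 0 ^ 2 * p 1 ^ 4 * p 2 ^ 2 * q 1 ^ 2 * q 2 ^ 5) + (2) * (p 0 ^ 2 * p 1 ^ 3 * p 2 ^ 3 * q 0 ^ 5 * q 2 ^ 2) + (9) * (p 0 ^ 2 * p 1 ^ 3 * p 2 ^ 3 * q 0 ^ 3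 * q 1 ^ 3 * q 2) + (3) * (p 0 ^ 2 * p 1 ^ 3 * p 2 ^ 3 * q 0 ^ 2 * q 2 ^ 5) + (2) * (p 0 ^ 2 * p 1 ^ 3 * p 2 ^ 3 * q 0 * q 1 ^ 6) + (10) * (p 0 ^ 2 * p 1 ^ 3 * p 2 ^ 3 * q 1 ^ 3 * q 2 ^ 4) + (2) * (p 0 ^ 2 * p 1 ^ 2 * p 2 ^ 4 * q 0 ^ 5 * q 1 * q 2) + (2) * (p 0 ^ 2 * p 1 ^ 2 * p 2 ^ 4 * q 0 ^ 3 * q 1 ^ 4) + (13) * (p 0 ^ 2 * p 1 ^ 2 * p 2 ^ 4 * q 0 ^ 2 * q 1 * q 2 ^ 4) + (5) * (p 0 ^ 2 * p 1 ^ 2 * p 2 ^ 4 * q 1 ^ 4 * q 2 ^ 3) + p 0 ^ 2 * p 1 * p 2 ^ 5 * q 0 ^ 5 * q 1 ^ 2 + (11) * (p 0 ^ 2 * p 1 * p 2 ^ 5 * q 0 ^ 2 * q 1 ^ 2 * q 2 ^ 3) + p 0 ^ 2 * p 1 * p 2 ^ 5 * q 1 ^ 5 * q 2 ^ 2 + (2) * (p 0 ^ 2 * p 2 ^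 6 * q 0 ^ 4 * q 2 ^ 3) + (4) * (p 0 ^ 2 * p 2 ^ 6 * q 0 ^ 2 * q 1 ^ 3 * q 2 ^ 2) + p 0 * p 1 ^ 7 * q 0 ^ 2 * q 1 ^ 2 * q 2 ^ 3 + (4) * (p 0 * p 1 ^ 6 * p 2 * q 0 ^ 2 * q 1 ^ 3 * q 2 ^ 2) + p 0 * p 1 ^ 6 * p 2 * q 1 ^ 6 * q 2 + (2) * (p 0 * p 1 ^ 5 * p 2 ^ 2 * q 0 ^ 4 * q 1 * q 2 ^ 2) + (5) * (p 0 * p 1 ^ 5 * p 2 ^ 2 * q 0 ^ 2 * q 1 ^ 4 * q 2) + (4) * (p 0 * p 1 ^ 5 * p 2 ^ 2 * q 0 * q 1 * q 2 ^ 5) + p 0 * p 1 ^ 4 * p 2 ^ 3 * q 0 ^ 4 * q 1 ^ 2 * q 2 + p 0 * p 1 ^ 4 * p 2 ^ 3 * q 0 ^ 2 * q 1 ^ 5 + (12) * (p 0 * p 1 ^ 4 * p 2 ^ 3 * q 0 * q 1 ^ 2 * q 2 ^ 4) + p 0 * p 1 ^ 3 * p 2 ^ 4 * q 0 ^ 3 * q 2 ^ 4 + (15)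 * (p 0 * p 1 ^ 3 * p 2 ^ 4 * q 0 * q 1 ^ 3 * q 2 ^ 3) + (6) * (p 0 * p 1 ^ 2 * p 2 ^ 5 * q 0 ^ 3 * q 1 * q 2 ^ 3) + (10) * (p 0 * p 1 ^ 2 * p 2 ^ 5 * q 0 * q 1 ^ 4 * q 2 ^ 2) + (5) * (p 0 * p 1 * p 2 ^ 6 * q 0 ^ 3 * q 1 ^ 2 * q 2 ^ 2) + (4) * (p 0 * p 1 * p 2 ^ 6 * q 0 * q 1 ^ 5 * q 2) + (2) * (p 0 * p 2 ^ 7 * q 0 ^ 3 * q 1 ^ 3 * q 2) + p 0 * p 2 ^ 7 * q 0 * q 1 ^ 6 + p 1 ^ 7 * p 2 * q 0 ^ 3 * q 1 ^ 2 * q 2 ^ 2 + p 1 ^ 7 * p 2 * q 0 * q 1 ^ 5 * q 2 + (3) * (p 1 ^ 7 * p 2 * q 1 ^ 2 * q 2 ^ 5) + (7) * (p 1 ^ 6 * p 2 ^ 2 * q 1 ^ 3 * q 2 ^ 4) + p 1 ^ 5 * p 2 ^ 3 * q 0 ^ 2 * q 1 * q 2 ^ 4 + (10) * (p 1 ^ 5 *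 p 2 ^ 3 * q 1 ^ 4 * q 2 ^ 3) + (4) * (p 1 ^ 4 * p 2 ^ 4 * q 0 ^ 2 * q 1 ^ 2 * q 2 ^ 3) + (7) * (p 1 ^ 4 * p 2 ^ 4 * q 1 ^ 5 * q 2 ^ 2) + (5) * (p 1 ^ 3 * p 2 ^ 5 * q 0 ^ 2 * q 1 ^ 3 * q 2 ^ 2) + (3) * (p 1 ^ 3 * p 2 ^ 5 * q 1 ^ 6 * q 2) + p 1 ^ 2 * p 2 ^ 6 * q 0 ^ 4 * q 1 * q 2 ^ 2 + (2) * (p 1 ^ 2 * p 2 ^ 6 * q 0 ^ 2 * q 1 ^ 4 * q 2) + p 1 * p 2 ^ 7 * q 0 ^ 4 * q 1 ^ 2 * q 2) * h2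

theorem id_pa_31 (p q : Fin 3 → C) (h2 : (2 : C) = 0) (hp : hh p = 0) (hq : hh q = 0) :
    P33 p q * (q 0 * a3 p q ^ 2 + p 0 * P33 p q + n3 p q * a3 p q * 0) = n3 p q ^ 2 * (p 0 ^ 5 * q 0 * q 1 * q 2 ^ 2 + p 0 ^ 4 * p 2 * q 1 ^ 4 + p 0 ^ 2 * p 1 ^ 3 * q 1 ^ 4 + p 0 ^ 2 * p 1 * p 2 ^ 2 * q 0 ^ 4 + p 0 * p 1 ^ 4 * q 0 ^ 3 * q 2 + p 0 * p 1 ^ 4 * q 0 * q 1 ^ 3) := by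
  simp only [hh, n1, n2, n3, gg, P11, P12, P13, P22, P23, P33, a1, a2, a3, β1, β2, β3, b1, b2, b3, A3, A2, A0] at hp hq ⊢
  linear_combination (p 0 ^ 3 * q 0 ^ 4 * q 2 ^ 2 + p 0 ^ 3 * q 1 ^ 6 + p 0 * p 1 ^ 2 * q 0 ^ 2 * q 1 ^ 4 + p 0 * p 2 ^ 2 * q 0 ^ 6) * hp +
    (p 0 ^ 7 * q 2 ^ 2 + p 0 ^ 5 * p 2 ^ 2 * q 0 ^ 2 + p 0 ^ 3 * p 1 ^ 4 * q 1 ^ 2 + p 0 * p 1 ^ 6 * q 0 ^ 2) * hq +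
    (p 0 ^ 7 * q 0 ^ 6 + p 0 ^ 7 * q 0 ^ 3 * q 2 ^ 3 + -(p 0 ^ 7 * q 0 * q 1 ^ 3 * q 2 ^ 2) + -(p 0 ^ 6 * p 1 * q 0 ^ 2 * q 1 ^ 2 * q 2 ^ 2) + (4) * (p 0 ^ 6 * p 2 * q 0 ^ 4 * q 2 ^ 2) + (3) * (p 0 ^ 6 * p 2 * q 0 * q 2 ^ 5) + -(p 0 ^ 6 * p 2 * q 1 ^ 6) + p 0 ^ 5 * p 1 ^ 2 * q 0 ^ 3 * q 1 * q 2 ^ 2 + p 0 ^ 5 * p 1 ^ 2 * q 1 * q 2 ^ 5 + (3) * (p 0 ^ 5 * p 1 * p 2 * q 0 ^ 3 * q 1 ^ 2 * q 2) + -(p 0 ^ 5 * p 1 * p 2 * q 0 * q 1 ^ 5) + (2) * (p 0 ^ 5 * p 1 * p 2 * q 1 ^ 2 * q 2 ^ 4) + (4) * (p 0 ^ 5 * p 2 ^ 2 * q 0 ^ 5 * q 2) + p 0 ^ 5 * p 2 ^ 2 * q 0 ^ 3 * q 1 ^ 3 + (7) * (p 0 ^ 5 * p 2 ^ 2 * q 0 ^ 2 * q 2 ^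 4) + p 0 ^ 5 * p 2 ^ 2 * q 1 ^ 3 * q 2 ^ 3 + p 0 ^ 4 * p 1 ^ 3 * q 0 ^ 4 * q 2 ^ 2 + p 0 ^ 4 * p 1 ^ 3 * q 0 * q 2 ^ 5 + -(p 0 ^ 4 * p 1 ^ 3 * q 1 ^ 6) + (3) * (p 0 ^ 4 * p 1 ^ 2 * p 2 * q 0 ^ 4 * q 1 * q 2) + -(p 0 ^ 4 * p 1 ^ 2 * p 2 * q 0 ^ 2 * q 1 ^ 4) + (5) * (p 0 ^ 4 * p 1 ^ 2 * p 2 * q 0 * q 1 * q 2 ^ 4) + p 0 ^ 4 * p 1 * p 2 ^ 2 * q 0 ^ 4 * q 1 ^ 2 + (7) * (p 0 ^ 4 * p 1 * p 2 ^ 2 * q 0 * q 1 ^ 2 * q 2 ^ 3) + p 0 ^ 4 * p 2 ^ 3 * q 0 ^ 6 + (10) * (p 0 ^ 4 * p 2 ^ 3 * q 0 ^ 3 * q 2 ^ 3) + (3) * (p 0 ^ 4 * p 2 ^ 3 * q 0 * q 1 ^ 3 * q 2 ^ 2) + -(p 0 ^ 3 * p 1 ^ 4 * q 0 ^ 3 * q 1 ^ 2 * q 2) + (-2) * (p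 0 ^ 3 * p 1 ^ 4 * q 0 * q 1 ^ 5) + (3) * (p 0 ^ 3 * p 1 ^ 3 * p 2 * q 0 ^ 2 * q 2 ^ 4) + (2) * (p 0 ^ 3 * p 1 ^ 3 * p 2 * q 1 ^ 3 * q 2 ^ 3) + -(p 0 ^ 3 * p 1 ^ 2 * p 2 ^ 2 * q 0 ^ 5 * q 1) + (9) * (p 0 ^ 3 * p 1 ^ 2 * p 2 ^ 2 * q 0 ^ 2 * q 1 * q 2 ^ 3) + (3) * (p 0 ^ 3 * p 1 ^ 2 * p 2 ^ 2 * q 1 ^ 4 * q 2 ^ 2) + (9) * (p 0 ^ 3 * p 1 * p 2 ^ 3 * q 0 ^ 2 * q 1 ^ 2 * q 2 ^ 2) + (2) * (p 0 ^ 3 * p 1 * p 2 ^ 3 * q 1 ^ 5 * q 2) + (7) * (p 0 ^ 3 * p 2 ^ 4 * q 0 ^ 4 * q 2 ^ 2) + (3) * (p 0 ^ 3 * p 2 ^ 4 * q 0 ^ 2 * q 1 ^ 3 * q 2) + -(p 0 ^ 2 * p 1 ^ 5 * q 0 ^ 4 * q 1 * q 2) + (-2) * (p 0 ^ 2 * p 1 ^ 5 * q 0 ^ 2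 * q 1 ^ 4) + p 0 ^ 2 * p 1 ^ 5 * q 0 * q 1 * q 2 ^ 4 + (4) * (p 0 ^ 2 * p 1 ^ 4 * p 2 * q 0 * q 1 ^ 2 * q 2 ^ 3) + -(p 0 ^ 2 * p 1 ^ 3 * p 2 ^ 2 * q 0 ^ 6) + (3) * (p 0 ^ 2 * p 1 ^ 3 * p 2 ^ 2 * q 0 ^ 3 * q 2 ^ 3) + (6) * (p 0 ^ 2 * p 1 ^ 3 * p 2 ^ 2 * q 0 * q 1 ^ 3 * q 2 ^ 2) + (7) * (p 0 ^ 2 * p 1 ^ 2 * p 2 ^ 3 * q 0 ^ 3 * q 1 * q 2 ^ 2) + (4) * (p 0 ^ 2 * p 1 ^ 2 * p 2 ^ 3 * q 0 * q 1 ^ 4 * q 2) + (5) * (p 0 ^ 2 * p 1 * p 2 ^ 4 * q 0 ^ 3 * q 1 ^ 2 * q 2) + p 0 ^ 2 * p 1 * p 2 ^ 4 * q 0 * q 1 ^ 5 + (3) * (p 0 ^ 2 * p 2 ^ 5 * q 0 ^ 5 * q 2) + p 0 ^ 2 * p 2 ^ 5 * q 0 ^ 3 * q 1 ^ 3 + -(p 0 * p 1 ^ 6 * q 0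 ^ 5 * q 2) + -(p 0 * p 1 ^ 6 * q 0 ^ 3 * q 1 ^ 3) + (2) * (p 0 * p 1 ^ 5 * p 2 * q 0 ^ 2 * q 1 * q 2 ^ 3) + (3) * (p 0 * p 1 ^ 4 * p 2 ^ 2 * q 0 ^ 2 * q 1 ^ 2 * q 2 ^ 2) + p 0 * p 1 ^ 3 * p 2 ^ 3 * q 0 ^ 4 * q 2 ^ 2 + (2) * (p 0 * p 1 ^ 3 * p 2 ^ 3 * q 0 ^ 2 * q 1 ^ 3 * q 2) + (2) * (p 0 * p 1 ^ 2 * p 2 ^ 4 * q 0 ^ 4 * q 1 * q 2) + p 0 * p 1 * p 2 ^ 5 * q 0 ^ 4 * q 1 ^ 2) * h2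

theorem id_pb_31 (p q : Fin 3 → C) (h2 : (2 : C) = 0) (hp : hh p = 0) (hq : hh q = 0) :
    P33 p q * ((p 0 ^ 5 * q 0 * q 1 * q 2 ^ 2 + p 0 ^ 4 * p 2 * q 1 ^ 4 + p 0 ^ 2 * p 1 ^ 3 * q 1 ^ 4 + p 0 ^ 2 * p 1 * p 2 ^ 2 * q 0 ^ 4 + p 0 * p 1 ^ 4 * q 0 ^ 3 * q 2 + p 0 * p 1 ^ 4 * q 0 * q 1 ^ 3) + (n3 p q * b3 p q * 0 + n3 p q * a3 p q * (β1 p q + p 0 * A3 p q) + p 0 * n3 p q ^ 2 * A2 p q)) + n3 p q ^ 2 * (q 0 * b3 p q ^ 2 + n3 p q * b3 p q * (β1 p q + p 0 * A3 p q) + p 0 * n3 p q ^ 2 * A0 p q) = 0 := by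
  simp only [hh, n1, n2, n3, gg, P11, P12, P13, P22, P23, P33, a1, a2, a3, β1, β2, β3, b1, b2, b3, A3, A2, A0] at hp hq ⊢
  linear_combination (p 0 ^ 4 * q 0 ^ 5 * q 1 * q 2 + p 0 ^ 4 * q 0 ^ 3 * q 1 ^ 4 + p 0 ^ 2 * p 1 * p 2 * q 0 ^ 7) * hp +
    (p 0 ^ 8 * q 0 * q 1 * q 2 + p 0 ^ 6 * p 1 * p 2 * q 0 ^ 3 + p 0 ^ 4 * p 1 ^ 4 * q 0 ^ 3) * hq +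
    ((2) * (p 0 ^ 7 * p 1 * q 0 ^ 3 * q 1 ^ 3 * q 2) + p 0 ^ 7 * p 2 * q 0 ^ 3 * q 1 ^ 4 + (2) * (p 0 ^ 7 * p 2 * q 0 ^ 2 * q 1 * q 2 ^ 4) + p 0 ^ 7 * p 2 * q 1 ^ 4 * q 2 ^ 3 + (4) * (p 0 ^ 6 * p 1 ^ 2 * q 0 ^ 4 * q 1 ^ 2 * q 2) + (2) * (p 0 ^ 6 * p 1 ^ 2 * q 0 * q 1 ^ 2 * q 2 ^ 4) + (3) * (p 0 ^ 6 * p 1 * p 2 * q 0 ^ 4 * q 1 ^ 3) + (3) * (p 0 ^ 6 * p 1 * p 2 * q 0 * q 1 ^ 3 * q 2 ^ 3) + (3) * (p 0 ^ 6 * p 2 ^ 2 * q 0 ^ 3 * q 1 * q 2 ^ 3) + (4) * (p 0 ^ 6 * p 2 ^ 2 * q 0 * q 1 ^ 4 * q 2 ^ 2) + (3) * (p 0 ^ 5 * p 1 ^ 3 * q 0 ^ 5 * q 1 * q 2) + (3) * (p 0 ^ 5 * p 1 ^ 3 * q 0 ^ 2 * q 1 * q 2 ^ 4) + p 0 ^ 5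 * p 1 ^ 3 * q 1 ^ 4 * q 2 ^ 3 + (4) * (p 0 ^ 5 * p 1 ^ 2 * p 2 * q 0 ^ 5 * q 1 ^ 2) + (7) * (p 0 ^ 5 * p 1 ^ 2 * p 2 * q 0 ^ 2 * q 1 ^ 2 * q 2 ^ 3) + (2) * (p 0 ^ 5 * p 1 ^ 2 * p 2 * q 1 ^ 5 * q 2 ^ 2) + (2) * (p 0 ^ 5 * p 1 * p 2 ^ 2 * q 0 ^ 4 * q 2 ^ 3) + (9) * (p 0 ^ 5 * p 1 * p 2 ^ 2 * q 0 ^ 2 * q 1 ^ 3 * q 2 ^ 2) + (2) * (p 0 ^ 5 * p 1 * p 2 ^ 2 * q 1 ^ 6 * q 2) + (2) * (p 0 ^ 5 * p 2 ^ 3 * q 0 ^ 4 * q 1 * q 2 ^ 2) + (4) * (p 0 ^ 5 * p 2 ^ 3 * q 0 ^ 2 * q 1 ^ 4 * q 2) + p 0 ^ 5 * p 2 ^ 3 * q 1 ^ 7 + p 0 ^ 4 * p 1 ^ 4 * q 0 ^ 6 * q 2 + p 0 ^ 4 * p 1 ^ 4 * q 0 ^ 3 * q 2 ^ 4 + (4) * (p 0 ^ 4 * p 1 ^ 4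 * q 0 * q 1 ^ 3 * q 2 ^ 3) + (2) * (p 0 ^ 4 * p 1 ^ 3 * p 2 * q 0 ^ 6 * q 1) + (7) * (p 0 ^ 4 * p 1 ^ 3 * p 2 * q 0 ^ 3 * q 1 * q 2 ^ 3) + (11) * (p 0 ^ 4 * p 1 ^ 3 * p 2 * q 0 * q 1 ^ 4 * q 2 ^ 2) + (13) * (p 0 ^ 4 * p 1 ^ 2 * p 2 ^ 2 * q 0 ^ 3 * q 1 ^ 2 * q 2 ^ 2) + (7) * (p 0 ^ 4 * p 1 ^ 2 * p 2 ^ 2 * q 0 * q 1 ^ 5 * q 2) + (3) * (p 0 ^ 4 * p 1 * p 2 ^ 3 * q 0 ^ 5 * q 2 ^ 2) + (7) * (p 0 ^ 4 * p 1 * p 2 ^ 3 * q 0 ^ 3 * q 1 ^ 3 * q 2) + (3) * (p 0 ^ 4 * p 1 * p 2 ^ 3 * q 0 * q 1 ^ 6) + p 0 ^ 4 * p 2 ^ 4 * q 0 ^ 3 * q 1 ^ 4 + (6) * (p 0 ^ 3 * p 1 ^ 5 * q 0 ^ 2 * q 1 ^ 2 * q 2 ^ 3) + p 0 ^ 3 * p 1 ^ 5 *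 q 1 ^ 5 * q 2 ^ 2 + (4) * (p 0 ^ 3 * p 1 ^ 4 * p 2 * q 0 ^ 4 * q 2 ^ 3) + (17) * (p 0 ^ 3 * p 1 ^ 4 * p 2 * q 0 ^ 2 * q 1 ^ 3 * q 2 ^ 2) + (2) * (p 0 ^ 3 * p 1 ^ 4 * p 2 * q 1 ^ 6 * q 2) + (9) * (p 0 ^ 3 * p 1 ^ 3 * p 2 ^ 2 * q 0 ^ 4 * q 1 * q 2 ^ 2) + (13) * (p 0 ^ 3 * p 1 ^ 3 * p 2 ^ 2 * q 0 ^ 2 * q 1 ^ 4 * q 2) + p 0 ^ 3 * p 1 ^ 3 * p 2 ^ 2 * q 1 ^ 7 + (7) * (p 0 ^ 3 * p 1 ^ 2 * p 2 ^ 3 * q 0 ^ 4 * q 1 ^ 2 * q 2) + (5) * (p 0 ^ 3 * p 1 ^ 2 * p 2 ^ 3 * q 0 ^ 2 * q 1 ^ 5) + (2) * (p 0 ^ 3 * p 1 * p 2 ^ 4 * q 0 ^ 6 * q 2) + (3) * (p 0 ^ 3 * p 1 * p 2 ^ 4 * q 0 ^ 4 * q 1 ^ 3) + (4) * (p 0 ^ 2 * p 1 ^ 6 *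 q 0 ^ 3 * q 1 * q 2 ^ 3) + (3) * (p 0 ^ 2 * p 1 ^ 6 * q 0 * q 1 ^ 4 * q 2 ^ 2) + (11) * (p 0 ^ 2 * p 1 ^ 5 * p 2 * q 0 ^ 3 * q 1 ^ 2 * q 2 ^ 2) + (6) * (p 0 ^ 2 * p 1 ^ 5 * p 2 * q 0 * q 1 ^ 5 * q 2) + (4) * (p 0 ^ 2 * p 1 ^ 4 * p 2 ^ 2 * q 0 ^ 5 * q 2 ^ 2) + (11) * (p 0 ^ 2 * p 1 ^ 4 * p 2 ^ 2 * q 0 ^ 3 * q 1 ^ 3 * q 2) + (3) * (p 0 ^ 2 * p 1 ^ 4 * p 2 ^ 2 * q 0 * q 1 ^ 6) + (3) * (p 0 ^ 2 * p 1 ^ 3 * p 2 ^ 3 * q 0 ^ 5 * q 1 * q 2) + (5) * (p 0 ^ 2 * p 1 ^ 3 * p 2 ^ 3 * q 0 ^ 3 * q 1 ^ 4) + (2) * (p 0 ^ 2 * p 1 ^ 2 * p 2 ^ 4 * q 0 ^ 5 * q 1 ^ 2) + p 0 * p 1 ^ 7 * q 0 ^ 4 * q 2 ^ 3 + (3) * (p 0 * p 1 ^ 7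 * q 0 ^ 2 * q 1 ^ 3 * q 2 ^ 2) + (3) * (p 0 * p 1 ^ 6 * p 2 * q 0 ^ 4 * q 1 * q 2 ^ 2) + (6) * (p 0 * p 1 ^ 6 * p 2 * q 0 ^ 2 * q 1 ^ 4 * q 2) + (3) * (p 0 * p 1 ^ 5 * p 2 ^ 2 * q 0 ^ 4 * q 1 ^ 2 * q 2) + (3) * (p 0 * p 1 ^ 5 * p 2 ^ 2 * q 0 ^ 2 * q 1 ^ 5) + p 0 * p 1 ^ 4 * p 2 ^ 3 * q 0 ^ 6 * q 2 + (2) * (p 0 * p 1 ^ 4 * p 2 ^ 3 * q 0 ^ 4 * q 1 ^ 3) + p 1 ^ 8 * q 0 ^ 3 * q 1 ^ 2 * q 2 ^ 2 + (2) * (p 1 ^ 7 * p 2 * q 0 ^ 3 * q 1 ^ 3 * q 2) + p 1 ^ 6 * p 2 ^ 2 * q 0 ^ 3 * q 1 ^ 4) * h2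

theorem id_phi_31 (p q : Fin 3 → C) (h2 : (2 : C) = 0) (hp : hh p = 0) (hq : hh q = 0) :
    q 0 * (a3 p q * P33 p q + n3 p q ^ 2 * b3 p q) ^ 2 + p 0 * P33 p q ^ 3 + n3 p q * P33 p q * (a3 p q * P33 p q + n3 p q ^ 2 * b3 p q) * 0 + n3 p q ^ 3 * (a3 p q * P33 p q + n3 p q ^ 2 * b3 p q) * (β1 p q + p 0 * A3 p q)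
      + p 0 * n3 p q ^ 4 * (P33 p q * A2 p q + n3 p q ^ 2 * A0 p q) = 0 := by
  have e1 := id_pa_31 p q h2 hp hq
  have e2 := id_pb_31 p q h2 hp hq
  linear_combination P33 p q * e1 + n3 p q ^ 2 * e2 + (q 0 * a3 p q * P33 p q * n3 p q ^ 2 * b3 p q) * h2

theorem id_pa_32 (p q : Fin 3 → C) (h2 : (2 : C) = 0) (hp : hh p = 0) (hq : hh q = 0) :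
    P33 p q * (q 1 * a3 p q ^ 2 + p 1 * P33 p q + n3 p q * a3 p q * (p 0 * q 0)) = n3 p q ^ 2 * (p 0 ^ 4 * p 1 * q 0 * q 1 * q 2 ^ 2 + p 0 ^ 3 * p 1 * p 2 * q 1 ^ 4 + p 0 * p 1 ^ 4 * q 1 ^ 4 + p 0 * p 1 ^ 2 * p 2 ^ 2 * q 0 ^ 4 + p 1 ^ 5 * q 0 ^ 3 * q 2 + p 1 ^ 5 * q 0 * q 1 ^ 3) := by
  simp only [hh, n1, n2, n3, gg, P11, P12, P13, P22, P23, P33, a1, a2, a3, β1, β2, β3, b1, b2, b3, A3, A2, A0] at hp hq ⊢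
  linear_combination (p 0 ^ 2 * p 1 * q 0 ^ 4 * q 2 ^ 2 + p 0 ^ 2 * p 1 * q 1 ^ 6 + p 1 ^ 3 * q 0 ^ 2 * q 1 ^ 4 + p 1 * p 2 ^ 2 * q 0 ^ 6) * hp +
    (p 0 ^ 6 * p 1 * q 2 ^ 2 + p 0 ^ 4 * p 1 * p 2 ^ 2 * q 0 ^ 2 + p 0 ^ 2 * p 1 ^ 5 * q 1 ^ 2 + p 1 ^ 7 * q 0 ^ 2) * hq +
    (p 0 ^ 7 * q 0 ^ 5 * q 1 + p 0 ^ 7 * q 0 ^ 2 * q 1 * q 2 ^ 3 + p 0 ^ 6 * p 1 * q 0 ^ 6 + p 0 ^ 6 * p 1 * q 0 ^ 3 * q 2 ^ 3 + -(p 0 ^ 6 * p 1 * q 0 * q 1 ^ 3 * q 2 ^ 2) + (3) * (p 0 ^ 6 * p 2 * q 0 ^ 3 * q 1 * q 2 ^ 2) + (4) * (p 0 ^ 5 * p 1 * p 2 * q 0 ^ 4 * q 2 ^ 2) + (2) * (p 0 ^ 5 * p 1 * p 2 * q 0 ^ 2 * q 1 ^ 3 * q 2) + (3) * (p 0 ^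 5 * p 1 * p 2 * q 0 * q 2 ^ 5) + -(p 0 ^ 5 * p 1 * p 2 * q 1 ^ 6) + (3) * (p 0 ^ 5 * p 2 ^ 2 * q 0 ^ 4 * q 1 * q 2) + p 0 ^ 5 * p 2 ^ 2 * q 0 ^ 2 * q 1 ^ 4 + (2) * (p 0 ^ 4 * p 1 ^ 3 * q 0 ^ 3 * q 1 * q 2 ^ 2) + p 0 ^ 4 * p 1 ^ 3 * q 1 * q 2 ^ 5 + (5) * (p 0 ^ 4 * p 1 ^ 2 * p 2 * q 0 ^ 3 * q 1 ^ 2 * q 2) + -(p 0 ^ 4 * p 1 ^ 2 * p 2 * q 0 * q 1 ^ 5) + (2) * (p 0 ^ 4 * p 1 ^ 2 * p 2 * q 1 ^ 2 * q 2 ^ 4) + (4) * (p 0 ^ 4 * p 1 * p 2 ^ 2 * q 0 ^ 5 * q 2) + (2) * (p 0 ^ 4 * p 1 * p 2 ^ 2 * q 0 ^ 3 * q 1 ^ 3) + (7) * (p 0 ^ 4 * p 1 * p 2 ^ 2 * q 0 ^ 2 * q 2 ^ 4) + p 0 ^ 4 * p 1 * p 2 ^ 2 * q 1 ^ 3 * q 2 ^ 3 +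 p 0 ^ 4 * p 2 ^ 3 * q 0 ^ 5 * q 1 + p 0 ^ 3 * p 1 ^ 4 * q 0 ^ 4 * q 2 ^ 2 + p 0 ^ 3 * p 1 ^ 4 * q 0 * q 2 ^ 5 + -(p 0 ^ 3 * p 1 ^ 4 * q 1 ^ 6) + (3) * (p 0 ^ 3 * p 1 ^ 3 * p 2 * q 0 ^ 4 * q 1 * q 2) + -(p 0 ^ 3 * p 1 ^ 3 * p 2 * q 0 ^ 2 * q 1 ^ 4) + (5) * (p 0 ^ 3 * p 1 ^ 3 * p 2 * q 0 * q 1 * q 2 ^ 4) + p 0 ^ 3 * p 1 ^ 2 * p 2 ^ 2 * q 0 ^ 4 * q 1 ^ 2 + (7) * (p 0 ^ 3 * p 1 ^ 2 * p 2 ^ 2 * q 0 * q 1 ^ 2 * q 2 ^ 3) + p 0 ^ 3 * p 1 * p 2 ^ 3 * q 0 ^ 6 + (10) * (p 0 ^ 3 * p 1 * p 2 ^ 3 * q 0 ^ 3 * q 2 ^ 3) + (3) * (p 0 ^ 3 * p 1 * p 2 ^ 3 * q 0 * q 1 ^ 3 * q 2 ^ 2) + -(p 0 ^ 2 * p 1 ^ 5 * q 0 ^ 3 * q 1 ^ 2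 * q 2) + (-2) * (p 0 ^ 2 * p 1 ^ 5 * q 0 * q 1 ^ 5) + (3) * (p 0 ^ 2 * p 1 ^ 4 * p 2 * q 0 ^ 2 * q 2 ^ 4) + (2) * (p 0 ^ 2 * p 1 ^ 4 * p 2 * q 1 ^ 3 * q 2 ^ 3) + -(p 0 ^ 2 * p 1 ^ 3 * p 2 ^ 2 * q 0 ^ 5 * q 1) + (9) * (p 0 ^ 2 * p 1 ^ 3 * p 2 ^ 2 * q 0 ^ 2 * q 1 * q 2 ^ 3) + (3) * (p 0 ^ 2 * p 1 ^ 3 * p 2 ^ 2 * q 1 ^ 4 * q 2 ^ 2) + (9) * (p 0 ^ 2 * p 1 ^ 2 * p 2 ^ 3 * q 0 ^ 2 * q 1 ^ 2 * q 2 ^ 2) + (2) * (p 0 ^ 2 * p 1 ^ 2 * p 2 ^ 3 * q 1 ^ 5 * q 2) + (7) * (p 0 ^ 2 * p 1 * p 2 ^ 4 * q 0 ^ 4 * q 2 ^ 2) + (3) * (p 0 ^ 2 * p 1 * p 2 ^ 4 * q 0 ^ 2 * q 1 ^ 3 * q 2) + -(p 0 * p 1 ^ 6 * q 0 ^ 4 * q 1 * q 2) + (-2)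 * (p 0 * p 1 ^ 6 * q 0 ^ 2 * q 1 ^ 4) + p 0 * p 1 ^ 6 * q 0 * q 1 * q 2 ^ 4 + (4) * (p 0 * p 1 ^ 5 * p 2 * q 0 * q 1 ^ 2 * q 2 ^ 3) + -(p 0 * p 1 ^ 4 * p 2 ^ 2 * q 0 ^ 6) + (3) * (p 0 * p 1 ^ 4 * p 2 ^ 2 * q 0 ^ 3 * q 2 ^ 3) + (6) * (p 0 * p 1 ^ 4 * p 2 ^ 2 * q 0 * q 1 ^ 3 * q 2 ^ 2) + (7) * (p 0 * p 1 ^ 3 * p 2 ^ 3 * q 0 ^ 3 * q 1 * q 2 ^ 2) + (4) * (p 0 * p 1 ^ 3 * p 2 ^ 3 * q 0 * q 1 ^ 4 * q 2) + (5) * (p 0 * p 1 ^ 2 * p 2 ^ 4 * q 0 ^ 3 * q 1 ^ 2 * q 2) + p 0 * p 1 ^ 2 * p 2 ^ 4 * q 0 * q 1 ^ 5 + (3) * (p 0 * p 1 * p 2 ^ 5 * q 0 ^ 5 * q 2) + p 0 * p 1 * p 2 ^ 5 * q 0 ^ 3 * q 1 ^ 3 + -(p 1 ^ 7 * q 0 ^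 5 * q 2) + -(p 1 ^ 7 * q 0 ^ 3 * q 1 ^ 3) + (2) * (p 1 ^ 6 * p 2 * q 0 ^ 2 * q 1 * q 2 ^ 3) + (3) * (p 1 ^ 5 * p 2 ^ 2 * q 0 ^ 2 * q 1 ^ 2 * q 2 ^ 2) + p 1 ^ 4 * p 2 ^ 3 * q 0 ^ 4 * q 2 ^ 2 + (2) * (p 1 ^ 4 * p 2 ^ 3 * q 0 ^ 2 * q 1 ^ 3 * q 2) + (2) * (p 1 ^ 3 * p 2 ^ 4 * q 0 ^ 4 * q 1 * q 2) + p 1 ^ 2 * p 2 ^ 5 * q 0 ^ 4 * q 1 ^ 2) * h2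

theorem id_pb_32 (p q : Fin 3 → C) (h2 : (2 : C) = 0) (hp : hh p = 0) (hq : hh q = 0) :
    P33 p q * ((p 0 ^ 4 * p 1 * q 0 * q 1 * q 2 ^ 2 + p 0 ^ 3 * p 1 * p 2 * q 1 ^ 4 + p 0 * p 1 ^ 4 * q 1 ^ 4 + p 0 * p 1 ^ 2 * p 2 ^ 2 * q 0 ^ 4 + p 1 ^ 5 * q 0 ^ 3 * q 2 + p 1 ^ 5 * q 0 * q 1 ^ 3) + (n3 p q * b3 p q * (p 0 * q 0) + n3 p q * a3 p q * (β2 p q + p 1 * A3 p q) + p 1 * n3 p q ^ 2 * A2 p q)) + n3 p q ^ 2 * (q 1 * b3 p q ^ 2 + n3 p q * b3 p q * (β2 p q + p 1 * A3 p q) + p 1 * n3 p q ^ 2 * A0 p q) = 0 := by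
  simp only [hh, n1, n2, n3, gg, P11, P12, P13, P22, P23, P33, a1, a2, a3, β1, β2, β3, b1, b2, b3, A3, A2, A0] at hp hq ⊢
  linear_combination (p 0 ^ 3 * p 1 * q 0 ^ 5 * q 1 * q 2 + p 0 ^ 3 * p 1 * q 0 ^ 3 * q 1 ^ 4 + p 0 * p 1 ^ 2 * p 2 * q 0 ^ 7) * hp +
    (p 0 ^ 7 * p 1 * q 0 * q 1 * q 2 + p 0 ^ 5 * p 1 ^ 2 * p 2 * q 0 ^ 3 + p 0 ^ 3 * p 1 ^ 5 * q 0 ^ 3) * hq +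
    (p 0 ^ 7 * p 1 * q 0 ^ 4 * q 1 * q 2 ^ 2 + p 0 ^ 7 * p 1 * q 0 * q 1 * q 2 ^ 5 + p 0 ^ 6 * p 1 ^ 2 * q 0 ^ 5 * q 2 ^ 2 + (2) * (p 0 ^ 6 * p 1 ^ 2 * q 0 ^ 3 * q 1 ^ 3 * q 2) + p 0 ^ 6 * p 1 ^ 2 * q 0 ^ 2 * q 2 ^ 5 + p 0 ^ 6 * p 1 ^ 2 * q 1 ^ 3 * q 2 ^ 4 + p 0 ^ 6 * p 1 * p 2 * q 0 ^ 3 * q 1 ^ 4 + (5) * (p 0 ^ 6 * p 1 * p 2 * q 0 ^ 2 * q 1 * q 2 ^ 4) + p 0 ^ 6 * p 1 * p 2 * q 1 ^ 4 * q 2 ^ 3 + p 0 ^ 6 * p 2 ^ 2 * q 0 ^ 5 * q 1 ^ 2 + p 0 ^ 6 * p 2 ^ 2 * q 0 ^ 2 * q 1 ^ 2 * q 2 ^ 3 + (4) * (p 0 ^ 5 * p 1 ^ 3 * q 0 ^ 4 * q 1 ^ 2 * q 2) + (5) * (p 0 ^ 5 * p 1 ^ 3 * q 0 * q 1 ^ 2 * q 2 ^ 4) + (3) * (p 0 ^ 5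 * p 1 ^ 2 * p 2 * q 0 ^ 4 * q 1 ^ 3) + (3) * (p 0 ^ 5 * p 1 ^ 2 * p 2 * q 0 ^ 3 * q 2 ^ 4) + (5) * (p 0 ^ 5 * p 1 ^ 2 * p 2 * q 0 * q 1 ^ 3 * q 2 ^ 3) + p 0 ^ 5 * p 1 * p 2 ^ 2 * q 0 ^ 6 * q 1 + (7) * (p 0 ^ 5 * p 1 * p 2 ^ 2 * q 0 ^ 3 * q 1 * q 2 ^ 3) + (7) * (p 0 ^ 5 * p 1 * p 2 ^ 2 * q 0 * q 1 ^ 4 * q 2 ^ 2) + (3) * (p 0 ^ 5 * p 2 ^ 3 * q 0 ^ 3 * q 1 ^ 2 * q 2 ^ 2) + (3) * (p 0 ^ 4 * p 1 ^ 4 * q 0 ^ 5 * q 1 * q 2) + (6) * (p 0 ^ 4 * p 1 ^ 4 * q 0 ^ 2 * q 1 * q 2 ^ 4) + (2) * (p 0 ^ 4 * p 1 ^ 4 * q 1 ^ 4 * q 2 ^ 3) + (4) * (p 0 ^ 4 * p 1 ^ 3 * p 2 * q 0 ^ 5 * q 1 ^ 2) + (11) * (p 0 ^ 4 * p 1 ^ 3 * p 2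 * q 0 ^ 2 * q 1 ^ 2 * q 2 ^ 3) + (3) * (p 0 ^ 4 * p 1 ^ 3 * p 2 * q 1 ^ 5 * q 2 ^ 2) + (5) * (p 0 ^ 4 * p 1 ^ 2 * p 2 ^ 2 * q 0 ^ 4 * q 2 ^ 3) + (16) * (p 0 ^ 4 * p 1 ^ 2 * p 2 ^ 2 * q 0 ^ 2 * q 1 ^ 3 * q 2 ^ 2) + (2) * (p 0 ^ 4 * p 1 ^ 2 * p 2 ^ 2 * q 1 ^ 6 * q 2) + (6) * (p 0 ^ 4 * p 1 * p 2 ^ 3 * q 0 ^ 4 * q 1 * q 2 ^ 2) + (6) * (p 0 ^ 4 * p 1 * p 2 ^ 3 * q 0 ^ 2 * q 1 ^ 4 * q 2) + p 0 ^ 4 * p 1 * p 2 ^ 3 * q 1 ^ 7 + (3) * (p 0 ^ 4 * p 2 ^ 4 * q 0 ^ 4 * q 1 ^ 2 * q 2) + (2) * (p 0 ^ 4 * p 2 ^ 4 * q 0 ^ 2 * q 1 ^ 5) + p 0 ^ 3 * p 1 ^ 5 * q 0 ^ 6 * q 2 + (2) * (p 0 ^ 3 * p 1 ^ 5 * q 0 ^ 3 * q 2 ^ 4) + (5)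 * (p 0 ^ 3 * p 1 ^ 5 * q 0 * q 1 ^ 3 * q 2 ^ 3) + (2) * (p 0 ^ 3 * p 1 ^ 4 * p 2 * q 0 ^ 6 * q 1) + (9) * (p 0 ^ 3 * p 1 ^ 4 * p 2 * q 0 ^ 3 * q 1 * q 2 ^ 3) + (12) * (p 0 ^ 3 * p 1 ^ 4 * p 2 * q 0 * q 1 ^ 4 * q 2 ^ 2) + (18) * (p 0 ^ 3 * p 1 ^ 3 * p 2 ^ 2 * q 0 ^ 3 * q 1 ^ 2 * q 2 ^ 2) + (8) * (p 0 ^ 3 * p 1 ^ 3 * p 2 ^ 2 * q 0 * q 1 ^ 5 * q 2) + (4) * (p 0 ^ 3 * p 1 ^ 2 * p 2 ^ 3 * q 0 ^ 5 * q 2 ^ 2) + (11) * (p 0 ^ 3 * p 1 ^ 2 * p 2 ^ 3 * q 0 ^ 3 * q 1 ^ 3 * q 2) + (4) * (p 0 ^ 3 * p 1 ^ 2 * p 2 ^ 3 * q 0 * q 1 ^ 6) + (3) * (p 0 ^ 3 * p 1 * p 2 ^ 4 * q 0 ^ 5 * q 1 * q 2) + (5) * (p 0 ^ 3 * p 1 * p 2 ^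 4 * q 0 ^ 3 * q 1 ^ 4) + p 0 ^ 3 * p 2 ^ 5 * q 0 ^ 5 * q 1 ^ 2 + (5) * (p 0 ^ 2 * p 1 ^ 6 * q 0 ^ 2 * q 1 ^ 2 * q 2 ^ 3) + p 0 ^ 2 * p 1 ^ 6 * q 1 ^ 5 * q 2 ^ 2 + (4) * (p 0 ^ 2 * p 1 ^ 5 * p 2 * q 0 ^ 4 * q 2 ^ 3) + (16) * (p 0 ^ 2 * p 1 ^ 5 * p 2 * q 0 ^ 2 * q 1 ^ 3 * q 2 ^ 2) + (2) * (p 0 ^ 2 * p 1 ^ 5 * p 2 * q 1 ^ 6 * q 2) + (10) * (p 0 ^ 2 * p 1 ^ 4 * p 2 ^ 2 * q 0 ^ 4 * q 1 * q 2 ^ 2) + (14) * (p 0 ^ 2 * p 1 ^ 4 * p 2 ^ 2 * q 0 ^ 2 * q 1 ^ 4 * q 2) + p 0 ^ 2 * p 1 ^ 4 * p 2 ^ 2 * q 1 ^ 7 + (9) * (p 0 ^ 2 * p 1 ^ 3 * p 2 ^ 3 * q 0 ^ 4 * q 1 ^ 2 * q 2) + (6) * (p 0 ^ 2 * p 1 ^ 3 * p 2 ^ 3 * q 0 ^ 2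 * q 1 ^ 5) + (2) * (p 0 ^ 2 * p 1 ^ 2 * p 2 ^ 4 * q 0 ^ 6 * q 2) + (5) * (p 0 ^ 2 * p 1 ^ 2 * p 2 ^ 4 * q 0 ^ 4 * q 1 ^ 3) + p 0 ^ 2 * p 1 * p 2 ^ 5 * q 0 ^ 6 * q 1 + (3) * (p 0 * p 1 ^ 7 * q 0 ^ 3 * q 1 * q 2 ^ 3) + (2) * (p 0 * p 1 ^ 7 * q 0 * q 1 ^ 4 * q 2 ^ 2) + (10) * (p 0 * p 1 ^ 6 * p 2 * q 0 ^ 3 * q 1 ^ 2 * q 2 ^ 2) + (4) * (p 0 * p 1 ^ 6 * p 2 * q 0 * q 1 ^ 5 * q 2) + (4) * (p 0 * p 1 ^ 5 * p 2 ^ 2 * q 0 ^ 5 * q 2 ^ 2) + (10) * (p 0 * p 1 ^ 5 * p 2 ^ 2 * q 0 ^ 3 * q 1 ^ 3 * q 2) + (2) * (p 0 * p 1 ^ 5 * p 2 ^ 2 * q 0 * q 1 ^ 6) + (3) * (p 0 * p 1 ^ 4 * p 2 ^ 3 * q 0 ^ 5 * q 1 * q 2) + (4) * (p 0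 * p 1 ^ 4 * p 2 ^ 3 * q 0 ^ 3 * q 1 ^ 4) + (2) * (p 0 * p 1 ^ 3 * p 2 ^ 4 * q 0 ^ 5 * q 1 ^ 2) + p 1 ^ 8 * q 0 ^ 4 * q 2 ^ 3 + p 1 ^ 8 * q 0 ^ 2 * q 1 ^ 3 * q 2 ^ 2 + (3) * (p 1 ^ 7 * p 2 * q 0 ^ 4 * q 1 * q 2 ^ 2) + (2) * (p 1 ^ 7 * p 2 * q 0 ^ 2 * q 1 ^ 4 * q 2) + (2) * (p 1 ^ 6 * p 2 ^ 2 * q 0 ^ 4 * q 1 ^ 2 * q 2) + p 1 ^ 6 * p 2 ^ 2 * q 0 ^ 2 * q 1 ^ 5 + p 1 ^ 5 * p 2 ^ 3 * q 0 ^ 6 * q 2 + p 1 ^ 5 * p 2 ^ 3 * q 0 ^ 4 * q 1 ^ 3) * h2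

theorem id_phi_32 (p q : Fin 3 → C) (h2 : (2 : C) = 0) (hp : hh p = 0) (hq : hh q = 0) :
    q 1 * (a3 p q * P33 p q + n3 p q ^ 2 * b3 p q) ^ 2 + p 1 * P33 p q ^ 3 + n3 p q * P33 p q * (a3 p q * P33 p q + n3 p q ^ 2 * b3 p q) * (p 0 * q 0) + n3 p q ^ 3 * (a3 p q * P33 p q + n3 p q ^ 2 * b3 p q) * (β2 p q + p 1 * A3 p q)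
      + p 1 * n3 p q ^ 4 * (P33 p q * A2 p q + n3 p q ^ 2 * A0 p q) = 0 := by
  have e1 := id_pa_32 p q h2 hp hq
  have e2 := id_pb_32 p q h2 hp hq
  linear_combination P33 p q * e1 + n3 p q ^ 2 * e2 + (q 1 * a3 p q * P33 p q * n3 p q ^ 2 * b3 p q) * h2

theorem id_pa_33 (p q : Fin 3 → C) (h2 : (2 : C) = 0) (hp : hh p = 0) (hq : hh q = 0) :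
    P33 p q * (q 2 * a3 p q ^ 2 + p 2 * P33 p q + n3 p q * a3 p q * (p 1 * q 1)) = n3 p q ^ 2 * (p 0 ^ 5 * q 0 ^ 3 * q 1 + p 0 ^ 4 * p 1 * q 0 ^ 4 + p 0 ^ 4 * p 1 * q 0 * q 2 ^ 3 + p 0 ^ 4 * p 2 * q 0 * q 1 * q 2 ^ 2 + p 0 ^ 3 * p 1 * p 2 * q 0 ^ 2 * q 2 ^ 2 + p 0 ^ 3 * p 2 ^ 2 * q 0 ^ 2 * q 1 * q 2 + p 0 ^ 3 * p 2 ^ 2 * q 1 ^ 4 + p 0 ^ 2 * p 1 ^ 3 * q 0 * q 1 * q 2 ^ 2 + p 0 ^ 2 * p 1 * p 2 ^ 2 * q 0 * q 1 ^ 3 + p 0 ^ 2 * p 2 ^ 3 * q 0 ^ 3 * q 1 + p 0 * p 1 ^ 3 * p 2 * q 1 ^ 4 + p 0 * p 1 * p 2 ^ 3 * q 0 ^ 4 + p 1 ^ 4 * p 2 * q 0 ^ 3 * q 2 + p 1 ^ 4 * p 2 * q 0 * q 1 ^ 3) := by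
  simp only [hh, n1, n2, n3, gg, P11, P12, P13, P22, P23, P33, a1, a2, a3, β1, β2, β3, b1, b2, b3, A3, A2, A0] at hp hq ⊢
  linear_combination (p 0 ^ 3 * q 0 ^ 6 + p 0 ^ 2 * p 2 * q 0 ^ 4 * q 2 ^ 2 + p 0 ^ 2 * p 2 * q 1 ^ 6 + p 1 ^ 2 * p 2 * q 0 ^ 2 * q 1 ^ 4 + p 2 ^ 3 * q 0 ^ 6) * hp +
    (p 0 ^ 7 * q 0 ^ 2 + p 0 ^ 6 * p 2 * q 2 ^ 2 + p 0 ^ 4 * p 2 ^ 3 * q 0 ^ 2 + p 0 ^ 2 * p 1 ^ 4 * p 2 * q 1 ^ 2 + p 1 ^ 6 * p 2 * q 0 ^ 2) * hq +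
    (-(p 0 ^ 7 * q 0 ^ 3 * q 1 ^ 3) + -(p 0 ^ 6 * p 1 * q 0 ^ 4 * q 1 ^ 2) + (2) * (p 0 ^ 6 * p 2 * q 0 ^ 3 * q 2 ^ 3) + -(p 0 ^ 6 * p 2 * q 0 * q 1 ^ 3 * q 2 ^ 2) + -(p 0 ^ 5 * p 1 ^ 2 * q 0 ^ 5 * q 1) + p 0 ^ 5 * p 1 * p 2 * q 0 ^ 2 * q 1 ^ 2 * q 2 ^ 2 + (4) * (p 0 ^ 5 * p 2 ^ 2 * q 0 ^ 4 * q 2 ^ 2) + (3) * (p 0 ^ 5 * p 2 ^ 2 * q 0 * q 2 ^ 5) + -(p 0 ^ 5 * p 2 ^ 2 * q 1 ^ 6) + -(p 0 ^ 4 * p 1 ^ 3 * q 0 ^ 6) + (2) * (p 0 ^ 4 * p 1 ^ 2 * p 2 * q 0 ^ 3 * q 1 * q 2 ^ 2) + p 0 ^ 4 * p 1 ^ 2 * p 2 * q 0 * q 1 ^ 4 * q 2 + p 0 ^ 4 * p 1 ^ 2 * p 2 * q 1 * q 2 ^ 5 + (3) * (p 0 ^ 4 * p 1 * p 2 ^ 2 * q 0 ^ 3 * q 1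 ^ 2 * q 2) + -(p 0 ^ 4 * p 1 * p 2 ^ 2 * q 0 * q 1 ^ 5) + (2) * (p 0 ^ 4 * p 1 * p 2 ^ 2 * q 1 ^ 2 * q 2 ^ 4) + (3) * (p 0 ^ 4 * p 2 ^ 3 * q 0 ^ 5 * q 2) + (7) * (p 0 ^ 4 * p 2 ^ 3 * q 0 ^ 2 * q 2 ^ 4) + p 0 ^ 4 * p 2 ^ 3 * q 1 ^ 3 * q 2 ^ 3 + (2) * (p 0 ^ 3 * p 1 ^ 3 * p 2 * q 0 ^ 2 * q 1 ^ 3 * q 2) + p 0 ^ 3 * p 1 ^ 3 * p 2 * q 0 * q 2 ^ 5 + -(p 0 ^ 3 * p 1 ^ 3 * p 2 * q 1 ^ 6) + (3) * (p 0 ^ 3 * p 1 ^ 2 * p 2 ^ 2 * q 0 ^ 4 * q 1 * q 2) + -(p 0 ^ 3 * p 1 ^ 2 * p 2 ^ 2 * q 0 ^ 2 * q 1 ^ 4) + (5) * (p 0 ^ 3 * p 1 ^ 2 * p 2 ^ 2 * q 0 * q 1 * q 2 ^ 4) + (7) * (p 0 ^ 3 * p 1 * p 2 ^ 3 * q 0 * q 1 ^ 2 * q 2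 ^ 3) + (10) * (p 0 ^ 3 * p 2 ^ 4 * q 0 ^ 3 * q 2 ^ 3) + (3) * (p 0 ^ 3 * p 2 ^ 4 * q 0 * q 1 ^ 3 * q 2 ^ 2) + (-2) * (p 0 ^ 2 * p 1 ^ 4 * p 2 * q 0 * q 1 ^ 5) + (3) * (p 0 ^ 2 * p 1 ^ 3 * p 2 ^ 2 * q 0 ^ 2 * q 2 ^ 4) + (2) * (p 0 ^ 2 * p 1 ^ 3 * p 2 ^ 2 * q 1 ^ 3 * q 2 ^ 3) + -(p 0 ^ 2 * p 1 ^ 2 * p 2 ^ 3 * q 0 ^ 5 * q 1) + (9) * (p 0 ^ 2 * p 1 ^ 2 * p 2 ^ 3 * q 0 ^ 2 * q 1 * q 2 ^ 3) + (3) * (p 0 ^ 2 * p 1 ^ 2 * p 2 ^ 3 * q 1 ^ 4 * q 2 ^ 2) + (9) * (p 0 ^ 2 * p 1 * p 2 ^ 4 * q 0 ^ 2 * q 1 ^ 2 * q 2 ^ 2) + (2) * (p 0 ^ 2 * p 1 * p 2 ^ 4 * q 1 ^ 5 * q 2) + (7) * (p 0 ^ 2 * p 2 ^ 5 * q 0 ^ 4 * q 2 ^ 2) + (3)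 * (p 0 ^ 2 * p 2 ^ 5 * q 0 ^ 2 * q 1 ^ 3 * q 2) + -(p 0 * p 1 ^ 5 * p 2 * q 0 ^ 4 * q 1 * q 2) + (-2) * (p 0 * p 1 ^ 5 * p 2 * q 0 ^ 2 * q 1 ^ 4) + p 0 * p 1 ^ 5 * p 2 * q 0 * q 1 * q 2 ^ 4 + (4) * (p 0 * p 1 ^ 4 * p 2 ^ 2 * q 0 * q 1 ^ 2 * q 2 ^ 3) + -(p 0 * p 1 ^ 3 * p 2 ^ 3 * q 0 ^ 6) + (3) * (p 0 * p 1 ^ 3 * p 2 ^ 3 * q 0 ^ 3 * q 2 ^ 3) + (6) * (p 0 * p 1 ^ 3 * p 2 ^ 3 * q 0 * q 1 ^ 3 * q 2 ^ 2) + (7) * (p 0 * p 1 ^ 2 * p 2 ^ 4 * q 0 ^ 3 * q 1 * q 2 ^ 2) + (4) * (p 0 * p 1 ^ 2 * p 2 ^ 4 * q 0 * q 1 ^ 4 * q 2) + (5) * (p 0 * p 1 * p 2 ^ 5 * q 0 ^ 3 * q 1 ^ 2 * q 2) + p 0 * p 1 * p 2 ^ 5 * q 0 * q 1 ^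 5 + (3) * (p 0 * p 2 ^ 6 * q 0 ^ 5 * q 2) + p 0 * p 2 ^ 6 * q 0 ^ 3 * q 1 ^ 3 + -(p 1 ^ 6 * p 2 * q 0 ^ 5 * q 2) + -(p 1 ^ 6 * p 2 * q 0 ^ 3 * q 1 ^ 3) + (2) * (p 1 ^ 5 * p 2 ^ 2 * q 0 ^ 2 * q 1 * q 2 ^ 3) + (3) * (p 1 ^ 4 * p 2 ^ 3 * q 0 ^ 2 * q 1 ^ 2 * q 2 ^ 2) + p 1 ^ 3 * p 2 ^ 4 * q 0 ^ 4 * q 2 ^ 2 + (2) * (p 1 ^ 3 * p 2 ^ 4 * q 0 ^ 2 * q 1 ^ 3 * q 2) + (2) * (p 1 ^ 2 * p 2 ^ 5 * q 0 ^ 4 * q 1 * q 2) + p 1 * p 2 ^ 6 * q 0 ^ 4 * q 1 ^ 2) * h2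

theorem id_pb_33 (p q : Fin 3 → C) (h2 : (2 : C) = 0) (hp : hh p = 0) (hq : hh q = 0) :
    P33 p q * ((p 0 ^ 5 * q 0 ^ 3 * q 1 + p 0 ^ 4 * p 1 * q 0 ^ 4 + p 0 ^ 4 * p 1 * q 0 * q 2 ^ 3 + p 0 ^ 4 * p 2 * q 0 * q 1 * q 2 ^ 2 + p 0 ^ 3 * p 1 * p 2 * q 0 ^ 2 * q 2 ^ 2 + p 0 ^ 3 * p 2 ^ 2 * q 0 ^ 2 * q 1 * q 2 + p 0 ^ 3 * p 2 ^ 2 * q 1 ^ 4 + p 0 ^ 2 * p 1 ^ 3 * q 0 * q 1 * q 2 ^ 2 + p 0 ^ 2 * p 1 * p 2 ^ 2 * q 0 * q 1 ^ 3 + p 0 ^ 2 * p 2 ^ 3 * q 0 ^ 3 * q 1 + p 0 * p 1 ^ 3 * p 2 * q 1 ^ 4 + p 0 * p 1 * p 2 ^ 3 * q 0 ^ 4 + p 1 ^ 4 * p 2 * q 0 ^ 3 * q 2 + p 1 ^ 4 * p 2 * q 0 * q 1 ^ 3) + (n3 p q * b3 p q * (p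 1 * q 1) + n3 p q * a3 p q * (β3 p q + p 2 * A3 p q) + p 2 * n3 p q ^ 2 * A2 p q)) + n3 p q ^ 2 * (q 2 * b3 p q ^ 2 + n3 p q * b3 p q * (β3 p q + p 2 * A3 p q) + p 2 * n3 p q ^ 2 * A0 p q) = 0 := by
  simp only [hh, n1, n2, n3, gg, P11, P12, P13, P22, P23, P33, a1, a2, a3, β1, β2, β3, b1, b2, b3, A3, A2, A0] at hp hq ⊢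
  linear_combination (p 0 ^ 3 * p 1 * q 0 ^ 5 * q 2 ^ 2 + p 0 ^ 3 * p 2 * q 0 ^ 5 * q 1 * q 2 + p 0 ^ 3 * p 2 * q 0 ^ 3 * q 1 ^ 4 + p 0 ^ 2 * p 2 ^ 2 * q 0 ^ 6 * q 1 + p 0 * p 1 ^ 3 * q 0 ^ 5 * q 1 * q 2 + p 0 * p 1 ^ 2 * p 2 * q 0 ^ 5 * q 1 ^ 2 + p 0 * p 1 * p 2 ^ 2 * q 0 ^ 7) * hp +
    (p 0 ^ 7 * p 1 * q 0 * q 2 ^ 2 + p 0 ^ 7 * p 2 * q 0 * q 1 * q 2 + p 0 ^ 6 * p 2 ^ 2 * q 0 ^ 2 * q 1 + p 0 ^ 5 * p 1 ^ 3 * q 0 * q 1 * q 2 + p 0 ^ 5 * p 1 ^ 2 * p 2 * q 0 * q 1 ^ 2 + p 0 ^ 5 * p 1 * p 2 ^ 2 * q 0 ^ 3 + p 0 ^ 3 * p 1 ^ 4 * p 2 * q 0 ^ 3) * hq +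
    (p 0 ^ 8 * q 0 ^ 6 * q 1 + p 0 ^ 8 * q 0 ^ 3 * q 1 * q 2 ^ 3 + p 0 ^ 7 * p 1 * q 0 ^ 7 + p 0 ^ 7 * p 1 * q 0 ^ 4 * q 2 ^ 3 + (3) * (p 0 ^ 7 * p 2 * q 0 ^ 4 * q 1 * q 2 ^ 2) + (3) * (p 0 ^ 6 * p 1 ^ 2 * q 0 ^ 3 * q 1 ^ 2 * q 2 ^ 2) + p 0 ^ 6 * p 1 ^ 2 * q 1 ^ 2 * q 2 ^ 5 + (3) * (p 0 ^ 6 * p 1 * p 2 * q 0 ^ 5 * q 2 ^ 2) + (4) * (p 0 ^ 6 * p 1 * p 2 * q 0 ^ 3 * q 1 ^ 3 * q 2) + (2) * (p 0 ^ 6 * p 1 * p 2 * q 0 ^ 2 * q 2 ^ 5) + (3) * (p 0 ^ 6 * p 2 ^ 2 * q 0 ^ 5 * q 1 * q 2) + (2) * (p 0 ^ 6 * p 2 ^ 2 * q 0 ^ 3 * q 1 ^ 4) + (2) * (p 0 ^ 6 * p 2 ^ 2 * q 0 ^ 2 * q 1 * q 2 ^ 4) + p 0 ^ 6 * p 2 ^ 2 * q 1 ^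 4 * q 2 ^ 3 + (4) * (p 0 ^ 5 * p 1 ^ 3 * q 0 ^ 4 * q 1 * q 2 ^ 2) + (2) * (p 0 ^ 5 * p 1 ^ 3 * q 0 * q 1 * q 2 ^ 5) + (7) * (p 0 ^ 5 * p 1 ^ 2 * p 2 * q 0 ^ 4 * q 1 ^ 2 * q 2) + (3) * (p 0 ^ 5 * p 1 ^ 2 * p 2 * q 0 * q 1 ^ 2 * q 2 ^ 4) + (3) * (p 0 ^ 5 * p 1 * p 2 ^ 2 * q 0 ^ 6 * q 2) + (7) * (p 0 ^ 5 * p 1 * p 2 ^ 2 * q 0 ^ 4 * q 1 ^ 3) + (3) * (p 0 ^ 5 * p 1 * p 2 ^ 2 * q 0 ^ 3 * q 2 ^ 4) + (5) * (p 0 ^ 5 * p 1 * p 2 ^ 2 * q 0 * q 1 ^ 3 * q 2 ^ 3) + p 0 ^ 5 * p 2 ^ 3 * q 0 ^ 6 * q 1 + (5) * (p 0 ^ 5 * p 2 ^ 3 * q 0 ^ 3 * q 1 * q 2 ^ 3) + (4) * (p 0 ^ 5 * p 2 ^ 3 * q 0 * q 1 ^ 4 * q 2 ^ 2) + p 0 ^ 4 * p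 1 ^ 4 * q 0 ^ 5 * q 2 ^ 2 + (2) * (p 0 ^ 4 * p 1 ^ 4 * q 0 ^ 3 * q 1 ^ 3 * q 2) + p 0 ^ 4 * p 1 ^ 4 * q 0 ^ 2 * q 2 ^ 5 + (2) * (p 0 ^ 4 * p 1 ^ 4 * q 1 ^ 3 * q 2 ^ 4) + (4) * (p 0 ^ 4 * p 1 ^ 3 * p 2 * q 0 ^ 5 * q 1 * q 2) + (2) * (p 0 ^ 4 * p 1 ^ 3 * p 2 * q 0 ^ 3 * q 1 ^ 4) + (6) * (p 0 ^ 4 * p 1 ^ 3 * p 2 * q 0 ^ 2 * q 1 * q 2 ^ 4) + (3) * (p 0 ^ 4 * p 1 ^ 3 * p 2 * q 1 ^ 4 * q 2 ^ 3) + (6) * (p 0 ^ 4 * p 1 ^ 2 * p 2 ^ 2 * q 0 ^ 5 * q 1 ^ 2) + (11) * (p 0 ^ 4 * p 1 ^ 2 * p 2 ^ 2 * q 0 ^ 2 * q 1 ^ 2 * q 2 ^ 3) + (2) * (p 0 ^ 4 * p 1 ^ 2 * p 2 ^ 2 * q 1 ^ 5 * q 2 ^ 2) + p 0 ^ 4 * p 1 * p 2 ^ 3 * q 0 ^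 7 + (4) * (p 0 ^ 4 * p 1 * p 2 ^ 3 * q 0 ^ 4 * q 2 ^ 3) + (11) * (p 0 ^ 4 * p 1 * p 2 ^ 3 * q 0 ^ 2 * q 1 ^ 3 * q 2 ^ 2) + (2) * (p 0 ^ 4 * p 1 * p 2 ^ 3 * q 1 ^ 6 * q 2) + (5) * (p 0 ^ 4 * p 2 ^ 4 * q 0 ^ 4 * q 1 * q 2 ^ 2) + (5) * (p 0 ^ 4 * p 2 ^ 4 * q 0 ^ 2 * q 1 ^ 4 * q 2) + p 0 ^ 4 * p 2 ^ 4 * q 1 ^ 7 + (2) * (p 0 ^ 3 * p 1 ^ 5 * q 0 ^ 4 * q 1 ^ 2 * q 2) + (4) * (p 0 ^ 3 * p 1 ^ 5 * q 0 * q 1 ^ 2 * q 2 ^ 4) + p 0 ^ 3 * p 1 ^ 4 * p 2 * q 0 ^ 6 * q 2 + (2) * (p 0 ^ 3 * p 1 ^ 4 * p 2 * q 0 ^ 4 * q 1 ^ 3) + p 0 ^ 3 * p 1 ^ 4 * p 2 * q 0 ^ 3 * q 2 ^ 4 + (8) * (p 0 ^ 3 * p 1 ^ 4 * p 2 * q 0 * q 1 ^ 3 * q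 2 ^ 3) + (2) * (p 0 ^ 3 * p 1 ^ 3 * p 2 ^ 2 * q 0 ^ 6 * q 1) + (11) * (p 0 ^ 3 * p 1 ^ 3 * p 2 ^ 2 * q 0 ^ 3 * q 1 * q 2 ^ 3) + (12) * (p 0 ^ 3 * p 1 ^ 3 * p 2 ^ 2 * q 0 * q 1 ^ 4 * q 2 ^ 2) + (12) * (p 0 ^ 3 * p 1 ^ 2 * p 2 ^ 3 * q 0 ^ 3 * q 1 ^ 2 * q 2 ^ 2) + (8) * (p 0 ^ 3 * p 1 ^ 2 * p 2 ^ 3 * q 0 * q 1 ^ 5 * q 2) + (3) * (p 0 ^ 3 * p 1 * p 2 ^ 4 * q 0 ^ 5 * q 2 ^ 2) + (11) * (p 0 ^ 3 * p 1 * p 2 ^ 4 * q 0 ^ 3 * q 1 ^ 3 * q 2) + (3) * (p 0 ^ 3 * p 1 * p 2 ^ 4 * q 0 * q 1 ^ 6) + (2) * (p 0 ^ 3 * p 2 ^ 5 * q 0 ^ 5 * q 1 * q 2) + p 0 ^ 3 * p 2 ^ 5 * q 0 ^ 3 * q 1 ^ 4 + (2) * (p 0 ^ 2 * p 1 ^ 6 * q 0 ^ 2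 * q 1 * q 2 ^ 4) + p 0 ^ 2 * p 1 ^ 6 * q 1 ^ 4 * q 2 ^ 3 + (6) * (p 0 ^ 2 * p 1 ^ 5 * p 2 * q 0 ^ 2 * q 1 ^ 2 * q 2 ^ 3) + (3) * (p 0 ^ 2 * p 1 ^ 5 * p 2 * q 1 ^ 5 * q 2 ^ 2) + (4) * (p 0 ^ 2 * p 1 ^ 4 * p 2 ^ 2 * q 0 ^ 4 * q 2 ^ 3) + (18) * (p 0 ^ 2 * p 1 ^ 4 * p 2 ^ 2 * q 0 ^ 2 * q 1 ^ 3 * q 2 ^ 2) + (3) * (p 0 ^ 2 * p 1 ^ 4 * p 2 ^ 2 * q 1 ^ 6 * q 2) + (8) * (p 0 ^ 2 * p 1 ^ 3 * p 2 ^ 3 * q 0 ^ 4 * q 1 * q 2 ^ 2) + (14) * (p 0 ^ 2 * p 1 ^ 3 * p 2 ^ 3 * q 0 ^ 2 * q 1 ^ 4 * q 2) + p 0 ^ 2 * p 1 ^ 3 * p 2 ^ 3 * q 1 ^ 7 + (8) * (p 0 ^ 2 * p 1 ^ 2 * p 2 ^ 4 * q 0 ^ 4 * q 1 ^ 2 * q 2) + (3) * (p 0 ^ 2 * p 1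 ^ 2 * p 2 ^ 4 * q 0 ^ 2 * q 1 ^ 5) + (2) * (p 0 ^ 2 * p 1 * p 2 ^ 5 * q 0 ^ 6 * q 2) + (3) * (p 0 ^ 2 * p 1 * p 2 ^ 5 * q 0 ^ 4 * q 1 ^ 3) + (2) * (p 0 * p 1 ^ 7 * q 0 * q 1 ^ 3 * q 2 ^ 3) + (2) * (p 0 * p 1 ^ 6 * p 2 * q 0 ^ 3 * q 1 * q 2 ^ 3) + (6) * (p 0 * p 1 ^ 6 * p 2 * q 0 * q 1 ^ 4 * q 2 ^ 2) + (11) * (p 0 * p 1 ^ 5 * p 2 ^ 2 * q 0 ^ 3 * q 1 ^ 2 * q 2 ^ 2) + (6) * (p 0 * p 1 ^ 5 * p 2 ^ 2 * q 0 * q 1 ^ 5 * q 2) + (4) * (p 0 * p 1 ^ 4 * p 2 ^ 3 * q 0 ^ 5 * q 2 ^ 2) + (10) * (p 0 * p 1 ^ 4 * p 2 ^ 3 * q 0 ^ 3 * q 1 ^ 3 * q 2) + (2) * (p 0 * p 1 ^ 4 * p 2 ^ 3 * q 0 * q 1 ^ 6) + (2) * (p 0 * p 1 ^ 3 *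 p 2 ^ 4 * q 0 ^ 5 * q 1 * q 2) + (2) * (p 0 * p 1 ^ 3 * p 2 ^ 4 * q 0 ^ 3 * q 1 ^ 4) + p 0 * p 1 ^ 2 * p 2 ^ 5 * q 0 ^ 5 * q 1 ^ 2 + p 1 ^ 8 * q 0 ^ 2 * q 1 ^ 2 * q 2 ^ 3 + p 1 ^ 7 * p 2 * q 0 ^ 4 * q 2 ^ 3 + (3) * (p 1 ^ 7 * p 2 * q 0 ^ 2 * q 1 ^ 3 * q 2 ^ 2) + (3) * (p 1 ^ 6 * p 2 ^ 2 * q 0 ^ 4 * q 1 * q 2 ^ 2) + (3) * (p 1 ^ 6 * p 2 ^ 2 * q 0 ^ 2 * q 1 ^ 4 * q 2) + (2) * (p 1 ^ 5 * p 2 ^ 3 * q 0 ^ 4 * q 1 ^ 2 * q 2) + p 1 ^ 5 * p 2 ^ 3 * q 0 ^ 2 * q 1 ^ 5 + p 1 ^ 4 * p 2 ^ 4 * q 0 ^ 6 * q 2 + p 1 ^ 4 * p 2 ^ 4 * q 0 ^ 4 * q 1 ^ 3) * h2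

theorem id_phi_33 (p q : Fin 3 → C) (h2 : (2 : C) = 0) (hp : hh p = 0) (hq : hh q = 0) :
    q 2 * (a3 p q * P33 p q + n3 p q ^ 2 * b3 p q) ^ 2 + p 2 * P33 p q ^ 3 + n3 p q * P33 p q * (a3 p q * P33 p q + n3 p q ^ 2 * b3 p q) * (p 1 * q 1) + n3 p q ^ 3 * (a3 p q * P33 p q + n3 p q ^ 2 * b3 p q) * (β3 p q + p 2 * A3 p q)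
      + p 2 * n3 p q ^ 4 * (P33 p q * A2 p q + n3 p q ^ 2 * A0 p q) = 0 := by
  have e1 := id_pa_33 p q h2 hp hq
  have e2 := id_pb_33 p q h2 hp hq
  linear_combination P33 p q * e1 + n3 p q ^ 2 * e2 + (q 2 * a3 p q * P33 p q * n3 p q ^ 2 * b3 p q) * h2

theorem id_I_313 (p q : Fin 3 → C) (h2 : (2 : C) = 0) (hp : hh p = 0) (hq : hh q = 0) :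
    P13 p q * (a3 p q * P33 p q + n3 p q ^ 2 * b3 p q) + P33 p q * (a1 p q * P33 p q + n3 p q ^ 2 * b1 p q) = 0 := by
  simp only [hh, n1, n2, n3, gg, P11, P12, P13, P22, P23, P33, a1, a2, a3, β1, β2, β3, b1, b2, b3, A3, A2, A0] at hp hq ⊢
  linear_combination (p 0 ^ 4 * q 0 ^ 7 + p 0 ^ 4 * q 0 ^ 4 * q 2 ^ 3 + p 0 ^ 3 * p 1 * q 0 ^ 3 * q 1 ^ 2 * q 2 ^ 2 + p 0 ^ 3 * p 2 * q 0 ^ 5 * q 2 ^ 2 + p 0 ^ 2 * p 2 ^ 2 * q 0 ^ 6 * q 2 + p 0 * p 1 ^ 3 * q 0 ^ 5 * q 2 ^ 2 + p 0 * p 1 ^ 3 * q 0 ^ 3 * q 1 ^ 3 * q 2 + p 0 * p 1 ^ 2 * p 2 * q 0 ^ 3 * q 1 ^ 4 + p 0 * p 2 ^ 3 * q 0 ^ 7 + p 1 ^ 4 * q 0 ^ 4 * q 1 ^ 2 * q 2 +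 p 1 ^ 3 * p 2 * q 0 ^ 4 * q 1 ^ 3) * hp +
    (p 0 ^ 6 * p 1 ^ 2 * q 1 * q 2 ^ 2 + p 0 ^ 5 * p 1 ^ 3 * q 0 * q 2 ^ 2 + p 0 ^ 5 * p 1 * p 2 ^ 2 * q 0 * q 1 ^ 2 + p 0 ^ 4 * p 1 ^ 4 * q 1 ^ 2 * q 2 + p 0 ^ 4 * p 1 ^ 3 * p 2 * q 1 ^ 3 + p 0 ^ 4 * p 1 ^ 2 * p 2 ^ 2 * q 0 ^ 2 * q 1 + p 0 ^ 3 * p 1 ^ 5 * q 0 * q 1 * q 2 + p 0 ^ 3 * p 1 ^ 4 * p 2 * q 0 * q 1 ^ 2) * hq +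
    (p 0 ^ 7 * p 1 * q 0 ^ 5 * q 1 ^ 2 + p 0 ^ 7 * p 1 * q 0 ^ 2 * q 1 ^ 2 * q 2 ^ 3 + p 0 ^ 7 * p 2 * q 0 ^ 4 * q 2 ^ 3 + p 0 ^ 7 * p 2 * q 0 * q 2 ^ 6 + (2) * (p 0 ^ 6 * p 1 ^ 2 * q 0 ^ 6 * q 1) + (2) * (p 0 ^ 6 * p 1 ^ 2 * q 0 ^ 3 * q 1 * q 2 ^ 3) + (3) * (p 0 ^ 6 * p 1 * p 2 * q 0 ^ 3 * q 1 ^ 2 * q 2 ^ 2) + p 0 ^ 6 * p 1 * p 2 * q 1 ^ 2 * q 2 ^ 5 + (4) * (p 0 ^ 6 * p 2 ^ 2 * q 0 ^ 5 * q 2 ^ 2) + (6) * (p 0 ^ 6 * p 2 ^ 2 * q 0 ^ 2 * q 2 ^ 5) + (2) * (p 0 ^ 5 * p 1 ^ 3 * q 0 ^ 2 * q 1 ^ 3 * q 2 ^ 2) + (11) * (p 0 ^ 5 * p 1 ^ 2 * p 2 * q 0 ^ 4 * q 1 * q 2 ^ 2) + (2) * (p 0 ^ 5 * p 1 ^ 2 * p 2 * q 0 ^ 2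 * q 1 ^ 4 * q 2) + (8) * (p 0 ^ 5 * p 1 ^ 2 * p 2 * q 0 * q 1 * q 2 ^ 5) + (6) * (p 0 ^ 5 * p 1 * p 2 ^ 2 * q 0 ^ 4 * q 1 ^ 2 * q 2) + p 0 ^ 5 * p 1 * p 2 ^ 2 * q 0 ^ 2 * q 1 ^ 5 + (7) * (p 0 ^ 5 * p 1 * p 2 ^ 2 * q 0 * q 1 ^ 2 * q 2 ^ 4) + (3) * (p 0 ^ 5 * p 2 ^ 3 * q 0 ^ 6 * q 2) + (2) * (p 0 ^ 5 * p 2 ^ 3 * q 0 ^ 4 * q 1 ^ 3) + (14) * (p 0 ^ 5 * p 2 ^ 3 * q 0 ^ 3 * q 2 ^ 4) + (3) * (p 0 ^ 5 * p 2 ^ 3 * q 0 * q 1 ^ 3 * q 2 ^ 3) + (4) * (p 0 ^ 4 * p 1 ^ 4 * q 0 ^ 3 * q 1 ^ 2 * q 2 ^ 2) + p 0 ^ 4 * p 1 ^ 4 * q 1 ^ 2 * q 2 ^ 5 + (2) * (p 0 ^ 4 * p 1 ^ 3 * p 2 * q 0 ^ 5 * q 2 ^ 2) + (6) * (p 0 ^ 4 * p 1 ^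 3 * p 2 * q 0 ^ 3 * q 1 ^ 3 * q 2) + (4) * (p 0 ^ 4 * p 1 ^ 3 * p 2 * q 0 ^ 2 * q 2 ^ 5) + (4) * (p 0 ^ 4 * p 1 ^ 3 * p 2 * q 1 ^ 3 * q 2 ^ 4) + (9) * (p 0 ^ 4 * p 1 ^ 2 * p 2 ^ 2 * q 0 ^ 5 * q 1 * q 2) + (4) * (p 0 ^ 4 * p 1 ^ 2 * p 2 ^ 2 * q 0 ^ 3 * q 1 ^ 4) + (25) * (p 0 ^ 4 * p 1 ^ 2 * p 2 ^ 2 * q 0 ^ 2 * q 1 * q 2 ^ 4) + (4) * (p 0 ^ 4 * p 1 ^ 2 * p 2 ^ 2 * q 1 ^ 4 * q 2 ^ 3) + (3) * (p 0 ^ 4 * p 1 * p 2 ^ 3 * q 0 ^ 5 * q 1 ^ 2) + (19) * (p 0 ^ 4 * p 1 * p 2 ^ 3 * q 0 ^ 2 * q 1 ^ 2 * q 2 ^ 3) + p 0 ^ 4 * p 1 * p 2 ^ 3 * q 1 ^ 5 * q 2 ^ 2 + (16) * (p 0 ^ 4 * p 2 ^ 4 * q 0 ^ 4 * q 2 ^ 3) + (9) * (p 0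 ^ 4 * p 2 ^ 4 * q 0 ^ 2 * q 1 ^ 3 * q 2 ^ 2) + (3) * (p 0 ^ 3 * p 1 ^ 5 * q 0 ^ 4 * q 1 * q 2 ^ 2) + p 0 ^ 3 * p 1 ^ 5 * q 0 ^ 2 * q 1 ^ 4 * q 2 + (2) * (p 0 ^ 3 * p 1 ^ 5 * q 0 * q 1 * q 2 ^ 5) + (5) * (p 0 ^ 3 * p 1 ^ 4 * p 2 * q 0 ^ 4 * q 1 ^ 2 * q 2) + p 0 ^ 3 * p 1 ^ 4 * p 2 * q 0 ^ 2 * q 1 ^ 5 + (13) * (p 0 ^ 3 * p 1 ^ 4 * p 2 * q 0 * q 1 ^ 2 * q 2 ^ 4) + p 0 ^ 3 * p 1 ^ 3 * p 2 ^ 2 * q 0 ^ 6 * q 2 + (4) * (p 0 ^ 3 * p 1 ^ 3 * p 2 ^ 2 * q 0 ^ 4 * q 1 ^ 3) + (9) * (p 0 ^ 3 * p 1 ^ 3 * p 2 ^ 2 * q 0 ^ 3 * q 2 ^ 4) + (23) * (p 0 ^ 3 * p 1 ^ 3 * p 2 ^ 2 * q 0 * q 1 ^ 3 * q 2 ^ 3) + (3) * (p 0 ^ 3 * p 1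 ^ 2 * p 2 ^ 3 * q 0 ^ 6 * q 1) + (32) * (p 0 ^ 3 * p 1 ^ 2 * p 2 ^ 3 * q 0 ^ 3 * q 1 * q 2 ^ 3) + (17) * (p 0 ^ 3 * p 1 ^ 2 * p 2 ^ 3 * q 0 * q 1 ^ 4 * q 2 ^ 2) + (22) * (p 0 ^ 3 * p 1 * p 2 ^ 4 * q 0 ^ 3 * q 1 ^ 2 * q 2 ^ 2) + (7) * (p 0 ^ 3 * p 1 * p 2 ^ 4 * q 0 * q 1 ^ 5 * q 2) + (10) * (p 0 ^ 3 * p 2 ^ 5 * q 0 ^ 5 * q 2 ^ 2) + (7) * (p 0 ^ 3 * p 2 ^ 5 * q 0 ^ 3 * q 1 ^ 3 * q 2) + (2) * (p 0 ^ 3 * p 2 ^ 5 * q 0 * q 1 ^ 6) + p 0 ^ 2 * p 1 ^ 6 * q 0 ^ 3 * q 1 ^ 3 * q 2 + p 0 ^ 2 * p 1 ^ 6 * q 0 ^ 2 * q 2 ^ 5 + p 0 ^ 2 * p 1 ^ 6 * q 1 ^ 3 * q 2 ^ 4 + p 0 ^ 2 * p 1 ^ 5 * p 2 * q 0 ^ 5 * q 1 * q 2 + p 0 ^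 2 * p 1 ^ 5 * p 2 * q 0 ^ 3 * q 1 ^ 4 + (10) * (p 0 ^ 2 * p 1 ^ 5 * p 2 * q 0 ^ 2 * q 1 * q 2 ^ 4) + (4) * (p 0 ^ 2 * p 1 ^ 5 * p 2 * q 1 ^ 4 * q 2 ^ 3) + p 0 ^ 2 * p 1 ^ 4 * p 2 ^ 2 * q 0 ^ 5 * q 1 ^ 2 + (27) * (p 0 ^ 2 * p 1 ^ 4 * p 2 ^ 2 * q 0 ^ 2 * q 1 ^ 2 * q 2 ^ 3) + (6) * (p 0 ^ 2 * p 1 ^ 4 * p 2 ^ 2 * q 1 ^ 5 * q 2 ^ 2) + (6) * (p 0 ^ 2 * p 1 ^ 3 * p 2 ^ 3 * q 0 ^ 4 * q 2 ^ 3) + (30) * (p 0 ^ 2 * p 1 ^ 3 * p 2 ^ 3 * q 0 ^ 2 * q 1 ^ 3 * q 2 ^ 2) + (4) * (p 0 ^ 2 * p 1 ^ 3 * p 2 ^ 3 * q 1 ^ 6 * q 2) + (21) * (p 0 ^ 2 * p 1 ^ 2 * p 2 ^ 4 * q 0 ^ 4 * q 1 * q 2 ^ 2) + (16) * (p 0 ^ 2 * p 1 ^ 2 * p 2 ^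 4 * q 0 ^ 2 * q 1 ^ 4 * q 2) + p 0 ^ 2 * p 1 ^ 2 * p 2 ^ 4 * q 1 ^ 7 + (11) * (p 0 ^ 2 * p 1 * p 2 ^ 5 * q 0 ^ 4 * q 1 ^ 2 * q 2) + (4) * (p 0 ^ 2 * p 1 * p 2 ^ 5 * q 0 ^ 2 * q 1 ^ 5) + (3) * (p 0 ^ 2 * p 2 ^ 6 * q 0 ^ 6 * q 2) + (2) * (p 0 ^ 2 * p 2 ^ 6 * q 0 ^ 4 * q 1 ^ 3) + (2) * (p 0 * p 1 ^ 7 * q 0 * q 1 ^ 2 * q 2 ^ 4) + p 0 * p 1 ^ 6 * p 2 * q 0 ^ 3 * q 2 ^ 4 + (8) * (p 0 * p 1 ^ 6 * p 2 * q 0 * q 1 ^ 3 * q 2 ^ 3) + (8) * (p 0 * p 1 ^ 5 * p 2 ^ 2 * q 0 ^ 3 * q 1 * q 2 ^ 3) + (12) * (p 0 * p 1 ^ 5 * p 2 ^ 2 * q 0 * q 1 ^ 4 * q 2 ^ 2) + (16) * (p 0 * p 1 ^ 4 * p 2 ^ 3 * q 0 ^ 3 * q 1 ^ 2 * q 2 ^ 2) +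 (8) * (p 0 * p 1 ^ 4 * p 2 ^ 3 * q 0 * q 1 ^ 5 * q 2) + p 0 * p 1 ^ 3 * p 2 ^ 4 * q 0 ^ 5 * q 2 ^ 2 + (12) * (p 0 * p 1 ^ 3 * p 2 ^ 4 * q 0 ^ 3 * q 1 ^ 3 * q 2) + (2) * (p 0 * p 1 ^ 3 * p 2 ^ 4 * q 0 * q 1 ^ 6) + (7) * (p 0 * p 1 ^ 2 * p 2 ^ 5 * q 0 ^ 5 * q 1 * q 2) + (3) * (p 0 * p 1 ^ 2 * p 2 ^ 5 * q 0 ^ 3 * q 1 ^ 4) + (2) * (p 0 * p 1 * p 2 ^ 6 * q 0 ^ 5 * q 1 ^ 2) + p 1 ^ 8 * q 0 ^ 2 * q 1 * q 2 ^ 4 + (4) * (p 1 ^ 7 * p 2 * q 0 ^ 2 * q 1 ^ 2 * q 2 ^ 3) + (6) * (p 1 ^ 6 * p 2 ^ 2 * q 0 ^ 2 * q 1 ^ 3 * q 2 ^ 2) + (2) * (p 1 ^ 5 * p 2 ^ 3 * q 0 ^ 4 * q 1 * q 2 ^ 2) + (4) * (p 1 ^ 5 * p 2 ^ 3 * q 0 ^ 2 *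 q 1 ^ 4 * q 2) + (3) * (p 1 ^ 4 * p 2 ^ 4 * q 0 ^ 4 * q 1 ^ 2 * q 2) + p 1 ^ 4 * p 2 ^ 4 * q 0 ^ 2 * q 1 ^ 5 + p 1 ^ 3 * p 2 ^ 5 * q 0 ^ 4 * q 1 ^ 3 + p 1 ^ 2 * p 2 ^ 6 * q 0 ^ 6 * q 1) * h2

theorem id_I_323 (p q : Fin 3 → C) (h2 : (2 : C) = 0) (hp : hh p = 0) (hq : hh q = 0) :
    P23 p q * (a3 p q * P33 p q + n3 p q ^ 2 * b3 p q) + P33 p q * (a2 p q * P33 p q + n3 p q ^ 2 * b2 p q) = 0 := by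
  simp only [hh, n1, n2, n3, gg, P11, P12, P13, P22, P23, P33, a1, a2, a3, β1, β2, β3, b1, b2, b3, A3, A2, A0] at hp hq ⊢
  linear_combination (p 0 ^ 3 * p 1 * q 0 ^ 4 * q 1 * q 2 ^ 2 + p 0 ^ 2 * p 1 ^ 2 * q 0 ^ 5 * q 2 ^ 2 + p 0 ^ 2 * p 2 ^ 2 * q 0 ^ 5 * q 1 ^ 2 + p 0 * p 1 ^ 3 * q 0 ^ 4 * q 1 ^ 2 * q 2 + p 0 * p 1 ^ 2 * p 2 * q 0 ^ 4 * q 1 ^ 3 + p 0 * p 1 * p 2 ^ 2 * q 0 ^ 6 * q 1 + p 1 ^ 4 * q 0 ^ 5 * q 1 * q 2 + p 1 ^ 3 * p 2 * q 0 ^ 5 * q 1 ^ 2) * hp +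
    (p 0 ^ 7 * p 1 * q 1 * q 2 ^ 2 + p 0 ^ 6 * p 1 ^ 2 * q 0 * q 2 ^ 2 + p 0 ^ 6 * p 2 ^ 2 * q 0 * q 1 ^ 2 + p 0 ^ 5 * p 1 ^ 3 * q 1 ^ 2 * q 2 + p 0 ^ 5 * p 1 ^ 2 * p 2 * q 1 ^ 3 + p 0 ^ 5 * p 1 * p 2 ^ 2 * q 0 ^ 2 * q 1 + p 0 ^ 4 * p 1 ^ 4 * q 0 * q 1 * q 2 + p 0 ^ 4 * p 1 ^ 3 * p 2 * q 0 * q 1 ^ 2) * hq +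
    (p 0 ^ 8 * q 0 ^ 5 * q 1 ^ 2 + p 0 ^ 8 * q 0 ^ 2 * q 1 ^ 2 * q 2 ^ 3 + (3) * (p 0 ^ 7 * p 1 * q 0 ^ 6 * q 1) + (3) * (p 0 ^ 7 * p 1 * q 0 ^ 3 * q 1 * q 2 ^ 3) + (3) * (p 0 ^ 7 * p 2 * q 0 ^ 3 * q 1 ^ 2 * q 2 ^ 2) + p 0 ^ 6 * p 1 ^ 2 * q 0 ^ 7 + p 0 ^ 6 * p 1 ^ 2 * q 0 ^ 4 * q 2 ^ 3 + (3) * (p 0 ^ 6 * p 1 ^ 2 * q 0 ^ 2 * q 1 ^ 3 * q 2 ^ 2) + (11) * (p 0 ^ 6 * p 1 * p 2 * q 0 ^ 4 * q 1 * q 2 ^ 2) + (2) * (p 0 ^ 6 * p 1 * p 2 * q 0 ^ 2 * q 1 ^ 4 * q 2) + (4) * (p 0 ^ 6 * p 1 * p 2 * q 0 * q 1 * q 2 ^ 5) + (3) * (p 0 ^ 6 * p 2 ^ 2 * q 0 ^ 4 * q 1 ^ 2 * q 2) + p 0 ^ 6 * p 2 ^ 2 * q 0 ^ 2 * q 1 ^ 5 + (8) *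 (p 0 ^ 5 * p 1 ^ 3 * q 0 ^ 3 * q 1 ^ 2 * q 2 ^ 2) + p 0 ^ 5 * p 1 ^ 3 * q 1 ^ 2 * q 2 ^ 5 + (3) * (p 0 ^ 5 * p 1 ^ 2 * p 2 * q 0 ^ 5 * q 2 ^ 2) + (9) * (p 0 ^ 5 * p 1 ^ 2 * p 2 * q 0 ^ 3 * q 1 ^ 3 * q 2) + (2) * (p 0 ^ 5 * p 1 ^ 2 * p 2 * q 0 ^ 2 * q 2 ^ 5) + (3) * (p 0 ^ 5 * p 1 ^ 2 * p 2 * q 1 ^ 3 * q 2 ^ 4) + (11) * (p 0 ^ 5 * p 1 * p 2 ^ 2 * q 0 ^ 5 * q 1 * q 2) + (7) * (p 0 ^ 5 * p 1 * p 2 ^ 2 * q 0 ^ 3 * q 1 ^ 4) + (11) * (p 0 ^ 5 * p 1 * p 2 ^ 2 * q 0 ^ 2 * q 1 * q 2 ^ 4) + (2) * (p 0 ^ 5 * p 1 * p 2 ^ 2 * q 1 ^ 4 * q 2 ^ 3) + p 0 ^ 5 * p 2 ^ 3 * q 0 ^ 5 * q 1 ^ 2 + (2) * (p 0 ^ 5 * p 2 ^ 3 * q 0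 ^ 2 * q 1 ^ 2 * q 2 ^ 3) + (6) * (p 0 ^ 4 * p 1 ^ 4 * q 0 ^ 4 * q 1 * q 2 ^ 2) + (2) * (p 0 ^ 4 * p 1 ^ 4 * q 0 ^ 2 * q 1 ^ 4 * q 2) + (2) * (p 0 ^ 4 * p 1 ^ 4 * q 0 * q 1 * q 2 ^ 5) + (9) * (p 0 ^ 4 * p 1 ^ 3 * p 2 * q 0 ^ 4 * q 1 ^ 2 * q 2) + (2) * (p 0 ^ 4 * p 1 ^ 3 * p 2 * q 0 ^ 2 * q 1 ^ 5) + (10) * (p 0 ^ 4 * p 1 ^ 3 * p 2 * q 0 * q 1 ^ 2 * q 2 ^ 4) + (3) * (p 0 ^ 4 * p 1 ^ 2 * p 2 ^ 2 * q 0 ^ 6 * q 2) + (9) * (p 0 ^ 4 * p 1 ^ 2 * p 2 ^ 2 * q 0 ^ 4 * q 1 ^ 3) + (3) * (p 0 ^ 4 * p 1 ^ 2 * p 2 ^ 2 * q 0 ^ 3 * q 2 ^ 4) + (15) * (p 0 ^ 4 * p 1 ^ 2 * p 2 ^ 2 * q 0 * q 1 ^ 3 * q 2 ^ 3) + (3) * (p 0 ^ 4 *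 p 1 * p 2 ^ 3 * q 0 ^ 6 * q 1) + (16) * (p 0 ^ 4 * p 1 * p 2 ^ 3 * q 0 ^ 3 * q 1 * q 2 ^ 3) + (8) * (p 0 ^ 4 * p 1 * p 2 ^ 3 * q 0 * q 1 ^ 4 * q 2 ^ 2) + (3) * (p 0 ^ 4 * p 2 ^ 4 * q 0 ^ 3 * q 1 ^ 2 * q 2 ^ 2) + p 0 ^ 4 * p 2 ^ 4 * q 0 * q 1 ^ 5 * q 2 + p 0 ^ 3 * p 1 ^ 5 * q 0 ^ 5 * q 2 ^ 2 + (4) * (p 0 ^ 3 * p 1 ^ 5 * q 0 ^ 3 * q 1 ^ 3 * q 2) + p 0 ^ 3 * p 1 ^ 5 * q 0 ^ 2 * q 2 ^ 5 + p 0 ^ 3 * p 1 ^ 5 * q 1 ^ 3 * q 2 ^ 4 + (2) * (p 0 ^ 3 * p 1 ^ 4 * p 2 * q 0 ^ 5 * q 1 * q 2) + (4) * (p 0 ^ 3 * p 1 ^ 4 * p 2 * q 0 ^ 3 * q 1 ^ 4) + (8) * (p 0 ^ 3 * p 1 ^ 4 * p 2 * q 0 ^ 2 * q 1 * q 2 ^ 4) + (4) * (p 0 ^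 3 * p 1 ^ 4 * p 2 * q 1 ^ 4 * q 2 ^ 3) + (3) * (p 0 ^ 3 * p 1 ^ 3 * p 2 ^ 2 * q 0 ^ 5 * q 1 ^ 2) + (21) * (p 0 ^ 3 * p 1 ^ 3 * p 2 ^ 2 * q 0 ^ 2 * q 1 ^ 2 * q 2 ^ 3) + (6) * (p 0 ^ 3 * p 1 ^ 3 * p 2 ^ 2 * q 1 ^ 5 * q 2 ^ 2) + p 0 ^ 3 * p 1 ^ 2 * p 2 ^ 3 * q 0 ^ 7 + (2) * (p 0 ^ 3 * p 1 ^ 2 * p 2 ^ 3 * q 0 ^ 4 * q 2 ^ 3) + (22) * (p 0 ^ 3 * p 1 ^ 2 * p 2 ^ 3 * q 0 ^ 2 * q 1 ^ 3 * q 2 ^ 2) + (4) * (p 0 ^ 3 * p 1 ^ 2 * p 2 ^ 3 * q 1 ^ 6 * q 2) + (11) * (p 0 ^ 3 * p 1 * p 2 ^ 4 * q 0 ^ 4 * q 1 * q 2 ^ 2) + (9) * (p 0 ^ 3 * p 1 * p 2 ^ 4 * q 0 ^ 2 * q 1 ^ 4 * q 2) + p 0 ^ 3 * p 1 * p 2 ^ 4 * q 1 ^ 7 + (2) * (p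 0 ^ 3 * p 2 ^ 5 * q 0 ^ 4 * q 1 ^ 2 * q 2) + p 0 ^ 3 * p 2 ^ 5 * q 0 ^ 2 * q 1 ^ 5 + (2) * (p 0 ^ 2 * p 1 ^ 6 * q 0 ^ 4 * q 1 ^ 2 * q 2) + (2) * (p 0 ^ 2 * p 1 ^ 6 * q 0 * q 1 ^ 2 * q 2 ^ 4) + (2) * (p 0 ^ 2 * p 1 ^ 5 * p 2 * q 0 ^ 4 * q 1 ^ 3) + p 0 ^ 2 * p 1 ^ 5 * p 2 * q 0 ^ 3 * q 2 ^ 4 + (9) * (p 0 ^ 2 * p 1 ^ 5 * p 2 * q 0 * q 1 ^ 3 * q 2 ^ 3) + (8) * (p 0 ^ 2 * p 1 ^ 4 * p 2 ^ 2 * q 0 ^ 3 * q 1 * q 2 ^ 3) + (15) * (p 0 ^ 2 * p 1 ^ 4 * p 2 ^ 2 * q 0 * q 1 ^ 4 * q 2 ^ 2) + (17) * (p 0 ^ 2 * p 1 ^ 3 * p 2 ^ 3 * q 0 ^ 3 * q 1 ^ 2 * q 2 ^ 2) + (11) * (p 0 ^ 2 * p 1 ^ 3 * p 2 ^ 3 * q 0 * q 1 ^ 5 * q 2) +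 (13) * (p 0 ^ 2 * p 1 ^ 2 * p 2 ^ 4 * q 0 ^ 3 * q 1 ^ 3 * q 2) + (3) * (p 0 ^ 2 * p 1 ^ 2 * p 2 ^ 4 * q 0 * q 1 ^ 6) + (4) * (p 0 ^ 2 * p 1 * p 2 ^ 5 * q 0 ^ 5 * q 1 * q 2) + (3) * (p 0 ^ 2 * p 1 * p 2 ^ 5 * q 0 ^ 3 * q 1 ^ 4) + p 0 * p 1 ^ 7 * q 0 ^ 2 * q 1 * q 2 ^ 4 + (6) * (p 0 * p 1 ^ 6 * p 2 * q 0 ^ 2 * q 1 ^ 2 * q 2 ^ 3) + (12) * (p 0 * p 1 ^ 5 * p 2 ^ 2 * q 0 ^ 2 * q 1 ^ 3 * q 2 ^ 2) + (3) * (p 0 * p 1 ^ 4 * p 2 ^ 3 * q 0 ^ 4 * q 1 * q 2 ^ 2) + (10) * (p 0 * p 1 ^ 4 * p 2 ^ 3 * q 0 ^ 2 * q 1 ^ 4 * q 2) + (5) * (p 0 * p 1 ^ 3 * p 2 ^ 4 * q 0 ^ 4 * q 1 ^ 2 * q 2) + (3) * (p 0 * p 1 ^ 3 * p 2 ^ 4 * q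 0 ^ 2 * q 1 ^ 5) + (2) * (p 0 * p 1 ^ 2 * p 2 ^ 5 * q 0 ^ 4 * q 1 ^ 3) + p 1 ^ 7 * p 2 * q 0 ^ 3 * q 1 * q 2 ^ 3 + (3) * (p 1 ^ 6 * p 2 ^ 2 * q 0 ^ 3 * q 1 ^ 2 * q 2 ^ 2) + (3) * (p 1 ^ 5 * p 2 ^ 3 * q 0 ^ 3 * q 1 ^ 3 * q 2) + p 1 ^ 4 * p 2 ^ 4 * q 0 ^ 3 * q 1 ^ 4) * h2

theorem id_I_311 (p q : Fin 3 → C) (h2 : (2 : C) = 0) (hp : hh p = 0) (hq : hh q = 0) :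
    P11 p q * (a3 p q * P33 p q + n3 p q ^ 2 * b3 p q) + P13 p q * (a1 p q * P33 p q + n3 p q ^ 2 * b1 p q) = 0 := by
  simp only [hh, n1, n2, n3, gg, P11, P12, P13, P22, P23, P33, a1, a2, a3, β1, β2, β3, b1, b2, b3, A3, A2, A0] at hp hq ⊢
  linear_combination (p 0 ^ 4 * q 0 ^ 6 * q 2 + p 0 ^ 4 * q 0 ^ 4 * q 1 ^ 3 + p 0 ^ 4 * q 0 ^ 3 * q 2 ^ 4 + p 0 ^ 4 * q 0 * q 1 ^ 3 * q 2 ^ 3 + p 0 ^ 3 * p 1 * q 1 ^ 5 * q 2 ^ 2 + p 0 ^ 3 * p 2 * q 0 ^ 4 * q 2 ^ 3 + p 0 ^ 3 * p 2 * q 0 ^ 2 * q 1 ^ 3 * q 2 ^ 2 + p 0 ^ 2 * p 1 ^ 2 * q 0 ^ 6 * q 1 + p 0 ^ 2 * p 1 ^ 2 * q 0 ^ 3 * q 1 * q 2 ^ 3 + p 0 ^ 2 * p 1 * p 2 * q 0 ^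 3 * q 1 ^ 2 * q 2 ^ 2 + p 0 ^ 2 * p 2 ^ 2 * q 0 ^ 5 * q 2 ^ 2 + p 0 ^ 2 * p 2 ^ 2 * q 0 ^ 3 * q 1 ^ 3 * q 2 + p 0 * p 1 ^ 3 * q 0 ^ 4 * q 2 ^ 3 + p 0 * p 1 ^ 3 * q 0 ^ 2 * q 1 ^ 3 * q 2 ^ 2 + p 0 * p 1 ^ 3 * q 1 ^ 6 * q 2 + p 0 * p 1 ^ 2 * p 2 * q 0 ^ 4 * q 1 * q 2 ^ 2 + p 0 * p 1 ^ 2 * p 2 * q 0 ^ 2 * q 1 ^ 4 * q 2 + p 0 * p 1 ^ 2 * p 2 * q 1 ^ 7 + p 0 * p 1 * p 2 ^ 2 * q 0 ^ 2 * q 1 ^ 5 + p 0 * p 2 ^ 3 * q 0 ^ 6 * q 2 + p 0 * p 2 ^ 3 * q 0 ^ 4 * q 1 ^ 3 + p 1 ^ 4 * q 0 ^ 3 * q 1 ^ 2 * q 2 ^ 2 + p 1 ^ 4 * q 0 * q 1 ^ 5 * q 2 + p 1 ^ 3 * p 2 * q 0 ^ 3 * q 1 ^ 3 * q 2 + p 1 ^ 3 * p 2 * q 0 * q 1 ^ 6) * hp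 +
    ((2) * (p 0 ^ 7 * p 2 * q 0 ^ 3) + p 0 ^ 6 * p 1 ^ 2 * q 0 ^ 2 * q 1 + (2) * (p 0 ^ 5 * p 1 ^ 3 * q 0 ^ 3) + p 0 ^ 5 * p 1 ^ 2 * p 2 * q 1 * q 2 ^ 2 + p 0 ^ 4 * p 1 ^ 3 * p 2 * q 0 * q 2 ^ 2 + p 0 ^ 4 * p 1 ^ 2 * p 2 ^ 2 * q 0 * q 1 * q 2 + p 0 ^ 4 * p 1 * p 2 ^ 3 * q 0 * q 1 ^ 2 + p 0 ^ 3 * p 1 ^ 5 * q 1 * q 2 ^ 2 + p 0 ^ 3 * p 1 ^ 4 * p 2 * q 1 ^ 2 * q 2 + p 0 ^ 3 * p 1 ^ 3 * p 2 ^ 2 * q 0 ^ 2 * q 2 + p 0 ^ 3 * p 1 ^ 3 * p 2 ^ 2 * q 1 ^ 3 + p 0 ^ 2 * p 1 ^ 5 * p 2 * q 0 * q 1 * q 2 + p 0 ^ 2 * p 1 ^ 4 * p 2 ^ 2 * q 0 * q 1 ^ 2 + p 0 ^ 2 * p 1 ^ 3 * p 2 ^ 3 * q 0 ^ 3 + p 0 * p 1 ^ 7 * q 1 ^ 2 * q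 2 + p 0 * p 1 ^ 6 * p 2 * q 1 ^ 3 + p 0 * p 1 ^ 5 * p 2 ^ 2 * q 0 ^ 2 * q 1 + p 1 ^ 8 * q 0 * q 1 * q 2 + p 1 ^ 7 * p 2 * q 0 * q 1 ^ 2) * hq +
    (-(p 0 ^ 7 * p 2 * q 0 ^ 6 * q 2) + -(p 0 ^ 7 * p 2 * q 0 ^ 4 * q 1 ^ 3) + -(p 0 ^ 7 * p 2 * q 0 ^ 3 * q 2 ^ 4) + p 0 ^ 6 * p 1 * p 2 * q 0 ^ 5 * q 1 ^ 2 + (2) * (p 0 ^ 6 * p 1 * p 2 * q 0 ^ 2 * q 1 ^ 2 * q 2 ^ 3) + (2) * (p 0 ^ 6 * p 2 ^ 2 * q 0 ^ 4 * q 2 ^ 3) + p 0 ^ 6 * p 2 ^ 2 * q 0 ^ 2 * q 1 ^ 3 * q 2 ^ 2 + p 0 ^ 6 * p 2 ^ 2 * q 0 * q 2 ^ 6 + -(p 0 ^ 5 * p 1 ^ 3 * q 0 ^ 6 * q 2) + p 0 ^ 5 * p 1 ^ 3 * q 0 ^ 4 * q 1 ^ 3 + -(p 0 ^ 5 * p 1 ^ 3 * q 0 ^ 3 * q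 2 ^ 4) + p 0 ^ 5 * p 1 ^ 3 * q 0 * q 1 ^ 3 * q 2 ^ 3 + (4) * (p 0 ^ 5 * p 1 ^ 2 * p 2 * q 0 ^ 3 * q 1 * q 2 ^ 3) + (2) * (p 0 ^ 5 * p 1 ^ 2 * p 2 * q 0 * q 1 ^ 4 * q 2 ^ 2) + (5) * (p 0 ^ 5 * p 1 * p 2 ^ 2 * q 0 ^ 3 * q 1 ^ 2 * q 2 ^ 2) + p 0 ^ 5 * p 1 * p 2 ^ 2 * q 0 * q 1 ^ 5 * q 2 + p 0 ^ 5 * p 1 * p 2 ^ 2 * q 1 ^ 2 * q 2 ^ 5 + (3) * (p 0 ^ 5 * p 2 ^ 3 * q 0 ^ 5 * q 2 ^ 2) + (2) * (p 0 ^ 5 * p 2 ^ 3 * q 0 ^ 3 * q 1 ^ 3 * q 2) + (5) * (p 0 ^ 5 * p 2 ^ 3 * q 0 ^ 2 * q 2 ^ 5) + p 0 ^ 5 * p 2 ^ 3 * q 0 * q 1 ^ 6 + (2) * (p 0 ^ 4 * p 1 ^ 4 * q 0 ^ 5 * q 1 ^ 2) + (3) * (p 0 ^ 4 * p 1 ^ 4 * q 0 ^ 2 * q 1 ^ 2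 * q 2 ^ 3) + (2) * (p 0 ^ 4 * p 1 ^ 3 * p 2 * q 0 ^ 4 * q 2 ^ 3) + (9) * (p 0 ^ 4 * p 1 ^ 3 * p 2 * q 0 ^ 2 * q 1 ^ 3 * q 2 ^ 2) + (9) * (p 0 ^ 4 * p 1 ^ 2 * p 2 ^ 2 * q 0 ^ 4 * q 1 * q 2 ^ 2) + (5) * (p 0 ^ 4 * p 1 ^ 2 * p 2 ^ 2 * q 0 ^ 2 * q 1 ^ 4 * q 2) + (7) * (p 0 ^ 4 * p 1 ^ 2 * p 2 ^ 2 * q 0 * q 1 * q 2 ^ 5) + (6) * (p 0 ^ 4 * p 1 * p 2 ^ 3 * q 0 ^ 4 * q 1 ^ 2 * q 2) + (3) * (p 0 ^ 4 * p 1 * p 2 ^ 3 * q 0 ^ 2 * q 1 ^ 5) + (5) * (p 0 ^ 4 * p 1 * p 2 ^ 3 * q 0 * q 1 ^ 2 * q 2 ^ 4) + (9) * (p 0 ^ 4 * p 2 ^ 4 * q 0 ^ 3 * q 2 ^ 4) + (2) * (p 0 ^ 4 * p 2 ^ 4 * q 0 * q 1 ^ 3 * q 2 ^ 3) + (3) * (p 0 ^ 3 *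 p 1 ^ 5 * q 0 ^ 3 * q 1 * q 2 ^ 3) + (2) * (p 0 ^ 3 * p 1 ^ 5 * q 0 * q 1 ^ 4 * q 2 ^ 2) + (11) * (p 0 ^ 3 * p 1 ^ 4 * p 2 * q 0 ^ 3 * q 1 ^ 2 * q 2 ^ 2) + (3) * (p 0 ^ 3 * p 1 ^ 4 * p 2 * q 0 * q 1 ^ 5 * q 2) + (2) * (p 0 ^ 3 * p 1 ^ 4 * p 2 * q 1 ^ 2 * q 2 ^ 5) + (2) * (p 0 ^ 3 * p 1 ^ 3 * p 2 ^ 2 * q 0 ^ 5 * q 2 ^ 2) + (12) * (p 0 ^ 3 * p 1 ^ 3 * p 2 ^ 2 * q 0 ^ 3 * q 1 ^ 3 * q 2) + (3) * (p 0 ^ 3 * p 1 ^ 3 * p 2 ^ 2 * q 0 ^ 2 * q 2 ^ 5) + (2) * (p 0 ^ 3 * p 1 ^ 3 * p 2 ^ 2 * q 0 * q 1 ^ 6) + (4) * (p 0 ^ 3 * p 1 ^ 3 * p 2 ^ 2 * q 1 ^ 3 * q 2 ^ 4) + (4) * (p 0 ^ 3 * p 1 ^ 2 * p 2 ^ 3 * q 0 ^ 5 * q 1 *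 q 2) + (6) * (p 0 ^ 3 * p 1 ^ 2 * p 2 ^ 3 * q 0 ^ 3 * q 1 ^ 4) + (19) * (p 0 ^ 3 * p 1 ^ 2 * p 2 ^ 3 * q 0 ^ 2 * q 1 * q 2 ^ 4) + (3) * (p 0 ^ 3 * p 1 ^ 2 * p 2 ^ 3 * q 1 ^ 4 * q 2 ^ 3) + p 0 ^ 3 * p 1 * p 2 ^ 4 * q 0 ^ 5 * q 1 ^ 2 + (12) * (p 0 ^ 3 * p 1 * p 2 ^ 4 * q 0 ^ 2 * q 1 ^ 2 * q 2 ^ 3) + (8) * (p 0 ^ 3 * p 2 ^ 5 * q 0 ^ 4 * q 2 ^ 3) + (5) * (p 0 ^ 3 * p 2 ^ 5 * q 0 ^ 2 * q 1 ^ 3 * q 2 ^ 2) + p 0 ^ 2 * p 1 ^ 6 * q 0 ^ 4 * q 2 ^ 3 + (3) * (p 0 ^ 2 * p 1 ^ 6 * q 0 ^ 2 * q 1 ^ 3 * q 2 ^ 2) + (3) * (p 0 ^ 2 * p 1 ^ 5 * p 2 * q 0 ^ 4 * q 1 * q 2 ^ 2) + (5) * (p 0 ^ 2 * p 1 ^ 5 * p 2 * q 0 ^ 2 * q 1 ^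 4 * q 2) + (3) * (p 0 ^ 2 * p 1 ^ 5 * p 2 * q 0 * q 1 * q 2 ^ 5) + (6) * (p 0 ^ 2 * p 1 ^ 4 * p 2 ^ 2 * q 0 ^ 4 * q 1 ^ 2 * q 2) + (3) * (p 0 ^ 2 * p 1 ^ 4 * p 2 ^ 2 * q 0 ^ 2 * q 1 ^ 5) + (13) * (p 0 ^ 2 * p 1 ^ 4 * p 2 ^ 2 * q 0 * q 1 ^ 2 * q 2 ^ 4) + (3) * (p 0 ^ 2 * p 1 ^ 3 * p 2 ^ 3 * q 0 ^ 4 * q 1 ^ 3) + (5) * (p 0 ^ 2 * p 1 ^ 3 * p 2 ^ 3 * q 0 ^ 3 * q 2 ^ 4) + (18) * (p 0 ^ 2 * p 1 ^ 3 * p 2 ^ 3 * q 0 * q 1 ^ 3 * q 2 ^ 3) + (17) * (p 0 ^ 2 * p 1 ^ 2 * p 2 ^ 4 * q 0 ^ 3 * q 1 * q 2 ^ 3) + (11) * (p 0 ^ 2 * p 1 ^ 2 * p 2 ^ 4 * q 0 * q 1 ^ 4 * q 2 ^ 2) + (11) * (p 0 ^ 2 * p 1 * p 2 ^ 5 * q 0 ^ 3 * q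 1 ^ 2 * q 2 ^ 2) + (4) * (p 0 ^ 2 * p 1 * p 2 ^ 5 * q 0 * q 1 ^ 5 * q 2) + (3) * (p 0 ^ 2 * p 2 ^ 6 * q 0 ^ 5 * q 2 ^ 2) + (2) * (p 0 ^ 2 * p 2 ^ 6 * q 0 ^ 3 * q 1 ^ 3 * q 2) + p 0 ^ 2 * p 2 ^ 6 * q 0 * q 1 ^ 6 + p 0 * p 1 ^ 7 * q 0 ^ 3 * q 1 ^ 2 * q 2 ^ 2 + (2) * (p 0 * p 1 ^ 6 * p 2 * q 0 ^ 3 * q 1 ^ 3 * q 2) + p 0 * p 1 ^ 6 * p 2 * q 0 ^ 2 * q 2 ^ 5 + (2) * (p 0 * p 1 ^ 6 * p 2 * q 1 ^ 3 * q 2 ^ 4) + p 0 * p 1 ^ 5 * p 2 ^ 2 * q 0 ^ 3 * q 1 ^ 4 + (7) * (p 0 * p 1 ^ 5 * p 2 ^ 2 * q 0 ^ 2 * q 1 * q 2 ^ 4) + (5) * (p 0 * p 1 ^ 5 * p 2 ^ 2 * q 1 ^ 4 * q 2 ^ 3) + p 0 * p 1 ^ 4 * p 2 ^ 3 * q 0 ^ 5 * q 1 ^ 2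 + (17) * (p 0 * p 1 ^ 4 * p 2 ^ 3 * q 0 ^ 2 * q 1 ^ 2 * q 2 ^ 3) + (5) * (p 0 * p 1 ^ 4 * p 2 ^ 3 * q 1 ^ 5 * q 2 ^ 2) + p 0 * p 1 ^ 3 * p 2 ^ 4 * q 0 ^ 4 * q 2 ^ 3 + (16) * (p 0 * p 1 ^ 3 * p 2 ^ 4 * q 0 ^ 2 * q 1 ^ 3 * q 2 ^ 2) + (2) * (p 0 * p 1 ^ 3 * p 2 ^ 4 * q 1 ^ 6 * q 2) + (7) * (p 0 * p 1 ^ 2 * p 2 ^ 5 * q 0 ^ 4 * q 1 * q 2 ^ 2) + (7) * (p 0 * p 1 ^ 2 * p 2 ^ 5 * q 0 ^ 2 * q 1 ^ 4 * q 2) + (3) * (p 0 * p 1 * p 2 ^ 6 * q 0 ^ 4 * q 1 ^ 2 * q 2) + p 0 * p 1 * p 2 ^ 6 * q 0 ^ 2 * q 1 ^ 5 + (2) * (p 1 ^ 7 * p 2 * q 0 * q 1 ^ 2 * q 2 ^ 4) + (5) * (p 1 ^ 6 * p 2 ^ 2 * q 0 * q 1 ^ 3 * q 2 ^ 3) + (2) * (p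 1 ^ 5 * p 2 ^ 3 * q 0 ^ 3 * q 1 * q 2 ^ 3) + (5) * (p 1 ^ 5 * p 2 ^ 3 * q 0 * q 1 ^ 4 * q 2 ^ 2) + (4) * (p 1 ^ 4 * p 2 ^ 4 * q 0 ^ 3 * q 1 ^ 2 * q 2 ^ 2) + (2) * (p 1 ^ 4 * p 2 ^ 4 * q 0 * q 1 ^ 5 * q 2) + (3) * (p 1 ^ 3 * p 2 ^ 5 * q 0 ^ 3 * q 1 ^ 3 * q 2) + p 1 ^ 2 * p 2 ^ 6 * q 0 ^ 5 * q 1 * q 2 + p 1 ^ 2 * p 2 ^ 6 * q 0 ^ 3 * q 1 ^ 4) * h2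

theorem id_I_312 (p q : Fin 3 → C) (h2 : (2 : C) = 0) (hp : hh p = 0) (hq : hh q = 0) :
    P12 p q * (a3 p q * P33 p q + n3 p q ^ 2 * b3 p q) + P23 p q * (a1 p q * P33 p q + n3 p q ^ 2 * b1 p q) = 0 := by
  simp only [hh, n1, n2, n3, gg, P11, P12, P13, P22, P23, P33, a1, a2, a3, β1, β2, β3, b1, b2, b3, A3, A2, A0] at hp hq ⊢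
  linear_combination (p 0 ^ 4 * q 0 ^ 5 * q 1 ^ 2 + p 0 ^ 4 * q 0 ^ 2 * q 1 ^ 2 * q 2 ^ 3 + p 0 ^ 3 * p 1 * q 0 ^ 3 * q 1 * q 2 ^ 3 + p 0 ^ 3 * p 1 * q 0 * q 1 ^ 4 * q 2 ^ 2 + p 0 ^ 3 * p 2 * q 0 ^ 3 * q 1 ^ 2 * q 2 ^ 2 + p 0 ^ 2 * p 1 ^ 2 * q 0 ^ 7 + p 0 ^ 2 * p 1 ^ 2 * q 0 ^ 4 * q 2 ^ 3 + p 0 ^ 2 * p 1 * p 2 * q 0 ^ 4 * q 1 * q 2 ^ 2 + p 0 ^ 2 * p 2 ^ 2 * q 0 ^ 4 * q 1 ^ 2 * q 2 + p 0 * p 1 ^ 3 * q 0 * q 1 ^ 5 * q 2 + p 0 * p 1 ^ 2 * p 2 * q 0 ^ 5 * q 2 ^ 2 + p 0 * p 1 ^ 2 * p 2 * q 0 * q 1 ^ 6 + p 0 * p 1 * p 2 ^ 2 * q 0 ^ 3 * q 1 ^ 4 + p 0 * p 2 ^ 3 * q 0 ^ 5 * q 1 ^ 2 + p 1 ^ 4 * q 0 ^ 2 * q 1 ^ 4 *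 q 2 + p 1 ^ 3 * p 2 * q 0 ^ 2 * q 1 ^ 5) * hp +
    (p 0 ^ 7 * p 1 * q 0 ^ 2 * q 1 + p 0 ^ 5 * p 1 * p 2 ^ 2 * q 0 * q 1 * q 2 + p 0 ^ 4 * p 1 ^ 4 * q 1 * q 2 ^ 2 + p 0 ^ 4 * p 1 ^ 2 * p 2 ^ 2 * q 0 ^ 2 * q 2 + p 0 ^ 4 * p 1 * p 2 ^ 3 * q 0 ^ 2 * q 1 + p 0 ^ 3 * p 1 ^ 2 * p 2 ^ 3 * q 0 ^ 3 + p 0 ^ 2 * p 1 ^ 6 * q 1 ^ 2 * q 2 + p 0 ^ 2 * p 1 ^ 5 * p 2 * q 1 ^ 3 + p 0 ^ 2 * p 1 ^ 4 * p 2 ^ 2 * q 0 ^ 2 * q 1 + p 0 * p 1 ^ 7 * q 0 * q 1 * q 2 + p 0 * p 1 ^ 6 * p 2 * q 0 * q 1 ^ 2) * hq +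
    ((3) * (p 0 ^ 6 * p 1 ^ 2 * q 0 ^ 4 * q 1 ^ 3) + p 0 ^ 6 * p 1 ^ 2 * q 0 * q 1 ^ 3 * q 2 ^ 3 + (2) * (p 0 ^ 6 * p 1 * p 2 * q 0 ^ 6 * q 1) + (3) * (p 0 ^ 6 * p 1 * p 2 * q 0 ^ 3 * q 1 * q 2 ^ 3) + p 0 ^ 6 * p 2 ^ 2 * q 0 ^ 3 * q 1 ^ 2 * q 2 ^ 2 + (5) * (p 0 ^ 5 * p 1 ^ 3 * q 0 ^ 5 * q 1 ^ 2) + (3) * (p 0 ^ 5 * p 1 ^ 3 * q 0 ^ 2 * q 1 ^ 2 * q 2 ^ 3) + p 0 ^ 5 * p 1 ^ 2 * p 2 * q 0 ^ 4 * q 2 ^ 3 + (7) * (p 0 ^ 5 * p 1 ^ 2 * p 2 * q 0 ^ 2 * q 1 ^ 3 * q 2 ^ 2) + p 0 ^ 5 * p 1 ^ 2 * p 2 * q 0 * q 2 ^ 6 + (9) * (p 0 ^ 5 * p 1 * p 2 ^ 2 * q 0 ^ 4 * q 1 * q 2 ^ 2) + (2) * (p 0 ^ 5 * p 1 * p 2 ^ 2 * q 0 ^ 2 *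 q 1 ^ 4 * q 2) + (2) * (p 0 ^ 5 * p 1 * p 2 ^ 2 * q 0 * q 1 * q 2 ^ 5) + (2) * (p 0 ^ 5 * p 2 ^ 3 * q 0 ^ 4 * q 1 ^ 2 * q 2) + p 0 ^ 5 * p 2 ^ 3 * q 0 ^ 2 * q 1 ^ 5 + p 0 ^ 5 * p 2 ^ 3 * q 0 * q 1 ^ 2 * q 2 ^ 4 + (3) * (p 0 ^ 4 * p 1 ^ 4 * q 0 ^ 6 * q 1) + (2) * (p 0 ^ 4 * p 1 ^ 4 * q 0 ^ 3 * q 1 * q 2 ^ 3) + (16) * (p 0 ^ 4 * p 1 ^ 3 * p 2 * q 0 ^ 3 * q 1 ^ 2 * q 2 ^ 2) + p 0 ^ 4 * p 1 ^ 3 * p 2 * q 0 * q 1 ^ 5 * q 2 + (2) * (p 0 ^ 4 * p 1 ^ 3 * p 2 * q 1 ^ 2 * q 2 ^ 5) + p 0 ^ 4 * p 1 ^ 2 * p 2 ^ 2 * q 0 ^ 5 * q 2 ^ 2 + (10) * (p 0 ^ 4 * p 1 ^ 2 * p 2 ^ 2 * q 0 ^ 3 * q 1 ^ 3 * q 2) + (3) * (p 0 ^ 4 * p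 1 ^ 2 * p 2 ^ 2 * q 0 ^ 2 * q 2 ^ 5) + (3) * (p 0 ^ 4 * p 1 ^ 2 * p 2 ^ 2 * q 1 ^ 3 * q 2 ^ 4) + (7) * (p 0 ^ 4 * p 1 * p 2 ^ 3 * q 0 ^ 5 * q 1 * q 2) + (5) * (p 0 ^ 4 * p 1 * p 2 ^ 3 * q 0 ^ 3 * q 1 ^ 4) + (8) * (p 0 ^ 4 * p 1 * p 2 ^ 3 * q 0 ^ 2 * q 1 * q 2 ^ 4) + p 0 ^ 4 * p 1 * p 2 ^ 3 * q 1 ^ 4 * q 2 ^ 3 + (3) * (p 0 ^ 4 * p 2 ^ 4 * q 0 ^ 2 * q 1 ^ 2 * q 2 ^ 3) + (3) * (p 0 ^ 3 * p 1 ^ 5 * q 0 ^ 2 * q 1 ^ 3 * q 2 ^ 2) + (9) * (p 0 ^ 3 * p 1 ^ 4 * p 2 * q 0 ^ 4 * q 1 * q 2 ^ 2) + (5) * (p 0 ^ 3 * p 1 ^ 4 * p 2 * q 0 ^ 2 * q 1 ^ 4 * q 2) + (5) * (p 0 ^ 3 * p 1 ^ 4 * p 2 * q 0 * q 1 * q 2 ^ 5) + (13) *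 (p 0 ^ 3 * p 1 ^ 3 * p 2 ^ 2 * q 0 ^ 4 * q 1 ^ 2 * q 2) + (2) * (p 0 ^ 3 * p 1 ^ 3 * p 2 ^ 2 * q 0 ^ 2 * q 1 ^ 5) + (14) * (p 0 ^ 3 * p 1 ^ 3 * p 2 ^ 2 * q 0 * q 1 ^ 2 * q 2 ^ 4) + p 0 ^ 3 * p 1 ^ 2 * p 2 ^ 3 * q 0 ^ 6 * q 2 + (9) * (p 0 ^ 3 * p 1 ^ 2 * p 2 ^ 3 * q 0 ^ 4 * q 1 ^ 3) + (4) * (p 0 ^ 3 * p 1 ^ 2 * p 2 ^ 3 * q 0 ^ 3 * q 2 ^ 4) + (13) * (p 0 ^ 3 * p 1 ^ 2 * p 2 ^ 3 * q 0 * q 1 ^ 3 * q 2 ^ 3) + (2) * (p 0 ^ 3 * p 1 * p 2 ^ 4 * q 0 ^ 6 * q 1) + (10) * (p 0 ^ 3 * p 1 * p 2 ^ 4 * q 0 ^ 3 * q 1 * q 2 ^ 3) + (7) * (p 0 ^ 3 * p 1 * p 2 ^ 4 * q 0 * q 1 ^ 4 * q 2 ^ 2) + (4) * (p 0 ^ 3 * p 2 ^ 5 * q 0 ^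 3 * q 1 ^ 2 * q 2 ^ 2) + (2) * (p 0 ^ 3 * p 2 ^ 5 * q 0 * q 1 ^ 5 * q 2) + (2) * (p 0 ^ 2 * p 1 ^ 6 * q 0 ^ 3 * q 1 ^ 2 * q 2 ^ 2) + -(p 0 ^ 2 * p 1 ^ 6 * q 0 * q 1 ^ 5 * q 2) + p 0 ^ 2 * p 1 ^ 5 * p 2 * q 0 ^ 5 * q 2 ^ 2 + (5) * (p 0 ^ 2 * p 1 ^ 5 * p 2 * q 0 ^ 3 * q 1 ^ 3 * q 2) + (2) * (p 0 ^ 2 * p 1 ^ 5 * p 2 * q 0 ^ 2 * q 2 ^ 5) + -(p 0 ^ 2 * p 1 ^ 5 * p 2 * q 0 * q 1 ^ 6) + (2) * (p 0 ^ 2 * p 1 ^ 5 * p 2 * q 1 ^ 3 * q 2 ^ 4) + (3) * (p 0 ^ 2 * p 1 ^ 4 * p 2 ^ 2 * q 0 ^ 5 * q 1 * q 2) + (2) * (p 0 ^ 2 * p 1 ^ 4 * p 2 ^ 2 * q 0 ^ 3 * q 1 ^ 4) + (11) * (p 0 ^ 2 * p 1 ^ 4 * p 2 ^ 2 * q 0 ^ 2 * q 1 * q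 2 ^ 4) + (5) * (p 0 ^ 2 * p 1 ^ 4 * p 2 ^ 2 * q 1 ^ 4 * q 2 ^ 3) + (5) * (p 0 ^ 2 * p 1 ^ 3 * p 2 ^ 3 * q 0 ^ 5 * q 1 ^ 2) + (20) * (p 0 ^ 2 * p 1 ^ 3 * p 2 ^ 3 * q 0 ^ 2 * q 1 ^ 2 * q 2 ^ 3) + (4) * (p 0 ^ 2 * p 1 ^ 3 * p 2 ^ 3 * q 1 ^ 5 * q 2 ^ 2) + (2) * (p 0 ^ 2 * p 1 ^ 2 * p 2 ^ 4 * q 0 ^ 4 * q 2 ^ 3) + (17) * (p 0 ^ 2 * p 1 ^ 2 * p 2 ^ 4 * q 0 ^ 2 * q 1 ^ 3 * q 2 ^ 2) + p 0 ^ 2 * p 1 ^ 2 * p 2 ^ 4 * q 1 ^ 6 * q 2 + (5) * (p 0 ^ 2 * p 1 * p 2 ^ 5 * q 0 ^ 4 * q 1 * q 2 ^ 2) + (6) * (p 0 ^ 2 * p 1 * p 2 ^ 5 * q 0 ^ 2 * q 1 ^ 4 * q 2) + (2) * (p 0 ^ 2 * p 2 ^ 6 * q 0 ^ 4 * q 1 ^ 2 * q 2) + p 0 ^ 2 * p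 2 ^ 6 * q 0 ^ 2 * q 1 ^ 5 + -(p 0 * p 1 ^ 7 * q 0 ^ 2 * q 1 ^ 4 * q 2) + p 0 * p 1 ^ 6 * p 2 * q 0 ^ 4 * q 1 ^ 2 * q 2 + -(p 0 * p 1 ^ 6 * p 2 * q 0 ^ 2 * q 1 ^ 5) + (3) * (p 0 * p 1 ^ 6 * p 2 * q 0 * q 1 ^ 2 * q 2 ^ 4) + p 0 * p 1 ^ 5 * p 2 ^ 2 * q 0 ^ 4 * q 1 ^ 3 + p 0 * p 1 ^ 5 * p 2 ^ 2 * q 0 ^ 3 * q 2 ^ 4 + (9) * (p 0 * p 1 ^ 5 * p 2 ^ 2 * q 0 * q 1 ^ 3 * q 2 ^ 3) + p 0 * p 1 ^ 4 * p 2 ^ 3 * q 0 ^ 6 * q 1 + (6) * (p 0 * p 1 ^ 4 * p 2 ^ 3 * q 0 ^ 3 * q 1 * q 2 ^ 3) + (9) * (p 0 * p 1 ^ 4 * p 2 ^ 3 * q 0 * q 1 ^ 4 * q 2 ^ 2) + (11) * (p 0 * p 1 ^ 3 * p 2 ^ 4 * q 0 ^ 3 * q 1 ^ 2 * q 2 ^ 2) + (3) * (p 0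 * p 1 ^ 3 * p 2 ^ 4 * q 0 * q 1 ^ 5 * q 2) + (7) * (p 0 * p 1 ^ 2 * p 2 ^ 5 * q 0 ^ 3 * q 1 ^ 3 * q 2) + p 0 * p 1 * p 2 ^ 6 * q 0 ^ 5 * q 1 * q 2 + p 0 * p 1 * p 2 ^ 6 * q 0 ^ 3 * q 1 ^ 4 + p 1 ^ 7 * p 2 * q 0 ^ 2 * q 1 * q 2 ^ 4 + (4) * (p 1 ^ 6 * p 2 ^ 2 * q 0 ^ 2 * q 1 ^ 2 * q 2 ^ 3) + (5) * (p 1 ^ 5 * p 2 ^ 3 * q 0 ^ 2 * q 1 ^ 3 * q 2 ^ 2) + p 1 ^ 4 * p 2 ^ 4 * q 0 ^ 4 * q 1 * q 2 ^ 2 + (2) * (p 1 ^ 4 * p 2 ^ 4 * q 0 ^ 2 * q 1 ^ 4 * q 2) + (2) * (p 1 ^ 3 * p 2 ^ 5 * q 0 ^ 4 * q 1 ^ 2 * q 2) + p 1 ^ 2 * p 2 ^ 6 * q 0 ^ 4 * q 1 ^ 3) * h2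

theorem id_I_322 (p q : Fin 3 → C) (h2 : (2 : C) = 0) (hp : hh p = 0) (hq : hh q = 0) :
    P22 p q * (a3 p q * P33 p q + n3 p q ^ 2 * b3 p q) + P23 p q * (a2 p q * P33 p q + n3 p q ^ 2 * b2 p q) = 0 := by
  simp only [hh, n1, n2, n3, gg, P11, P12, P13, P22, P23, P33, a1, a2, a3, β1, β2, β3, b1, b2, b3, A3, A2, A0] at hp hq ⊢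
  linear_combination (p 0 ^ 4 * q 0 ^ 3 * q 1 * q 2 ^ 3 + p 0 ^ 3 * p 1 * q 0 ^ 7 + p 0 ^ 3 * p 1 * q 0 ^ 4 * q 2 ^ 3 + p 0 ^ 3 * p 1 * q 0 ^ 2 * q 1 ^ 3 * q 2 ^ 2 + p 0 ^ 3 * p 2 * q 0 ^ 4 * q 1 * q 2 ^ 2 + p 0 ^ 2 * p 1 * p 2 * q 0 ^ 5 * q 2 ^ 2 + p 0 * p 1 ^ 3 * q 0 ^ 2 * q 1 ^ 4 * q 2 + p 0 * p 1 ^ 2 * p 2 * q 0 ^ 2 * q 1 ^ 5 + p 0 * p 1 * p 2 ^ 2 * q 0 ^ 4 * q 1 ^ 3 + p 1 ^ 4 * q 0 ^ 3 * q 1 ^ 3 * q 2 + p 1 ^ 3 * p 2 * q 0 ^ 3 * q 1 ^ 4) * hp +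
    (p 0 ^ 8 * q 0 ^ 2 * q 1 + p 0 ^ 6 * p 2 ^ 2 * q 0 * q 1 * q 2 + p 0 ^ 5 * p 1 ^ 3 * q 1 * q 2 ^ 2 + p 0 ^ 5 * p 1 * p 2 ^ 2 * q 0 ^ 2 * q 2 + p 0 ^ 5 * p 2 ^ 3 * q 0 ^ 2 * q 1 + p 0 ^ 4 * p 1 * p 2 ^ 3 * q 0 ^ 3 + p 0 ^ 3 * p 1 ^ 5 * q 1 ^ 2 * q 2 + p 0 ^ 3 * p 1 ^ 4 * p 2 * q 1 ^ 3 + p 0 ^ 3 * p 1 ^ 3 * p 2 ^ 2 * q 0 ^ 2 * q 1 + p 0 ^ 2 * p 1 ^ 6 * q 0 * q 1 * q 2 + p 0 ^ 2 * p 1 ^ 5 * p 2 * q 0 * q 1 ^ 2) * hq +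
    ((3) * (p 0 ^ 7 * p 1 * q 0 ^ 4 * q 1 ^ 3) + p 0 ^ 7 * p 1 * q 0 * q 1 ^ 3 * q 2 ^ 3 + p 0 ^ 7 * p 2 * q 0 ^ 3 * q 1 * q 2 ^ 3 + (6) * (p 0 ^ 6 * p 1 ^ 2 * q 0 ^ 5 * q 1 ^ 2) + (4) * (p 0 ^ 6 * p 1 ^ 2 * q 0 ^ 2 * q 1 ^ 2 * q 2 ^ 3) + (3) * (p 0 ^ 6 * p 1 * p 2 * q 0 ^ 2 * q 1 ^ 3 * q 2 ^ 2) + p 0 ^ 6 * p 2 ^ 2 * q 0 ^ 4 * q 1 * q 2 ^ 2 + p 0 ^ 6 * p 2 ^ 2 * q 0 ^ 2 * q 1 ^ 4 * q 2 + (3) * (p 0 ^ 5 * p 1 ^ 3 * q 0 ^ 6 * q 1) + (2) * (p 0 ^ 5 * p 1 ^ 3 * q 0 ^ 3 * q 1 * q 2 ^ 3) + p 0 ^ 5 * p 1 ^ 3 * q 0 * q 1 ^ 4 * q 2 ^ 2 + (11) * (p 0 ^ 5 * p 1 ^ 2 * p 2 * q 0 ^ 3 * q 1 ^ 2 * q 2 ^ 2) + (2) * (p 0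 ^ 5 * p 1 ^ 2 * p 2 * q 0 * q 1 ^ 5 * q 2) + p 0 ^ 5 * p 1 ^ 2 * p 2 * q 1 ^ 2 * q 2 ^ 5 + p 0 ^ 5 * p 1 * p 2 ^ 2 * q 0 ^ 5 * q 2 ^ 2 + (5) * (p 0 ^ 5 * p 1 * p 2 ^ 2 * q 0 ^ 3 * q 1 ^ 3 * q 2) + p 0 ^ 5 * p 1 * p 2 ^ 2 * q 0 * q 1 ^ 6 + p 0 ^ 5 * p 1 * p 2 ^ 2 * q 1 ^ 3 * q 2 ^ 4 + p 0 ^ 5 * p 2 ^ 3 * q 0 ^ 2 * q 1 * q 2 ^ 4 + (4) * (p 0 ^ 4 * p 1 ^ 4 * q 0 ^ 2 * q 1 ^ 3 * q 2 ^ 2) + (5) * (p 0 ^ 4 * p 1 ^ 3 * p 2 * q 0 ^ 4 * q 1 * q 2 ^ 2) + (8) * (p 0 ^ 4 * p 1 ^ 3 * p 2 * q 0 ^ 2 * q 1 ^ 4 * q 2) + (2) * (p 0 ^ 4 * p 1 ^ 3 * p 2 * q 0 * q 1 * q 2 ^ 5) + (11) * (p 0 ^ 4 * p 1 ^ 2 * p 2 ^ 2 * q 0 ^ 4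 * q 1 ^ 2 * q 2) + (5) * (p 0 ^ 4 * p 1 ^ 2 * p 2 ^ 2 * q 0 ^ 2 * q 1 ^ 5) + (6) * (p 0 ^ 4 * p 1 ^ 2 * p 2 ^ 2 * q 0 * q 1 ^ 2 * q 2 ^ 4) + p 0 ^ 4 * p 1 * p 2 ^ 3 * q 0 ^ 6 * q 2 + (2) * (p 0 ^ 4 * p 1 * p 2 ^ 3 * q 0 ^ 4 * q 1 ^ 3) + p 0 ^ 4 * p 1 * p 2 ^ 3 * q 0 ^ 3 * q 2 ^ 4 + (3) * (p 0 ^ 4 * p 1 * p 2 ^ 3 * q 0 * q 1 ^ 3 * q 2 ^ 3) + p 0 ^ 4 * p 2 ^ 4 * q 0 ^ 3 * q 1 * q 2 ^ 3 + p 0 ^ 4 * p 2 ^ 4 * q 0 * q 1 ^ 4 * q 2 ^ 2 + (3) * (p 0 ^ 3 * p 1 ^ 5 * q 0 ^ 3 * q 1 ^ 2 * q 2 ^ 2) + p 0 ^ 3 * p 1 ^ 4 * p 2 * q 0 ^ 5 * q 2 ^ 2 + (9) * (p 0 ^ 3 * p 1 ^ 4 * p 2 * q 0 ^ 3 * q 1 ^ 3 * q 2) + (2) * (p 0 ^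 3 * p 1 ^ 4 * p 2 * q 1 ^ 3 * q 2 ^ 4) + (3) * (p 0 ^ 3 * p 1 ^ 3 * p 2 ^ 2 * q 0 ^ 5 * q 1 * q 2) + (7) * (p 0 ^ 3 * p 1 ^ 3 * p 2 ^ 2 * q 0 ^ 3 * q 1 ^ 4) + (5) * (p 0 ^ 3 * p 1 ^ 3 * p 2 ^ 2 * q 0 ^ 2 * q 1 * q 2 ^ 4) + (5) * (p 0 ^ 3 * p 1 ^ 3 * p 2 ^ 2 * q 1 ^ 4 * q 2 ^ 3) + (4) * (p 0 ^ 3 * p 1 ^ 2 * p 2 ^ 3 * q 0 ^ 5 * q 1 ^ 2) + (8) * (p 0 ^ 3 * p 1 ^ 2 * p 2 ^ 3 * q 0 ^ 2 * q 1 ^ 2 * q 2 ^ 3) + (4) * (p 0 ^ 3 * p 1 ^ 2 * p 2 ^ 3 * q 1 ^ 5 * q 2 ^ 2) + p 0 ^ 3 * p 1 * p 2 ^ 4 * q 0 ^ 4 * q 2 ^ 3 + (5) * (p 0 ^ 3 * p 1 * p 2 ^ 4 * q 0 ^ 2 * q 1 ^ 3 * q 2 ^ 2) + p 0 ^ 3 * p 1 * p 2 ^ 4 * q 1 ^ 6 *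 q 2 + (4) * (p 0 ^ 2 * p 1 ^ 5 * p 2 * q 0 ^ 4 * q 1 ^ 2 * q 2) + (3) * (p 0 ^ 2 * p 1 ^ 5 * p 2 * q 0 * q 1 ^ 2 * q 2 ^ 4) + (4) * (p 0 ^ 2 * p 1 ^ 4 * p 2 ^ 2 * q 0 ^ 4 * q 1 ^ 3) + p 0 ^ 2 * p 1 ^ 4 * p 2 ^ 2 * q 0 ^ 3 * q 2 ^ 4 + (10) * (p 0 ^ 2 * p 1 ^ 4 * p 2 ^ 2 * q 0 * q 1 ^ 3 * q 2 ^ 3) + p 0 ^ 2 * p 1 ^ 3 * p 2 ^ 3 * q 0 ^ 6 * q 1 + (3) * (p 0 ^ 2 * p 1 ^ 3 * p 2 ^ 3 * q 0 ^ 3 * q 1 * q 2 ^ 3) + (11) * (p 0 ^ 2 * p 1 ^ 3 * p 2 ^ 3 * q 0 * q 1 ^ 4 * q 2 ^ 2) + (6) * (p 0 ^ 2 * p 1 ^ 2 * p 2 ^ 4 * q 0 ^ 3 * q 1 ^ 2 * q 2 ^ 2) + (5) * (p 0 ^ 2 * p 1 ^ 2 * p 2 ^ 4 * q 0 * q 1 ^ 5 * q 2) + (2) * (p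 0 ^ 2 * p 1 * p 2 ^ 5 * q 0 ^ 3 * q 1 ^ 3 * q 2) + p 0 ^ 2 * p 1 * p 2 ^ 5 * q 0 * q 1 ^ 6 + p 0 * p 1 ^ 6 * p 2 * q 0 ^ 5 * q 1 * q 2 + p 0 * p 1 ^ 6 * p 2 * q 0 ^ 2 * q 1 * q 2 ^ 4 + p 0 * p 1 ^ 5 * p 2 ^ 2 * q 0 ^ 5 * q 1 ^ 2 + (6) * (p 0 * p 1 ^ 5 * p 2 ^ 2 * q 0 ^ 2 * q 1 ^ 2 * q 2 ^ 3) + (9) * (p 0 * p 1 ^ 4 * p 2 ^ 3 * q 0 ^ 2 * q 1 ^ 3 * q 2 ^ 2) + p 0 * p 1 ^ 3 * p 2 ^ 4 * q 0 ^ 4 * q 1 * q 2 ^ 2 + (5) * (p 0 * p 1 ^ 3 * p 2 ^ 4 * q 0 ^ 2 * q 1 ^ 4 * q 2) + p 0 * p 1 ^ 2 * p 2 ^ 5 * q 0 ^ 4 * q 1 ^ 2 * q 2 + p 0 * p 1 ^ 2 * p 2 ^ 5 * q 0 ^ 2 * q 1 ^ 5 + p 1 ^ 6 * p 2 ^ 2 * q 0 ^ 3 * q 1 * q 2 ^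 3 + (2) * (p 1 ^ 5 * p 2 ^ 3 * q 0 ^ 3 * q 1 ^ 2 * q 2 ^ 2) + p 1 ^ 4 * p 2 ^ 4 * q 0 ^ 3 * q 1 ^ 3 * q 2) * h2

end Pool.Agent.H919.FP
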