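import Pool.Agent.H919.FP.Asm

/-! Final assembly. -/

open CategoryTheory Limits AlgebraicGeometry

namespace Pool.Agent.H919.FP

/-- `UU.ι ≫ fst` is smooth since `OO` is smooth over `𝔽₂`. -/
theorem smooth_UU_fst (hO : Smooth (OO.ι ≫ str)) : Smooth (UU.ι ≫ pullback.fst str str) := by
  let V : (pullback str str).Opens := (pullback.snd str str) ⁻¹ᵁ OO
  have sq := (isPullback_morphismRestrict (pullback.snd str str) OO).flip.paste_horiz
    (IsPullback.of_hasPullback str str)
  have h1 : Smooth (V.ι ≫ pullback.fst str str) :=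
    MorphismProperty.of_isPullback (P := @Smooth) sq.flip hO
  have hle : UU ≤ V := inf_le_right
  have h2 : UU.ι = (pullback str str).homOfLE hle ≫ V.ι := by simp
  rw [h2, Category.assoc]
  infer_instance

theorem isCompact_UU : IsCompact (UU : Set ↥(pullback str str)) := by
  have h0 : IsCompact (OO : Set TT) :=
    (PrimeSpectrum.isCompact_basicOpen (pB 0)).union (PrimeSpectrum.isCompact_basicOpen (pB 1))
  have h1 : IsCompact ((pullback.fst str str) ⁻¹ᵁ OO : Set ↥(pullback str str)) :=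
    (pullback.fst str str).isCompact_preimage h0
  have h2 : IsCompact ((pullback.snd str str) ⁻¹ᵁ OO : Set ↥(pullback str str)) :=
    (pullback.snd str str).isCompact_preimage h0
  exact QuasiSeparatedSpace.inter_isCompact _ _ ((pullback.fst str str) ⁻¹ᵁ OO).isOpen h1
    ((pullback.snd str str) ⁻¹ᵁ OO).isOpen h2

/-- existence of the unit -/
theorem exists_e (hL2 : S_L2) (hEX : S_EX) (hB : S_B1)
    {A : Type} [CommRing A] (D : ChartData A) (b : B →+* A) (hb : ∀ i, b (pB i) = D.q i)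
    {R : Scheme.{0}} (ρ : R ⟶ pullback str str) [IsIso (ρ ∣_ UU)]
    (jW : Spec (CommRingCat.of A) ⟶ R) (hjW : jW ≫ ρ = wmap D.a b) :
    ∃ e : TT ⟶ R, e ≫ ρ = pullback.lift (𝟙 TT) (𝟙 TT) rfl := by
  have hc : ∀ i, (RingHom.id B) (pB i) + 1 * (RingHom.id B) (pB i) ∈ mI (pt (RingHom.id B)) ^ 2 := by
    intro i
    have : (RingHom.id B) (pB i) + 1 * (RingHom.id B) (pB i) = 2 * pB i := by
      simp only [RingHom.id_apply]; ring
    rw [this, hB.2.1, zero_mul]
    exact zero_mem _
  have hk : 𝟙 TT ≫ pullback.lift (𝟙 TT) (𝟙 TT) rfl = wmap (RingHom.id B) (RingHom.id B) := by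
    apply pullback.hom_ext
    · rw [Category.id_comp, pullback.lift_fst, wmap, pullback.lift_fst]
      simp
    · rw [Category.id_comp, pullback.lift_snd, wmap, pullback.lift_snd]
      simp
  exact exists_lift hL2 hEX hB D b hb ρ jW hjW (RingHom.id B) (RingHom.id B) (RingHom.id B)
    (RingHom.Flat.id B) 1 1 isUnit_one isUnit_one hc hc (fun z hz => ⟨hz, hz⟩) _ (𝟙 TT) hk
    (fun v => Or.inr ⟨v, rfl⟩)

/-- existence of the inverse -/
theorem exists_i (hL2 : S_L2) (hEX : S_EX) (hB : S_B1)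
    {A : Type} [CommRing A] (D : ChartData A) (b : B →+* A) (hb : ∀ i, b (pB i) = D.q i)
    {R : Scheme.{0}} (ρ : R ⟶ pullback str str) [IsIso (ρ ∣_ UU)]
    (jW : Spec (CommRingCat.of A) ⟶ R) [IsOpenImmersion jW] (hjW : jW ≫ ρ = wmap D.a b)
    (hcov : ∀ z : R, ρ z ∈ UU ∨ ∃ x : Spec (CommRingCat.of A), jW x = z)
    (s t : R ⟶ TT) (hs : ρ ≫ pullback.fst str str = s) (ht : ρ ≫ pullback.snd str str = t)
    (hst : t ≫ str = s ≫ str) :
    ∃ i : R ⟶ R, i ≫ ρ = pullback.lift t s hst := by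
  have hjs : jW ≫ s = Spec.map (CommRingCat.ofHom D.a) := by
    rw [← hs, ← Category.assoc, hjW, wmap, pullback.lift_fst]
  have hjt : jW ≫ t = Spec.map (CommRingCat.ofHom b) := by
    rw [← ht, ← Category.assoc, hjW, wmap, pullback.lift_snd]
  have hk : jW ≫ pullback.lift t s hst = wmap b D.a := by
    apply pullback.hom_ext
    · rw [Category.assoc, pullback.lift_fst, wmap, pullback.lift_fst, hjt]
    · rw [Category.assoc, pullback.lift_snd, wmap, pullback.lift_snd, hjs]
  have hflat : D.a.Flat := by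
    let _ : Algebra B A := D.a.toAlgebra
    have : Algebra.Smooth B A := D.smooth
    exact (inferInstance : Module.Flat B A)
  refine exists_lift hL2 hEX hB D b hb ρ jW hjW D.a b D.a hflat D.u 1
    (IsUnit.of_mul_eq_one _ D.rel.uw) isUnit_one ?_ ?_ ?_ _ jW hk ?_
  · intro i
    rw [hb i]
    exact D.hcong i
  · intro i
    have : D.a (pB i) + 1 * D.a (pB i) = 2 * D.a (pB i) := by ring
    rw [this, D.two, zero_mul]
    exact zero_mem _
  · intro z hz
    exact ⟨(chart_iff hB D b hb z).mp hz, hz⟩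
  · intro v
    rcases hcov v with h | h
    · left
      have h1 : (pullback.fst str str) (pullback.lift t s hst v) = t v := by
        rw [← Scheme.Hom.comp_apply, pullback.lift_fst]
      have h2 : (pullback.snd str str) (pullback.lift t s hst v) = s v := by
        rw [← Scheme.Hom.comp_apply, pullback.lift_snd]
      have h3 : s v = (pullback.fst str str) (ρ v) := by
        rw [← hs, Scheme.Hom.comp_apply]
      have h4 : t v = (pullback.snd str str) (ρ v) := by
        rw [← ht, Scheme.Hom.comp_apply]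
      have h5 : (pullback.fst str str) (ρ v) ∈ OO ∧ (pullback.snd str str) (ρ v) ∈ OO := h
      change (pullback.fst str str) (pullback.lift t s hst v) ∈ OO ∧
        (pullback.snd str str) (pullback.lift t s hst v) ∈ OO
      rw [h1, h2, h3, h4]
      exact ⟨h5.2, h5.1⟩
    · exact Or.inr h

/-- existence of the composition -/
theorem exists_m (hL2 : S_L2) (hEX : S_EX) (hB : S_B1)
    {A : Type} [CommRing A] (D : ChartData A) (b : B →+* A) (hb : ∀ i, b (pB i) = D.q i)
    {R : Scheme.{0}} (ρ : R ⟶ pullback str str) [IsIso (ρ ∣_ UU)]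
    (jW : Spec (CommRingCat.of A) ⟶ R) [IsOpenImmersion jW] (hjW : jW ≫ ρ = wmap D.a b)
    (hcov : ∀ z : R, ρ z ∈ UU ∨ ∃ x : Spec (CommRingCat.of A), jW x = z)
    (s t : R ⟶ TT) (hs : ρ ≫ pullback.fst str str = s) (ht : ρ ≫ pullback.snd str str = t)
    (hiff : ∀ z : R, s z ∈ OO ↔ t z ∈ OO)
    (hst : (pullback.fst t s ≫ s) ≫ str = (pullback.snd t s ≫ t) ≫ str) :
    ∃ m : pullback t s ⟶ R, m ≫ ρ = pullback.lift (pullback.fst t s ≫ s)
      (pullback.snd t s ≫ t) hst := by
  have hjs : jW ≫ s = Spec.map (CommRingCat.ofHom D.a) := by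
    rw [← hs, ← Category.assoc, hjW, wmap, pullback.lift_fst]
  have hjt : jW ≫ t = Spec.map (CommRingCat.ofHom b) := by
    rw [← ht, ← Category.assoc, hjW, wmap, pullback.lift_snd]
  have hflat : D.a.Flat := by
    let _ : Algebra B A := D.a.toAlgebra
    have : Algebra.Smooth B A := D.smooth
    exact (inferInstance : Module.Flat B A)
  let f := Spec.map (CommRingCat.ofHom b)
  let g := Spec.map (CommRingCat.ofHom D.a)
  let P := pullback f g
  let k0 : P ⟶ pullback t s := pullback.map f g t s jW jW (𝟙 TT)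
    (by rw [hjt, Category.comp_id]) (by rw [hjs, Category.comp_id])
  obtain ⟨C, hC, ⟨e⟩⟩ : ∃ (C : Type) (_ : CommRing C), Nonempty (Spec (CommRingCat.of C) ≅ P) :=
    ⟨Γ(P, ⊤), inferInstance, ⟨P.isoSpec.symm⟩⟩
  obtain ⟨π1, hπ1⟩ : ∃ π1 : A →+* C, Spec.map (CommRingCat.ofHom π1) = e.hom ≫ pullback.fst f g :=
    ⟨(Spec.preimage (e.hom ≫ pullback.fst f g)).hom, by simp⟩
  obtain ⟨π2, hπ2⟩ : ∃ π2 : A →+* C, Spec.map (CommRingCat.ofHom π2) = e.hom ≫ pullback.snd f g :=
    ⟨(Spec.preimage (e.hom ≫ pullback.snd f g)).hom, by simp⟩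
  have hrel : π1.comp b = π2.comp D.a := by
    have h1 : Spec.map (CommRingCat.ofHom (π1.comp b)) =
        Spec.map (CommRingCat.ofHom (π2.comp D.a)) := by
      rw [CommRingCat.ofHom_comp, CommRingCat.ofHom_comp, Spec.map_comp, Spec.map_comp, hπ1, hπ2,
        Category.assoc, Category.assoc]
      exact congrArg (e.hom ≫ ·) pullback.condition
    have h2 := Spec.map_injective h1
    exact congrArg CommRingCat.Hom.hom h2
  have hrel' : ∀ i, π2 (D.a (pB i)) = π1 (D.q i) := by
    intro i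
    have := congrArg (fun ψ => ψ (pB i)) hrel
    simp only [RingHom.comp_apply, hb] at this
    exact this.symm
  have hm : ∀ i, π1 (D.q i) ∈ mI (pt (π1.comp D.a)) := by
    intro i
    have := Ideal.mem_map_of_mem π1 (D.hqm i)
    rwa [mI_map] at this
  have hle : mI (pt (π2.comp D.a)) ≤ mI (pt (π1.comp D.a)) := by
    rw [mI, Ideal.span_le]
    rintro _ ⟨i, rfl⟩
    change π2 (D.a (pB i)) ∈ _
    rw [hrel' i]
    exact hm i
  have hc1 : ∀ i, π1 (D.q i) + π1 D.u * π1 (D.a (pB i)) ∈ mI (pt (π1.comp D.a)) ^ 2 := by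
    intro i
    have := Ideal.mem_map_of_mem π1 (D.hcong i)
    rw [Ideal.map_pow, mI_map, map_add, map_mul] at this
    exact this
  have hc2 : ∀ i, π2 (D.q i) + π2 D.u * π2 (D.a (pB i)) ∈ mI (pt (π1.comp D.a)) ^ 2 := by
    intro i
    have := Ideal.mem_map_of_mem π2 (D.hcong i)
    rw [Ideal.map_pow, mI_map, map_add, map_mul] at this
    exact Ideal.pow_right_mono hle 2 this
  have hu : IsUnit D.u := IsUnit.of_mul_eq_one _ D.rel.uw
  have htwo : (2 : C) = 0 := by
    have := congrArg π1 D.two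
    rwa [map_ofNat, map_zero] at this
  refine exists_lift hL2 hEX hB D b hb ρ jW hjW (π1.comp D.a) (π1.comp D.a) (π2.comp b) ?_
    1 (-(π2 D.u * π1 D.u)) isUnit_one ((hu.map π2).mul (hu.map π1)).neg ?_ ?_ ?_ _
    (e.hom ≫ k0) ?_ ?_
  · have h1 : Flat (Spec.map (CommRingCat.ofHom (π1.comp D.a))) := by
      rw [CommRingCat.ofHom_comp, Spec.map_comp, hπ1]
      have : Flat g := Flat.SpecMap_iff.mpr hflat
      have : Flat (Spec.map (CommRingCat.ofHom D.a)) := this
      infer_instance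
    exact Flat.SpecMap_iff.mp h1
  · intro i
    have : (π1.comp D.a) (pB i) + 1 * (π1.comp D.a) (pB i) = 2 * (π1.comp D.a) (pB i) := by ring
    rw [this, htwo, zero_mul]
    exact zero_mem _
  · intro i
    have e1 : (π2.comp b) (pB i) + -(π2 D.u * π1 D.u) * (π1.comp D.a) (pB i)
        = (π2 (D.q i) + π2 D.u * π2 (D.a (pB i)))
          - π2 D.u * (π1 (D.q i) + π1 D.u * π1 (D.a (pB i))) := by
      simp only [RingHom.comp_apply, hb, hrel']; ring
    rw [e1]
    exact Ideal.sub_mem _ (hc2 i) (Ideal.mul_mem_left _ _ (hc1 i))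
  · intro z hz
    refine ⟨hz, ?_⟩
    have h1 : (Spec.map (CommRingCat.ofHom (π1.comp b))) z ∈ OO :=
      (chart_iff hB D b hb (PrimeSpectrum.comap π1 z)).mp hz
    rw [hrel] at h1
    exact (chart_iff hB D b hb (PrimeSpectrum.comap π2 z)).mp h1
  · apply pullback.hom_ext
    · rw [Category.assoc, pullback.lift_fst, wmap, pullback.lift_fst, Category.assoc,
        pullback.lift_fst_assoc, Category.assoc, hjs, CommRingCat.ofHom_comp, Spec.map_comp, hπ1,
        Category.assoc]
    · rw [Category.assoc, pullback.lift_snd, wmap, pullback.lift_snd, Category.assoc,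
        pullback.lift_snd_assoc, Category.assoc, hjt, CommRingCat.ofHom_comp, Spec.map_comp, hπ2,
        Category.assoc]
  · intro v
    let φV := pullback.lift (pullback.fst t s ≫ s) (pullback.snd t s ≫ t) hst
    have e1 : (pullback.fst str str) (φV v) = s (pullback.fst t s v) := by
      rw [← Scheme.Hom.comp_apply, pullback.lift_fst, Scheme.Hom.comp_apply]
    have e2 : (pullback.snd str str) (φV v) = t (pullback.snd t s v) := by
      rw [← Scheme.Hom.comp_apply, pullback.lift_snd, Scheme.Hom.comp_apply]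
    have e3 : t (pullback.fst t s v) = s (pullback.snd t s v) := by
      rw [← Scheme.Hom.comp_apply, pullback.condition, Scheme.Hom.comp_apply]
    by_cases h : s (pullback.fst t s v) ∈ OO
    · left
      change (pullback.fst str str) (φV v) ∈ OO ∧ (pullback.snd str str) (φV v) ∈ OO
      rw [e1, e2]
      refine ⟨h, ?_⟩
      rw [← hiff, ← e3, ← hiff]
      exact h
    · right
      have h' : ¬ s (pullback.snd t s v) ∈ OO := by
        rw [← e3, ← hiff]; exact h
      have key : ∀ r : R, ¬ s r ∈ OO → ∃ x : Spec (CommRingCat.of A), jW x = r := by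
        intro r hr
        rcases hcov r with h1 | h1
        · exfalso
          apply hr
          have h2 : (pullback.fst str str) (ρ r) ∈ OO := h1.1
          rwa [← Scheme.Hom.comp_apply, hs] at h2
        · exact h1
      have hmem : v ∈ Set.range k0 := by
        rw [Scheme.Pullback.range_map]
        exact ⟨key _ h, key _ h'⟩
      obtain ⟨y, hy⟩ := hmem
      refine ⟨e.inv y, ?_⟩
      rw [← Scheme.Hom.comp_apply, Iso.inv_hom_id_assoc, hy]

theorem final_of (hG1 : S_G1) (hG2 : S_G2) (hL2 : S_L2) (hGpd : S_Gpd) (hFib : S_Fib)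
    (hStab : S_Stab) (hB1 : S_B1) (hB2 : S_B2) (hN : S_N) (hSm : S_Sm) (hO : S_O) (hW2 : S_W2)
    (hEX : S_EX) : Final := by
  obtain ⟨A, _, ⟨D⟩⟩ := exists_chartData hB1 hB2 hN hSm
  obtain ⟨b, hb⟩ := hB1.2.2.2.1 A D.q D.two D.hq
  have hopen : IsOpenImmersion (wmap D.a b ∣_ UU) := hW2 A D b hb
  obtain ⟨hiW, hiU, hcov, hUU, hiso⟩ := hG1 (wmap D.a b) UU
  obtain ⟨hsep, hqc⟩ := hG2 (wmap D.a b) UU isCompact_UU
  obtain ⟨R, hR⟩ : ∃ R, R = glue (wmap D.a b) UU := ⟨_, rfl⟩
  have hjW : inW (wmap D.a b) UU ≫ rho (wmap D.a b) UU = wmap D.a b := pushout.inl_desc _ _ _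
  have hjU : inU (wmap D.a b) UU ≫ rho (wmap D.a b) UU = UU.ι := pushout.inr_desc _ _ _
  have hcov' : ∀ z : glue (wmap D.a b) UU, rho (wmap D.a b) UU z ∈ UU ∨
      ∃ x : Spec (CommRingCat.of A), inW (wmap D.a b) UU x = z := by
    intro z
    rcases hcov z with h | h
    · exact Or.inr h
    · exact Or.inl ((hUU z).mpr h)
  generalize hρ : rho (wmap D.a b) UU = ρ at *
  generalize hiWe : inW (wmap D.a b) UU = iW at *
  generalize hiUe : inU (wmap D.a b) UU = iU at *
  have hst0 : (ρ ≫ pullback.fst str str) ≫ str = (ρ ≫ pullback.snd str str) ≫ str := by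
    rw [Category.assoc, Category.assoc, pullback.condition]
  obtain ⟨s, hs⟩ : ∃ s, ρ ≫ pullback.fst str str = s := ⟨_, rfl⟩
  obtain ⟨t, ht⟩ : ∃ t, ρ ≫ pullback.snd str str = t := ⟨_, rfl⟩
  rw [hs, ht] at hst0
  have hjs : iW ≫ s = Spec.map (CommRingCat.ofHom D.a) := by
    rw [← hs, ← Category.assoc, hjW, wmap, pullback.lift_fst]
  have hjt : iW ≫ t = Spec.map (CommRingCat.ofHom b) := by
    rw [← ht, ← Category.assoc, hjW, wmap, pullback.lift_snd]
  -- source in `O` iff target in `O`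
  have hiff : ∀ z : glue (wmap D.a b) UU, s z ∈ OO ↔ t z ∈ OO := by
    intro z
    rcases hcov z with ⟨x, rfl⟩ | ⟨x, rfl⟩
    · rw [← Scheme.Hom.comp_apply, ← Scheme.Hom.comp_apply, hjs, hjt]
      exact chart_iff hB1 D b hb x
    · have h1 : ρ (iU x) ∈ UU := by
        rw [← Scheme.Hom.comp_apply, hjU]
        exact x.2
      have h2 : (pullback.fst str str) (ρ (iU x)) ∈ OO ∧ (pullback.snd str str) (ρ (iU x)) ∈ OO := h1
      have h3 : s (iU x) ∈ OO := by rw [← hs, Scheme.Hom.comp_apply]; exact h2.1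
      have h4 : t (iU x) ∈ OO := by rw [← ht, Scheme.Hom.comp_apply]; exact h2.2
      exact ⟨fun _ => h4, fun _ => h3⟩
  -- `s` is smooth
  have hsm : Smooth s := by
    let 𝒰 : (glue (wmap D.a b) UU).OpenCover := {
      I₀ := Bool
      X := fun i => Bool.rec (Spec (CommRingCat.of A)) (UU : Scheme.{0}) i
      f := fun i => Bool.rec iW iU i
      mem₀ := by
        rw [Scheme.presieve₀_mem_precoverage_iff]
        refine ⟨fun z => ?_, fun i => ?_⟩
        · rcases hcov z with ⟨x, hx⟩ | ⟨x, hx⟩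
          · exact ⟨false, x, hx⟩
          · exact ⟨true, x, hx⟩
        · cases i
          · exact hiW
          · exact hiU }
    have : IsZariskiLocalAtSource (@Smooth : MorphismProperty Scheme.{0}) :=
      HasRingHomProperty.instIsZariskiLocalAtSource (Q := RingHom.Smooth)
    rw [IsZariskiLocalAtSource.iff_of_openCover (P := @Smooth) 𝒰]
    intro i
    cases i
    · change Smooth (iW ≫ s)
      rw [hjs]
      exact (HasRingHomProperty.Spec_iff (P := @Smooth)).mpr D.smooth
    · change Smooth (iU ≫ s)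
      have : iU ≫ s = UU.ι ≫ pullback.fst str str := by
        rw [← hs, ← Category.assoc, hjU]
      rw [this]
      exact smooth_UU_fst hO.2.2.1
  have hiso' : IsIso (ρ ∣_ (pullback.fst str str ⁻¹ᵁ OO ⊓ pullback.snd str str ⁻¹ᵁ OO)) := hiso
  have hdom := hO.1
  have hqcO := hO.2.1
  have hgp := hGpd str OO ρ s t hs ht hiff
    (exists_e hL2 hEX hB1 D b hb ρ iW hjW)
    (exists_i hL2 hEX hB1 D b hb ρ iW hjW hcov' s t hs ht hst0.symm)
    (exists_m hL2 hEX hB1 D b hb ρ iW hjW hcov' s t hs ht hiff _)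
  have hρl : pullback.lift s t hst0 = ρ := by
    apply pullback.hom_ext
    · rw [pullback.lift_fst, hs]
    · rw [pullback.lift_snd, ht]
  -- the point
  obtain ⟨ξ, hξ⟩ := hB1.2.2.2.1 (ZMod 2) ![0, 1, 0] (by decide) (by decide)
  have hx0 : Spec.map (CommRingCat.ofHom ξ) ≫ str = 𝟙 _ := by
    rw [str, ← Spec.map_comp, ← CommRingCat.ofHom_comp]
    have : ξ.comp (algebraMap (ZMod 2) B) = RingHom.id _ := Subsingleton.elim _ _
    rw [this]
    simp
  refine ⟨TT, glue (wmap D.a b) UU, str, s, t, hst0, hgp.1, hsm, hgp.2, inferInstance,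
    hO.2.2.2.2, ?_, ?_, ?_, Spec.map (CommRingCat.ofHom ξ), hx0, ?_⟩
  · rw [hρl]; exact hqc
  · rw [hρl]; exact hsep
  · intro K _ x
    have h9 : ∀ ρ' : glue (wmap D.a b) UU ⟶ pullback str str, ρ' = ρ →
        IsAffine (pullback (pullback.lift x x rfl : _ ⟶ pullback str str) ρ') := by
      rintro _ rfl
      exact hStab _ UU iW hcov' K _
    exact h9 _ hρl
  · intro haff
    refine hO.2.2.2.1 (hFib str OO ρ s t hs ht hiff (Spec.map (CommRingCat.ofHom ξ)) hx0 ?_ haff)
    intro z
    refine (specmap_mem_OO ξ z).mpr (Or.inr ?_)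
    rw [hξ 1]
    intro h
    exact (show PrimeSpectrum (ZMod 2) from z).isPrime.ne_top ((Ideal.eq_top_iff_one _).mpr h)

end Pool.Agent.H919.FP
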