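import Pool.Agent.H919.FP.Defs

/-!
# The coordinate ring `B` of the cone `T`, the ring `AE` and the algebraic interfaces
-/

open scoped nonZeroDivisors

namespace Pool.Agent.H919.FP

/-- `𝔽₂[x,y]` -/
abbrev P2 : Type := MvPolynomial (Fin 2) (ZMod 2)

/-- `z^4 + x^3 z + x y^3` as a polynomial in `z` over `𝔽₂[x,y]` -/
noncomputable def hpol : Polynomial P2 :=
  Polynomial.X ^ 4 + Polynomial.C (MvPolynomial.X 0 ^ 3) * Polynomial.X +
    Polynomial.C (MvPolynomial.X 0 * MvPolynomial.X 1 ^ 3)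

/-- `B = 𝔽₂[x,y,z]/(h)` -/
abbrev B : Type := AdjoinRoot hpol

/-- the tautological point `(x,y,z)` of `B` -/
noncomputable def pB : Fin 3 → B :=
  ![AdjoinRoot.of hpol (MvPolynomial.X 0), AdjoinRoot.of hpol (MvPolynomial.X 1),
    AdjoinRoot.root hpol]

/-- the ideal generated by the coordinates of a point -/
def mI {C : Type*} [CommRing C] (p : Fin 3 → C) : Ideal C := Ideal.span (Set.range p)

/-- [B1] Elementary facts on `B = AdjoinRoot hpol` (`hpol` is monic of degree 4 over `𝔽₂[x,y]`).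
`hh pB = 0` is `AdjoinRoot.isRoot_root`/`eval₂_root`. Universal property: `AdjoinRoot.lift` of
`MvPolynomial.eval₂Hom (ZMod.castHom/lift) ..`. Freeness: `AdjoinRoot.powerBasis'`. -/
def S_B1 : Prop :=
  hh pB = 0 ∧ (2 : B) = 0 ∧ Nontrivial B ∧
  -- universal property
  (∀ (C : Type) [CommRing C] (p : Fin 3 → C), (2 : C) = 0 → hh p = 0 →
    ∃ φ : B →+* C, ∀ i, φ (pB i) = p i) ∧
  (∀ (C : Type) [CommRing C] (φ ψ : B →+* C), (∀ i, φ (pB i) = ψ (pB i)) → φ = ψ) ∧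
  -- `B` is free over `𝔽₂[x,y]`
  Module.Free P2 B ∧
  -- the origin: `x ↦ 0` gives a retraction to `𝔽₂`
  (∃ ε : B →+* ZMod 2, ∀ i, ε (pB i) = 0)

/-- [B2] For `C` flat over `B`: `x` is a non-zero-divisor and `(x^N, y^N)` is a regular sequence.
(You may use `S_B1` as a hypothesis.)

Proof. `C` is flat over `P2 = 𝔽₂[x,y]` (`B` is free over `P2`). In `P2` the sequence
`P2 ⟶ P2 × P2 ⟶ P2`, `c ↦ (x^N c, y^N c)`, `(a,b) ↦ y^N a - x^N b` is exact in the middle (unique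
factorization, or compare coefficients of monomials) and multiplication by `x` is injective;
tensor with the flat module `C` (`Module.Flat.lTensor_exact`, `Module.Flat.lTensor_preserves_injective_linearMap`);
or use the equational criterion / freeness of `B` first and then flatness of `C` over `B`. -/
def S_B2 : Prop :=
  ∀ (C : Type) [CommRing C] [Algebra B C] [Module.Flat B C],
    (∀ c : C, algebraMap B C (pB 0) * c = 0 → c = 0) ∧
    (∀ (N : ℕ) (a b : C), algebraMap B C (pB 1) ^ N * a = algebraMap B C (pB 0) ^ N * b →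
      ∃ c : C, a = algebraMap B C (pB 0) ^ N * c ∧ b = algebraMap B C (pB 1) ^ N * c)

/-- [H] Hartogs gluing of elements.

Proof. Write `a = d₁ / f^n`, `b = d₂ / g^n` with (after multiplying numerators and denominators by powers)
`g^n d₁ = f^n d₂` in `C`. As `x^D, y^D ∈ (f,g)`, for a large `N` we have
`x^N = α f^n + β g^n`, `y^N = α' f^n + β' g^n`. Put `e = α d₁ + β d₂`, `e' = α' d₁ + β' d₂`. Then
`f^n e = x^N d₁`, `g^n e = x^N d₂` (use `g^n d₁ = f^n d₂`), and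
`y^N e = (α' f^n + β' g^n) e = x^N (α' d₁ + β' d₂) = x^N e'`. So `e = x^N c` for some `c`, and
`x^N (f^n c - d₁) = 0`, so `f^n c = d₁`; same for `g`. So `c ↦ a, b`. Injectivity: `f^n c = 0 = g^n c` gives
`x^N c = 0`, so `c = 0`. -/
def S_H : Prop :=
  ∀ (C : Type) [CommRing C] (x y f g : C)
    (_ : ∀ c : C, x * c = 0 → c = 0)
    (_ : ∀ (N : ℕ) (a b : C), y ^ N * a = x ^ N * b → ∃ c : C, a = x ^ N * c ∧ b = y ^ N * c)
    (D : ℕ) (_ : x ^ D ∈ Ideal.span {f, g}) (_ : y ^ D ∈ Ideal.span {f, g})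
    (Cf Cg Cfg : Type) [CommRing Cf] [CommRing Cg] [CommRing Cfg]
    [Algebra C Cf] [Algebra C Cg] [Algebra C Cfg]
    [IsLocalization.Away f Cf] [IsLocalization.Away g Cg] [IsLocalization.Away (f * g) Cfg]
    [Algebra Cf Cfg] [Algebra Cg Cfg] [IsScalarTower C Cf Cfg] [IsScalarTower C Cg Cfg],
    (∀ (a : Cf) (b : Cg), algebraMap Cf Cfg a = algebraMap Cg Cfg b →
      ∃ c : C, algebraMap C Cf c = a ∧ algebraMap C Cg c = b) ∧
    (∀ c : C, algebraMap C Cf c = 0 → algebraMap C Cg c = 0 → c = 0)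

/-- [N] Nakayama: near the zero locus of `m`, the functions `Q1, Q3` have no common zero outside it.

Proof. Write `m = mI p`, `p = (x,y,z)`, `g = gg p = y³ + x² z`. Everything in characteristic two. `P11(q,q')` is
bihomogeneous of bidegree `(3,3)`, so `P11 q q' ≡ υ³ υ'³ P11 p p = υ³υ'³ g² mod m⁷`, similarly
`P33 q q' ≡ υ³υ'³ x⁶ mod m⁷` (note `n_i p p = 2(..) = 0`); `n_i q q' ∈ m³`, `a1 q q' ≡ υ²υ' g`,
`a3 q q' ≡ υ²υ' x³ mod m⁴`, `b_i q q' ∈ m⁵`. Hence `V1 q q' ≡ υ⁵υ'⁴ g³`, `V3 q q' ≡ υ⁵υ'⁴ x⁹ mod m^10` and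
`Q1 q q' ≡ υ⁸υ'⁷ g⁵`, `Q3 q q' ≡ υ⁸υ'⁷ x^15 mod m^16`. (It may be easiest to write `q = -υ p + ε` and
expand, or to argue by ideals: if `A ≡ A' mod m^(d+1)`, `A' ∈ m^d`, etc., products.)
By `z⁴ = x³ z + x y³` (this is `hh p = 0`), `m^D` is generated by the monomials `x^i y^j z^k` with `k ≤ 3`,
`i + j + k = D`; if `D ≥ 42` then `i ≥ 15` or `j ≥ 24`; `x^15 ∈ (x^15)`, and
`y^24 = g^8 + x^16 z^8 = g^5·g^3 + x^15·x z^8`. So `m^D ≤ (g^5, x^15) m^(D-15)`. As `x^15`, `g^5` are, up to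
units, `Q3, Q1` modulo `m^16`, we get `m^D ≤ (Q1,Q3) + m·m^D`. Nakayama
(`Submodule.exists_sub_one_mem_and_smul_eq_zero_of_fg_of_le_smul` for the image of `m^D` in
`C ⧸ (Q1,Q3)`) gives `δ ≡ 1 mod m` with `δ m^D ≤ (Q1,Q3)`. -/
def S_N : Prop :=
  ∀ (C : Type) [CommRing C] (p q q' : Fin 3 → C) (υ υ' : C)
    (_ : (2 : C) = 0) (_ : hh p = 0) (_ : IsUnit υ) (_ : IsUnit υ')
    (_ : ∀ i, q i + υ * p i ∈ mI p ^ 2) (_ : ∀ i, q' i + υ' * p i ∈ mI p ^ 2),
    ∃ (D : ℕ) (δ : C), δ - 1 ∈ mI p ∧ ∀ c ∈ mI p ^ D, δ * c ∈ Ideal.span {Q1 q q', Q3 q q'}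

/-! ## The ring `AE` -/

open MvPolynomial in
/-- the four relations; variables `0 = t`, `1 = u`, `2 = w = u⁻¹`, `3,4,5 = X,Y,Z`. -/
noncomputable def relA : Fin 4 → MvPolynomial (Fin 6) B :=
  ![X 1 * X 2 - 1,
    E1 (fun i => C (pB i)) ![X 3, X 4, X 5] (X 0) (X 1) (X 0 ^ 2 * X 2),
    E2 (fun i => C (pB i)) ![X 3, X 4, X 5] (X 0) (X 1) (X 0 ^ 2 * X 2),
    E3 (fun i => C (pB i)) ![X 3, X 4, X 5] (X 0) (X 1) (X 0 ^ 2 * X 2)]

abbrev AE : Type := MvPolynomial (Fin 6) B ⧸ Ideal.span (Set.range relA)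

/-- the variables in `AE` -/
noncomputable def vA (i : Fin 6) : AE := Ideal.Quotient.mk _ (MvPolynomial.X i)

/-- source point in `AE` -/
noncomputable def pA (i : Fin 3) : AE := algebraMap B AE (pB i)

/-- target point in `AE` -/
noncomputable def qA : Fin 3 → AE := ![vA 3, vA 4, vA 5]

/-- [Sm] `AE` becomes smooth over `B` after inverting a suitable element congruent to one.

Proof. `Algebra.PreSubmersivePresentation.naive` for the relations `relA` with
`map : Fin 4 → Fin 6`, `0 ↦ 2`, `1 ↦ 3`, `2 ↦ 4`, `3 ↦ 5` (variables `w, X, Y, Z`). Let `J ∈ AE` be its jacobian,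
`j = J * w` (`w = vA 2`). CLAIM `j - 1 ∈ mI pA`, i.e. `J ≡ u`, as `u w = 1`: apply to the Jacobi matrix the map
`MvPolynomial.map ε` with `ε : B → 𝔽₂`, `pB i ↦ 0`; it commutes with `pderiv`, and it sends `relA` to
`![u w - 1, X, Y, Z]` (every other monomial of `E1, E2, E3` contains a coordinate of `pB`), whose Jacobi
matrix is diagonal `(u,1,1,1)`; and the kernel of `MvPolynomial.map ε` is generated by `C (pB i)`
(`MvPolynomial.ker_map`; the kernel of `ε` is `mI pB`). If `j ∣ δ` then the jacobian of the composite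
of `PreSubmersivePresentation.localizationAway A δ` with the naive presentation
(`comp_jacobian_eq_jacobian_smul_jacobian`) is `δ·J`, a unit in `A`. So `A` is standard smooth over `B`
(`SubmersivePresentation.isStandardSmooth`), hence smooth. -/
def S_Sm : Prop :=
  ∃ j : AE, j - 1 ∈ mI pA ∧
    ∀ (δ : AE) (A : Type) [CommRing A] [Algebra AE A] [IsLocalization.Away δ A]
      [Algebra B A] [IsScalarTower B AE A], j ∣ δ → Algebra.Smooth B A

end Pool.Agent.H919.FP
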