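import Pool.Agent.H919.FP.RelFacts
import Pool.Agent.H919.FP.Ring

namespace Pool.Agent.H919.FP

variable {C D : Type*} [CommRing C] [CommRing D] (f : C →+* D)

theorem map_hh (p : Fin 3 → C) : f (hh p) = hh (fun i => f (p i)) := by simp [hh]

theorem map_Q1 (p q : Fin 3 → C) : f (Q1 p q) = Q1 (fun i => f (p i)) (fun i => f (q i)) := by
  simp [Q1, V1, P11, a1, b1, n1, n2, gg, β2, β3]

theorem map_Q3 (p q : Fin 3 → C) : f (Q3 p q) = Q3 (fun i => f (p i)) (fun i => f (q i)) := by
  simp [Q3, V3, P33, a3, b3, n1, n2, n3, β1, β2]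

theorem map_E1 (p q : Fin 3 → C) (t u κ : C) :
    f (E1 p q t u κ) = E1 (fun i => f (p i)) (fun i => f (q i)) (f t) (f u) (f κ) := by
  simp [E1, up, lam, A3, A2, A0, β1, n1]

theorem map_E2 (p q : Fin 3 → C) (t u κ : C) :
    f (E2 p q t u κ) = E2 (fun i => f (p i)) (fun i => f (q i)) (f t) (f u) (f κ) := by
  simp [E2, up, lam, A3, A2, A0, β2]

theorem map_E3 (p q : Fin 3 → C) (t u κ : C) :
    f (E3 p q t u κ) = E3 (fun i => f (p i)) (fun i => f (q i)) (f t) (f u) (f κ) := by
  simp [E3, up, lam, A3, A2, A0, β3]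

theorem map_r11 (p q : Fin 3 → C) (u κ : C) :
    f (r11 p q u κ) = r11 (fun i => f (p i)) (fun i => f (q i)) (f u) (f κ) := by
  simp [r11, P11, v1, a1, b1, n1, n2, gg, β2, β3]
theorem map_r12 (p q : Fin 3 → C) (u κ : C) :
    f (r12 p q u κ) = r12 (fun i => f (p i)) (fun i => f (q i)) (f u) (f κ) := by
  simp [r12, P12, v1, a1, b1, n1, n2, v2, a2, b2, β1, β2, β3]
theorem map_r13 (p q : Fin 3 → C) (u κ : C) :
    f (r13 p q u κ) = r13 (fun i => f (p i)) (fun i => f (q i)) (f u) (f κ) := by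
  simp [r13, P13, v1, a1, b1, n1, n2, n3, v3, a3, b3, β1, β2, β3]
theorem map_r22 (p q : Fin 3 → C) (u κ : C) :
    f (r22 p q u κ) = r22 (fun i => f (p i)) (fun i => f (q i)) (f u) (f κ) := by
  simp [r22, P22, n1, n3, v2, a2, b2, β1, β3]
theorem map_r23 (p q : Fin 3 → C) (u κ : C) :
    f (r23 p q u κ) = r23 (fun i => f (p i)) (fun i => f (q i)) (f u) (f κ) := by
  simp [r23, P23, n1, n2, n3, v2, a2, b2, v3, a3, b3, β1, β2, β3]
theorem map_r33 (p q : Fin 3 → C) (u κ : C) :
    f (r33 p q u κ) = r33 (fun i => f (p i)) (fun i => f (q i)) (f u) (f κ) := by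
  simp [r33, P33, n1, n2, n3, v3, a3, b3, β1, β2]

theorem Rel.map {p q : Fin 3 → C} {t u w : C} (h : Rel p q t u w) :
    Rel (fun i => f (p i)) (fun i => f (q i)) (f t) (f u) (f w) where
  uw := by rw [← map_mul, h.uw, map_one]
  e1 := by have := congrArg f h.e1; rwa [map_E1, map_zero, map_mul, map_pow] at this
  e2 := by have := congrArg f h.e2; rwa [map_E2, map_zero, map_mul, map_pow] at this
  e3 := by have := congrArg f h.e3; rwa [map_E3, map_zero, map_mul, map_pow] at this
  r11 := by have := congrArg f h.r11; rwa [map_r11, map_zero, map_mul, map_pow] at this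
  r12 := by have := congrArg f h.r12; rwa [map_r12, map_zero, map_mul, map_pow] at this
  r13 := by have := congrArg f h.r13; rwa [map_r13, map_zero, map_mul, map_pow] at this
  r22 := by have := congrArg f h.r22; rwa [map_r22, map_zero, map_mul, map_pow] at this
  r23 := by have := congrArg f h.r23; rwa [map_r23, map_zero, map_mul, map_pow] at this
  r33 := by have := congrArg f h.r33; rwa [map_r33, map_zero, map_mul, map_pow] at this

end Pool.Agent.H919.FP
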