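import Pool.Agent.H919.FP.Ident

/-! Existence and uniqueness of arrows where `Q1` or `Q3` is invertible. -/

namespace Pool.Agent.H919.FP

variable {C : Type*} [CommRing C]

theorem nv1 (p q : Fin 3 → C) (t u κ : C) (h2 : (2 : C) = 0)
    (e2 : E2 p q t u κ = 0) (e3 : E3 p q t u κ = 0) : n1 p q = t * v1 p q κ := by
  simp only [E2, E3, n1, v1, a1, b1] at *
  linear_combination p 1 * e3 + p 2 * e2 - (t * (p 0 * p 2 * q 0 + p 1 ^ 2 * q 1 +
    κ * (p 1 * β3 p q + p 2 * β2 p q)) + p 1 * p 2 * up p q t u κ) * h2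

theorem nv2 (p q : Fin 3 → C) (t u κ : C) (h2 : (2 : C) = 0)
    (e1 : E1 p q t u κ = 0) (e3 : E3 p q t u κ = 0) : n2 p q = t * v2 p q κ := by
  simp only [E1, E3, n2, v2, a2, b2] at *
  linear_combination p 2 * e1 + p 0 * e3 - (t * (p 0 * p 1 * q 1 +
    κ * (p 2 * β1 p q + p 0 * β3 p q)) + p 0 * p 2 * up p q t u κ) * h2

theorem nv3 (p q : Fin 3 → C) (t u κ : C) (h2 : (2 : C) = 0)
    (e1 : E1 p q t u κ = 0) (e2 : E2 p q t u κ = 0) : n3 p q = t * v3 p q κ := by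
  simp only [E1, E2, n3, v3, a3, b3] at *
  linear_combination p 0 * e2 + p 1 * e1 - (t * (p 0 ^ 2 * q 0 +
    κ * (p 0 * β2 p q + p 1 * β1 p q)) + p 0 * p 1 * up p q t u κ) * h2

/-- the formulas for an arrow in terms of `P = P_ii`, `n = n_i`, `V = V_i` -/
theorem rel_formula (h2 : (2 : C) = 0) {P n V a b v t u w κ : C} (hu : u * w = 1) (hκ : κ = t ^ 2 * w)
    (hv : v = a + κ * b) (hn : n = t * v) (hP : P + u * v ^ 2 = 0) (hV : V = a * P + n ^ 2 * b)
    {i j : C} (hi : P * i = 1) (hj : V * j = 1) :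
    t = n * P * j ∧ u = P ^ 3 * j ^ 2 ∧ w = V ^ 2 * i ^ 3 := by
  have hP' : P = u * v ^ 2 := by linear_combination hP - (u * v ^ 2) * h2
  have hκP : κ * P = n ^ 2 := by
    rw [hP', hκ, hn]; linear_combination (t ^ 2 * v ^ 2) * hu
  have hVP : V = P * v := by
    rw [hV, hv, ← hκP]; ring
  -- `v` is invertible with inverse `P j`
  have hvj : v * (P * j) = 1 := by rw [← hj, hVP]; ring
  refine ⟨?_, ?_, ?_⟩
  · rw [hn]; linear_combination (-t) * hvj
  · have : u = u * (v * (P * j)) ^ 2 := by rw [hvj]; ring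
    calc u = u * (v * (P * j)) ^ 2 := this
      _ = (u * v ^ 2) * P ^ 2 * j ^ 2 := by ring
      _ = P ^ 3 * j ^ 2 := by rw [← hP']; ring
  · have e1 : u * (V ^ 2 * i ^ 3) = 1 := by
      calc u * (V ^ 2 * i ^ 3) = (u * v ^ 2) * P ^ 2 * i ^ 3 := by rw [hVP]; ring
        _ = (P * i) ^ 3 := by rw [← hP']; ring
        _ = 1 := by rw [hi]; ring
    calc w = w * (u * (V ^ 2 * i ^ 3)) := by rw [e1]; ring
      _ = (u * w) * (V ^ 2 * i ^ 3) := by ring
      _ = V ^ 2 * i ^ 3 := by rw [hu]; ring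

theorem Rel.unique1 (h2 : (2 : C) = 0) {p q : Fin 3 → C} {t u w t' u' w' : C}
    (h : Rel p q t u w) (h' : Rel p q t' u' w') (hQ : IsUnit (Q1 p q)) :
    t = t' ∧ u = u' ∧ w = w' := by
  obtain ⟨hP, hV⟩ := IsUnit.mul_iff.mp hQ
  obtain ⟨i, hi⟩ := hP.exists_right_inv
  obtain ⟨j, hj⟩ := hV.exists_right_inv
  have f := rel_formula h2 h.uw rfl rfl (nv1 p q t u _ h2 h.e2 h.e3) h.r11 rfl hi hj
  have f' := rel_formula h2 h'.uw rfl rfl (nv1 p q t' u' _ h2 h'.e2 h'.e3) h'.r11 rfl hi hj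
  exact ⟨f.1.trans f'.1.symm, f.2.1.trans f'.2.1.symm, f.2.2.trans f'.2.2.symm⟩

theorem Rel.unique3 (h2 : (2 : C) = 0) {p q : Fin 3 → C} {t u w t' u' w' : C}
    (h : Rel p q t u w) (h' : Rel p q t' u' w') (hQ : IsUnit (Q3 p q)) :
    t = t' ∧ u = u' ∧ w = w' := by
  obtain ⟨hP, hV⟩ := IsUnit.mul_iff.mp hQ
  obtain ⟨i, hi⟩ := hP.exists_right_inv
  obtain ⟨j, hj⟩ := hV.exists_right_inv
  have f := rel_formula h2 h.uw rfl rfl (nv3 p q t u _ h2 h.e1 h.e2) h.r33 rfl hi hj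
  have f' := rel_formula h2 h'.uw rfl rfl (nv3 p q t' u' _ h2 h'.e1 h'.e2) h'.r33 rfl hi hj
  exact ⟨f.1.trans f'.1.symm, f.2.1.trans f'.2.1.symm, f.2.2.trans f'.2.2.symm⟩

/-- `E_l` from the identity `Φ_l = 0` -/
theorem E_formula (h2 : (2 : C) = 0) {P n V a b i j X x al be A3' A2' A0' : C}
    (hV : V = a * P + n ^ 2 * b) (hi : P * i = 1) (hj : V * j = 1)
    (hphi : X * V ^ 2 + x * P ^ 3 + n * P * V * al + n ^ 3 * V * (be + x * A3')
      + x * n ^ 4 * (P * A2' + n ^ 2 * A0') = 0)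
    {t u κ : C} (ht : t = n * P * j) (hu : u = P ^ 3 * j ^ 2) (hκ : κ = n ^ 2 * i) :
    X + (u + t * (κ * (A3' + t * A2' + κ * t * A0'))) * x + t * (al + κ * be) = 0 := by
  have hκP : κ * P = n ^ 2 := by rw [hκ]; linear_combination n ^ 2 * hi
  have htV : t * V = n * P := by rw [ht]; linear_combination (n * P) * hj
  have huV : u * V ^ 2 = P ^ 3 := by
    rw [hu]; linear_combination (P ^ 3 * (V * j + 1)) * hj
  have key : (X + (u + t * (κ * (A3' + t * A2' + κ * t * A0'))) * x + t * (al + κ * be)) * V ^ 2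
      = 0 := by
    have e1 : t * κ * V ^ 2 = n ^ 3 * V := by
      calc t * κ * V ^ 2 = (t * V) * κ * V := by ring
        _ = n * (κ * P) * V := by rw [htV]; ring
        _ = n ^ 3 * V := by rw [hκP]; ring
    have e2 : t ^ 2 * κ * V ^ 2 = n ^ 4 * P := by
      calc t ^ 2 * κ * V ^ 2 = (t * V) ^ 2 * κ := by ring
        _ = n ^ 2 * P * (κ * P) := by rw [htV]; ring
        _ = n ^ 4 * P := by rw [hκP]; ring
    have e3 : t ^ 2 * κ ^ 2 * V ^ 2 = n ^ 6 := by
      calc t ^ 2 * κ ^ 2 * V ^ 2 = (t * V) ^ 2 * κ ^ 2 := by ring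
        _ = n ^ 2 * (κ * P) ^ 2 := by rw [htV]; ring
        _ = n ^ 6 := by rw [hκP]; ring
    have e4 : t * V ^ 2 = n * P * V := by rw [← htV]; ring
    linear_combination hphi + x * huV + (x * A3' + be) * e1 + (x * A2') * e2 + (x * A0') * e3
      + al * e4
  calc X + (u + t * (κ * (A3' + t * A2' + κ * t * A0'))) * x + t * (al + κ * be)
      = (X + (u + t * (κ * (A3' + t * A2' + κ * t * A0'))) * x + t * (al + κ * be)) * V ^ 2 * j ^ 2 := by
        have : V ^ 2 * j ^ 2 = 1 := by rw [← mul_pow, hj, one_pow]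
        rw [mul_assoc _ (V ^ 2), this, mul_one]
    _ = 0 := by rw [key, zero_mul]

/-- `r_jk` from the identities `I` -/
theorem r_formula (h2 : (2 : C) = 0) {P n V i j Pjk Pik aj bj ak bk : C}
    (hi : P * i = 1) (hj : V * j = 1)
    (h1 : Pjk * V + Pik * (aj * P + n ^ 2 * bj) = 0)
    (h3 : Pik * V + P * (ak * P + n ^ 2 * bk) = 0)
    {u κ : C} (hu : u = P ^ 3 * j ^ 2) (hκ : κ = n ^ 2 * i) :
    Pjk + u * (aj + κ * bj) * (ak + κ * bk) = 0 := by
  have hκP : κ * P = n ^ 2 := by rw [hκ]; linear_combination n ^ 2 * hi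
  have huV : u * V ^ 2 = P ^ 3 := by
    rw [hu]; linear_combination (P ^ 3 * (V * j + 1)) * hj
  have key : (Pjk + u * (aj + κ * bj) * (ak + κ * bk)) * V ^ 2 = 0 := by
    have e1 : u * (aj + κ * bj) * (ak + κ * bk) * V ^ 2
        = P * (aj * P + n ^ 2 * bj) * (ak * P + n ^ 2 * bk) := by
      calc u * (aj + κ * bj) * (ak + κ * bk) * V ^ 2
          = (u * V ^ 2) * (aj + κ * bj) * (ak + κ * bk) := by ring
        _ = P * (aj * P + (κ * P) * bj) * (ak * P + (κ * P) * bk) := by rw [huV]; ring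
        _ = _ := by rw [hκP]
    linear_combination V * h1 + (aj * P + n ^ 2 * bj) * h3 + e1
      - (Pik * V * (aj * P + n ^ 2 * bj)) * h2
  calc Pjk + u * (aj + κ * bj) * (ak + κ * bk)
      = (Pjk + u * (aj + κ * bj) * (ak + κ * bk)) * V ^ 2 * j ^ 2 := by
        have : V ^ 2 * j ^ 2 = 1 := by rw [← mul_pow, hj, one_pow]
        rw [mul_assoc _ (V ^ 2), this, mul_one]
    _ = 0 := by rw [key, zero_mul]

theorem exists_rel1 (h2 : (2 : C) = 0) {p q : Fin 3 → C} (hp : hh p = 0) (hq : hh q = 0)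
    (hQ : IsUnit (Q1 p q)) : ∃ t u w : C, Rel p q t u w := by
  obtain ⟨hP, hV⟩ := IsUnit.mul_iff.mp hQ
  obtain ⟨i, hi⟩ := hP.exists_right_inv
  obtain ⟨j, hj⟩ := hV.exists_right_inv
  have hκ : (n1 p q * P11 p q * j) ^ 2 * (V1 p q ^ 2 * i ^ 3) = n1 p q ^ 2 * i := by
    calc (n1 p q * P11 p q * j) ^ 2 * (V1 p q ^ 2 * i ^ 3)
        = n1 p q ^ 2 * (P11 p q * i) ^ 2 * (V1 p q * j) ^ 2 * i := by ring
      _ = n1 p q ^ 2 * i := by rw [hi, hj]; ring
  refine ⟨n1 p q * P11 p q * j, P11 p q ^ 3 * j ^ 2, V1 p q ^ 2 * i ^ 3, ?_, ?_, ?_, ?_, ?_, ?_, ?_, ?_, ?_, ?_⟩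
  · calc P11 p q ^ 3 * j ^ 2 * (V1 p q ^ 2 * i ^ 3) = (P11 p q * i) ^ 3 * (V1 p q * j) ^ 2 := by ring
      _ = 1 := by rw [hi, hj]; ring
  · have := E_formula h2 rfl hi hj (id_phi_11 p q h2 hp hq) rfl rfl hκ
    simpa only [E1, up, lam, zero_add] using this
  · have := E_formula h2 rfl hi hj (id_phi_12 p q h2 hp hq) rfl rfl hκ
    simpa only [E2, up, lam] using this
  · have := E_formula h2 rfl hi hj (id_phi_13 p q h2 hp hq) rfl rfl hκ
    simpa only [E3, up, lam] using this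
  all_goals simp only [r11, r12, r13, r22, r23, r33, v1, v2, v3, hκ]
  · have := r_formula (Pik := P11 p q) (n := n1 p q) h2 hi hj (Pjk := P11 p q) (aj := a1 p q) (bj := b1 p q) (ak := a1 p q)
      (bk := b1 p q) (by rw [V1]; linear_combination (P11 p q * (a1 p q * P11 p q + n1 p q ^ 2 * b1 p q)) * h2)
      (by rw [V1]; linear_combination (P11 p q * (a1 p q * P11 p q + n1 p q ^ 2 * b1 p q)) * h2) rfl rfl
    linear_combination this
  · have h := id_I_121 p q h2 hp hq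
    have := r_formula (Pik := P11 p q) (Pjk := P12 p q) (n := n1 p q) (ak := a1 p q) (bk := b1 p q)
      (aj := a2 p q) (bj := b2 p q) h2 hi hj h
      (by rw [V1]; linear_combination (P11 p q * (a1 p q * P11 p q + n1 p q ^ 2 * b1 p q)) * h2) rfl rfl
    linear_combination this
  · have h := id_I_131 p q h2 hp hq
    have := r_formula (Pik := P11 p q) (Pjk := P13 p q) (n := n1 p q) (ak := a1 p q) (bk := b1 p q)
      (aj := a3 p q) (bj := b3 p q) h2 hi hj h
      (by rw [V1]; linear_combination (P11 p q * (a1 p q * P11 p q + n1 p q ^ 2 * b1 p q)) * h2) rfl rfl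
    linear_combination this
  · have := r_formula (Pik := P12 p q) (Pjk := P22 p q) (n := n1 p q) (ak := a2 p q) (bk := b2 p q)
      (aj := a2 p q) (bj := b2 p q) h2 hi hj (id_I_122 p q h2 hp hq) (id_I_121 p q h2 hp hq) rfl rfl
    linear_combination this
  · have := r_formula (Pik := P13 p q) (Pjk := P23 p q) (n := n1 p q) (ak := a3 p q) (bk := b3 p q)
      (aj := a2 p q) (bj := b2 p q) h2 hi hj (id_I_123 p q h2 hp hq) (id_I_131 p q h2 hp hq) rfl rfl
    linear_combination this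
  · have := r_formula (Pik := P13 p q) (Pjk := P33 p q) (n := n1 p q) (ak := a3 p q) (bk := b3 p q)
      (aj := a3 p q) (bj := b3 p q) h2 hi hj (id_I_133 p q h2 hp hq) (id_I_131 p q h2 hp hq) rfl rfl
    linear_combination this

theorem exists_rel3 (h2 : (2 : C) = 0) {p q : Fin 3 → C} (hp : hh p = 0) (hq : hh q = 0)
    (hQ : IsUnit (Q3 p q)) : ∃ t u w : C, Rel p q t u w := by
  obtain ⟨hP, hV⟩ := IsUnit.mul_iff.mp hQ
  obtain ⟨i, hi⟩ := hP.exists_right_inv
  obtain ⟨j, hj⟩ := hV.exists_right_inv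
  have hκ : (n3 p q * P33 p q * j) ^ 2 * (V3 p q ^ 2 * i ^ 3) = n3 p q ^ 2 * i := by
    calc (n3 p q * P33 p q * j) ^ 2 * (V3 p q ^ 2 * i ^ 3)
        = n3 p q ^ 2 * (P33 p q * i) ^ 2 * (V3 p q * j) ^ 2 * i := by ring
      _ = n3 p q ^ 2 * i := by rw [hi, hj]; ring
  refine ⟨n3 p q * P33 p q * j, P33 p q ^ 3 * j ^ 2, V3 p q ^ 2 * i ^ 3, ?_, ?_, ?_, ?_, ?_, ?_, ?_, ?_, ?_, ?_⟩
  · calc P33 p q ^ 3 * j ^ 2 * (V3 p q ^ 2 * i ^ 3) = (P33 p q * i) ^ 3 * (V3 p q * j) ^ 2 := by ring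
      _ = 1 := by rw [hi, hj]; ring
  · have := E_formula h2 rfl hi hj (id_phi_31 p q h2 hp hq) rfl rfl hκ
    simpa only [E1, up, lam, zero_add] using this
  · have := E_formula h2 rfl hi hj (id_phi_32 p q h2 hp hq) rfl rfl hκ
    simpa only [E2, up, lam] using this
  · have := E_formula h2 rfl hi hj (id_phi_33 p q h2 hp hq) rfl rfl hκ
    simpa only [E3, up, lam] using this
  all_goals simp only [r11, r12, r13, r22, r23, r33, v1, v2, v3, hκ]
  · have := r_formula (Pik := P13 p q) (Pjk := P11 p q) (n := n3 p q) (ak := a1 p q) (bk := b1 p q)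
      (aj := a1 p q) (bj := b1 p q) h2 hi hj (id_I_311 p q h2 hp hq) (id_I_313 p q h2 hp hq) rfl rfl
    linear_combination this
  · have := r_formula (Pik := P23 p q) (Pjk := P12 p q) (n := n3 p q) (ak := a2 p q) (bk := b2 p q)
      (aj := a1 p q) (bj := b1 p q) h2 hi hj (id_I_312 p q h2 hp hq) (id_I_323 p q h2 hp hq) rfl rfl
    linear_combination this
  · have h := id_I_313 p q h2 hp hq
    have := r_formula (Pik := P33 p q) (Pjk := P13 p q) (n := n3 p q) (ak := a3 p q) (bk := b3 p q)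
      (aj := a1 p q) (bj := b1 p q) h2 hi hj h
      (by rw [V3]; linear_combination (P33 p q * (a3 p q * P33 p q + n3 p q ^ 2 * b3 p q)) * h2) rfl rfl
    linear_combination this
  · have := r_formula (Pik := P23 p q) (Pjk := P22 p q) (n := n3 p q) (ak := a2 p q) (bk := b2 p q)
      (aj := a2 p q) (bj := b2 p q) h2 hi hj (id_I_322 p q h2 hp hq) (id_I_323 p q h2 hp hq) rfl rfl
    linear_combination this
  · have h := id_I_323 p q h2 hp hq
    have := r_formula (Pik := P33 p q) (Pjk := P23 p q) (n := n3 p q) (ak := a3 p q) (bk := b3 p q)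
      (aj := a2 p q) (bj := b2 p q) h2 hi hj h
      (by rw [V3]; linear_combination (P33 p q * (a3 p q * P33 p q + n3 p q ^ 2 * b3 p q)) * h2) rfl rfl
    linear_combination this
  · have := r_formula (Pik := P33 p q) (n := n3 p q) h2 hi hj (Pjk := P33 p q) (aj := a3 p q) (bj := b3 p q) (ak := a3 p q)
      (bk := b3 p q) (by rw [V3]; linear_combination (P33 p q * (a3 p q * P33 p q + n3 p q ^ 2 * b3 p q)) * h2)
      (by rw [V3]; linear_combination (P33 p q * (a3 p q * P33 p q + n3 p q ^ 2 * b3 p q)) * h2) rfl rfl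
    linear_combination this

end Pool.Agent.H919.FP
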