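import Pool.Agent.H919.FP.Fin

/-!
# FP/EX: algebraic existence of lifts
-/

namespace Pool.Agent.H919.FP

namespace EXx

/-- gluing of arrows -/
theorem glue (hH : S_H) {C : Type} [CommRing C] (two : (2 : C) = 0) (x y : C) (p q : Fin 3 → C)
    (hp : hh p = 0) (hq : hh q = 0)
    (hx : ∀ c : C, x * c = 0 → c = 0)
    (hxy : ∀ (N : ℕ) (a b : C), y ^ N * a = x ^ N * b → ∃ c : C, a = x ^ N * c ∧ b = y ^ N * c)
    (D : ℕ) (hxD : x ^ D ∈ Ideal.span {Q1 p q, Q3 p q})
    (hyD : y ^ D ∈ Ideal.span {Q1 p q, Q3 p q}) :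
    ∃ t u w : C, Rel p q t u w := by
  set F := Q1 p q with hF
  set G := Q3 p q with hG
  let CF := Localization.Away F
  let CG := Localization.Away G
  let CFG := Localization.Away (F * G)
  have uF : IsUnit (algebraMap C CFG F) :=
    isUnit_of_dvd_unit (map_dvd _ (Dvd.intro _ rfl))
      (IsLocalization.Away.algebraMap_isUnit (S := CFG) (F * G))
  have uG : IsUnit (algebraMap C CFG G) :=
    isUnit_of_dvd_unit (map_dvd _ (Dvd.intro_left _ rfl))
      (IsLocalization.Away.algebraMap_isUnit (S := CFG) (F * G))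
  let lF : CF →+* CFG := IsLocalization.Away.lift F uF
  let lG : CG →+* CFG := IsLocalization.Away.lift G uG
  let _ : Algebra CF CFG := lF.toAlgebra
  let _ : Algebra CG CFG := lG.toAlgebra
  have sF : IsScalarTower C CF CFG := IsScalarTower.of_algebraMap_eq fun c =>
    (IsLocalization.Away.lift_eq F uF c).symm
  have sG : IsScalarTower C CG CFG := IsScalarTower.of_algebraMap_eq fun c =>
    (IsLocalization.Away.lift_eq G uG c).symm
  obtain ⟨h1, h2⟩ := hH C x y F G hx hxy D hxD hyD CF CG CFG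
  -- solutions
  have two' : ∀ (R : Type) [CommRing R] [Algebra C R], (2 : R) = 0 := by
    intro R _ _
    have := congrArg (algebraMap C R) two
    rwa [map_ofNat, map_zero] at this
  obtain ⟨tF, uF', wF, rF⟩ := exists_rel1 (C := CF) (two' CF)
    (p := fun i => algebraMap C CF (p i)) (q := fun i => algebraMap C CF (q i))
    (by rw [← map_hh, hp, map_zero]) (by rw [← map_hh, hq, map_zero])
    (by rw [← map_Q1]; exact IsLocalization.Away.algebraMap_isUnit F)
  obtain ⟨tG, uG', wG, rG⟩ := exists_rel3 (C := CG) (two' CG)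
    (p := fun i => algebraMap C CG (p i)) (q := fun i => algebraMap C CG (q i))
    (by rw [← map_hh, hp, map_zero]) (by rw [← map_hh, hq, map_zero])
    (by rw [← map_Q3]; exact IsLocalization.Away.algebraMap_isUnit G)
  have rF' := rF.map (algebraMap CF CFG)
  have rG' := rG.map (algebraMap CG CFG)
  have eF : ∀ c : C, algebraMap CF CFG (algebraMap C CF c) = algebraMap C CFG c := fun c =>
    (IsScalarTower.algebraMap_apply C CF CFG c).symm
  have eG : ∀ c : C, algebraMap CG CFG (algebraMap C CG c) = algebraMap C CFG c := fun c =>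
    (IsScalarTower.algebraMap_apply C CG CFG c).symm
  simp only [eF] at rF'
  simp only [eG] at rG'
  obtain ⟨et, eu, ew⟩ := Rel.unique1 (two' CFG) rF' rG' (by rw [← map_Q1]; exact uF)
  obtain ⟨t, htF, htG⟩ := h1 _ _ et
  obtain ⟨u, huF, huG⟩ := h1 _ _ eu
  obtain ⟨w, hwF, hwG⟩ := h1 _ _ ew
  refine ⟨t, u, w, ?_, ?_, ?_, ?_, ?_, ?_, ?_, ?_, ?_, ?_⟩
  · rw [← sub_eq_zero]
    apply h2
    · rw [map_sub, map_mul, map_one, huF, hwF, rF.uw, sub_self]
    · rw [map_sub, map_mul, map_one, huG, hwG, rG.uw, sub_self]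
  · apply h2
    · rw [map_E1, map_mul, map_pow, htF, huF, hwF, rF.e1]
    · rw [map_E1, map_mul, map_pow, htG, huG, hwG, rG.e1]
  · apply h2
    · rw [map_E2, map_mul, map_pow, htF, huF, hwF, rF.e2]
    · rw [map_E2, map_mul, map_pow, htG, huG, hwG, rG.e2]
  · apply h2
    · rw [map_E3, map_mul, map_pow, htF, huF, hwF, rF.e3]
    · rw [map_E3, map_mul, map_pow, htG, huG, hwG, rG.e3]
  · apply h2
    · rw [map_r11, map_mul, map_pow, htF, huF, hwF, rF.r11]
    · rw [map_r11, map_mul, map_pow, htG, huG, hwG, rG.r11]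
  · apply h2
    · rw [map_r12, map_mul, map_pow, htF, huF, hwF, rF.r12]
    · rw [map_r12, map_mul, map_pow, htG, huG, hwG, rG.r12]
  · apply h2
    · rw [map_r13, map_mul, map_pow, htF, huF, hwF, rF.r13]
    · rw [map_r13, map_mul, map_pow, htG, huG, hwG, rG.r13]
  · apply h2
    · rw [map_r22, map_mul, map_pow, htF, huF, hwF, rF.r22]
    · rw [map_r22, map_mul, map_pow, htG, huG, hwG, rG.r22]
  · apply h2
    · rw [map_r23, map_mul, map_pow, htF, huF, hwF, rF.r23]
    · rw [map_r23, map_mul, map_pow, htG, huG, hwG, rG.r23]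
  · apply h2
    · rw [map_r33, map_mul, map_pow, htF, huF, hwF, rF.r33]
    · rw [map_r33, map_mul, map_pow, htG, huG, hwG, rG.r33]

end EXx

theorem t_EX : S_B1 → S_B2 → S_H → S_N → S_EX := by
  intro hB1 hB2 hH hN A _ DD b hb C _ φ χ χ' hφ υ υ' hυ hυ' hχ hχ'
  have two : (2 : C) = 0 := by
    have := congrArg φ hB1.2.1
    rwa [map_ofNat, map_zero] at this
  have hhB : ∀ (R : Type) [CommRing R] (θ : B →+* R), hh (pt θ) = 0 := by
    intro R _ θ
    have := congrArg θ hB1.1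
    rwa [map_hh, map_zero] at this
  obtain ⟨D, δ, hδ1, hδ2⟩ := hN C (pt φ) (pt χ) (pt χ') υ υ' two (hhB C φ) hυ hυ' hχ hχ'
  let C₁ := Localization.Away δ
  let ι : C →+* C₁ := algebraMap C C₁
  have hιδ : IsUnit (ι δ) := IsLocalization.Away.algebraMap_isUnit δ
  have two₁ : (2 : C₁) = 0 := by
    have := congrArg ι two
    rwa [map_ofNat, map_zero] at this
  -- flatness
  let _ : Algebra B C := φ.toAlgebra
  have f1 : Module.Flat B C := hφ
  have sc : IsScalarTower B C C₁ := inferInstance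
  have f2 : Module.Flat C C₁ := IsLocalization.flat C₁ (Submonoid.powers δ)
  have f3 : Module.Flat B C₁ := Module.Flat.trans B C C₁
  obtain ⟨g1, g2⟩ := hB2 C₁
  have ae : ∀ z : B, algebraMap B C₁ z = ι (φ z) := fun z => IsScalarTower.algebraMap_apply B C C₁ z
  simp only [ae] at g1 g2
  have memspan : ∀ i, (ι (φ (pB i))) ^ D ∈
      Ideal.span {Q1 (pt (ι.comp χ)) (pt (ι.comp χ')), Q3 (pt (ι.comp χ)) (pt (ι.comp χ'))} := by
    intro i
    have h0 : φ (pB i) ∈ mI (pt φ) := Ideal.subset_span ⟨i, rfl⟩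
    have h1 : (φ (pB i)) ^ D ∈ mI (pt φ) ^ D := Ideal.pow_mem_pow h0 D
    have h2 := Ideal.mem_map_of_mem ι (hδ2 _ h1)
    rw [Ideal.map_span, Set.image_pair, map_Q1, map_Q3, map_mul] at h2
    rw [← map_pow]
    exact (Ideal.unit_mul_mem_iff_mem _ hιδ).mp h2
  obtain ⟨t, u, w, hrel⟩ := EXx.glue hH two₁ (ι (φ (pB 0))) (ι (φ (pB 1)))
    (pt (ι.comp χ)) (pt (ι.comp χ')) (hhB _ _) (hhB _ _) g1 g2 D (memspan 0) (memspan 1)
  obtain ⟨f₁, hf₁, hf₁'⟩ := DD.univ C₁ (ι.comp χ) (pt (ι.comp χ')) t u w hrel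
  -- the ideals
  have hle : mI (pt (ι.comp χ)) ≤ (mI (pt φ)).map ι := by
    rw [mI, Ideal.span_le]
    rintro _ ⟨i, rfl⟩
    have h1 : χ (pB i) ∈ mI (pt φ) := by
      have h2 := Ideal.pow_le_self (two_ne_zero) (hχ i)
      have h3 : υ * φ (pB i) ∈ mI (pt φ) :=
        Ideal.mul_mem_left _ _ (Ideal.subset_span ⟨i, rfl⟩)
      have h4 := Ideal.sub_mem _ h2 h3
      rwa [add_sub_cancel_right] at h4
    exact Ideal.mem_map_of_mem ι h1
  obtain ⟨n, c, hc⟩ := IsLocalization.Away.surj (S := C₁) δ f₁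
  have hc1 : c - 1 ∈ mI (pt φ) := by
    have h1 : ι (c - δ ^ n) ∈ (mI (pt φ)).map ι := by
      have h2 : ι (c - δ ^ n) = ι δ ^ n * (f₁ - 1) := by
        rw [map_sub, map_pow]
        change algebraMap C C₁ c - algebraMap C C₁ δ ^ n = _
        rw [← hc]; ring
      rw [h2]
      exact Ideal.mul_mem_left _ _ (hle hf₁)
    rw [IsLocalization.mem_map_algebraMap_iff (Submonoid.powers δ)] at h1
    obtain ⟨⟨⟨m, hm⟩, ⟨_, k, rfl⟩⟩, hmk⟩ := h1
    simp only at hmk
    rw [← map_mul] at hmk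
    obtain ⟨l, hl⟩ := IsLocalization.Away.exists_of_eq (S := C₁) δ hmk
    have h3 : δ ^ l * ((c - δ ^ n) * δ ^ k) ∈ mI (pt φ) := by
      have h4 : δ ^ l * ((c - δ ^ n) * δ ^ k) = δ ^ l * m := hl
      rw [h4]; exact Ideal.mul_mem_left _ _ hm
    rw [← Ideal.Quotient.eq_zero_iff_mem] at h3 hδ1 ⊢
    have h5 : Ideal.Quotient.mk (mI (pt φ)) δ = 1 := by
      rw [map_sub, map_one, sub_eq_zero] at hδ1; exact hδ1
    simp only [map_mul, map_pow, map_sub, h5, one_pow, one_mul, mul_one] at h3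
    rw [map_sub, map_one]
    exact h3
  refine ⟨δ * c, ?_, ?_⟩
  · rw [← Ideal.Quotient.eq_zero_iff_mem] at hc1 hδ1 ⊢
    rw [map_sub, map_one, sub_eq_zero] at hc1 hδ1 ⊢
    rw [map_mul, hc1, hδ1, one_mul]
  · intro C' _ g hg
    rw [map_mul, IsUnit.mul_iff] at hg
    obtain ⟨hgδ, hgc⟩ := hg
    let g₁ : C₁ →+* C' := IsLocalization.Away.lift δ hgδ
    have hg₁ : ∀ z : C, g₁ (ι z) = g z := fun z => IsLocalization.Away.lift_eq δ hgδ z
    have hu : IsUnit (g₁ f₁) := by
      have h1 : g₁ f₁ * g δ ^ n = g c := by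
        have := congrArg g₁ hc
        rw [map_mul, map_pow] at this
        rw [← hg₁ δ, ← hg₁ c]
        exact this
      rw [← h1] at hgc
      exact (IsUnit.mul_iff.1 hgc).1
    obtain ⟨ψ, h1, h2, -⟩ := (hf₁' C' g₁).1 hu
    refine ⟨ψ, ?_, ?_⟩
    · rw [h1]
      refine RingHom.ext fun z => ?_
      exact hg₁ _
    · refine hB1.2.2.2.2.1 C' _ _ fun i => ?_
      change ψ (b (pB i)) = g (χ' (pB i))
      rw [hb i, h2 i]
      exact hg₁ _

end Pool.Agent.H919.FP
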