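import Pool.Agent.H919.FP.Sch

/-!
# FP/Gpd (helper59): assembly of the groupoid
-/

open CategoryTheory Limits AlgebraicGeometry

namespace Pool.Agent.H919.FP.TGpd

open Pool.Agent.H919.FP

theorem dom_of_flat {V T : Scheme.{0}} (φ : V ⟶ T) (O : T.Opens)
    [IsSchemeTheoreticallyDominant O.ι] [QuasiCompact O.ι] [Flat φ] :
    IsSchemeTheoreticallyDominant (φ ⁻¹ᵁ O).ι :=
  IsSchemeTheoreticallyDominant.of_isPullback (isPullback_morphismRestrict φ O)

theorem uniq (hL1 : S_L1) {S₀ T R V : Scheme.{0}} (str : T ⟶ S₀) (O : T.Opens)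
    (ρ : R ⟶ pullback str str)
    [IsIso (ρ ∣_ ((pullback.fst str str) ⁻¹ᵁ O ⊓ (pullback.snd str str) ⁻¹ᵁ O))]
    [IsSeparated ρ] [IsSchemeTheoreticallyDominant O.ι] [QuasiCompact O.ι]
    (s t : R ⟶ T) (hs : ρ ≫ pullback.fst str str = s) (ht : ρ ≫ pullback.snd str str = t)
    (h1 : ∀ z : R, s z ∈ O ↔ t z ∈ O) (f g : V ⟶ R) (hfs : f ≫ s = g ≫ s) (hft : f ≫ t = g ≫ t)
    (hflat : Flat (f ≫ s) ∨ Flat (f ≫ t)) : f = g := by
  have hρ : f ≫ ρ = g ≫ ρ := by
    apply pullback.hom_ext
    · rw [Category.assoc, Category.assoc, hs, hfs]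
    · rw [Category.assoc, Category.assoc, ht, hft]
  have k1 : ∀ x : V, (pullback.fst str str) ((f ≫ ρ) x) = s (f x) := by
    intro x
    rw [← hs]
    rfl
  have k2 : ∀ x : V, (pullback.snd str str) ((f ≫ ρ) x) = t (f x) := by
    intro x
    rw [← ht]
    rfl
  have e1 : (f ≫ ρ) ⁻¹ᵁ ((pullback.fst str str) ⁻¹ᵁ O ⊓ (pullback.snd str str) ⁻¹ᵁ O)
      = (f ≫ s) ⁻¹ᵁ O := by
    apply TopologicalSpace.Opens.ext
    ext x
    show (pullback.fst str str) ((f ≫ ρ) x) ∈ O ∧ (pullback.snd str str) ((f ≫ ρ) x) ∈ O ↔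
      s (f x) ∈ O
    rw [k1, k2, ← h1]
    exact and_self_iff
  have e2 : (f ≫ ρ) ⁻¹ᵁ ((pullback.fst str str) ⁻¹ᵁ O ⊓ (pullback.snd str str) ⁻¹ᵁ O)
      = (f ≫ t) ⁻¹ᵁ O := by
    apply TopologicalSpace.Opens.ext
    ext x
    show (pullback.fst str str) ((f ≫ ρ) x) ∈ O ∧ (pullback.snd str str) ((f ≫ ρ) x) ∈ O ↔
      t (f x) ∈ O
    rw [k1, k2, h1]
    exact and_self_iff
  have hd : IsSchemeTheoreticallyDominant ((f ≫ ρ) ⁻¹ᵁ
      ((pullback.fst str str) ⁻¹ᵁ O ⊓ (pullback.snd str str) ⁻¹ᵁ O)).ι := by
    rcases hflat with hf | hf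
    · rw [e1]
      exact dom_of_flat (f ≫ s) O
    · rw [e2]
      exact dom_of_flat (f ≫ t) O
  exact hL1 ρ ((pullback.fst str str) ⁻¹ᵁ O ⊓ (pullback.snd str str) ⁻¹ᵁ O) f g hρ

theorem nat_left {T R V P : Scheme.{0}} {s t : R ⟶ T} (m : pullback t s ⟶ R) (k : V ⟶ P)
    (F G H : P ⟶ R) (f g h : V ⟶ R) (hf : k ≫ F = f) (hg : k ≫ G = g) (hh : k ≫ H = h)
    (h1 : F ≫ t = G ≫ s) (h2 : (pullback.lift F G h1 ≫ m) ≫ t = H ≫ s)
    (h3 : f ≫ t = g ≫ s) (h4 : (pullback.lift f g h3 ≫ m) ≫ t = h ≫ s) :
    k ≫ pullback.lift (pullback.lift F G h1 ≫ m) H h2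
      = pullback.lift (pullback.lift f g h3 ≫ m) h h4 := by
  subst hf hg hh
  apply pullback.hom_ext
  · rw [Category.assoc, pullback.lift_fst, pullback.lift_fst, ← Category.assoc]
    congr 1
    apply pullback.hom_ext
    · rw [Category.assoc, pullback.lift_fst, pullback.lift_fst]
    · rw [Category.assoc, pullback.lift_snd, pullback.lift_snd]
  · rw [Category.assoc, pullback.lift_snd, pullback.lift_snd]

theorem nat_right {T R V P : Scheme.{0}} {s t : R ⟶ T} (m : pullback t s ⟶ R) (k : V ⟶ P)
    (F G H : P ⟶ R) (f g h : V ⟶ R) (hf : k ≫ F = f) (hg : k ≫ G = g) (hh : k ≫ H = h)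
    (h1 : G ≫ t = H ≫ s) (h2 : F ≫ t = (pullback.lift G H h1 ≫ m) ≫ s)
    (h3 : g ≫ t = h ≫ s) (h4 : f ≫ t = (pullback.lift g h h3 ≫ m) ≫ s) :
    k ≫ pullback.lift F (pullback.lift G H h1 ≫ m) h2
      = pullback.lift f (pullback.lift g h h3 ≫ m) h4 := by
  subst hf hg hh
  apply pullback.hom_ext
  · rw [Category.assoc, pullback.lift_fst, pullback.lift_fst]
  · rw [Category.assoc, pullback.lift_snd, pullback.lift_snd, ← Category.assoc]
    congr 1
    apply pullback.hom_ext
    · rw [Category.assoc, pullback.lift_fst, pullback.lift_fst]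
    · rw [Category.assoc, pullback.lift_snd, pullback.lift_snd]

theorem t_Gpd : S_L1 → S_Gpd := by
  intro hL1 S₀ T R str O ρ _ _ _ _ s t hs ht _ h1 he hi hm
  obtain ⟨e, he⟩ := he
  obtain ⟨i, hi⟩ := hi
  obtain ⟨m, hm⟩ := hm
  have U : ∀ {V : Scheme.{0}} (f g : V ⟶ R), f ≫ s = g ≫ s → f ≫ t = g ≫ t →
      (Flat (g ≫ s) ∨ Flat (g ≫ t)) → f = g := by
    intro V f g h2 h3 h4
    exact (uniq hL1 str O ρ s t hs ht h1 g f h2.symm h3.symm h4).symm
  have e_s : e ≫ s = 𝟙 T := by
    rw [← hs, ← Category.assoc, he, pullback.lift_fst]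
  have e_t : e ≫ t = 𝟙 T := by
    rw [← ht, ← Category.assoc, he, pullback.lift_snd]
  have i_s : i ≫ s = t := by
    have : i ≫ ρ ≫ pullback.fst str str = t := by
      rw [← Category.assoc, hi, pullback.lift_fst]
    rw [hs] at this
    exact this
  have i_t : i ≫ t = s := by
    have : i ≫ ρ ≫ pullback.snd str str = s := by
      rw [← Category.assoc, hi, pullback.lift_snd]
    rw [ht] at this
    exact this
  have m_s : m ≫ s = pullback.fst t s ≫ s := by
    have : m ≫ ρ ≫ pullback.fst str str = pullback.fst t s ≫ s := by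
      rw [← Category.assoc, hm, pullback.lift_fst]
    rw [hs] at this
    exact this
  have m_t : m ≫ t = pullback.snd t s ≫ t := by
    have : m ≫ ρ ≫ pullback.snd str str = pullback.snd t s ≫ t := by
      rw [← Category.assoc, hm, pullback.lift_snd]
    rw [ht] at this
    exact this
  have ms' : ∀ {V : Scheme.{0}} (a b : V ⟶ R) (h : a ≫ t = b ≫ s),
      (pullback.lift a b h ≫ m) ≫ s = a ≫ s := by
    intro V a b h
    rw [Category.assoc, m_s, pullback.lift_fst_assoc]
  have mt' : ∀ {V : Scheme.{0}} (a b : V ⟶ R) (h : a ≫ t = b ≫ s),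
      (pullback.lift a b h ≫ m) ≫ t = b ≫ t := by
    intro V a b h
    rw [Category.assoc, m_t, pullback.lift_snd_assoc]
  have ii : i ≫ i = 𝟙 R := by
    apply U
    · rw [Category.assoc, i_s, i_t, Category.id_comp]
    · rw [Category.assoc, i_t, i_s, Category.id_comp]
    · left
      rw [Category.id_comp]
      infer_instance
  have hiso : IsIso i := ⟨⟨i, ii, ii⟩⟩
  have hst : Smooth t := by
    rw [← i_s]
    infer_instance
  refine ⟨⟨?_⟩, hst⟩
  -- the universal triple
  have huniv : ∀ {V : Scheme.{0}} (f g h : V ⟶ R) (hfg : f ≫ t = g ≫ s) (hgh : g ≫ t = h ≫ s),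
      Flat (f ≫ s) →
      pullback.lift (pullback.lift f g hfg ≫ m) h
        (by rw [Category.assoc, m_t, pullback.lift_snd_assoc, hgh]) ≫ m =
      pullback.lift f (pullback.lift g h hgh ≫ m)
        (by rw [Category.assoc, m_s, pullback.lift_fst_assoc, hfg]) ≫ m := by
    intro V f g h hfg hgh hfl
    apply U
    · rw [ms', ms', ms']
    · rw [mt', mt', mt']
    · left
      rw [ms']
      exact hfl
  exact
    { e := e
      inv := i
      mul := m
      e_s := e_s
      e_t := e_t
      inv_s := i_s
      inv_t := i_t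
      mul_s := m_s
      mul_t := m_t
      id_mul := by
        apply U
        · rw [Category.assoc, m_s, pullback.lift_fst_assoc, Category.assoc, e_s, Category.comp_id,
            Category.id_comp]
        · rw [Category.assoc, m_t, pullback.lift_snd_assoc]
        · left
          rw [Category.id_comp]
          infer_instance
      mul_id := by
        apply U
        · rw [Category.assoc, m_s, pullback.lift_fst_assoc]
        · rw [Category.assoc, m_t, pullback.lift_snd_assoc, Category.assoc, e_t, Category.comp_id,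
            Category.id_comp]
        · left
          rw [Category.id_comp]
          infer_instance
      inv_mul := by
        apply U
        · rw [Category.assoc, m_s, pullback.lift_fst_assoc, i_s, Category.assoc, e_s,
            Category.comp_id]
        · rw [Category.assoc, m_t, pullback.lift_snd_assoc, Category.id_comp, Category.assoc, e_t,
            Category.comp_id]
        · left
          rw [Category.assoc, e_s, Category.comp_id]
          infer_instance
      mul_inv := by
        apply U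
        · rw [Category.assoc, m_s, pullback.lift_fst_assoc, Category.id_comp, Category.assoc, e_s,
            Category.comp_id]
        · rw [Category.assoc, m_t, pullback.lift_snd_assoc, i_t, Category.assoc, e_t,
            Category.comp_id]
        · left
          rw [Category.assoc, e_s, Category.comp_id]
          infer_instance
      assoc := by
        intro V f g h hfg hgh
        have c1 : (pullback.fst (pullback.snd t s ≫ t) s ≫ pullback.fst t s) ≫ t
            = (pullback.fst (pullback.snd t s ≫ t) s ≫ pullback.snd t s) ≫ s := by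
          rw [Category.assoc, Category.assoc, pullback.condition]
        have c2 : (pullback.fst (pullback.snd t s ≫ t) s ≫ pullback.snd t s) ≫ t
            = pullback.snd (pullback.snd t s ≫ t) s ≫ s := by
          rw [Category.assoc, pullback.condition]
        have hfl : Flat ((pullback.fst (pullback.snd t s ≫ t) s ≫ pullback.fst t s) ≫ s) := by
          infer_instance
        have key := huniv _ _ _ c1 c2 hfl
        have hk : pullback.lift f g hfg ≫ pullback.snd t s ≫ t = h ≫ s := by
          rw [pullback.lift_snd_assoc, hgh]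
        have f1 : pullback.lift (pullback.lift f g hfg) h hk ≫
            (pullback.fst (pullback.snd t s ≫ t) s ≫ pullback.fst t s) = f := by
          rw [pullback.lift_fst_assoc, pullback.lift_fst]
        have f2 : pullback.lift (pullback.lift f g hfg) h hk ≫
            (pullback.fst (pullback.snd t s ≫ t) s ≫ pullback.snd t s) = g := by
          rw [pullback.lift_fst_assoc, pullback.lift_snd]
        have f3 : pullback.lift (pullback.lift f g hfg) h hk ≫
            pullback.snd (pullback.snd t s ≫ t) s = h := by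
          rw [pullback.lift_snd]
        have c3 : (pullback.lift (pullback.fst (pullback.snd t s ≫ t) s ≫ pullback.fst t s)
            (pullback.fst (pullback.snd t s ≫ t) s ≫ pullback.snd t s) c1 ≫ m) ≫ t
            = pullback.snd (pullback.snd t s ≫ t) s ≫ s := by
          rw [mt', c2]
        have c4 : (pullback.fst (pullback.snd t s ≫ t) s ≫ pullback.fst t s) ≫ t
            = (pullback.lift (pullback.fst (pullback.snd t s ≫ t) s ≫ pullback.snd t s)
              (pullback.snd (pullback.snd t s ≫ t) s) c2 ≫ m) ≫ s := by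
          rw [ms', c1]
        have d3 : (pullback.lift f g hfg ≫ m) ≫ t = h ≫ s := by rw [mt', hgh]
        have d4 : f ≫ t = (pullback.lift g h hgh ≫ m) ≫ s := by rw [ms', hfg]
        have n1 := nat_left m _ _ _ _ f g h f1 f2 f3 c1 c3 hfg d3
        have n2 := nat_right m _ _ _ _ f g h f1 f2 f3 c2 c4 hgh d4
        have n3 := congrArg (fun x => pullback.lift (pullback.lift f g hfg) h hk ≫ x) key
        exact (congrArg (fun x => x ≫ m) n1).symm.trans
          (((Category.assoc _ _ _).trans (n3.trans (Category.assoc _ _ _).symm)).trans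
            (congrArg (fun x => x ≫ m) n2)) }

end Pool.Agent.H919.FP.TGpd
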