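import Pool.Agent.H919.FP.Ring

/-! # Hartogs gluing of elements of a commutative ring (for MP_911691_ag, helper919) -/

set_option autoImplicit false

namespace Pool.Agent.H919.FP.TH

/-- if a power of `x` is in `(f, g)`, then a power of `x` is in `(f ^ n, g ^ n)` -/
theorem pow_mem {C : Type*} [CommRing C] {x f g : C} {D : ℕ}
    (h : x ^ D ∈ Ideal.span {f, g}) (n : ℕ) : ∃ N : ℕ, x ^ N ∈ Ideal.span {f ^ n, g ^ n} := by
  have h1 : Ideal.span {f, g} ≤ (Ideal.span {f ^ n, g ^ n}).radical := by
    rw [Ideal.span_le]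
    intro a ha
    simp only [Set.mem_insert_iff, Set.mem_singleton_iff] at ha
    rcases ha with rfl | rfl
    · exact ⟨n, Ideal.subset_span (by simp)⟩
    · exact ⟨n, Ideal.subset_span (by simp)⟩
  obtain ⟨M, hM⟩ := h1 h
  exact ⟨D * M, by rwa [pow_mul]⟩

theorem cancel {C : Type*} [CommRing C] {x : C} (hx : ∀ c : C, x * c = 0 → c = 0) (N : ℕ) (c : C)
    (h : x ^ N * c = 0) : c = 0 := by
  induction N with
  | zero => simpa using h
  | succ N ih =>
    apply ih
    apply hx
    rw [← h]
    ring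

theorem t_H : Pool.Agent.H919.FP.S_H := by
  intro C _ x y f g hx hreg D hxD hyD Cf Cg Cfg _ _ _ _ _ _ _ _ _ _ _ _ _
  refine ⟨?_, ?_⟩
  · intro a b hab
    obtain ⟨n, d, hd⟩ := IsLocalization.Away.surj f a
    obtain ⟨m, e, he⟩ := IsLocalization.Away.surj g b
    -- common exponent
    have ha : a * algebraMap C Cf f ^ (n + m) = algebraMap C Cf (f ^ m * d) := by
      rw [pow_add, ← mul_assoc, hd, map_mul, map_pow]
      ring
    have hb : b * algebraMap C Cg g ^ (n + m) = algebraMap C Cg (g ^ n * e) := by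
      rw [add_comm, pow_add, ← mul_assoc, he, map_mul, map_pow]
      ring
    have hf' : ∀ c : C, algebraMap Cf Cfg (algebraMap C Cf c) = algebraMap C Cfg c := fun c =>
      (IsScalarTower.algebraMap_apply C Cf Cfg c).symm
    have hg' : ∀ c : C, algebraMap Cg Cfg (algebraMap C Cg c) = algebraMap C Cfg c := fun c =>
      (IsScalarTower.algebraMap_apply C Cg Cfg c).symm
    have ha1 : algebraMap Cf Cfg a * algebraMap C Cfg f ^ (n + m) =
        algebraMap C Cfg (f ^ m * d) := by
      have := congrArg (algebraMap Cf Cfg) ha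
      rwa [map_mul, map_pow, hf', hf'] at this
    have hb1 : algebraMap Cg Cfg b * algebraMap C Cfg g ^ (n + m) =
        algebraMap C Cfg (g ^ n * e) := by
      have := congrArg (algebraMap Cg Cfg) hb
      rwa [map_mul, map_pow, hg', hg'] at this
    have heq : algebraMap C Cfg (g ^ (n + m) * (f ^ m * d)) =
        algebraMap C Cfg (f ^ (n + m) * (g ^ n * e)) := by
      rw [map_mul _ (g ^ (n + m)), map_mul _ (f ^ (n + m)), ← ha1, ← hb1, map_pow, map_pow, hab]
      ring
    obtain ⟨⟨c0, l, rfl⟩, hl⟩ :=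
      (IsLocalization.eq_iff_exists (Submonoid.powers (f * g)) Cfg).1 heq
    have hl' : (f * g) ^ l * (g ^ (n + m) * (f ^ m * d)) =
      (f * g) ^ l * (f ^ (n + m) * (g ^ n * e)) := hl
    -- the final numerators
    set k := n + m + l with hk
    set d1 : C := f ^ l * (f ^ m * d) with hd1
    set d2 : C := g ^ l * (g ^ n * e) with hd2
    have ha2 : a * algebraMap C Cf f ^ k = algebraMap C Cf d1 := by
      rw [hk, pow_add, ← mul_assoc, ha, hd1, map_mul _ (f ^ l), map_pow _ f l]
      ring
    have hb2 : b * algebraMap C Cg g ^ k = algebraMap C Cg d2 := by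
      rw [hk, pow_add, ← mul_assoc, hb, hd2, map_mul _ (g ^ l), map_pow _ g l]
      ring
    have hrel : g ^ k * d1 = f ^ k * d2 := by
      rw [hk, hd1, hd2]
      have h1 : g ^ (n + m + l) * (f ^ l * (f ^ m * d)) =
          (f * g) ^ l * (g ^ (n + m) * (f ^ m * d)) := by
        rw [pow_add, mul_pow]
        ring
      have h2 : f ^ (n + m + l) * (g ^ l * (g ^ n * e)) =
          (f * g) ^ l * (f ^ (n + m) * (g ^ n * e)) := by
        rw [pow_add, mul_pow]
        ring
      rw [h1, h2, hl']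
    obtain ⟨N1, hN1⟩ := pow_mem hxD k
    obtain ⟨N2, hN2⟩ := pow_mem hyD k
    have hN1' : x ^ (N1 + N2) ∈ Ideal.span {f ^ k, g ^ k} := by
      rw [pow_add x]
      exact Ideal.mul_mem_right _ _ hN1
    have hN2' : y ^ (N1 + N2) ∈ Ideal.span {f ^ k, g ^ k} := by
      rw [pow_add y]
      exact Ideal.mul_mem_left _ _ hN2
    obtain ⟨α, β, hαβ⟩ := Ideal.mem_span_pair.1 hN1'
    obtain ⟨α', β', hαβ'⟩ := Ideal.mem_span_pair.1 hN2'
    set N := N1 + N2 with hN
    -- `e = α d₁ + β d₂`
    have h1 : f ^ k * (α * d1 + β * d2) = x ^ N * d1 := by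
      rw [← hαβ]
      linear_combination (-β) * hrel
    have h2 : g ^ k * (α * d1 + β * d2) = x ^ N * d2 := by
      rw [← hαβ]
      linear_combination α * hrel
    have h3 : y ^ N * (α * d1 + β * d2) = x ^ N * (α' * d1 + β' * d2) := by
      rw [← hαβ']
      linear_combination α' * h1 + β' * h2
    obtain ⟨c, hc, -⟩ := hreg N _ _ h3
    have hfc : f ^ k * c = d1 := by
      have h4 : x ^ N * (f ^ k * c - d1) = 0 := by
        linear_combination h1 - f ^ k * hc
      exact sub_eq_zero.1 (cancel hx N _ h4)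
    have hgc : g ^ k * c = d2 := by
      have h4 : x ^ N * (g ^ k * c - d2) = 0 := by
        linear_combination h2 - g ^ k * hc
      exact sub_eq_zero.1 (cancel hx N _ h4)
    refine ⟨c, ?_, ?_⟩
    · have hu : IsUnit (algebraMap C Cf f ^ k) :=
        (IsLocalization.Away.algebraMap_isUnit f).pow k
      apply hu.mul_right_cancel
      rw [ha2, ← hfc, map_mul, map_pow]
      ring
    · have hu : IsUnit (algebraMap C Cg g ^ k) :=
        (IsLocalization.Away.algebraMap_isUnit g).pow k
      apply hu.mul_right_cancel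
      rw [hb2, ← hgc, map_mul, map_pow]
      ring
  · intro c hf hg
    obtain ⟨⟨_, n, rfl⟩, hn⟩ :=
      (IsLocalization.map_eq_zero_iff (Submonoid.powers f) Cf c).1 hf
    obtain ⟨⟨_, m, rfl⟩, hm⟩ :=
      (IsLocalization.map_eq_zero_iff (Submonoid.powers g) Cg c).1 hg
    have hn' : f ^ n * c = 0 := hn
    have hm' : g ^ m * c = 0 := hm
    obtain ⟨N, hN⟩ := pow_mem hxD (n + m)
    obtain ⟨α, β, hαβ⟩ := Ideal.mem_span_pair.1 hN
    apply cancel hx N
    rw [← hαβ, pow_add, pow_add]
    linear_combination (α * f ^ m) * hn' + (β * g ^ n) * hm'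

end Pool.Agent.H919.FP.TH
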