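import Pool.Agent.H919.FP.Sch

/-!
# Uniqueness of lifts along a separated morphism which is an isomorphism over an open set

Proof of `Pool.Agent.H919.FP.S_L1`.
-/

open CategoryTheory Limits AlgebraicGeometry

namespace Pool.Agent.H919.FP.TL1

set_option backward.isDefEq.respectTransparency false in
/-- two morphisms over a separated morphism which agree after a scheme-theoretically dominant
morphism are equal -/
theorem ext_of_dom {W X Y Z : Scheme.{0}} {f g : X ⟶ Y} (s : Y ⟶ Z) [IsSeparated s]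
    (h : f ≫ s = g ≫ s) (ι : W ⟶ X) [IsSchemeTheoreticallyDominant ι]
    (hU : ι ≫ f = ι ≫ g) : f = g := by
  let X' : Over Z := Over.mk (f ≫ s)
  let Y' : Over Z := Over.mk s
  let U' : Over Z := Over.mk (ι ≫ f ≫ s)
  let f' : X' ⟶ Y' := Over.homMk f
  let g' : X' ⟶ Y' := Over.homMk g
  let ι' : U' ⟶ X' := Over.homMk ι
  have : IsSeparated Y'.hom := ‹_›
  have hι : ι' ≫ f' = ι' ≫ g' := by ext1; exact hU
  have h1 : (equalizer.lift ι' hι).left ≫ (equalizer.ι f' g').left = ι := by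
    rw [← Over.comp_left, equalizer.lift_ι]
    rfl
  have hker : (equalizer.ι f' g').left.ker = ⊥ := by
    have h2 := Scheme.Hom.le_ker_comp (equalizer.lift ι' hι).left (equalizer.ι f' g').left
    rw [h1] at h2
    have h3 : ι.ker = ⊥ := IsSchemeTheoreticallyDominant.ker_eq_bot ι
    rw [h3] at h2
    exact le_bot_iff.mp h2
  have := IsClosedImmersion.isIso_iff_ker_eq_bot.mpr hker
  rw [← cancel_epi (equalizer.ι f' g').left]
  exact congr($(equalizer.condition f' g').left)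

theorem t_L1 : Pool.Agent.H919.FP.S_L1 := by
  intro S R V ρ U _ _ f g h _
  have hf : Set.range (((f ≫ ρ) ⁻¹ᵁ U).ι ≫ f) ⊆ Set.range (ρ ⁻¹ᵁ U).ι := by
    rintro _ ⟨x, rfl⟩
    simp only [Scheme.Opens.range_ι]
    exact x.2
  have hg : Set.range (((f ≫ ρ) ⁻¹ᵁ U).ι ≫ g) ⊆ Set.range (ρ ⁻¹ᵁ U).ι := by
    rintro _ ⟨x, rfl⟩
    simp only [Scheme.Opens.range_ι]
    have hx : (f ≫ ρ) x.1 ∈ U := x.2
    have e : (f ≫ ρ) x.1 = (g ≫ ρ) x.1 := congrArg (fun k : V ⟶ S => k x.1) h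
    have hx' : (g ≫ ρ) x.1 ∈ U := e ▸ hx
    exact hx'
  have key : IsOpenImmersion.lift (ρ ⁻¹ᵁ U).ι (((f ≫ ρ) ⁻¹ᵁ U).ι ≫ f) hf =
      IsOpenImmersion.lift (ρ ⁻¹ᵁ U).ι (((f ≫ ρ) ⁻¹ᵁ U).ι ≫ g) hg := by
    rw [← cancel_mono (ρ ∣_ U), ← cancel_mono U.ι]
    simp only [Category.assoc, morphismRestrict_ι, IsOpenImmersion.lift_fac_assoc]
    rw [h]
  refine ext_of_dom ρ h ((f ≫ ρ) ⁻¹ᵁ U).ι ?_
  rw [← IsOpenImmersion.lift_fac (ρ ⁻¹ᵁ U).ι (((f ≫ ρ) ⁻¹ᵁ U).ι ≫ f) hf, key,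
    IsOpenImmersion.lift_fac]

end Pool.Agent.H919.FP.TL1
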