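import Pool.Agent.H919.FP.Sch

/-! # Existence of lifts by gluing two pieces -/

set_option autoImplicit false

open CategoryTheory Limits AlgebraicGeometry

namespace Pool.Agent.H919.FP.TL2

/-- two maps which land over `U` and have the same composite with `ρ` are equal -/
theorem eq_of_comp {S R X : Scheme.{0}} (ρ : R ⟶ S) (U : S.Opens) [IsIso (ρ ∣_ U)] (f g : X ⟶ R)
    (h : f ≫ ρ = g ≫ ρ) (hU : ∀ x, (f ≫ ρ) x ∈ U) : f = g := by
  have hU' : ∀ x, (g ≫ ρ) x ∈ U := by rw [← h]; exact hU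
  have key : ∀ k : X ⟶ R, (∀ x, (k ≫ ρ) x ∈ U) → Set.range k ⊆ Set.range (ρ ⁻¹ᵁ U).ι := by
    intro k hk
    rintro _ ⟨x, rfl⟩
    rw [Scheme.Opens.range_ι]
    have := hk x
    rwa [Scheme.Hom.comp_apply] at this
  have e1 := IsOpenImmersion.lift_fac (ρ ⁻¹ᵁ U).ι f (key f hU)
  have e2 := IsOpenImmersion.lift_fac (ρ ⁻¹ᵁ U).ι g (key g hU')
  set f' := IsOpenImmersion.lift (ρ ⁻¹ᵁ U).ι f (key f hU)
  set g' := IsOpenImmersion.lift (ρ ⁻¹ᵁ U).ι g (key g hU')
  have e3 : f' ≫ (ρ ∣_ U) = g' ≫ (ρ ∣_ U) := by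
    rw [← cancel_mono U.ι, Category.assoc, Category.assoc, morphismRestrict_ι, ← Category.assoc,
      ← Category.assoc, e1, e2, h]
  have e4 : f' = g' := by
    rwa [cancel_mono] at e3
  rw [← e1, ← e2, e4]

theorem t_L2 : Pool.Agent.H919.FP.S_L2 := by
  intro S R V V' ρ U _ φ j _ hcov g hg
  let 𝒰 : V.OpenCover :=
    { I₀ := Bool
      X := fun b => match b with
        | true => (φ ⁻¹ᵁ U : Scheme)
        | false => V'
      f := fun b => match b with
        | true => (φ ⁻¹ᵁ U).ι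
        | false => j
      mem₀ := by
        rw [Scheme.presieve₀_mem_precoverage_iff]
        refine ⟨fun v => ?_, fun b => ?_⟩
        · rcases hcov v with hv | ⟨x, hx⟩
          · exact ⟨true, ⟨v, hv⟩, rfl⟩
          · exact ⟨false, x, hx⟩
        · cases b <;> dsimp <;> infer_instance }
  let a : (φ ⁻¹ᵁ U : Scheme) ⟶ R := (φ ∣_ U) ≫ inv (ρ ∣_ U) ≫ (ρ ⁻¹ᵁ U).ι
  have ha : a ≫ ρ = (φ ⁻¹ᵁ U).ι ≫ φ := by
    simp only [a, Category.assoc]
    rw [← morphismRestrict_ι, IsIso.inv_hom_id_assoc, morphismRestrict_ι]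
  have haU : ∀ x, (a ≫ ρ) x ∈ U := by
    intro x
    rw [ha, Scheme.Hom.comp_apply]
    exact x.2
  let F : ∀ b : Bool, 𝒰.X b ⟶ R := fun b => match b with
    | true => a
    | false => g
  have hF : ∀ b, F b ≫ ρ = 𝒰.f b ≫ φ := by
    intro b
    cases b
    · exact hg
    · exact ha
  have hc : ∀ x y : Bool, pullback.fst (𝒰.f x) (𝒰.f y) ≫ F x = pullback.snd (𝒰.f x) (𝒰.f y) ≫ F y := by
    intro x y
    have hcomp : (pullback.fst (𝒰.f x) (𝒰.f y) ≫ F x) ≫ ρ =
        (pullback.snd (𝒰.f x) (𝒰.f y) ≫ F y) ≫ ρ := by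
      rw [Category.assoc, Category.assoc, hF, hF, pullback.condition_assoc]
    cases x with
    | true =>
      refine eq_of_comp ρ U _ _ hcomp fun z => ?_
      rw [Category.assoc, Scheme.Hom.comp_apply]
      exact haU _
    | false =>
      cases y with
      | true =>
        refine (eq_of_comp ρ U _ _ hcomp.symm fun z => ?_).symm
        rw [Category.assoc, Scheme.Hom.comp_apply]
        exact haU _
      | false =>
        have : pullback.fst (𝒰.f false) (𝒰.f false) = pullback.snd (𝒰.f false) (𝒰.f false) := by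
          have : Mono (𝒰.f false) := (inferInstance : Mono j)
          exact fst_eq_snd_of_mono_eq _
        rw [this]
  refine ⟨𝒰.glueMorphisms F hc, Scheme.Cover.hom_ext 𝒰 _ _ fun b => ?_⟩
  rw [← Category.assoc, Scheme.Cover.ι_glueMorphisms, hF]

end Pool.Agent.H919.FP.TL2
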