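import Pool.Agent.H919.FP.Ring

/-!
# FP/N: the Nakayama argument (subtask 776 of helper919, MP_911691_ag)
-/

namespace Pool.Agent.H919.FP.TN

open Pool.Agent.H919.FP

section CgDef

variable {C : Type} [CommRing C]

/-- `A` and `A'` lie in `m ^ d` and are congruent modulo `m ^ (d+1)` -/
def Cg (m : Ideal C) (d : ℕ) (A A' : C) : Prop := A' ∈ m ^ d ∧ A - A' ∈ m ^ (d + 1)

variable {m : Ideal C}

lemma Cg.left {d : ℕ} {A A' : C} (h : Cg m d A A') : A ∈ m ^ d := by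
  have h1 : A - A' ∈ m ^ d := Ideal.pow_le_pow_right (Nat.le_succ d) h.2
  have := (m ^ d).add_mem h1 h.1
  simpa using this

lemma Cg.mul {d e : ℕ} {A A' B B' : C} (h : Cg m d A A') (h' : Cg m e B B') :
    Cg m (d + e) (A * B) (A' * B') := by
  refine ⟨?_, ?_⟩
  · rw [pow_add]; exact Ideal.mul_mem_mul h.1 h'.1
  · have e1 : A * B - A' * B' = A * (B - B') + (A - A') * B' := by ring
    rw [e1]
    refine Ideal.add_mem _ ?_ ?_
    · rw [add_assoc, pow_add]; exact Ideal.mul_mem_mul h.left h'.2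
    · rw [show d + e + 1 = (d + 1) + e by ring, pow_add]; exact Ideal.mul_mem_mul h.2 h'.1

lemma Cg.add {d : ℕ} {A A' B B' : C} (h : Cg m d A A') (h' : Cg m d B B') :
    Cg m d (A + B) (A' + B') := by
  refine ⟨Ideal.add_mem _ h.1 h'.1, ?_⟩
  have e1 : A + B - (A' + B') = (A - A') + (B - B') := by ring
  rw [e1]; exact Ideal.add_mem _ h.2 h'.2

lemma Cg.pow {d : ℕ} {A A' : C} (h : Cg m d A A') (n : ℕ) :
    Cg m (d * n) (A ^ n) (A' ^ n) := by
  induction n with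
  | zero => simp [Cg]
  | succ n ih =>
    have := ih.mul h
    rw [pow_succ, pow_succ, Nat.mul_succ]; exact this

lemma Cg.cast {d e : ℕ} {A A' B' : C} (h : Cg m d A A') (hd : d = e) (hA : A' = B') :
    Cg m e A B' := by subst hd; subst hA; exact h

end CgDef

section CgPoints

variable {C : Type} [CommRing C] {m : Ideal C} {q q' P P' : Fin 3 → C}

lemma cg_gg (h : ∀ i, Cg m 1 (q i) (P i)) : Cg m 3 (gg q) (gg P) :=
  ((h 1).pow 3).add (((h 0).pow 2).mul (h 2))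

lemma cg_n1 (h : ∀ i, Cg m 1 (q i) (P i)) (h' : ∀ i, Cg m 1 (q' i) (P' i)) :
    Cg m 2 (n1 q q') (n1 P P') := ((h 1).mul (h' 2)).add ((h 2).mul (h' 1))

lemma cg_n2 (h : ∀ i, Cg m 1 (q i) (P i)) (h' : ∀ i, Cg m 1 (q' i) (P' i)) :
    Cg m 2 (n2 q q') (n2 P P') := ((h 2).mul (h' 0)).add ((h 0).mul (h' 2))

lemma cg_n3 (h : ∀ i, Cg m 1 (q i) (P i)) (h' : ∀ i, Cg m 1 (q' i) (P' i)) :
    Cg m 2 (n3 q q') (n3 P P') := ((h 0).mul (h' 1)).add ((h 1).mul (h' 0))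

lemma cg_P11 (h : ∀ i, Cg m 1 (q i) (P i)) (h' : ∀ i, Cg m 1 (q' i) (P' i)) :
    Cg m 6 (P11 q q') (P11 P P') :=
  (((cg_gg h).mul (cg_gg h')).add
    (((((h 0).mul (h' 0)).mul (h 1)).mul (h' 1)).mul (cg_n1 h h'))).add
    ((((h 2).pow 2).mul ((h' 2).pow 2)).mul (cg_n2 h h'))

lemma cg_P33 (h : ∀ i, Cg m 1 (q i) (P i)) (h' : ∀ i, Cg m 1 (q' i) (P' i)) :
    Cg m 6 (P33 q q') (P33 P P') :=
  ((((h 0).pow 3).mul ((h' 0).pow 3)).add ((cg_n2 h h').pow 3)).add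
    (((cg_n1 h h').pow 2).mul (cg_n3 h h'))

lemma cg_a1 (h : ∀ i, Cg m 1 (q i) (P i)) (h' : ∀ i, Cg m 1 (q' i) (P' i)) :
    Cg m 3 (a1 q q') (a1 P P') :=
  (((h 0).mul (h 2)).mul (h' 0)).add (((h 1).pow 2).mul (h' 1))

lemma cg_a3 (h : ∀ i, Cg m 1 (q i) (P i)) (h' : ∀ i, Cg m 1 (q' i) (P' i)) :
    Cg m 3 (a3 q q') (a3 P P') := ((h 0).pow 2).mul (h' 0)

lemma cg_β1 (h : ∀ i, Cg m 1 (q i) (P i)) (h' : ∀ i, Cg m 1 (q' i) (P' i)) :
    Cg m 4 (β1 q q') (β1 P P') := ((h 1).mul (h' 1)).mul (cg_n1 h h')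

lemma cg_β2 (h : ∀ i, Cg m 1 (q i) (P i)) (h' : ∀ i, Cg m 1 (q' i) (P' i)) :
    Cg m 4 (β2 q q') (β2 P P') :=
  (((h 0).mul (h 1)).mul ((h' 2).pow 2)).add ((((h 2).pow 2).mul (h' 0)).mul (h' 1))

lemma cg_β3 (h : ∀ i, Cg m 1 (q i) (P i)) (h' : ∀ i, Cg m 1 (q' i) (P' i)) :
    Cg m 4 (β3 q q') (β3 P P') := ((h 0).pow 2).mul ((h' 0).pow 2)

lemma cg_b1 (h : ∀ i, Cg m 1 (q i) (P i)) (h' : ∀ i, Cg m 1 (q' i) (P' i)) :
    Cg m 5 (b1 q q') (b1 P P') :=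
  ((h 1).mul (cg_β3 h h')).add ((h 2).mul (cg_β2 h h'))

lemma cg_b3 (h : ∀ i, Cg m 1 (q i) (P i)) (h' : ∀ i, Cg m 1 (q' i) (P' i)) :
    Cg m 5 (b3 q q') (b3 P P') :=
  ((h 0).mul (cg_β2 h h')).add ((h 1).mul (cg_β1 h h'))

lemma cg_V1 (h : ∀ i, Cg m 1 (q i) (P i)) (h' : ∀ i, Cg m 1 (q' i) (P' i)) :
    Cg m 9 (V1 q q') (V1 P P') :=
  ((cg_a1 h h').mul (cg_P11 h h')).add (((cg_n1 h h').pow 2).mul (cg_b1 h h'))

lemma cg_V3 (h : ∀ i, Cg m 1 (q i) (P i)) (h' : ∀ i, Cg m 1 (q' i) (P' i)) :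
    Cg m 9 (V3 q q') (V3 P P') :=
  ((cg_a3 h h').mul (cg_P33 h h')).add (((cg_n3 h h').pow 2).mul (cg_b3 h h'))

lemma cg_Q1 (h : ∀ i, Cg m 1 (q i) (P i)) (h' : ∀ i, Cg m 1 (q' i) (P' i)) :
    Cg m 15 (Q1 q q') (Q1 P P') := (cg_P11 h h').mul (cg_V1 h h')

lemma cg_Q3 (h : ∀ i, Cg m 1 (q i) (P i)) (h' : ∀ i, Cg m 1 (q' i) (P' i)) :
    Cg m 15 (Q3 q q') (Q3 P P') := (cg_P33 h h').mul (cg_V3 h h')

end CgPoints

section Values

variable {C : Type} [CommRing C] (p : Fin 3 → C) (υ υ' : C)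

lemma n1_par (h2 : (2 : C) = 0) : n1 (fun i => υ * p i) (fun i => υ' * p i) = 0 := by
  simp only [n1]; linear_combination (υ * υ' * p 1 * p 2) * h2

lemma n2_par (h2 : (2 : C) = 0) : n2 (fun i => υ * p i) (fun i => υ' * p i) = 0 := by
  simp only [n2]; linear_combination (υ * υ' * p 0 * p 2) * h2

lemma n3_par (h2 : (2 : C) = 0) : n3 (fun i => υ * p i) (fun i => υ' * p i) = 0 := by
  simp only [n3]; linear_combination (υ * υ' * p 0 * p 1) * h2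

lemma P11_par (h2 : (2 : C) = 0) :
    P11 (fun i => υ * p i) (fun i => υ' * p i) = υ ^ 3 * υ' ^ 3 * gg p ^ 2 := by
  rw [P11, n1_par p υ υ' h2, n2_par p υ υ' h2]; simp only [gg]; ring

lemma P33_par (h2 : (2 : C) = 0) :
    P33 (fun i => υ * p i) (fun i => υ' * p i) = υ ^ 3 * υ' ^ 3 * p 0 ^ 6 := by
  rw [P33, n1_par p υ υ' h2, n2_par p υ υ' h2]; ring

lemma Q1_par (h2 : (2 : C) = 0) :
    Q1 (fun i => υ * p i) (fun i => υ' * p i) = υ ^ 8 * υ' ^ 7 * gg p ^ 5 := by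
  rw [Q1, V1, P11_par p υ υ' h2, n1_par p υ υ' h2]; simp only [gg, a1]; ring

lemma Q3_par (h2 : (2 : C) = 0) :
    Q3 (fun i => υ * p i) (fun i => υ' * p i) = υ ^ 8 * υ' ^ 7 * p 0 ^ 15 := by
  rw [Q3, V3, P33_par p υ υ' h2, n3_par p υ υ' h2]; simp only [a3]; ring

end Values

section Ideals

variable {C : Type} [CommRing C]

lemma mul_sup_pow_le (I J K : Ideal C) : ∀ (n : ℕ) (A : Ideal C),
    (∀ i j, i + j = n → A * I ^ i * J ^ j ≤ K) → A * (I ⊔ J) ^ n ≤ K := by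
  intro n
  induction n with
  | zero => intro A h; simpa using h 0 0 rfl
  | succ n ih =>
    intro A h
    rw [pow_succ', ← mul_assoc, Ideal.mul_sup, Ideal.sup_mul]
    refine sup_le (ih _ ?_) (ih _ ?_)
    · intro i j hij
      have := h (i + 1) j (by omega)
      rwa [pow_succ', ← mul_assoc] at this
    · intro i j hij
      have := h i (j + 1) (by omega)
      have e : A * J * I ^ i * J ^ j = A * I ^ i * J ^ (j + 1) := by ring
      rwa [e]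

variable (p : Fin 3 → C)

lemma mem_mI (i : Fin 3) : p i ∈ mI p := Ideal.subset_span ⟨i, rfl⟩

lemma gg_mem : gg p ∈ mI p ^ 3 := by
  rw [gg]
  refine Ideal.add_mem _ (Ideal.pow_mem_pow (mem_mI p 1) 3) ?_
  rw [pow_succ]
  exact Ideal.mul_mem_mul (Ideal.pow_mem_pow (mem_mI p 0) 2) (mem_mI p 2)

lemma gg_pow_mem (k e : ℕ) (he : e = 3 * k) : gg p ^ k ∈ mI p ^ e := by
  subst he
  rw [pow_mul]
  exact Ideal.pow_mem_pow (gg_mem p) k

lemma mI_le : mI p ≤ Ideal.span {p 0} ⊔ (Ideal.span {p 1} ⊔ Ideal.span {p 2}) := by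
  rw [mI, Ideal.span_le]
  rintro _ ⟨i, rfl⟩
  fin_cases i
  · exact Ideal.mem_sup_left (Ideal.mem_span_singleton_self _)
  · exact Ideal.mem_sup_right (Ideal.mem_sup_left (Ideal.mem_span_singleton_self _))
  · exact Ideal.mem_sup_right (Ideal.mem_sup_right (Ideal.mem_span_singleton_self _))

lemma span_le_mI (i : Fin 3) : Ideal.span {p i} ≤ mI p := by
  rw [Ideal.span_singleton_le_iff_mem]; exact mem_mI p i

/-- powers of `m` -/
lemma pow97_le (h2 : (2 : C) = 0) (hh0 : hh p = 0) (n : ℕ) (hn : n = 97) (l : ℕ) (hl : l = 82) :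
    mI p ^ n ≤ Ideal.span {p 0 ^ 15} * mI p ^ l ⊔ Ideal.span {gg p ^ 5} * mI p ^ l := by
  set K := Ideal.span {p 0 ^ 15} * mI p ^ l ⊔ Ideal.span {gg p ^ 5} * mI p ^ l with hK
  have h0 : mI p ^ n ≤ 1 * (Ideal.span {p 0} ⊔ (Ideal.span {p 1} ⊔ Ideal.span {p 2})) ^ n := by
    rw [one_mul]; exact Ideal.pow_right_mono (mI_le p) n
  refine h0.trans ?_
  refine mul_sup_pow_le _ _ _ n _ ?_
  intro i j hij
  refine mul_sup_pow_le _ _ _ j _ ?_
  intro a b hab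
  have hx := span_le_mI p 0
  have hy := span_le_mI p 1
  have hz := span_le_mI p 2
  rcases le_or_gt 15 i with hi | hi
  · obtain ⟨k, rfl⟩ := Nat.exists_eq_add_of_le hi
    calc 1 * Ideal.span {p 0} ^ (15 + k) * Ideal.span {p 1} ^ a * Ideal.span {p 2} ^ b
        = Ideal.span {p 0} ^ 15 * (Ideal.span {p 0} ^ k * Ideal.span {p 1} ^ a *
          Ideal.span {p 2} ^ b) := by ring
      _ ≤ Ideal.span {p 0} ^ 15 * (mI p ^ k * mI p ^ a * mI p ^ b) :=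
          Ideal.mul_mono_right (Ideal.mul_mono (Ideal.mul_mono (Ideal.pow_right_mono hx _)
            (Ideal.pow_right_mono hy _)) (Ideal.pow_right_mono hz _))
      _ = Ideal.span {p 0 ^ 15} * mI p ^ l := by
          rw [Ideal.span_singleton_pow, ← pow_add, ← pow_add,
            show k + a + b = l by omega]
      _ ≤ K := le_sup_left
  rcases le_or_gt 24 a with ha | ha
  · obtain ⟨k, rfl⟩ := Nat.exists_eq_add_of_le ha
    obtain ⟨e9, he9⟩ : ∃ e9 : ℕ, e9 = 9 := ⟨_, rfl⟩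
    have hy24 : Ideal.span {p 1 ^ 24} ≤
        Ideal.span {p 0 ^ 15} * mI p ^ e9 ⊔ Ideal.span {gg p ^ 5} * mI p ^ e9 := by
      rw [Ideal.span_singleton_le_iff_mem]
      have e : p 1 ^ 24 = p 0 ^ 15 * (p 0 * p 2 ^ 8) + gg p ^ 5 * gg p ^ 3 := by
        have e8 : (gg p + p 0 ^ 2 * p 2) = p 1 ^ 3 := by
          rw [gg]; linear_combination (p 0 ^ 2 * p 2) * h2
        have f1 : p 1 ^ 24 = (p 1 ^ 3) ^ 8 := by ring
        have sq : ∀ a b : C, (a + b) ^ 2 = a ^ 2 + b ^ 2 := fun a b => by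
          linear_combination (a * b) * h2
        have f2 : ∀ a b : C, (a + b) ^ 8 = a ^ 8 + b ^ 8 := fun a b => by
          calc (a + b) ^ 8 = (((a + b) ^ 2) ^ 2) ^ 2 := by ring
            _ = a ^ 8 + b ^ 8 := by rw [sq, sq, sq]; ring
        rw [f1, ← e8, f2]; ring
      rw [e]
      refine Ideal.add_mem _ (Ideal.mem_sup_left (Ideal.mul_mem_mul
        (Ideal.mem_span_singleton_self _) ?_)) (Ideal.mem_sup_right (Ideal.mul_mem_mul
        (Ideal.mem_span_singleton_self _) ?_))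
      · rw [show e9 = 8 + 1 by omega, pow_succ' (mI p)]
        exact Ideal.mul_mem_mul (mem_mI p 0) (Ideal.pow_mem_pow (mem_mI p 2) 8)
      · exact gg_pow_mem p 3 e9 (by omega)
    calc 1 * Ideal.span {p 0} ^ i * Ideal.span {p 1} ^ (24 + k) * Ideal.span {p 2} ^ b
        = Ideal.span {p 1} ^ 24 * (Ideal.span {p 0} ^ i * Ideal.span {p 1} ^ k *
          Ideal.span {p 2} ^ b) := by ring
      _ ≤ Ideal.span {p 1} ^ 24 * (mI p ^ i * mI p ^ k * mI p ^ b) :=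
          Ideal.mul_mono_right (Ideal.mul_mono (Ideal.mul_mono (Ideal.pow_right_mono hx _)
            (Ideal.pow_right_mono hy _)) (Ideal.pow_right_mono hz _))
      _ = Ideal.span {p 1 ^ 24} * mI p ^ (i + k + b) := by
          rw [Ideal.span_singleton_pow, ← pow_add, ← pow_add]
      _ ≤ (Ideal.span {p 0 ^ 15} * mI p ^ e9 ⊔ Ideal.span {gg p ^ 5} * mI p ^ e9) *
          mI p ^ (i + k + b) := Ideal.mul_mono_left hy24
      _ = K := by
          rw [Ideal.sup_mul, mul_assoc, mul_assoc, ← pow_add,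
            show e9 + (i + k + b) = l by omega]
  · have hb : 60 ≤ b := by omega
    obtain ⟨k, rfl⟩ := Nat.exists_eq_add_of_le hb
    obtain ⟨e45, he45⟩ : ∃ e45 : ℕ, e45 = 45 := ⟨_, rfl⟩
    have hz60 : Ideal.span {p 2 ^ 60} ≤ Ideal.span {p 0 ^ 15} * mI p ^ e45 := by
      rw [Ideal.span_singleton_le_iff_mem]
      have e : p 2 ^ 60 = p 0 ^ 15 * gg p ^ 15 := by
        have e4 : p 2 ^ 4 = p 0 * gg p := by
          rw [hh] at hh0; rw [gg]
          linear_combination hh0 - (p 0 ^ 3 * p 2 + p 0 * p 1 ^ 3) * h2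
        calc p 2 ^ 60 = (p 2 ^ 4) ^ 15 := by ring
          _ = p 0 ^ 15 * gg p ^ 15 := by rw [e4]; ring
      rw [e]
      refine Ideal.mul_mem_mul (Ideal.mem_span_singleton_self _) ?_
      exact gg_pow_mem p 15 e45 (by omega)
    calc 1 * Ideal.span {p 0} ^ i * Ideal.span {p 1} ^ a * Ideal.span {p 2} ^ (60 + k)
        = Ideal.span {p 2} ^ 60 * (Ideal.span {p 0} ^ i * Ideal.span {p 1} ^ a *
          Ideal.span {p 2} ^ k) := by ring
      _ ≤ Ideal.span {p 2} ^ 60 * (mI p ^ i * mI p ^ a * mI p ^ k) :=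
          Ideal.mul_mono_right (Ideal.mul_mono (Ideal.mul_mono (Ideal.pow_right_mono hx _)
            (Ideal.pow_right_mono hy _)) (Ideal.pow_right_mono hz _))
      _ = Ideal.span {p 2 ^ 60} * mI p ^ (i + a + k) := by
          rw [Ideal.span_singleton_pow, ← pow_add, ← pow_add]
      _ ≤ Ideal.span {p 0 ^ 15} * mI p ^ e45 * mI p ^ (i + a + k) := Ideal.mul_mono_left hz60
      _ = Ideal.span {p 0 ^ 15} * mI p ^ l := by
          rw [mul_assoc, ← pow_add, show e45 + (i + a + k) = l by omega]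
      _ ≤ K := le_sup_left

lemma span_mul_le {m J : Ideal C} {Q Q' u : C} (hu : IsUnit u) (s l n : ℕ)
    (hQ : Q - u * Q' ∈ m ^ s) (hs : s + l = n + 1)
    (hJ : Q ∈ J) : Ideal.span {Q'} * m ^ l ≤ J ⊔ m * m ^ n := by
  rw [Ideal.mul_le]
  intro a ha b hb
  obtain ⟨c, rfl⟩ := Ideal.mem_span_singleton'.1 ha
  obtain ⟨v, rfl⟩ := hu
  have e : c * Q' * b = (c * b * ↑v⁻¹) * Q + (- (c * ↑v⁻¹)) * ((Q - v * Q') * b) := by
    have hv : (↑v⁻¹ : C) * v = 1 := v.inv_mul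
    linear_combination (-(c * Q' * b)) * hv
  rw [e]
  refine Ideal.add_mem _ (Ideal.mem_sup_left (J.mul_mem_left _ hJ)) (Ideal.mem_sup_right ?_)
  refine Ideal.mul_mem_left _ _ ?_
  rw [← pow_succ', ← hs, pow_add]
  exact Ideal.mul_mem_mul hQ hb

end Ideals

lemma nakayama_aux {C : Type} [CommRing C] (m J : Ideal C) (hfg : m.FG) (D : ℕ)
    (hle : m ^ D ≤ J ⊔ m * m ^ D) : ∃ δ : C, δ - 1 ∈ m ∧ ∀ c ∈ m ^ D, δ * c ∈ J := by
  let f : C →ₗ[C] C ⧸ J := Submodule.mkQ J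
  let N : Submodule C (C ⧸ J) := Submodule.map f (m ^ D)
  have hN : N.FG := Submodule.FG.map _ (hfg.pow (n := D))
  have hin : N ≤ m • N := by
    have : Submodule.map f (J ⊔ m • (m ^ D)) = m • N := by
      rw [Submodule.map_sup, Submodule.map_smul'']
      have : Submodule.map f J = ⊥ := by
        rw [eq_bot_iff, Submodule.map_le_iff_le_comap]
        intro x hx
        rw [Submodule.mem_comap, Submodule.mem_bot]
        exact (Submodule.Quotient.mk_eq_zero J).2 hx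
      rw [this, bot_sup_eq]
    rw [← this]
    exact Submodule.map_mono hle
  obtain ⟨r, hr, hrN⟩ := Submodule.exists_sub_one_mem_and_smul_eq_zero_of_fg_of_le_smul m N hN hin
  refine ⟨r, hr, fun c hc => ?_⟩
  have := hrN (f c) (Submodule.mem_map_of_mem hc)
  rw [← map_smul] at this
  exact (Submodule.Quotient.mk_eq_zero J).1 this

lemma hle_aux {C : Type} [CommRing C] (p q q' : Fin 3 → C) (υ υ' : C)
    (h2 : (2 : C) = 0) (hh0 : hh p = 0) (hυ : IsUnit υ) (hυ' : IsUnit υ')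
    (hq : ∀ i, q i + υ * p i ∈ mI p ^ 2) (hq' : ∀ i, q' i + υ' * p i ∈ mI p ^ 2) :
    ∃ D : ℕ, mI p ^ D ≤ Ideal.span {Q1 q q', Q3 q q'} ⊔ mI p * mI p ^ D := by
  obtain ⟨n, hn⟩ : ∃ n : ℕ, n = 97 := ⟨_, rfl⟩
  obtain ⟨l, hl⟩ : ∃ l : ℕ, l = 82 := ⟨_, rfl⟩
  have hP : ∀ i, Cg (mI p) 1 (q i) (υ * p i) := fun i => by
    refine ⟨?_, ?_⟩
    · rw [pow_one]; exact Ideal.mul_mem_left _ _ (mem_mI p i)
    · have e : q i - υ * p i = q i + υ * p i := by linear_combination (-(υ * p i)) * h2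
      rw [e]; exact hq i
  have hP' : ∀ i, Cg (mI p) 1 (q' i) (υ' * p i) := fun i => by
    refine ⟨?_, ?_⟩
    · rw [pow_one]; exact Ideal.mul_mem_left _ _ (mem_mI p i)
    · have e : q' i - υ' * p i = q' i + υ' * p i := by linear_combination (-(υ' * p i)) * h2
      rw [e]; exact hq' i
  have c1 := cg_Q1 (P := fun i => υ * p i) (P' := fun i => υ' * p i) hP hP'
  have c3 := cg_Q3 (P := fun i => υ * p i) (P' := fun i => υ' * p i) hP hP'
  rw [Q1_par p υ υ' h2] at c1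
  rw [Q3_par p υ υ' h2] at c3
  have hu : IsUnit (υ ^ 8 * υ' ^ 7) := (hυ.pow 8).mul (hυ'.pow 7)
  have s3 := span_mul_le (J := Ideal.span {Q1 q q', Q3 q q'}) hu _ l n c3.2 (by omega)
    (Ideal.subset_span (by simp))
  have s1 := span_mul_le (J := Ideal.span {Q1 q q', Q3 q q'}) hu _ l n c1.2 (by omega)
    (Ideal.subset_span (by simp))
  exact ⟨n, (pow97_le p h2 hh0 n hn l hl).trans (sup_le s3 s1)⟩

theorem t_N : S_N := by
  intro C _ p q q' υ υ' h2 hh0 hυ hυ' hq hq'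
  have hfg : (mI p).FG := ⟨(Set.finite_range p).toFinset, by rw [Set.Finite.coe_toFinset]; rfl⟩
  obtain ⟨D, hD⟩ := hle_aux p q q' υ υ' h2 hh0 hυ hυ' hq hq'
  obtain ⟨δ, h1, h3⟩ := nakayama_aux (mI p) (Ideal.span {Q1 q q', Q3 q q'}) hfg D hD
  exact ⟨D, δ, h1, h3⟩

end Pool.Agent.H919.FP.TN
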