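import Pool.Agent.H919.FP.Geo

set_option autoImplicit false

open CategoryTheory Limits AlgebraicGeometry

namespace Pool.Agent.H919.FP.TO

open Pool.Agent.H919.FP MvPolynomial

/-! ## The ring part: Jacobian criterion -/

/-- the quartic as a polynomial in three variables -/
noncomputable def H3 : MvPolynomial (Fin 3) (ZMod 2) := X 2 ^ 4 + X 0 ^ 3 * X 2 + X 0 * X 1 ^ 3

/-- the relation -/
noncomputable def rel3 : Unit → MvPolynomial (Fin 3) (ZMod 2) := fun _ => H3

/-- `𝔽₂[x,y,z]/(h)` -/
abbrev Q3 : Type := MvPolynomial (Fin 3) (ZMod 2) ⧸ Ideal.span (Set.range rel3)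

lemma hh_eq : aeval pB H3 = hh pB := by
  simp [H3, hh]

/-- the map to `B` -/
noncomputable def toB (hB : hh pB = 0) : Q3 →ₐ[ZMod 2] B :=
  Ideal.Quotient.liftₐ _ (aeval pB) (by
    intro a ha
    have : Ideal.span (Set.range rel3) ≤ RingHom.ker (aeval pB : _ →ₐ[ZMod 2] B) := by
      rw [Ideal.span_le]
      rintro _ ⟨_, rfl⟩
      show aeval pB H3 = 0
      rw [hh_eq, hB]
    exact this ha)

lemma toB_mk (hB : hh pB = 0) (p : MvPolynomial (Fin 3) (ZMod 2)) :
    toB hB (Ideal.Quotient.mk _ p) = aeval pB p := rfl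

theorem exists_equiv (hB1 : S_B1) : ∃ e : Q3 ≃ₐ[ZMod 2] B,
    ∀ p, e (Ideal.Quotient.mk _ p) = aeval pB p := by
  obtain ⟨h1, h2, -, h3, h4, -, -⟩ := hB1
  obtain ⟨φ, hφ⟩ := h3 Q3 (fun i => Ideal.Quotient.mk _ (X i)) (by
    have : (2 : ZMod 2) = 0 := rfl
    have h : algebraMap (ZMod 2) Q3 2 = 0 := by rw [this, map_zero]
    exact (map_ofNat (algebraMap (ZMod 2) Q3) 2).symm.trans h) (by
    have e : hh (fun i => (Ideal.Quotient.mk (Ideal.span (Set.range rel3)) (X i))) =
        Ideal.Quotient.mk _ H3 := by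
      simp [hh, H3]
    rw [e, Ideal.Quotient.eq_zero_iff_mem]
    exact Ideal.subset_span ⟨(), rfl⟩)
  have e1 : (toB h1 : Q3 →+* B).comp φ = RingHom.id B := by
    apply h4
    intro i
    simp only [RingHom.comp_apply, RingHom.id_apply, hφ]
    show toB h1 (Ideal.Quotient.mk _ (X i)) = pB i
    rw [toB_mk, aeval_X]
  have e2 : φ.comp (toB h1 : Q3 →+* B) = RingHom.id Q3 := by
    apply Ideal.Quotient.ringHom_ext
    apply MvPolynomial.ringHom_ext
    · intro r
      have : ∀ f g : ZMod 2 →+* Q3, f = g := fun f g => Subsingleton.elim f g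
      exact RingHom.congr_fun (this
        (((φ.comp (toB h1 : Q3 →+* B)).comp (Ideal.Quotient.mk _)).comp C)
        (((RingHom.id Q3).comp (Ideal.Quotient.mk _)).comp C)) r
    · intro i
      show φ (toB h1 (Ideal.Quotient.mk _ (X i))) = Ideal.Quotient.mk _ (X i)
      rw [toB_mk, aeval_X, hφ]
  refine ⟨AlgEquiv.ofBijective (toB h1) ⟨?_, ?_⟩, fun p => rfl⟩
  · exact Function.LeftInverse.injective (g := φ) (fun x => RingHom.congr_fun e2 x)
  · exact Function.RightInverse.surjective (g := φ) (fun x => RingHom.congr_fun e1 x)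

open Algebra in
theorem stdSmooth (hB1 : S_B1) (i : Fin 3) (f : B) (hf : f = aeval pB (pderiv i H3))
    (A : Type) [CommRing A] [Algebra B A] [IsLocalization.Away f A] [Algebra (ZMod 2) A]
    [IsScalarTower (ZMod 2) B A] : Algebra.Smooth (ZMod 2) A := by
  obtain ⟨e, he⟩ := exists_equiv hB1
  let P0 : PreSubmersivePresentation (ZMod 2) Q3 (Fin 3) Unit :=
    PreSubmersivePresentation.naive (v := rel3) (fun _ => i) (fun _ _ _ => rfl)
  let P1 : PreSubmersivePresentation (ZMod 2) B (Fin 3) Unit := P0.ofAlgEquiv e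
  have j0 : P0.jacobian = Ideal.Quotient.mk _ (pderiv i H3) := by
    have e0 : P0.jacobiMatrix.det = pderiv i H3 := by
      have e1 := Matrix.det_unique (n := Unit) P0.jacobiMatrix
      rw [e1]
      exact PreSubmersivePresentation.jacobiMatrix_apply P0 _ _
    rw [PreSubmersivePresentation.jacobian_eq_jacobiMatrix_det, e0]
    rfl
  have j1 : P1.jacobian = f := by
    rw [PreSubmersivePresentation.jacobian_ofAlgEquiv, j0, he, hf]
  let P2 := (PreSubmersivePresentation.localizationAway A f).comp P1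
  have j2 : IsUnit P2.jacobian := by
    have hu : IsUnit (algebraMap B A f) := IsLocalization.Away.algebraMap_isUnit f
    rw [PreSubmersivePresentation.comp_jacobian_eq_jacobian_smul_jacobian, j1,
      PreSubmersivePresentation.localizationAway_jacobian, Algebra.smul_def]
    exact hu.mul hu
  have : Algebra.IsStandardSmooth (ZMod 2) A :=
    SubmersivePresentation.isStandardSmooth (P := { P2 with jacobian_isUnit := j2 })
  infer_instance

lemma pd2 (h2 : (2 : B) = 0) : aeval pB (pderiv 2 H3) = pB 0 ^ 3 := by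
  have h4 : (4 : B) = 0 := by
    have : (4 : B) = 2 * 2 := by norm_num
    rw [this, h2, mul_zero]
  simp [H3, pderiv_X, h4]

lemma pd0 (h2 : (2 : B) = 0) : aeval pB (pderiv 0 H3) = gg pB := by
  have h3 : (3 : B) = 1 := by
    have : (3 : B) = 2 + 1 := by norm_num
    rw [this, h2, zero_add]
  simp [H3, pderiv_X, h3, gg]
  ring

end Pool.Agent.H919.FP.TO
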