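import Pool.Agent.H919.FP.Sch

set_option autoImplicit false

open CategoryTheory Limits AlgebraicGeometry

namespace Pool.Agent.H919.FP.TStab

theorem t_Stab : Pool.Agent.H919.FP.S_Stab := by
  intro S R W ρ U _ _ _ j _ hcov K _ y
  by_cases hy : ∀ p, y p ∈ U
  · have hr : Set.range y ⊆ Set.range U.ι := by
      rintro _ ⟨p, rfl⟩
      rw [Scheme.Opens.range_ι]
      exact hy p
    set y' := IsOpenImmersion.lift U.ι y hr with hy'
    have hfac : y' ≫ U.ι = y := IsOpenImmersion.lift_fac _ _ _
    have sq2 : IsPullback (𝟙 (Spec (CommRingCat.of K))) (y' ≫ inv (ρ ∣_ U)) y' (ρ ∣_ U) :=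
      IsPullback.of_horiz_isIso ⟨by simp⟩
    have sq := sq2.paste_vert (isPullback_morphismRestrict ρ U)
    rw [hfac] at sq
    exact IsAffine.of_isIso sq.isoPullback.inv
  · push Not at hy
    obtain ⟨p, hp⟩ := hy
    have hp' : ∀ q, y q ∉ U := by
      intro q
      rwa [Subsingleton.elim q p]
    have hsurj : Function.Surjective (pullback.fst (pullback.snd y ρ) j) := by
      intro z
      have h1 : z ∈ Set.range (pullback.fst (pullback.snd y ρ) j) := by
        rw [Scheme.Pullback.range_fst]
        have h2 : ρ (pullback.snd y ρ z) = y (pullback.fst y ρ z) := by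
          rw [← Scheme.Hom.comp_apply, ← Scheme.Hom.comp_apply, pullback.condition]
        rcases hcov (pullback.snd y ρ z) with h | h
        · rw [h2] at h
          exact absurd h (hp' _)
        · exact h
      exact h1
    have hiso : IsIso (pullback.fst (pullback.snd y ρ) j) :=
      isIso_of_isOpenImmersion_of_opensRange_eq_top _
        (TopologicalSpace.Opens.ext (Set.range_eq_univ.2 hsurj))
    have h3 : IsAffine (pullback (pullback.snd y ρ) j) :=
      IsAffine.of_isIso (pullbackLeftPullbackSndIso y ρ j).hom
    exact IsAffine.of_isIso (inv (pullback.fst (pullback.snd y ρ) j))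

end Pool.Agent.H919.FP.TStab
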