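import Pool.Agent.H919.FP.Main
import Pool.Agent.H919.FP.TG1
import Pool.Agent.H919.FP.TG2
import Pool.Agent.H919.FP.TL1
import Pool.Agent.H919.FP.TL2
import Pool.Agent.H919.FP.TGpd
import Pool.Agent.H919.FP.TFib
import Pool.Agent.H919.FP.TStab
import Pool.Agent.H919.FP.TB1
import Pool.Agent.H919.FP.TB2
import Pool.Agent.H919.FP.TH
import Pool.Agent.H919.FP.TSm
import Pool.Agent.H919.FP.TN
import Pool.Agent.H919.FP.TO

open CategoryTheory Limits AlgebraicGeometry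

namespace Pool.Agent.H919.FP

theorem final_W2_EX (hW2 : S_B1 → S_W2) (hEX : S_B1 → S_B2 → S_H → S_N → S_EX) : Final :=
  final_of TG1.t_G1 (t_G2 TG1.t_G1) TL2.t_L2 (TGpd.t_Gpd TL1.t_L1) TFib.t_Fib TStab.t_Stab
    TB1.t_B1 (TB2.t_B2 TB1.t_B1) TN.t_N (TSm.t_Sm TB1.t_B1)
    (TO.t_O TB1.t_B1 (TB2.t_B2 TB1.t_B1)) (hW2 TB1.t_B1)
    (hEX TB1.t_B1 (TB2.t_B2 TB1.t_B1) TH.t_H TN.t_N)

end Pool.Agent.H919.FP
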